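import Mathlib

/-!
# Abstract shift spaces with exponent `r`
-/

set_option autoImplicit false

open Filter
open scoped Topology

namespace Pool.Agent.V7H86.HD

/-- A Banach space with an invertible isometry `τ` (left shift), its inverse `σ` (right shift) and
the projection `P` to the positive part, like `L^r` of the line. -/
structure SS (F : Type*) [NormedAddCommGroup F] [NormedSpace ℂ F] (r : ℝ) where
  τ : F →L[ℂ] F
  σ : F →L[ℂ] F
  P : F →L[ℂ] F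
  τσ : ∀ f, τ (σ f) = f
  στ : ∀ f, σ (τ f) = f
  iso : ∀ f, ‖τ f‖ = ‖f‖
  PP : ∀ f, P (P f) = P f
  PτP : ∀ f, P (τ (P f)) = P (τ f)
  PσP : ∀ f, P (σ (P f)) = σ (P f)
  norm_rpow : ∀ f, ‖f‖ ^ r = ‖P f‖ ^ r + ‖f - P f‖ ^ r

/-- the tails tend to zero -/
structure SS.Tails {F : Type*} [NormedAddCommGroup F] [NormedSpace ℂ F] {r : ℝ} (A : SS F r) :
    Prop where
  right : ∀ f, Tendsto (fun n : ℕ => A.P ((A.τ ^ n) f)) atTop (𝓝 0)
  left : ∀ f, Tendsto (fun n : ℕ => (A.σ ^ n) f - A.P ((A.σ ^ n) f)) atTop (𝓝 0)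

section

variable {F : Type*} [NormedAddCommGroup F] [NormedSpace ℂ F] {r : ℝ} (A : SS F r)

namespace SS

theorem isoσ (f : F) : ‖A.σ f‖ = ‖f‖ := by
  rw [← A.iso (A.σ f), A.τσ]

theorem isopow (n : ℕ) (f : F) : ‖(A.τ ^ n) f‖ = ‖f‖ := by
  induction n generalizing f with
  | zero => simp
  | succ n ih => rw [pow_succ, ContinuousLinearMap.mul_apply, ih, A.iso]

theorem isoσpow (n : ℕ) (f : F) : ‖(A.σ ^ n) f‖ = ‖f‖ := by
  induction n generalizing f with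
  | zero => simp
  | succ n ih => rw [pow_succ, ContinuousLinearMap.mul_apply, ih, A.isoσ]

theorem τσ_mul : A.τ * A.σ = 1 := by
  ext f
  exact A.τσ f

theorem στ_mul : A.σ * A.τ = 1 := by
  ext f
  exact A.στ f

theorem comm : Commute A.τ A.σ := by
  show A.τ * A.σ = A.σ * A.τ
  rw [A.τσ_mul, A.στ_mul]

theorem τσ_pow_mul (n : ℕ) : A.τ ^ n * A.σ ^ n = 1 := by
  rw [← A.comm.mul_pow, A.τσ_mul, one_pow]

theorem στ_pow_mul (n : ℕ) : A.σ ^ n * A.τ ^ n = 1 := by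
  rw [← A.comm.symm.mul_pow, A.στ_mul, one_pow]

theorem τσ_pow (n : ℕ) (f : F) : (A.τ ^ n) ((A.σ ^ n) f) = f := by
  have := congrArg (fun B : F →L[ℂ] F => B f) (A.τσ_pow_mul n)
  simpa using this

theorem στ_pow (n : ℕ) (f : F) : (A.σ ^ n) ((A.τ ^ n) f) = f := by
  have := congrArg (fun B : F →L[ℂ] F => B f) (A.στ_pow_mul n)
  simpa using this

theorem PτP_pow (n : ℕ) (f : F) : A.P ((A.τ ^ n) (A.P f)) = A.P ((A.τ ^ n) f) := by
  induction n generalizing f with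
  | zero => simp [A.PP]
  | succ n ih =>
    rw [pow_succ, ContinuousLinearMap.mul_apply, ContinuousLinearMap.mul_apply,
      ← ih (A.τ (A.P f)), A.PτP, ih]

theorem PσP_pow (n : ℕ) (f : F) : A.P ((A.σ ^ n) (A.P f)) = (A.σ ^ n) (A.P f) := by
  induction n generalizing f with
  | zero => simp [A.PP]
  | succ n ih =>
    rw [pow_succ, ContinuousLinearMap.mul_apply, ← A.PσP, ih]

/-- the shift space with `τ ^ K` -/
def pow (K : ℕ) : SS F r where
  τ := A.τ ^ K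
  σ := A.σ ^ K
  P := A.P
  τσ := A.τσ_pow K
  στ := A.στ_pow K
  iso := A.isopow K
  PP := A.PP
  PτP := A.PτP_pow K
  PσP := A.PσP_pow K
  norm_rpow := A.norm_rpow

theorem norm_P_le (hr : 0 < r) (f : F) : ‖A.P f‖ ≤ ‖f‖ := by
  have h := A.norm_rpow f
  have h1 : ‖A.P f‖ ^ r ≤ ‖f‖ ^ r := by
    rw [h]
    exact le_add_of_nonneg_right (Real.rpow_nonneg (norm_nonneg _) _)
  exact (Real.rpow_le_rpow_iff (norm_nonneg _) (norm_nonneg _) hr).1 h1

theorem norm_sub_P_le (hr : 0 < r) (f : F) : ‖f - A.P f‖ ≤ ‖f‖ := by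
  have h := A.norm_rpow f
  have h1 : ‖f - A.P f‖ ^ r ≤ ‖f‖ ^ r := by
    rw [h]
    exact le_add_of_nonneg_left (Real.rpow_nonneg (norm_nonneg _) _)
  exact (Real.rpow_le_rpow_iff (norm_nonneg _) (norm_nonneg _) hr).1 h1

/-- `c` lives in one cell `[0, 1)` -/
def Cell (c : F) : Prop := A.P c = c ∧ A.P (A.τ c) = 0

theorem Cell.pow_zero {A : SS F r} {c : F} (hc : A.Cell c) (n : ℕ) :
    A.P ((A.τ ^ (n + 1)) c) = 0 := by
  rw [_root_.pow_succ, ContinuousLinearMap.mul_apply, ← A.PτP_pow, hc.2, map_zero, map_zero]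

theorem sum_right {c : F} (hr : 0 < r) (hc : A.Cell c) (a : ℕ → ℂ) (n : ℕ) :
    ‖∑ j ∈ Finset.range n, a j • (A.σ ^ j) c‖ ^ r = (∑ j ∈ Finset.range n, ‖a j‖ ^ r) * ‖c‖ ^ r := by
  induction n with
  | zero => simp [Real.zero_rpow hr.ne']
  | succ n ih =>
    rw [Finset.sum_range_succ, Finset.sum_range_succ, add_mul, ← ih]
    rw [← A.isopow n (∑ j ∈ Finset.range n, a j • (A.σ ^ j) c + a n • (A.σ ^ n) c), map_add, map_smul,
      A.τσ_pow]
    have h0 : A.P ((A.τ ^ n) (∑ j ∈ Finset.range n, a j • (A.σ ^ j) c)) = 0 := by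
      rw [map_sum, map_sum]
      refine Finset.sum_eq_zero fun j hj => ?_
      rw [map_smul, map_smul]
      obtain ⟨m, hm⟩ := Nat.exists_eq_add_of_lt (Finset.mem_range.1 hj)
      have : (A.τ ^ n) ((A.σ ^ j) c) = (A.τ ^ (m + 1)) c := by
        rw [hm, show j + m + 1 = (m + 1) + j by ring, pow_add, ContinuousLinearMap.mul_apply,
          A.τσ_pow]
      rw [this, hc.pow_zero, smul_zero]
    rw [A.norm_rpow]
    have h1 : A.P ((A.τ ^ n) (∑ j ∈ Finset.range n, a j • (A.σ ^ j) c) + a n • c) = a n • c := by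
      rw [map_add, h0, zero_add, map_smul, hc.1]
    rw [h1, add_sub_cancel_right, A.isopow, norm_smul,
      Real.mul_rpow (norm_nonneg _) (norm_nonneg _), add_comm]

theorem sum_left {c : F} (hr : 0 < r) (hc : A.Cell c) (a : ℕ → ℂ) (n : ℕ) :
    ‖∑ j ∈ Finset.range n, a j • (A.τ ^ j) c‖ ^ r = (∑ j ∈ Finset.range n, ‖a j‖ ^ r) * ‖c‖ ^ r := by
  have h := A.sum_right hr hc (fun j => a (n - 1 - j)) n
  rw [Finset.sum_range_reflect (fun j => ‖a j‖ ^ r) n] at h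
  rw [← h, ← A.isopow (n - 1) (∑ j ∈ Finset.range n, a (n - 1 - j) • (A.σ ^ j) c), map_sum]
  congr 2
  rw [← Finset.sum_range_reflect (fun j => a j • (A.τ ^ j) c) n]
  refine Finset.sum_congr rfl fun j hj => ?_
  rw [map_smul]
  congr 1
  have hj' : j < n := Finset.mem_range.1 hj
  have : n - 1 = (n - 1 - j) + j := by omega
  conv_rhs => rw [this, pow_add, ContinuousLinearMap.mul_apply, A.τσ_pow]

/-- approximation by one-cell vectors -/
theorem exists_cell (hT : A.Tails) (f : F) {δ : ℝ} (hδ : 0 < δ) :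
    ∃ (L N : ℕ) (c : F), (∀ K, N ≤ K → (A.pow K).Cell c) ∧ ‖f - (A.τ ^ L) c‖ ≤ δ := by
  have h1 := hT.left f
  rw [Metric.tendsto_atTop] at h1
  obtain ⟨L, hL⟩ := h1 (δ / 2) (by positivity)
  have hL := hL L le_rfl
  rw [dist_zero_right] at hL
  set g := A.P ((A.σ ^ L) f) with hg
  have h2 := hT.right g
  rw [Metric.tendsto_atTop] at h2
  obtain ⟨N, hN⟩ := h2 (δ / 2) (by positivity)
  have hN := hN N le_rfl
  rw [dist_zero_right] at hN
  have hPg : A.P g = g := by rw [hg, A.PP]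
  refine ⟨L, N, g - (A.σ ^ N) (A.P ((A.τ ^ N) g)), fun K hK => ⟨?_, ?_⟩, ?_⟩
  · show A.P (g - (A.σ ^ N) (A.P ((A.τ ^ N) g))) = _
    rw [map_sub, hPg, A.PσP_pow]
  · show A.P ((A.τ ^ K) (g - (A.σ ^ N) (A.P ((A.τ ^ N) g)))) = 0
    obtain ⟨m, rfl⟩ := Nat.exists_eq_add_of_le hK
    rw [add_comm N m, pow_add, ContinuousLinearMap.mul_apply, ← A.PτP_pow]
    have : A.P ((A.τ ^ N) (g - (A.σ ^ N) (A.P ((A.τ ^ N) g)))) = 0 := by
      rw [map_sub, map_sub, A.τσ_pow, A.PP, sub_self]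
    rw [this, map_zero, map_zero]
  · have e : f - (A.τ ^ L) (g - (A.σ ^ N) (A.P ((A.τ ^ N) g))) =
        (A.τ ^ L) ((A.σ ^ L) f - g) + (A.τ ^ L) ((A.σ ^ N) (A.P ((A.τ ^ N) g))) := by
      rw [map_sub, map_sub, A.τσ_pow]
      abel
    rw [e]
    refine (norm_add_le _ _).trans ?_
    rw [A.isopow, A.isopow, A.isoσpow]
    linarith

/-- asymptotic additivity -/
theorem add_far (hr : 0 < r) (hT : A.Tails) (f g : F) {ε : ℝ} (hε : 0 < ε) :
    ∀ᶠ K : ℕ in atTop, ‖f + (A.σ ^ K) g‖ ^ r ≤ ‖f‖ ^ r + ‖g‖ ^ r + ε := by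
  have hcont : Tendsto (fun δ : ℝ => (δ + ‖g‖) ^ r + (‖f‖ + δ) ^ r) (𝓝 0)
      (𝓝 (‖g‖ ^ r + ‖f‖ ^ r)) := by
    have h : Continuous fun δ : ℝ => (δ + ‖g‖) ^ r + (‖f‖ + δ) ^ r :=
      ((continuous_id.add continuous_const).rpow_const fun _ => Or.inr hr.le).add
        ((continuous_const.add continuous_id).rpow_const fun _ => Or.inr hr.le)
    simpa using h.tendsto 0
  have hev : ∀ᶠ δ : ℝ in 𝓝[>] 0, (δ + ‖g‖) ^ r + (‖f‖ + δ) ^ r < ‖g‖ ^ r + ‖f‖ ^ r + ε :=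
    (hcont.mono_left nhdsWithin_le_nhds).eventually (gt_mem_nhds (by linarith))
  obtain ⟨δ, hδ, hδ0⟩ := (hev.and self_mem_nhdsWithin).exists
  have hδ0 : 0 < δ := hδ0
  have h1 := hT.right f
  have h2 := hT.left g
  rw [Metric.tendsto_atTop] at h1 h2
  obtain ⟨K1, hK1⟩ := h1 δ hδ0
  obtain ⟨K2, hK2⟩ := h2 δ hδ0
  have hK1 := hK1 K1 le_rfl
  rw [dist_zero_right] at hK1
  filter_upwards [eventually_ge_atTop (K1 + K2)] with K hK
  obtain ⟨m, rfl⟩ := Nat.exists_eq_add_of_le hK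
  have hK2 := hK2 (K2 + m) (by omega)
  rw [dist_zero_right] at hK2
  have e : (A.τ ^ K1) (f + (A.σ ^ (K1 + K2 + m)) g) = (A.τ ^ K1) f + (A.σ ^ (K2 + m)) g := by
    rw [map_add, add_assoc, pow_add, ContinuousLinearMap.mul_apply, A.τσ_pow]
  rw [← A.isopow K1, e, A.norm_rpow]
  set f1 := (A.τ ^ K1) f
  set g1 := (A.σ ^ (K2 + m)) g
  have hf1 : ‖f1‖ = ‖f‖ := A.isopow _ _
  have hg1 : ‖g1‖ = ‖g‖ := A.isoσpow _ _
  have i1 : ‖A.P (f1 + g1)‖ ≤ δ + ‖g‖ := by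
    rw [map_add]
    exact (norm_add_le _ _).trans (add_le_add hK1.le ((A.norm_P_le hr _).trans hg1.le))
  have i2 : ‖f1 + g1 - A.P (f1 + g1)‖ ≤ ‖f‖ + δ := by
    have : f1 + g1 - A.P (f1 + g1) = (f1 - A.P f1) + (g1 - A.P g1) := by
      rw [map_add]
      abel
    rw [this]
    exact (norm_add_le _ _).trans (add_le_add ((A.norm_sub_P_le hr _).trans hf1.le) hK2.le)
  have j1 := Real.rpow_le_rpow (norm_nonneg _) i1 hr.le
  have j2 := Real.rpow_le_rpow (norm_nonneg _) i2 hr.le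
  linarith

theorem add_far' (hr : 0 < r) (hT : A.Tails) (f g : F) {ε : ℝ} (hε : 0 < ε) :
    ∀ᶠ K : ℕ in atTop, ‖f + (A.τ ^ K) g‖ ^ r ≤ ‖f‖ ^ r + ‖g‖ ^ r + ε := by
  filter_upwards [A.add_far hr hT g f hε] with K hK
  have e : (A.σ ^ K) (f + (A.τ ^ K) g) = g + (A.σ ^ K) f := by
    rw [map_add, A.στ_pow, add_comm]
  rw [← A.isoσpow K, e]
  linarith

end SS

end

end Pool.Agent.V7H86.HD
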