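import Mathlib

/-!
# The shift on `ℓ²(ℕ)` and the Blaschke factor
-/

set_option autoImplicit false
set_option linter.deprecated false

open Filter
open scoped Topology ENNReal

namespace Pool.Agent.V7H86.HD

/-- `ℓ²(ℕ)` -/
noncomputable abbrev L2 := lp (fun _ : ℕ => ℂ) 2

theorem two_toReal : (2 : ℝ≥0∞).toReal = 2 := by simp

theorem L2.norm_sq (f : L2) : ‖f‖ ^ 2 = ∑' i, ‖f i‖ ^ 2 := by
  have h := lp.norm_rpow_eq_tsum (p := 2) (by simp) f
  simpa using h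

theorem L2.summable (f : L2) : Summable fun i => ‖f i‖ ^ 2 := by
  have h := (lp.memℓp f).summable (by simp)
  simpa using h

/-- the shifted sequence -/
def shf (f : ℕ → ℂ) (n : ℕ) : ℂ := if n = 0 then 0 else f (n - 1)

theorem shf_zero (f : ℕ → ℂ) : shf f 0 = 0 := if_pos rfl

theorem shf_succ (f : ℕ → ℂ) (n : ℕ) : shf f (n + 1) = f n := by simp [shf]

theorem shf_mem (f : L2) : Memℓp (E := fun _ : ℕ => ℂ) (shf f) 2 := by
  have h := L2.summable f
  have h2 : Summable fun n : ℕ => ‖shf f (n + 1)‖ ^ 2 := by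
    simpa only [shf_succ] using h
  have h3 : Summable fun n : ℕ => ‖shf f n‖ ^ 2 :=
    (summable_nat_add_iff (f := fun n : ℕ => ‖shf f n‖ ^ 2) 1).1 h2
  rw [memℓp_gen_iff (by simp)]
  simpa using h3

/-- the shift -/
noncomputable def sh : L2 →ₗᵢ[ℂ] L2 where
  toFun f := ⟨shf f, shf_mem f⟩
  map_add' f g := by
    apply lp.ext
    funext n
    show shf (⇑(f + g)) n = shf (⇑f) n + shf (⇑g) n
    rcases n with _ | n
    · rw [shf_zero, shf_zero, shf_zero, add_zero]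
    · rw [shf_succ, shf_succ, shf_succ]
      rfl
  map_smul' c f := by
    apply lp.ext
    funext n
    show shf (⇑(c • f)) n = c • shf (⇑f) n
    rcases n with _ | n
    · simp [shf_zero]
    · simp [shf_succ, lp.coeFn_smul]
  norm_map' f := by
    have h1 : ‖(⟨shf f, shf_mem f⟩ : L2)‖ ^ 2 = ‖f‖ ^ 2 := by
      rw [L2.norm_sq, L2.norm_sq, (L2.summable _).tsum_eq_zero_add]
      show ‖shf f 0‖ ^ 2 + ∑' n, ‖shf f (n + 1)‖ ^ 2 = _
      simp only [shf_zero, shf_succ, norm_zero]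
      simp
    exact (sq_eq_sq₀ (norm_nonneg _) (norm_nonneg _)).1 h1

theorem sh_apply (f : L2) (n : ℕ) : sh f n = shf f n := rfl

theorem sh_apply_zero (f : L2) : sh f 0 = 0 := by rw [sh_apply, shf_zero]

theorem sh_apply_succ (f : L2) (n : ℕ) : sh f (n + 1) = f n := by rw [sh_apply, shf_succ]

/-- `Re ⟪S g, g⟫` identity: `‖S g - c g‖ = ‖g - c S g‖`, `c` real -/
theorem blaschke_norm (g : L2) (c : ℝ) :
    ‖sh g - (c : ℂ) • g‖ = ‖g - (c : ℂ) • sh g‖ := by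
  have h1 := norm_sub_sq (𝕜 := ℂ) (sh g) ((c : ℂ) • g)
  have h2 := norm_sub_sq (𝕜 := ℂ) g ((c : ℂ) • sh g)
  rw [inner_smul_right, norm_smul] at h1 h2
  have h3 : RCLike.re (inner ℂ (sh g) g) = RCLike.re (inner ℂ g (sh g)) := by
    rw [← inner_conj_symm, RCLike.conj_re]
  have h4 : RCLike.re ((c : ℂ) * inner ℂ (sh g) g) = RCLike.re ((c : ℂ) * inner ℂ g (sh g)) := by
    simp only [RCLike.re_to_complex, Complex.re_ofReal_mul]
    have : (inner ℂ (sh g) g : ℂ).re = (inner ℂ g (sh g) : ℂ).re := h3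
    rw [this]
  rw [sh.norm_map] at h1 h2
  have : ‖sh g - (c : ℂ) • g‖ ^ 2 = ‖g - (c : ℂ) • sh g‖ ^ 2 := by
    rw [h1, h2, h4]
  exact (sq_eq_sq₀ (norm_nonneg _) (norm_nonneg _)).1 this

section inv

variable {F : Type*} [NormedAddCommGroup F] [NormedSpace ℂ F] [CompleteSpace F]

/-- `(1 - A)⁻¹` -/
noncomputable def inv1 (A : F →L[ℂ] F) : F →L[ℂ] F := Ring.inverse (1 - A)

theorem inv1_mul {A : F →L[ℂ] F} (hA : ‖A‖ < 1) : inv1 A * (1 - A) = 1 :=
  Ring.inverse_mul_cancel _ (isUnit_one_sub_of_norm_lt_one hA)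

theorem mul_inv1 {A : F →L[ℂ] F} (hA : ‖A‖ < 1) : (1 - A) * inv1 A = 1 :=
  Ring.mul_inverse_cancel _ (isUnit_one_sub_of_norm_lt_one hA)

theorem inv1_apply {A : F →L[ℂ] F} (hA : ‖A‖ < 1) (f : F) : inv1 A (f - A f) = f := by
  have := congrArg (fun B : F →L[ℂ] F => B f) (inv1_mul hA)
  simpa using this

theorem inv1_apply' {A : F →L[ℂ] F} (hA : ‖A‖ < 1) (f : F) : inv1 A f - A (inv1 A f) = f := by
  have := congrArg (fun B : F →L[ℂ] F => B f) (mul_inv1 hA)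
  simpa using this

theorem norm_inv1_le {A : F →L[ℂ] F} {a : ℝ} (ha0 : 0 ≤ a) (hA : ‖A‖ ≤ a) (ha : a < 1) (f : F) :
    ‖inv1 A f‖ ≤ (1 - a)⁻¹ * ‖f‖ := by
  have h := inv1_apply' (lt_of_le_of_lt hA ha) f
  have h1 : ‖inv1 A f‖ ≤ ‖f‖ + a * ‖inv1 A f‖ := by
    calc ‖inv1 A f‖ = ‖f + A (inv1 A f)‖ := by
          congr 1
          exact (sub_eq_iff_eq_add.1 h)
      _ ≤ ‖f‖ + ‖A (inv1 A f)‖ := norm_add_le _ _
      _ ≤ ‖f‖ + a * ‖inv1 A f‖ := by
          gcongr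
          exact A.le_of_opNorm_le hA _
  have h2 : (1 - a) * ‖inv1 A f‖ ≤ ‖f‖ := by linarith
  rw [inv_mul_eq_div, le_div_iff₀ (by linarith)]
  linarith

theorem inv1_commute {A B : F →L[ℂ] F} (hA : ‖A‖ < 1) (h : Commute A B) : Commute (inv1 A) B := by
  have h1 : Commute (1 - A) B := (Commute.one_left B).sub_left h
  show inv1 A * B = B * inv1 A
  calc inv1 A * B = inv1 A * B * ((1 - A) * inv1 A) := by rw [mul_inv1 hA, mul_one]
    _ = inv1 A * (B * (1 - A)) * inv1 A := by simp only [mul_assoc]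
    _ = inv1 A * ((1 - A) * B) * inv1 A := by rw [h1.eq]
    _ = (inv1 A * (1 - A)) * B * inv1 A := by simp only [mul_assoc]
    _ = B * inv1 A := by rw [inv1_mul hA, one_mul]

end inv

/-- the operator `t (S - c) (1 - c S)⁻¹` -/
noncomputable def W (t c : ℝ) : L2 →L[ℂ] L2 :=
  (t : ℂ) • ((sh.toContinuousLinearMap - (c : ℂ) • 1) * inv1 ((c : ℂ) • sh.toContinuousLinearMap))

theorem norm_sh_le : ‖sh.toContinuousLinearMap‖ ≤ 1 := sh.norm_toContinuousLinearMap_le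

theorem norm_csh_lt {c : ℝ} (hc0 : 0 ≤ c) (hc : c < 1) :
    ‖(c : ℂ) • sh.toContinuousLinearMap‖ < 1 := by
  rw [norm_smul, Complex.norm_real, Real.norm_of_nonneg hc0]
  calc c * ‖sh.toContinuousLinearMap‖ ≤ c * 1 := by gcongr; exact norm_sh_le
    _ < 1 := by linarith

theorem norm_W {t c : ℝ} (ht : 0 ≤ t) (hc0 : 0 ≤ c) (hc : c < 1) (f : L2) :
    ‖W t c f‖ = t * ‖f‖ := by
  have h := inv1_apply' (norm_csh_lt hc0 hc) f
  set g := inv1 ((c : ℂ) • sh.toContinuousLinearMap) f with hg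
  have h1 : g - (c : ℂ) • sh g = f := h
  have h2 : W t c f = (t : ℂ) • (sh g - (c : ℂ) • g) := rfl
  rw [h2, norm_smul, blaschke_norm, h1, Complex.norm_real, Real.norm_of_nonneg ht]

theorem norm_W_pow {t c : ℝ} (ht : 0 ≤ t) (hc0 : 0 ≤ c) (hc : c < 1) (k : ℕ) (f : L2) :
    ‖(W t c ^ k) f‖ = t ^ k * ‖f‖ := by
  induction k generalizing f with
  | zero => simp
  | succ k ih =>
    rw [pow_succ, ContinuousLinearMap.mul_apply, ih, norm_W ht hc0 hc]
    ring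

/-- the first basis vector -/
noncomputable def e0 : L2 := lp.single 2 0 1

theorem norm_e0 : ‖e0‖ = 1 := by
  rw [e0, lp.norm_single (by norm_num)]
  simp

end Pool.Agent.V7H86.HD
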