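import Mathlib
import Pool.Agent.V7H86.HD.A1
import Pool.Agent.V7H86.HD.A2

/-!
# The closers: polynomials `b n` with small inverses
-/

set_option autoImplicit false
set_option linter.deprecated false
set_option linter.unusedSectionVars false
set_option linter.unusedVariables false

open Filter Polynomial
open scoped Topology ENNReal

namespace Pool.Agent.V7H86.HD

/-- the parameters: `x = 2 ^ (-1/p)`, `y = 2 ^ (-1/q)`, `t = √2 x`, `c = 1 / √2` -/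
structure Par where
  p : ℝ
  q : ℝ
  x : ℝ
  y : ℝ
  t : ℝ
  c : ℝ
  hp1 : 1 < p
  hp2 : p < 2
  hq : 0 < q
  hx : 0 < x
  hx1 : x < 1
  hy : 0 < y
  hy1 : y < 1
  hxy : x * y = 1 / 2
  ht : 0 < t
  ht1 : t < 1
  hc : 0 < c
  hc1 : c < 1
  hxt : x = t * c
  htt : 2 * x ^ 2 = t * t
  hyq : y ^ q = 1 / 2
  htp : t ^ (2 * p / (2 - p)) = 1 / 2

variable (Q : Par)

namespace Par

/-- the polynomial closers -/
noncomputable def b (n : ℕ) : ℂ[X] :=
  -C (Q.y : ℂ) + ∑ j ∈ Finset.range n, C ((Q.y : ℂ) ^ (j + 2)) * X ^ (j + 1) +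
    C ((Q.y : ℂ) ^ (n + 1)) * X ^ n

theorem hxyC : (Q.x : ℂ) * Q.y = 1 / 2 := by
  have := congrArg (fun z : ℝ => (z : ℂ)) Q.hxy
  simpa using this

theorem b_mul (n : ℕ) : C (Q.x : ℂ) * Q.b n * (1 - C (Q.y : ℂ) * X) =
    C (Q.y : ℂ) * (X - C (Q.x : ℂ)) * (1 - C ((Q.y : ℂ) ^ n) * X ^ n) := by
  induction n with
  | zero => simp [b]
  | succ n ih =>
    have h1 : Q.b (n + 1) = Q.b n + (C (2 * (Q.y : ℂ) ^ (n + 2)) * X ^ (n + 1) -
        C ((Q.y : ℂ) ^ (n + 1)) * X ^ n) := by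
      simp only [b, Finset.sum_range_succ, C_mul, C_pow]
      have : (C (2 : ℂ) : ℂ[X]) = 2 := rfl
      rw [this]
      ring
    have h2 : C (Q.x : ℂ) * (C (2 * (Q.y : ℂ) ^ (n + 2)) * X ^ (n + 1) -
        C ((Q.y : ℂ) ^ (n + 1)) * X ^ n) =
        C ((Q.y : ℂ) ^ (n + 1)) * X ^ n * (X - C (Q.x : ℂ)) := by
      have h3 : C (Q.x : ℂ) * C (2 * (Q.y : ℂ) ^ (n + 2)) = C ((Q.y : ℂ) ^ (n + 1)) := by
        rw [← C_mul]
        congr 1
        have := Q.hxyC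
        rw [pow_succ (Q.y : ℂ) (n + 1)]
        linear_combination 2 * (Q.y : ℂ) ^ (n + 1) * this
      rw [mul_sub, ← mul_assoc, h3]
      ring
    rw [h1, mul_add, add_mul, ih, h2]
    simp only [C_pow]
    ring

section op

variable {F : Type*} [NormedAddCommGroup F] [NormedSpace ℂ F] [CompleteSpace F]

/-- the inverse `(2 x² σ - x) (1 - x σ)⁻¹` of the limit of the closers -/
noncomputable def V0 (σ : F →L[ℂ] F) : F →L[ℂ] F :=
  ((2 * (Q.x : ℂ) ^ 2) • σ - (Q.x : ℂ) • 1) * inv1 ((Q.x : ℂ) • σ)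

/-- the inverse of `b n` -/
noncomputable def V (n : ℕ) (τ σ : F →L[ℂ] F) : F →L[ℂ] F :=
  Q.V0 σ * inv1 ((Q.y : ℂ) ^ n • τ ^ n)

variable {r : ℝ} (A : SS F r)

theorem norm_xσ : ‖(Q.x : ℂ) • A.σ‖ ≤ Q.x := by
  refine ContinuousLinearMap.opNorm_le_bound _ Q.hx.le fun f => ?_
  rw [ContinuousLinearMap.smul_apply, norm_smul, A.isoσ, Complex.norm_real,
    Real.norm_of_nonneg Q.hx.le]

theorem norm_yτ (n : ℕ) : ‖(Q.y : ℂ) ^ n • A.τ ^ n‖ ≤ Q.y ^ n := by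
  refine ContinuousLinearMap.opNorm_le_bound _ (pow_nonneg Q.hy.le _) fun f => ?_
  rw [ContinuousLinearMap.smul_apply, norm_smul, A.isopow, norm_pow, Complex.norm_real,
    Real.norm_of_nonneg Q.hy.le]

theorem ypow_lt {n : ℕ} (hn : n ≠ 0) : Q.y ^ n < 1 := pow_lt_one₀ Q.hy.le Q.hy1 hn

theorem b_V {n : ℕ} (hn : n ≠ 0) (f : F) : aeval A.τ (Q.b n) (Q.V n A.τ A.σ f) = f := by
  have h1 := inv1_apply' (lt_of_le_of_lt (Q.norm_yτ A n) (Q.ypow_lt hn)) f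
  set u := inv1 ((Q.y : ℂ) ^ n • A.τ ^ n) f with hu
  have h2 := inv1_apply' (lt_of_le_of_lt (Q.norm_xσ A) Q.hx1) u
  set w := inv1 ((Q.x : ℂ) • A.σ) u with hw
  have hV : Q.V n A.τ A.σ f = (2 * (Q.x : ℂ) ^ 2) • A.σ w - (Q.x : ℂ) • w := rfl
  have hx0 : (Q.x : ℂ) ≠ 0 := by
    exact_mod_cast Q.hx.ne'
  have hy0 : (Q.y : ℂ) ≠ 0 := by
    exact_mod_cast Q.hy.ne'
  set s := A.σ w with hs
  have hws : w = A.τ s := by rw [hs, A.τσ]
  have hV2 : Q.V n A.τ A.σ f = ((Q.x : ℂ) / Q.y) • (s - (Q.y : ℂ) • A.τ s) := by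
    rw [hV, ← hws, smul_sub, smul_smul, div_mul_cancel₀ _ hy0]
    congr 2
    rw [eq_div_iff hy0]
    linear_combination 2 * (Q.x : ℂ) * Q.hxyC
  have hid := congrArg (fun B : ℂ[X] => aeval A.τ B s) (Q.b_mul n)
  simp only [map_mul, map_sub, map_one, aeval_C, aeval_X, map_pow] at hid
  have e1 : (aeval A.τ (Q.b n)) (s - (Q.y : ℂ) • A.τ s) =
      ((Q.y : ℂ) / Q.x) • ((A.τ - algebraMap ℂ _ (Q.x : ℂ)) *
        (1 - (algebraMap ℂ _ (Q.y : ℂ)) ^ n * A.τ ^ n)) s := by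
    have : (Q.x : ℂ) • (aeval A.τ (Q.b n)) (s - (Q.y : ℂ) • A.τ s) =
        (Q.y : ℂ) • ((A.τ - algebraMap ℂ _ (Q.x : ℂ)) *
        (1 - (algebraMap ℂ _ (Q.y : ℂ)) ^ n * A.τ ^ n)) s := by
      simpa [Algebra.algebraMap_eq_smul_one, mul_assoc, ContinuousLinearMap.mul_apply] using hid
    rw [div_eq_mul_inv, mul_comm (Q.y : ℂ), mul_smul, ← this, smul_smul, inv_mul_cancel₀ hx0,
      one_smul]
  rw [hV2, map_smul, e1, smul_smul, div_mul_div_cancel₀' , div_self, one_smul]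
  · have hcomm : ((A.τ - algebraMap ℂ _ (Q.x : ℂ)) *
        (1 - (algebraMap ℂ _ (Q.y : ℂ)) ^ n * A.τ ^ n)) =
        ((1 - (Q.y : ℂ) ^ n • A.τ ^ n) * (A.τ - (Q.x : ℂ) • 1) : F →L[ℂ] F) := by
      simp only [Algebra.algebraMap_eq_smul_one, _root_.smul_pow, one_pow, smul_mul_assoc, one_mul]
      have hc : Commute (A.τ - (Q.x : ℂ) • (1 : F →L[ℂ] F)) (1 - (Q.y : ℂ) ^ n • A.τ ^ n) := by
        refine Commute.sub_left ?_ ?_
        · exact (Commute.one_right _).sub_right (((Commute.refl A.τ).pow_right n).smul_right _)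
        · exact (Commute.one_left _).smul_left _
      exact hc.eq
    rw [hcomm, ContinuousLinearMap.mul_apply]
    have e2 : (A.τ - (Q.x : ℂ) • (1 : F →L[ℂ] F)) s = u := by
      have : (A.τ - (Q.x : ℂ) • (1 : F →L[ℂ] F)) s = A.τ s - (Q.x : ℂ) • s := rfl
      rw [this, ← hws]
      exact h2
    rw [e2]
    exact h1
  all_goals first | exact hx0 | exact hy0 | skip

theorem commute_V0 {B : F →L[ℂ] F} (hB : Commute A.σ B) : Commute (Q.V0 A.σ) B := by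
  refine Commute.mul_left ?_ ?_
  · exact (hB.smul_left _).sub_left ((Commute.one_left _).smul_left _)
  · exact inv1_commute (lt_of_le_of_lt (Q.norm_xσ A) Q.hx1) (hB.smul_left _)

theorem commute_V {n : ℕ} (hn : n ≠ 0) {B : F →L[ℂ] F} (hB : Commute A.σ B) (hB' : Commute A.τ B) :
    Commute (Q.V n A.τ A.σ) B := by
  refine Commute.mul_left (Q.commute_V0 A hB) ?_
  exact inv1_commute (lt_of_le_of_lt (Q.norm_yτ A n) (Q.ypow_lt hn))
    ((hB'.pow_left n).smul_left _)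

/-! ### the map `J` -/

theorem J_summable (c : F) (a : L2) :
    Summable fun j : ℕ => (a j * (Q.t : ℂ) ^ j) • (A.σ ^ j) c := by
  refine Summable.of_norm_bounded (g := fun j : ℕ => ‖a‖ * ‖c‖ * Q.t ^ j)
    ((summable_geometric_of_lt_one Q.ht.le Q.ht1).mul_left _) fun j => ?_
  rw [norm_smul, norm_mul, A.isoσpow, norm_pow, Complex.norm_real, Real.norm_of_nonneg Q.ht.le]
  have := lp.norm_apply_le_norm (p := 2) (by norm_num) a j
  calc ‖a j‖ * Q.t ^ j * ‖c‖ ≤ ‖a‖ * Q.t ^ j * ‖c‖ := by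
        gcongr
        exact pow_nonneg Q.ht.le _
    _ = _ := by ring

/-- the intertwining map -/
noncomputable def J (c : F) (a : L2) : F := ∑' j : ℕ, (a j * (Q.t : ℂ) ^ j) • (A.σ ^ j) c

theorem norm_J_le (c : F) (a : L2) : ‖Q.J A c a‖ ≤ (1 - Q.t)⁻¹ * ‖a‖ * ‖c‖ := by
  have h : HasSum (fun j : ℕ => ‖a‖ * ‖c‖ * Q.t ^ j) (‖a‖ * ‖c‖ * (1 - Q.t)⁻¹) :=
    (hasSum_geometric_of_lt_one Q.ht.le Q.ht1).mul_left _
  refine (tsum_of_norm_bounded h fun j => ?_).trans (le_of_eq (by ring))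
  rw [norm_smul, norm_mul, A.isoσpow, norm_pow, Complex.norm_real, Real.norm_of_nonneg Q.ht.le]
  have := lp.norm_apply_le_norm (p := 2) (by norm_num) a j
  calc ‖a j‖ * Q.t ^ j * ‖c‖ ≤ ‖a‖ * Q.t ^ j * ‖c‖ := by
        gcongr
        exact pow_nonneg Q.ht.le _
    _ = _ := by ring

theorem J_sub (c : F) (a a' : L2) : Q.J A c (a - a') = Q.J A c a - Q.J A c a' := by
  rw [J, J, J, ← (Q.J_summable A c a).tsum_sub (Q.J_summable A c a')]
  refine tsum_congr fun j => ?_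
  rw [lp.coeFn_sub, Pi.sub_apply, sub_mul, sub_smul]

theorem J_smul (c : F) (z : ℂ) (a : L2) : Q.J A c (z • a) = z • Q.J A c a := by
  rw [J, J, ← (Q.J_summable A c a).tsum_const_smul]
  refine tsum_congr fun j => ?_
  rw [lp.coeFn_smul, Pi.smul_apply, smul_smul, smul_eq_mul, mul_assoc]

theorem J_sh (c : F) (a : L2) : Q.J A c (sh a) = (Q.t : ℂ) • A.σ (Q.J A c a) := by
  rw [J, (Q.J_summable A c (sh a)).tsum_eq_zero_add, sh_apply_zero, zero_mul, zero_smul, zero_add,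
    J, ContinuousLinearMap.map_tsum _ (Q.J_summable A c a), ← tsum_const_smul'']
  refine tsum_congr fun j => ?_
  rw [sh_apply_succ, map_smul, smul_smul, pow_succ, pow_succ' A.σ,
    ContinuousLinearMap.mul_apply]
  congr 1
  ring

theorem J_e0 (c : F) : Q.J A c e0 = c := by
  rw [J, tsum_eq_single 0]
  · simp [e0]
  · intro j hj
    have : e0 j = 0 := by
      rw [e0, lp.single_apply_ne _ _ _ hj]
    rw [this, zero_mul, zero_smul]

theorem V0_J (c : F) (a : L2) : Q.V0 A.σ (Q.J A c a) = Q.J A c (W Q.t Q.c a) := by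
  have hcn := norm_csh_lt Q.hc.le Q.hc1
  have h1 := inv1_apply' hcn a
  set g := inv1 ((Q.c : ℂ) • sh.toContinuousLinearMap) a with hg
  have h1' : g - (Q.c : ℂ) • sh g = a := h1
  have hW : W Q.t Q.c a = (Q.t : ℂ) • (sh g - (Q.c : ℂ) • g) := rfl
  have hxt : (Q.x : ℂ) = Q.t * Q.c := by
    exact_mod_cast Q.hxt
  have htt : 2 * (Q.x : ℂ) ^ 2 = Q.t * Q.t := by
    exact_mod_cast Q.htt
  have h2 : Q.J A c a = Q.J A c g - ((Q.x : ℂ) • A.σ) (Q.J A c g) := by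
    rw [← h1', J_sub, J_smul, J_sh, smul_smul, ContinuousLinearMap.smul_apply, hxt, mul_comm]
  have h3 : inv1 ((Q.x : ℂ) • A.σ) (Q.J A c a) = Q.J A c g := by
    rw [h2]
    exact inv1_apply (lt_of_le_of_lt (Q.norm_xσ A) Q.hx1) _
  have h4 : Q.V0 A.σ (Q.J A c a) =
      (2 * (Q.x : ℂ) ^ 2) • A.σ (Q.J A c g) - (Q.x : ℂ) • Q.J A c g := by
    rw [V0, ContinuousLinearMap.mul_apply, h3]
    rfl
  rw [h4, hW, J_smul, J_sub, J_smul, J_sh, htt, hxt, smul_sub, smul_smul, smul_smul]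

theorem V0_pow_J (c : F) (k : ℕ) (a : L2) :
    (Q.V0 A.σ ^ k) (Q.J A c a) = Q.J A c ((W Q.t Q.c ^ k) a) := by
  induction k generalizing a with
  | zero => simp
  | succ k ih =>
    rw [pow_succ, pow_succ, ContinuousLinearMap.mul_apply, ContinuousLinearMap.mul_apply, V0_J, ih]

theorem V0_pow (c : F) (k : ℕ) : (Q.V0 A.σ ^ k) c = Q.J A c ((W Q.t Q.c ^ k) e0) := by
  rw [← V0_pow_J, J_e0]

theorem norm_V0_pow_le (k : ℕ) (f : F) :
    ‖(Q.V0 A.σ ^ k) f‖ ≤ (1 - Q.t)⁻¹ * Q.t ^ k * ‖f‖ := by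
  rw [V0_pow]
  refine (Q.norm_J_le A f _).trans ?_
  rw [norm_W_pow Q.ht.le Q.hc.le Q.hc1, norm_e0, mul_one]

theorem norm_J_cell {A : SS F Q.p} {c : F} (hc : A.Cell c) (a : L2) :
    ‖Q.J A c a‖ ≤ Q.t⁻¹ * ‖a‖ * ‖c‖ := by
  have hp0 : 0 < Q.p := by linarith [Q.hp1]
  have h2p : 0 < 2 - Q.p := by linarith [Q.hp2]
  have hlim := (Q.J_summable A c a).hasSum.tendsto_sum_nat
  refine le_of_tendsto hlim.norm (Eventually.of_forall fun n => ?_)
  have h1 := A.sum_right hp0 hc (fun j => a j * (Q.t : ℂ) ^ j) n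
  have hsum : ∑ j ∈ Finset.range n, ‖a j * (Q.t : ℂ) ^ j‖ ^ Q.p ≤ (Q.t⁻¹ * ‖a‖) ^ Q.p := by
    have hold := Real.inner_le_Lp_mul_Lq_of_nonneg (Finset.range n) (p := 2 / Q.p)
      (q := 2 / (2 - Q.p)) (f := fun j => ‖a j‖ ^ Q.p) (g := fun j => (Q.t ^ Q.p) ^ j) (by
        rw [Real.holderConjugate_iff]
        constructor
        · rw [lt_div_iff₀ hp0]
          linarith [Q.hp2]
        · rw [inv_div, inv_div]
          ring)
      (fun j _ => Real.rpow_nonneg (norm_nonneg _) _)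
      (fun j _ => pow_nonneg (Real.rpow_nonneg Q.ht.le _) _)
    have e1 : ∀ j, ‖a j * (Q.t : ℂ) ^ j‖ ^ Q.p = ‖a j‖ ^ Q.p * (Q.t ^ Q.p) ^ j := by
      intro j
      rw [norm_mul, norm_pow, Complex.norm_real, Real.norm_of_nonneg Q.ht.le,
        Real.mul_rpow (norm_nonneg _) (pow_nonneg Q.ht.le _)]
      congr 1
      rw [← Real.rpow_natCast, ← Real.rpow_natCast, ← Real.rpow_mul Q.ht.le,
        ← Real.rpow_mul Q.ht.le, mul_comm]
    simp only [e1]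
    refine hold.trans ?_
    have e2 : ∀ j, (‖a j‖ ^ Q.p) ^ (2 / Q.p) = ‖a j‖ ^ 2 := by
      intro j
      rw [← Real.rpow_mul (norm_nonneg _), mul_div_cancel₀ _ hp0.ne']
      norm_cast
    have e3 : ∀ j : ℕ, ((Q.t ^ Q.p) ^ j) ^ (2 / (2 - Q.p)) = (1 / 2 : ℝ) ^ j := by
      intro j
      rw [← Q.htp, ← Real.rpow_natCast, ← Real.rpow_natCast, ← Real.rpow_mul Q.ht.le,
        ← Real.rpow_mul Q.ht.le, ← Real.rpow_mul Q.ht.le]
      congr 1
      field_simp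
    simp only [e2, e3]
    have i1 : ∑ j ∈ Finset.range n, ‖a j‖ ^ 2 ≤ ‖a‖ ^ 2 := by
      rw [L2.norm_sq]
      exact (L2.summable a).sum_le_tsum _ fun j _ => by positivity
    have i2 : ∑ j ∈ Finset.range n, (1 / 2 : ℝ) ^ j ≤ 2 := by
      have := (summable_geometric_of_lt_one (r := (1 / 2 : ℝ)) (by norm_num)
        (by norm_num)).sum_le_tsum (Finset.range n) fun j _ => by positivity
      rw [tsum_geometric_of_lt_one (by norm_num) (by norm_num)] at this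
      norm_num at this ⊢
      exact this
    have i3 : (∑ j ∈ Finset.range n, ‖a j‖ ^ 2) ^ (1 / (2 / Q.p)) ≤ ‖a‖ ^ Q.p := by
      calc (∑ j ∈ Finset.range n, ‖a j‖ ^ 2) ^ (1 / (2 / Q.p)) ≤ (‖a‖ ^ 2) ^ (1 / (2 / Q.p)) :=
            Real.rpow_le_rpow (Finset.sum_nonneg fun j _ => by positivity) i1 (by positivity)
        _ = ‖a‖ ^ Q.p := by
            rw [← Real.rpow_natCast, ← Real.rpow_mul (norm_nonneg _)]
            congr 1
            field_simp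
            norm_num
    have i4 : (∑ j ∈ Finset.range n, (1 / 2 : ℝ) ^ j) ^ (1 / (2 / (2 - Q.p))) ≤ (Q.t⁻¹) ^ Q.p := by
      calc (∑ j ∈ Finset.range n, (1 / 2 : ℝ) ^ j) ^ (1 / (2 / (2 - Q.p))) ≤
            (2 : ℝ) ^ (1 / (2 / (2 - Q.p))) :=
            Real.rpow_le_rpow (Finset.sum_nonneg fun j _ => by positivity) i2 (by positivity)
        _ = (Q.t⁻¹) ^ Q.p := by
            have h2 : (2 : ℝ) = (Q.t⁻¹) ^ (2 * Q.p / (2 - Q.p)) := by
              rw [Real.inv_rpow Q.ht.le, Q.htp]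
              norm_num
            calc (2 : ℝ) ^ (1 / (2 / (2 - Q.p))) =
                ((Q.t⁻¹) ^ (2 * Q.p / (2 - Q.p))) ^ (1 / (2 / (2 - Q.p))) := by rw [← h2]
              _ = (Q.t⁻¹) ^ Q.p := by
                rw [← Real.rpow_mul (inv_nonneg.2 Q.ht.le)]
                congr 1
                field_simp
    rw [mul_comm (Q.t⁻¹), Real.mul_rpow (norm_nonneg _) (inv_nonneg.2 Q.ht.le)]
    exact mul_le_mul i3 i4 (Real.rpow_nonneg (Finset.sum_nonneg fun j _ => by positivity) _)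
      (Real.rpow_nonneg (norm_nonneg _) _)
  have h2 : ‖∑ j ∈ Finset.range n, (a j * (Q.t : ℂ) ^ j) • (A.σ ^ j) c‖ ^ Q.p ≤
      (Q.t⁻¹ * ‖a‖ * ‖c‖) ^ Q.p := by
    rw [h1, Real.mul_rpow (mul_nonneg (inv_nonneg.2 Q.ht.le) (norm_nonneg _)) (norm_nonneg _)]
    exact mul_le_mul_of_nonneg_right hsum (Real.rpow_nonneg (norm_nonneg _) _)
  exact (Real.rpow_le_rpow_iff (norm_nonneg _) (mul_nonneg (mul_nonneg (inv_nonneg.2 Q.ht.le)
    (norm_nonneg _)) (norm_nonneg _)) hp0).1 h2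

theorem norm_V0_pow_cell {A : SS F Q.p} {c : F} (hc : A.Cell c) (k : ℕ) :
    ‖(Q.V0 A.σ ^ (k + 1)) c‖ ≤ Q.t ^ k * ‖c‖ := by
  rw [V0_pow]
  refine (Q.norm_J_cell hc _).trans (le_of_eq ?_)
  rw [norm_W_pow Q.ht.le Q.hc.le Q.hc1, norm_e0, mul_one, pow_succ]
  have := Q.ht.ne'
  field_simp

theorem norm_b_cell {A : SS F Q.q} {c : F} (hc : A.Cell c) (n : ℕ) :
    ‖aeval A.τ (Q.b n) c‖ ≤ (1 + Q.y ^ (n + 1)) * ‖c‖ := by
  have hsum := A.sum_left Q.hq hc (fun j => if j = 0 then -(Q.y : ℂ) else (Q.y : ℂ) ^ (j + 1)) (n + 1)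
  have e1 : aeval A.τ (Q.b n) c = ∑ j ∈ Finset.range (n + 1),
      (if j = 0 then -(Q.y : ℂ) else (Q.y : ℂ) ^ (j + 1)) • (A.τ ^ j) c +
      (Q.y : ℂ) ^ (n + 1) • (A.τ ^ n) c := by
    have h1 : ∀ m : ℕ, (algebraMap ℂ (F →L[ℂ] F) (Q.y : ℂ)) ^ m = (Q.y : ℂ) ^ m • 1 := by
      intro m
      rw [Algebra.algebraMap_eq_smul_one, _root_.smul_pow, one_pow]
    have h2 : aeval A.τ (Q.b n) = -((Q.y : ℂ) • (1 : F →L[ℂ] F)) +
        ∑ j ∈ Finset.range n, (Q.y : ℂ) ^ (j + 2) • A.τ ^ (j + 1) +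
          (Q.y : ℂ) ^ (n + 1) • A.τ ^ n := by
      simp only [b, map_add, map_neg, map_sum, map_mul, map_pow, aeval_C, aeval_X, h1,
        smul_mul_assoc, one_mul]
      rw [Algebra.algebraMap_eq_smul_one]
    rw [h2, Finset.sum_range_succ']
    have h3 : (∑ j ∈ Finset.range n, (Q.y : ℂ) ^ (j + 2) • A.τ ^ (j + 1)) c =
        ∑ j ∈ Finset.range n, (Q.y : ℂ) ^ (j + 2) • (A.τ ^ (j + 1)) c := by
      rw [ContinuousLinearMap.sum_apply]
      rfl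
    simp only [ContinuousLinearMap.add_apply, h3, ContinuousLinearMap.neg_apply,
      ContinuousLinearMap.smul_apply, ContinuousLinearMap.one_apply, if_true, neg_smul, pow_zero,
      Nat.add_eq_zero_iff, one_ne_zero, and_false, if_false]
    rw [add_comm (-((Q.y : ℂ) • c))]
  have e2 : ∑ j ∈ Finset.range (n + 1),
      ‖(if j = 0 then -(Q.y : ℂ) else (Q.y : ℂ) ^ (j + 1))‖ ^ Q.q ≤ 1 := by
    rw [Finset.sum_range_succ']
    have : ∀ j : ℕ, ‖(if j + 1 = 0 then -(Q.y : ℂ) else (Q.y : ℂ) ^ (j + 1 + 1))‖ ^ Q.q =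
        (1 / 2 : ℝ) ^ (j + 2) := by
      intro j
      rw [if_neg (by omega), norm_pow, Complex.norm_real, Real.norm_of_nonneg Q.hy.le, ← Q.hyq,
        ← Real.rpow_natCast, ← Real.rpow_natCast, ← Real.rpow_mul Q.hy.le,
        ← Real.rpow_mul Q.hy.le, mul_comm]
    simp only [this, if_true, norm_neg, Complex.norm_real, Real.norm_of_nonneg Q.hy.le, Q.hyq]
    have h3 : ∀ n : ℕ, ∑ j ∈ Finset.range n, (1 / 2 : ℝ) ^ (j + 2) = 1 / 2 - (1 / 2) ^ (n + 1) := by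
      intro n
      induction n with
      | zero => norm_num
      | succ n ih =>
        rw [Finset.sum_range_succ, ih]
        ring
    rw [h3]
    have : (0 : ℝ) ≤ (1 / 2) ^ (n + 1) := by positivity
    linarith
  have h4 : ‖∑ j ∈ Finset.range (n + 1),
      (if j = 0 then -(Q.y : ℂ) else (Q.y : ℂ) ^ (j + 1)) • (A.τ ^ j) c‖ ≤ ‖c‖ := by
    have : ‖∑ j ∈ Finset.range (n + 1),
      (if j = 0 then -(Q.y : ℂ) else (Q.y : ℂ) ^ (j + 1)) • (A.τ ^ j) c‖ ^ Q.q ≤ ‖c‖ ^ Q.q := by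
      rw [hsum]
      calc _ ≤ 1 * ‖c‖ ^ Q.q :=
            mul_le_mul_of_nonneg_right e2 (Real.rpow_nonneg (norm_nonneg _) _)
        _ = _ := one_mul _
    exact (Real.rpow_le_rpow_iff (norm_nonneg _) (norm_nonneg _) Q.hq).1 this
  rw [e1]
  refine (norm_add_le _ _).trans ?_
  rw [add_mul, one_mul, norm_smul, A.isopow, norm_pow, Complex.norm_real,
    Real.norm_of_nonneg Q.hy.le]
  gcongr

end op

end Par

end Pool.Agent.V7H86.HD
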