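import Mathlib
import Pool.Agent.V7H86.HD.A3

/-!
# Lacunary products of closers
-/

set_option autoImplicit false
set_option linter.deprecated false
set_option linter.unusedSectionVars false
set_option linter.unusedVariables false

open Filter Polynomial
open scoped Topology ENNReal

namespace Pool.Agent.V7H86.HD

variable (Q : Par)

namespace Par

variable {F G : Type} [NormedAddCommGroup F] [NormedSpace ℂ F] [CompleteSpace F]
  [NormedAddCommGroup G] [NormedSpace ℂ G] [CompleteSpace G]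

/-- the constant `1 / (1 - y ^ n)` -/
noncomputable def M (n : ℕ) : ℝ := (1 - Q.y ^ n)⁻¹

theorem one_le_M {n : ℕ} (hn : n ≠ 0) : 1 ≤ Q.M n := by
  have h1 := Q.ypow_lt hn
  have h2 := pow_pos Q.hy n
  rw [M, one_le_inv₀ (by linarith)]
  linarith

theorem M_tendsto : Tendsto Q.M atTop (𝓝 1) := by
  have h := tendsto_pow_atTop_nhds_zero_of_lt_one Q.hy.le Q.hy1
  have : Tendsto (fun n : ℕ => (1 - Q.y ^ n)⁻¹) atTop (𝓝 (1 - 0)⁻¹) :=
    (tendsto_const_nhds.sub h).inv₀ (by norm_num)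
  rw [sub_zero, inv_one] at this
  exact this

theorem one_add_le_M {n : ℕ} (hn : n ≠ 0) : 1 + Q.y ^ (n + 1) ≤ Q.M n := by
  have h1 := Q.ypow_lt hn
  have h2 := pow_pos Q.hy n
  have h3 : Q.y ^ (n + 1) ≤ Q.y ^ n := pow_le_pow_of_le_one Q.hy.le Q.hy1.le (by omega)
  rw [M, ← one_div, le_div_iff₀ (by linarith)]
  nlinarith

variable {r : ℝ} (A : SS F r)

theorem norm_inv_pow_le {n : ℕ} (hn : n ≠ 0) (k : ℕ) (f : F) :
    ‖(inv1 ((Q.y : ℂ) ^ n • A.τ ^ n) ^ k) f‖ ≤ Q.M n ^ k * ‖f‖ := by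
  induction k generalizing f with
  | zero => simp
  | succ k ih =>
    rw [pow_succ, ContinuousLinearMap.mul_apply]
    refine (ih _).trans ?_
    have h := norm_inv1_le (pow_nonneg Q.hy.le n) (Q.norm_yτ A n) (Q.ypow_lt hn) f
    have hM : 0 ≤ Q.M n ^ k := pow_nonneg (zero_le_one.trans (Q.one_le_M hn)) _
    calc Q.M n ^ k * ‖inv1 ((Q.y : ℂ) ^ n • A.τ ^ n) f‖ ≤ Q.M n ^ k * (Q.M n * ‖f‖) := by
          gcongr
          exact h
      _ = Q.M n ^ (k + 1) * ‖f‖ := by ring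

theorem V_pow_eq {n : ℕ} (hn : n ≠ 0) (k : ℕ) :
    Q.V n A.τ A.σ ^ k = inv1 ((Q.y : ℂ) ^ n • A.τ ^ n) ^ k * Q.V0 A.σ ^ k := by
  have hc : Commute (Q.V0 A.σ) (inv1 ((Q.y : ℂ) ^ n • A.τ ^ n)) := by
    refine (inv1_commute (lt_of_le_of_lt (Q.norm_yτ A n) (Q.ypow_lt hn)) ?_).symm
    exact ((Q.commute_V0 A A.comm.symm).symm.pow_left n).smul_left _
  rw [V, hc.eq, hc.symm.mul_pow]

theorem norm_V_pow_le {n : ℕ} (hn : n ≠ 0) (k : ℕ) (f : F) :
    ‖(Q.V n A.τ A.σ ^ k) f‖ ≤ (1 - Q.t)⁻¹ * (Q.t * Q.M n) ^ k * ‖f‖ := by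
  rw [Q.V_pow_eq A hn, ContinuousLinearMap.mul_apply]
  refine (Q.norm_inv_pow_le A hn k _).trans ?_
  have hM : 0 ≤ Q.M n ^ k := pow_nonneg (zero_le_one.trans (Q.one_le_M hn)) _
  calc Q.M n ^ k * ‖(Q.V0 A.σ ^ k) f‖ ≤ Q.M n ^ k * ((1 - Q.t)⁻¹ * Q.t ^ k * ‖f‖) := by
        gcongr
        exact Q.norm_V0_pow_le A k f
    _ = _ := by rw [mul_pow]; ring

theorem norm_V_pow_cell {A : SS F Q.p} {c : F} (hc : A.Cell c) {n : ℕ} (hn : n ≠ 0) (k : ℕ) :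
    ‖(Q.V n A.τ A.σ ^ (k + 1)) c‖ ≤ Q.M n * (Q.t * Q.M n) ^ k * ‖c‖ := by
  rw [Q.V_pow_eq A hn, ContinuousLinearMap.mul_apply]
  refine (Q.norm_inv_pow_le A hn _ _).trans ?_
  have hM : 0 ≤ Q.M n ^ (k + 1) := pow_nonneg (zero_le_one.trans (Q.one_le_M hn)) _
  calc Q.M n ^ (k + 1) * ‖(Q.V0 A.σ ^ (k + 1)) c‖ ≤ Q.M n ^ (k + 1) * (Q.t ^ k * ‖c‖) := by
        gcongr
        exact Q.norm_V0_pow_cell hc k
    _ = _ := by rw [mul_pow]; ring

/-- lacunary estimate for the inverse -/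
theorem lacV {A : SS F Q.p} (hA : A.Tails) {n : ℕ} (hn : n ≠ 0) (k : ℕ) (f : F) {ε : ℝ}
    (hε : 0 < ε) : ∀ᶠ K : ℕ in atTop, ‖(Q.V n (A.τ ^ K) (A.σ ^ K) ^ (k + 1)) f‖ ≤
      Q.M n * (Q.t * Q.M n) ^ k * ‖f‖ + ε := by
  have hM0 : 0 < Q.M n := lt_of_lt_of_le one_pos (Q.one_le_M hn)
  set C1 := (1 - Q.t)⁻¹ * (Q.t * Q.M n) ^ (k + 1) with hC1
  set C2 := Q.M n * (Q.t * Q.M n) ^ k with hC2
  have h1t : 0 < (1 - Q.t)⁻¹ := inv_pos.2 (by linarith [Q.ht1])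
  have hC1p : 0 < C1 := mul_pos h1t (pow_pos (mul_pos Q.ht hM0) _)
  have hC2p : 0 < C2 := mul_pos hM0 (pow_pos (mul_pos Q.ht hM0) _)
  obtain ⟨L, N, c, hcell, hc⟩ := A.exists_cell hA f (δ := ε / (C1 + C2)) (by positivity)
  filter_upwards [eventually_ge_atTop N] with K hK
  have h1 := Q.norm_V_pow_le (A.pow K) hn (k + 1) (f - (A.τ ^ L) c)
  have h2 := Q.norm_V_pow_cell (hcell K hK) hn k
  have hcomm : Commute (Q.V n (A.pow K).τ (A.pow K).σ ^ (k + 1)) (A.τ ^ L) := by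
    refine (Q.commute_V (A.pow K) hn ?_ ?_).pow_left _
    · exact A.comm.symm.pow_pow _ _
    · exact (Commute.refl A.τ).pow_pow _ _
  have h3 : (Q.V n (A.pow K).τ (A.pow K).σ ^ (k + 1)) ((A.τ ^ L) c) =
      (A.τ ^ L) ((Q.V n (A.pow K).τ (A.pow K).σ ^ (k + 1)) c) := by
    have := congrArg (fun B : F →L[ℂ] F => B c) hcomm.eq
    simpa [ContinuousLinearMap.mul_apply] using this
  have h4 : ‖c‖ ≤ ‖f‖ + ε / (C1 + C2) := by
    rw [← A.isopow L c]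
    calc ‖(A.τ ^ L) c‖ = ‖f - (f - (A.τ ^ L) c)‖ := by congr 1; abel
      _ ≤ ‖f‖ + ‖f - (A.τ ^ L) c‖ := norm_sub_le _ _
      _ ≤ _ := by gcongr
  show ‖(Q.V n (A.pow K).τ (A.pow K).σ ^ (k + 1)) f‖ ≤ C2 * ‖f‖ + ε
  have e : f = (f - (A.τ ^ L) c) + (A.τ ^ L) c := by abel
  calc ‖(Q.V n (A.pow K).τ (A.pow K).σ ^ (k + 1)) f‖ =
        ‖(Q.V n (A.pow K).τ (A.pow K).σ ^ (k + 1)) (f - (A.τ ^ L) c) +
          (Q.V n (A.pow K).τ (A.pow K).σ ^ (k + 1)) ((A.τ ^ L) c)‖ := by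
        rw [← map_add, ← e]
    _ ≤ C1 * (ε / (C1 + C2)) + C2 * (‖f‖ + ε / (C1 + C2)) := by
        refine (norm_add_le _ _).trans (add_le_add ?_ ?_)
        · exact h1.trans (mul_le_mul_of_nonneg_left hc hC1p.le)
        · rw [h3, A.isopow]
          exact h2.trans (mul_le_mul_of_nonneg_left h4 hC2p.le)
    _ = C2 * ‖f‖ + ε := by
        field_simp
        ring

/-- a crude bound for polynomials in the shift -/
noncomputable def l1 (a : ℂ[X]) : ℝ := ∑ j ∈ a.support, ‖a.coeff j‖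

theorem l1_nonneg (a : ℂ[X]) : 0 ≤ l1 a := Finset.sum_nonneg fun _ _ => norm_nonneg _

theorem aeval_apply (τ : F →L[ℂ] F) (a : ℂ[X]) (f : F) :
    aeval τ a f = ∑ j ∈ a.support, a.coeff j • (τ ^ j) f := by
  rw [aeval_eq_sum_range' (n := a.natDegree + 1) (by omega), ContinuousLinearMap.sum_apply]
  symm
  refine Finset.sum_subset (fun j hj => ?_) fun j _ hj => ?_
  · rw [Finset.mem_range]
    have := le_natDegree_of_mem_supp j hj
    omega
  · rw [notMem_support_iff.1 hj, zero_smul]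

theorem norm_aeval_le (a : ℂ[X]) (f : F) : ‖aeval A.τ a f‖ ≤ l1 a * ‖f‖ := by
  rw [aeval_apply, l1, Finset.sum_mul]
  refine (norm_sum_le _ _).trans (Finset.sum_le_sum fun j _ => ?_)
  rw [norm_smul, A.isopow]

/-- lacunary estimate for the closers -/
theorem lacB {B : SS G Q.q} (hB : B.Tails) {n : ℕ} (hn : n ≠ 0) (u : G) {ε : ℝ}
    (hε : 0 < ε) : ∀ᶠ K : ℕ in atTop, ‖aeval (B.τ ^ K) (Q.b n) u‖ ≤ Q.M n * ‖u‖ + ε := by
  have hM0 : 0 < Q.M n := lt_of_lt_of_le one_pos (Q.one_le_M hn)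
  set C1 := l1 (Q.b n) with hC1
  have hC1p : 0 ≤ C1 := l1_nonneg _
  obtain ⟨L, N, c, hcell, hc⟩ := B.exists_cell hB u (δ := ε / (C1 + Q.M n)) (by positivity)
  filter_upwards [eventually_ge_atTop N] with K hK
  have h1 := norm_aeval_le (B.pow K) (Q.b n) (u - (B.τ ^ L) c)
  have h2 := Q.norm_b_cell (hcell K hK) n
  have h3 : aeval (B.pow K).τ (Q.b n) ((B.τ ^ L) c) = (B.τ ^ L) (aeval (B.pow K).τ (Q.b n) c) := by
    have hcomm : Commute (aeval (B.pow K).τ (Q.b n)) (B.τ ^ L) := by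
      have : (B.pow K).τ = aeval B.τ (X ^ K : ℂ[X]) := by simp [SS.pow]
      rw [this, ← aeval_comp]
      have h5 : B.τ ^ L = aeval B.τ (X ^ L : ℂ[X]) := by simp
      rw [h5]
      exact Commute.map (Commute.all _ _) (aeval B.τ)
    have := congrArg (fun B' : G →L[ℂ] G => B' c) hcomm.eq
    simpa [ContinuousLinearMap.mul_apply] using this
  have h4 : ‖c‖ ≤ ‖u‖ + ε / (C1 + Q.M n) := by
    rw [← B.isopow L c]
    calc ‖(B.τ ^ L) c‖ = ‖u - (u - (B.τ ^ L) c)‖ := by congr 1; abel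
      _ ≤ ‖u‖ + ‖u - (B.τ ^ L) c‖ := norm_sub_le _ _
      _ ≤ _ := by gcongr
  have h6 : (1 + Q.y ^ (n + 1)) * ‖c‖ ≤ Q.M n * ‖c‖ :=
    mul_le_mul_of_nonneg_right (Q.one_add_le_M hn) (norm_nonneg _)
  show ‖aeval (B.pow K).τ (Q.b n) u‖ ≤ _
  have e : u = (u - (B.τ ^ L) c) + (B.τ ^ L) c := by abel
  calc ‖aeval (B.pow K).τ (Q.b n) u‖ = ‖aeval (B.pow K).τ (Q.b n) (u - (B.τ ^ L) c) +
          aeval (B.pow K).τ (Q.b n) ((B.τ ^ L) c)‖ := by
        rw [← map_add, ← e]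
    _ ≤ C1 * (ε / (C1 + Q.M n)) + Q.M n * (‖u‖ + ε / (C1 + Q.M n)) := by
        refine (norm_add_le _ _).trans (add_le_add ?_ ?_)
        · exact h1.trans (mul_le_mul_of_nonneg_left hc hC1p)
        · rw [h3, B.isopow]
          exact (h2.trans h6).trans (mul_le_mul_of_nonneg_left h4 hM0.le)
    _ = Q.M n * ‖u‖ + ε := by
        have : C1 + Q.M n ≠ 0 := by positivity
        field_simp
        ring

/-- a closer: the polynomial `β` and the inverse `V` of `β(τ)` -/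
structure Closer {r : ℝ} (A : SS F r) (β : ℂ[X]) (V : F →L[ℂ] F) : Prop where
  comm : ∀ T : F →L[ℂ] F, Commute A.τ T → Commute A.σ T → Commute V T
  inv : ∀ f, aeval A.τ β (V f) = f

theorem Closer.one (A : SS F r) : Closer A 1 1 :=
  ⟨fun T _ _ => Commute.one_left T, fun f => by simp⟩

theorem Closer.mul {A : SS F r} {β β' : ℂ[X]} {V V' : F →L[ℂ] F} (h : Closer A β V)
    (h' : Closer A β' V') : Closer A (β * β') (V * V') := by
  refine ⟨fun T h1 h2 => (h.comm T h1 h2).mul_left (h'.comm T h1 h2), fun f => ?_⟩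
  have hc : Commute A.τ V := (h.comm A.τ (Commute.refl _) A.comm.symm).symm
  have hc' : Commute A.σ V := (h.comm A.σ A.comm (Commute.refl _)).symm
  have hVV : Commute V' V := h'.comm V hc hc'
  have : (V * V') f = V' (V f) := by
    rw [← hVV.eq]
    rfl
  rw [this, map_mul, ContinuousLinearMap.mul_apply, h'.inv, h.inv]

theorem Closer.b {A : SS F r} {n : ℕ} (hn : n ≠ 0) (K : ℕ) :
    Closer A (expand ℂ K (Q.b n)) (Q.V n (A.τ ^ K) (A.σ ^ K)) := by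
  refine ⟨fun T h1 h2 => ?_, fun f => ?_⟩
  · exact Q.commute_V (A.pow K) hn (h2.pow_left K) (h1.pow_left K)
  · rw [expand_aeval]
    exact Q.b_V (A.pow K) hn f

theorem Closer.commute_τ {A : SS F r} {β : ℂ[X]} {V : F →L[ℂ] F} (h : Closer A β V) :
    Commute V A.τ := h.comm A.τ (Commute.refl _) A.comm.symm

theorem Closer.commute_σ {A : SS F r} {β : ℂ[X]} {V : F →L[ℂ] F} (h : Closer A β V) :
    Commute V A.σ := h.comm A.σ A.comm (Commute.refl _)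

/-- products of `m` lacunary closers -/
theorem closers_aux {A : SS F Q.p} (hA : A.Tails) {B : SS G Q.q} (hB : B.Tails) {n : ℕ}
    (hn : n ≠ 0) (htM : Q.t * Q.M n ≤ 1) (m : ℕ) {ι κ : Type} [Finite ι] [Finite κ]
    (d : ι → ℕ) (D : ι → F) (U : κ → G) {ε : ℝ} (hε : 0 < ε) :
    ∃ (β : ℂ[X]) (V : F →L[ℂ] F), Closer A β V ∧
      (∀ k f, ‖(V ^ k) f‖ ≤ ((1 - Q.t)⁻¹ * (Q.t * Q.M n) ^ k) ^ m * ‖f‖) ∧
      (∀ i, ‖(V ^ (d i + 1)) (D i)‖ ≤ (Q.M n * (Q.t * Q.M n) ^ d i) ^ m * ‖D i‖ + ε) ∧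
      ∀ j, ‖aeval B.τ β (U j)‖ ≤ Q.M n ^ m * ‖U j‖ + ε := by
  have hM0 : 0 < Q.M n := lt_of_lt_of_le one_pos (Q.one_le_M hn)
  have htM0 : 0 < Q.t * Q.M n := mul_pos Q.ht hM0
  induction m generalizing ε with
  | zero => exact ⟨1, 1, Closer.one A, fun k f => by simp, fun i => by simp [hε.le],
      fun j => by simp [hε.le]⟩
  | succ m ih =>
    obtain ⟨β, V, hcl, h1, h2, h3⟩ := ih (ε := ε / (2 * Q.M n)) (by positivity)
    have hev1 : ∀ᶠ K : ℕ in atTop, ∀ i, ‖(Q.V n (A.τ ^ K) (A.σ ^ K) ^ (d i + 1))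
        ((V ^ (d i + 1)) (D i))‖ ≤ Q.M n * (Q.t * Q.M n) ^ d i * ‖(V ^ (d i + 1)) (D i)‖ + ε / 2 :=
      eventually_all.2 fun i => Q.lacV hA hn (d i) _ (by positivity)
    have hev2 : ∀ᶠ K : ℕ in atTop, ∀ j, ‖aeval (B.τ ^ K) (Q.b n) (aeval B.τ β (U j))‖ ≤
        Q.M n * ‖aeval B.τ β (U j)‖ + ε / 2 :=
      eventually_all.2 fun j => Q.lacB hB hn _ (by positivity)
    obtain ⟨K, hK1, hK2⟩ := (hev1.and hev2).exists
    have hcb := Closer.b Q (A := A) hn K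
    have hVc : Commute (Q.V n (A.τ ^ K) (A.σ ^ K)) V :=
      hcb.comm V hcl.commute_τ.symm hcl.commute_σ.symm
    refine ⟨expand ℂ K (Q.b n) * β, Q.V n (A.τ ^ K) (A.σ ^ K) * V, hcb.mul hcl,
      fun k f => ?_, fun i => ?_, fun j => ?_⟩
    · rw [hVc.mul_pow, ContinuousLinearMap.mul_apply]
      have h1t : 0 < (1 - Q.t)⁻¹ := inv_pos.2 (by linarith [Q.ht1])
      calc _ ≤ (1 - Q.t)⁻¹ * (Q.t * Q.M n) ^ k * ‖(V ^ k) f‖ :=
            Q.norm_V_pow_le (A.pow K) hn k _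
        _ ≤ (1 - Q.t)⁻¹ * (Q.t * Q.M n) ^ k * (((1 - Q.t)⁻¹ * (Q.t * Q.M n) ^ k) ^ m * ‖f‖) :=
            mul_le_mul_of_nonneg_left (h1 k f) (mul_nonneg h1t.le (pow_nonneg htM0.le _))
        _ = _ := by rw [pow_succ]; ring
    · rw [hVc.mul_pow, ContinuousLinearMap.mul_apply]
      refine (hK1 i).trans ?_
      have h4 : Q.M n * (Q.t * Q.M n) ^ d i ≤ Q.M n := by
        calc Q.M n * (Q.t * Q.M n) ^ d i ≤ Q.M n * 1 :=
              mul_le_mul_of_nonneg_left (pow_le_one₀ htM0.le htM) hM0.le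
          _ = _ := mul_one _
      have h5 : 0 ≤ Q.M n * (Q.t * Q.M n) ^ d i := mul_nonneg hM0.le (pow_nonneg htM0.le _)
      have h6 : Q.M n * (Q.t * Q.M n) ^ d i * (ε / (2 * Q.M n)) ≤ ε / 2 := by
        calc Q.M n * (Q.t * Q.M n) ^ d i * (ε / (2 * Q.M n)) ≤ Q.M n * (ε / (2 * Q.M n)) :=
              mul_le_mul_of_nonneg_right h4 (by positivity)
          _ = ε / 2 := by field_simp
      have h7 := mul_le_mul_of_nonneg_left (h2 i) h5
      rw [pow_succ (Q.M n * (Q.t * Q.M n) ^ d i)]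
      nlinarith
    · rw [map_mul, ContinuousLinearMap.mul_apply, expand_aeval]
      refine (hK2 j).trans ?_
      have h6 : Q.M n * (ε / (2 * Q.M n)) = ε / 2 := by field_simp
      have h7 := mul_le_mul_of_nonneg_left (h3 j) hM0.le
      rw [pow_succ]
      nlinarith

/-- the final form of the closers -/
theorem closers {A : SS F Q.p} (hA : A.Tails) {B : SS G Q.q} (hB : B.Tails) {ι κ : Type}
    [Finite ι] [Finite κ] (D : ι → F) (H : ι → ℕ → F) (U : κ → G) {C : ℝ} (hC : 1 ≤ C)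
    (hH : ∀ i k, ‖H i k‖ ≤ C ^ (k + 1)) {ε : ℝ} (hε : 0 < ε) :
    ∃ (β : ℂ[X]) (V : F →L[ℂ] F), Closer A β V ∧
      (∃ C' : ℝ, ∀ k f, ‖(V ^ k) f‖ ≤ C' * ((2 * C)⁻¹) ^ k * ‖f‖) ∧
      (∀ i, ‖V (D i)‖ ≤ ‖D i‖ + ε) ∧ (∀ i k, ‖(V ^ (k + 2)) (H i k)‖ ≤ ε * (1 / 2) ^ k) ∧
      ∀ j, ‖aeval B.τ β (U j)‖ ≤ ‖U j‖ + ε := by
  have hC0 : 0 < C := by linarith
  -- constants
  set C1 := (1 - Q.t)⁻¹ with hC1
  have hC1p : 0 < C1 := inv_pos.2 (by linarith [Q.ht1])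
  set w := Real.sqrt (Real.sqrt Q.t) with hw
  have hw0 : 0 < w := Real.sqrt_pos.2 (Real.sqrt_pos.2 Q.ht)
  have hw2 : w ^ 2 = Real.sqrt Q.t := Real.sq_sqrt (Real.sqrt_nonneg _)
  set s := w ^ 2 with hs
  have hs2 : s ^ 2 = Q.t := by rw [hw2]; exact Real.sq_sqrt Q.ht.le
  have hs0 : 0 < s := by positivity
  have hs1 : s < 1 := by
    by_contra h
    push Not at h
    have : 1 ≤ s ^ 2 := one_le_pow₀ h
    linarith [Q.ht1]
  have hw1 : w < 1 := by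
    by_contra h
    push Not at h
    have : 1 ≤ w ^ 2 := one_le_pow₀ h
    linarith
  have hts : Q.t < s := by
    rw [← hs2]
    nlinarith
  obtain ⟨k1, hk1⟩ : ∃ k1 : ℕ, C1 * w ^ k1 ≤ 1 := by
    have h := (tendsto_pow_atTop_nhds_zero_of_lt_one hw0.le hw1).const_mul C1
    rw [mul_zero] at h
    obtain ⟨k, hk⟩ := (h.eventually (gt_mem_nhds (zero_lt_one))).exists
    exact ⟨k, hk.le⟩
  obtain ⟨m, hm1, hm2, hm3⟩ : ∃ m : ℕ, w ^ m * (2 * C) ≤ 1 ∧ w ^ m * C ≤ ε ∧ w ^ m * C ≤ ε / 8 := by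
    have h := (tendsto_pow_atTop_nhds_zero_of_lt_one hw0.le hw1).mul_const (2 * C)
    have h' := (tendsto_pow_atTop_nhds_zero_of_lt_one hw0.le hw1).mul_const C
    rw [zero_mul] at h h'
    obtain ⟨k, hk, hk', hk''⟩ := ((h.eventually (gt_mem_nhds (zero_lt_one))).and
      ((h'.eventually (gt_mem_nhds hε)).and
        (h'.eventually (gt_mem_nhds (show 0 < ε / 8 by positivity))))).exists
    exact ⟨k, hk.le, hk'.le, hk''.le⟩
  have hwm0 : 0 < w ^ m := pow_pos hw0 _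
  have hwm1 : w ^ m ≤ 1 := pow_le_one₀ hw0.le hw1.le
  have hsm : s ^ m = w ^ m * w ^ m := by rw [hs, ← pow_mul, mul_comm 2 m, pow_mul, sq]
  have hsm1 : s ^ m ≤ w ^ m := by
    rw [hsm]
    exact mul_le_of_le_one_right hwm0.le hwm1
  have hsm0 : 0 < s ^ m := pow_pos hs0 _
  obtain ⟨K0, hK0⟩ : ∃ K0 : ℝ, (0 < K0) ∧ (∀ i, ‖D i‖ ≤ K0) ∧ ∀ j, ‖U j‖ ≤ K0 := by
    have := Fintype.ofFinite ι
    have := Fintype.ofFinite κ
    refine ⟨∑ i, ‖D i‖ + ∑ j, ‖U j‖ + 1, by positivity, fun i => ?_, fun j => ?_⟩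
    · have h1 := Finset.single_le_sum (f := fun i => ‖D i‖) (fun i _ => norm_nonneg _)
        (Finset.mem_univ i)
      have h2 : 0 ≤ ∑ j, ‖U j‖ := Finset.sum_nonneg fun _ _ => norm_nonneg _
      linarith
    · have h1 := Finset.single_le_sum (f := fun j => ‖U j‖) (fun i _ => norm_nonneg _)
        (Finset.mem_univ j)
      have h2 : 0 ≤ ∑ i, ‖D i‖ := Finset.sum_nonneg fun _ _ => norm_nonneg _
      linarith
  obtain ⟨hK00, hKD, hKU⟩ := hK0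
  obtain ⟨n, hn, hn1, hn2, hn3⟩ : ∃ n : ℕ, n ≠ 0 ∧ Q.t * Q.M n ≤ s ∧ Q.M n ^ m ≤ 2 ∧
      (Q.M n ^ m - 1) * K0 ≤ ε / 2 := by
    have h1 : Tendsto (fun n => Q.t * Q.M n) atTop (𝓝 (Q.t * 1)) := Q.M_tendsto.const_mul _
    have h2 : Tendsto (fun n => Q.M n ^ m) atTop (𝓝 (1 ^ m)) := Q.M_tendsto.pow m
    have h3 : Tendsto (fun n => (Q.M n ^ m - 1) * K0) atTop (𝓝 ((1 ^ m - 1) * K0)) :=
      (h2.sub_const 1).mul_const K0
    rw [mul_one] at h1
    rw [one_pow] at h2 h3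
    rw [sub_self, zero_mul] at h3
    obtain ⟨n, hn0, hn1, hn2, hn3⟩ := ((eventually_ne_atTop 0).and
      ((h1.eventually (gt_mem_nhds hts)).and ((h2.eventually (gt_mem_nhds one_lt_two)).and
        (h3.eventually (gt_mem_nhds (show 0 < ε / 2 by positivity)))))).exists
    exact ⟨n, hn0, hn1.le, hn2.le, hn3.le⟩
  have hM1 := Q.one_le_M hn
  have hM0 : 0 < Q.M n := by linarith
  have htM0 : 0 < Q.t * Q.M n := mul_pos Q.ht hM0
  have hMm1 : 1 ≤ Q.M n ^ m := one_le_pow₀ hM1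
  obtain ⟨β, V, hcl, h1, h2, h3⟩ := Q.closers_aux hA hB hn (hn1.trans hs1.le) m
    (ι := ι ⊕ (ι × Fin k1)) (κ := κ) (Sum.elim (fun _ => 0) fun ik => (ik.2 : ℕ) + 1)
    (Sum.elim D fun ik => H ik.1 ik.2) U (ε := ε / 2 * (1 / 2) ^ k1) (by positivity)
  have hsmall : ε / 2 * (1 / 2) ^ k1 ≤ ε / 2 :=
    mul_le_of_le_one_right (by positivity) (pow_le_one₀ (by norm_num) (by norm_num))
  refine ⟨β, V, hcl, ⟨C1 ^ m, fun k f => ?_⟩, fun i => ?_, fun i k => ?_, fun j => ?_⟩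
  · refine (h1 k f).trans (mul_le_mul_of_nonneg_right ?_ (norm_nonneg _))
    rw [mul_pow]
    refine mul_le_mul_of_nonneg_left ?_ (pow_nonneg hC1p.le _)
    calc ((Q.t * Q.M n) ^ k) ^ m = ((Q.t * Q.M n) ^ m) ^ k := by
          rw [← pow_mul, ← pow_mul, mul_comm k m]
      _ ≤ ((2 * C)⁻¹) ^ k := by
        refine pow_le_pow_left₀ (pow_nonneg htM0.le _) ?_ k
        calc (Q.t * Q.M n) ^ m ≤ s ^ m := pow_le_pow_left₀ htM0.le hn1 m
          _ ≤ w ^ m := hsm1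
          _ ≤ (2 * C)⁻¹ := by
            rw [← one_div, le_div_iff₀ (by positivity)]
            exact hm1
  · have h := h2 (Sum.inl i)
    simp only [Sum.elim_inl, zero_add, pow_zero, mul_one, pow_one] at h
    refine h.trans ?_
    have h5 : (Q.M n ^ m - 1) * ‖D i‖ ≤ ε / 2 :=
      (mul_le_mul_of_nonneg_left (hKD i) (by linarith)).trans hn3
    linarith
  · rcases lt_or_ge k k1 with hk | hk
    · have h := h2 (Sum.inr (i, ⟨k, hk⟩))
      simp only [Sum.elim_inr] at h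
      refine h.trans ?_
      have i1 : (Q.M n * (Q.t * Q.M n) ^ (k + 1)) ^ m ≤ 2 * (s ^ m) ^ (k + 1) := by
        rw [mul_pow]
        refine mul_le_mul hn2 ?_ (pow_nonneg (pow_nonneg htM0.le _) _) (by norm_num)
        calc ((Q.t * Q.M n) ^ (k + 1)) ^ m = ((Q.t * Q.M n) ^ m) ^ (k + 1) := by
              rw [← pow_mul, ← pow_mul, mul_comm (k + 1) m]
          _ ≤ (s ^ m) ^ (k + 1) :=
              pow_le_pow_left₀ (pow_nonneg htM0.le _) (pow_le_pow_left₀ htM0.le hn1 m) _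
      have i2 : (Q.M n * (Q.t * Q.M n) ^ (k + 1)) ^ m * ‖H i k‖ ≤ 2 * (s ^ m * C) ^ (k + 1) := by
        calc _ ≤ 2 * (s ^ m) ^ (k + 1) * C ^ (k + 1) :=
              mul_le_mul i1 (hH i k) (norm_nonneg _) (by positivity)
          _ = _ := by rw [mul_pow]; ring
      have i3 : s ^ m * C ≤ 1 / 2 := by
        have : s ^ m * C ≤ w ^ m * C := mul_le_mul_of_nonneg_right hsm1 hC0.le
        linarith
      have i4 : s ^ m * C ≤ ε / 8 := (mul_le_mul_of_nonneg_right hsm1 hC0.le).trans hm3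
      have i5 : (s ^ m * C) ^ (k + 1) ≤ (1 / 2) ^ k * (ε / 8) := by
        rw [pow_succ]
        exact mul_le_mul (pow_le_pow_left₀ (by positivity) i3 k) i4 (by positivity) (by positivity)
      have i6 : (1 / 2 : ℝ) ^ k1 ≤ (1 / 2) ^ k :=
        pow_le_pow_of_le_one (by norm_num) (by norm_num) hk.le
      have i7 : ε / 2 * (1 / 2) ^ k1 ≤ ε / 2 * (1 / 2) ^ k :=
        mul_le_mul_of_nonneg_left i6 (by positivity)
      have i8 : (0 : ℝ) < (1 / 2) ^ k := by positivity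
      nlinarith
    · have h := h1 (k + 2) (H i k)
      have i0 : C1 * (Q.t * Q.M n) ^ (k + 2) ≤ w ^ (k + 2) := by
        calc C1 * (Q.t * Q.M n) ^ (k + 2) ≤ C1 * s ^ (k + 2) := by
              refine mul_le_mul_of_nonneg_left (pow_le_pow_left₀ htM0.le hn1 _) hC1p.le
          _ = (C1 * w ^ (k + 2)) * w ^ (k + 2) := by rw [hs]; ring
          _ ≤ (C1 * w ^ k1) * w ^ (k + 2) := by
              refine mul_le_mul_of_nonneg_right ?_ (by positivity)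
              exact mul_le_mul_of_nonneg_left (pow_le_pow_of_le_one hw0.le hw1.le (by omega)) hC1p.le
          _ ≤ 1 * w ^ (k + 2) := mul_le_mul_of_nonneg_right hk1 (by positivity)
          _ = _ := one_mul _
      have i1 : (C1 * (Q.t * Q.M n) ^ (k + 2)) ^ m ≤ (w ^ m) ^ (k + 2) := by
        calc _ ≤ (w ^ (k + 2)) ^ m := pow_le_pow_left₀ (by positivity) i0 m
          _ = _ := by rw [← pow_mul, ← pow_mul, mul_comm]
      refine h.trans ?_
      have i2 : w ^ m * C ≤ 1 / 2 := by linarith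
      calc (C1 * (Q.t * Q.M n) ^ (k + 2)) ^ m * ‖H i k‖ ≤ (w ^ m) ^ (k + 2) * C ^ (k + 1) :=
            mul_le_mul i1 (hH i k) (norm_nonneg _) (by positivity)
        _ = (w ^ m * C) ^ k * (w ^ m * C) * w ^ m := by ring
        _ ≤ (1 / 2) ^ k * ε * 1 := by
            refine mul_le_mul (mul_le_mul (pow_le_pow_left₀ (by positivity) i2 k) hm2
              (by positivity) (by positivity)) hwm1 (by positivity) (by positivity)
        _ = _ := by ring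
  · refine (h3 j).trans ?_
    have h5 : (Q.M n ^ m - 1) * ‖U j‖ ≤ ε / 2 :=
      (mul_le_mul_of_nonneg_left (hKU j) (by linarith)).trans hn3
    linarith

end Par

end Pool.Agent.V7H86.HD
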