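import Mathlib
import Pool.Agent.V7H86.HD.A4

/-!
# The induction over the list of products
-/

set_option autoImplicit false
set_option linter.deprecated false
set_option linter.unusedSectionVars false
set_option linter.unusedVariables false

open Filter Polynomial
open scoped Topology ENNReal

namespace Pool.Agent.V7H86.HD

theorem exists_rpow_add_le (a : ℝ) {r ε : ℝ} (hr : 0 < r) (hε : 0 < ε) :
    ∀ᶠ δ : ℝ in 𝓝[>] 0, (a + δ) ^ r ≤ a ^ r + ε := by
  have h : Continuous fun δ : ℝ => (a + δ) ^ r :=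
    (continuous_const.add continuous_id).rpow_const fun _ => Or.inr hr.le
  have h1 : Tendsto (fun δ : ℝ => (a + δ) ^ r) (𝓝[>] 0) (𝓝 (a ^ r)) := by
    have := (h.tendsto 0).mono_left (nhdsWithin_le_nhds (s := Set.Ioi (0 : ℝ)))
    simpa using this
  exact (h1.eventually (gt_mem_nhds (by linarith : a ^ r < a ^ r + ε))).mono fun _ h => h.le

variable (Q : Par)

namespace Par

variable {F G : Type} [NormedAddCommGroup F] [NormedSpace ℂ F] [CompleteSpace F]
  [NormedAddCommGroup G] [NormedSpace ℂ G] [CompleteSpace G]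

theorem comm_aeval {r : ℝ} {A : SS F r} {β : ℂ[X]} {V : F →L[ℂ] F} (h : Closer A β V)
    (a : ℂ[X]) (f : F) : V (aeval A.τ a f) = aeval A.τ a (V f) := by
  have hc : Commute V (aeval A.τ a) := by
    refine h.comm _ ?_ ?_
    · have := Commute.map (Commute.all (X : ℂ[X]) a) (aeval A.τ)
      simpa using this
    · have h1 : Commute A.σ A.τ := A.comm.symm
      induction a using Polynomial.induction_on' with
      | add p q hp hq =>
        rw [map_add]
        exact hp.add_right hq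
      | monomial n c =>
        rw [aeval_monomial]
        exact (Algebra.commute_algebraMap_right c A.σ).mul_right (h1.pow_right n)
  have := congrArg (fun B : F →L[ℂ] F => B f) hc.eq
  simpa [ContinuousLinearMap.mul_apply] using this

theorem comm_σ {r : ℝ} {A : SS F r} {β : ℂ[X]} {V : F →L[ℂ] F} (h : Closer A β V) (K : ℕ)
    (f : F) : V ((A.σ ^ K) f) = (A.σ ^ K) (V f) := by
  have := congrArg (fun B : F →L[ℂ] F => B f) (h.commute_σ.pow_right K).eq
  simpa [ContinuousLinearMap.mul_apply] using this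

theorem aeval_σ {r : ℝ} (A : SS F r) (a : ℂ[X]) (K : ℕ) (f : F) :
    aeval A.τ a ((A.σ ^ K) f) = (A.σ ^ K) (aeval A.τ a f) := by
  have hc : Commute (aeval A.τ a) (A.σ ^ K) := by
    have h1 : Commute A.σ A.τ := A.comm.symm
    induction a using Polynomial.induction_on' with
    | add p q hp hq =>
      rw [map_add]
      exact hp.add_left hq
    | monomial n c =>
      rw [aeval_monomial]
      exact (Algebra.commute_algebraMap_left c (A.σ ^ K)).mul_left ((h1.pow_pow K n).symm)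
  have := congrArg (fun B : F →L[ℂ] F => B f) hc.eq
  simpa [ContinuousLinearMap.mul_apply] using this

theorem aeval_X_pow_mul {r : ℝ} (A : SS F r) (a : ℂ[X]) (K : ℕ) (f : F) :
    aeval A.τ (X ^ K * a) f = (A.τ ^ K) (aeval A.τ a f) := by
  rw [map_mul, map_pow, aeval_X, ContinuousLinearMap.mul_apply]

/-- the induction over the list -/
theorem stepList {A : SS F Q.p} (hA : A.Tails) {B : SS G Q.q} (hB : B.Tails) (c : G) {ι : Type}
    [Finite ι] (l : List (ℂ[X] × (ι → F))) :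
    ∀ (G0 : ℂ[X]) (x : ι → F) (β0 : ℂ[X]) (V0 : F →L[ℂ] F), Closer A β0 V0 → ∀ (u : G)
      (w : ι → F) (ε : ℝ), 0 < ε → ∀ K0 : ℕ, ∃ (G1 : ℂ[X]) (x1 : ι → F) (β1 : ℂ[X])
      (V1 : F →L[ℂ] F), Closer A β1 V1 ∧ X ^ K0 ∣ G1 - G0 ∧
      ‖u + aeval B.τ (G1 - G0) c‖ ^ Q.q ≤
        ‖u‖ ^ Q.q + (l.map fun ab => ‖aeval B.τ ab.1 c‖ ^ Q.q).sum + ε ∧
      (∀ i, ‖w i + (x1 i - x i)‖ ^ Q.p ≤ ‖w i‖ ^ Q.p + (l.map fun ab => ‖ab.2 i‖ ^ Q.p).sum + ε) ∧
      ‖aeval B.τ β1 c‖ ≤ ‖aeval B.τ β0 c‖ + ε ∧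
      ∀ i, ‖V1 (A.P (aeval A.τ G1 (x1 i)))‖ ≤
        ‖V0 (A.P (aeval A.τ G0 (x i) - (l.map fun ab => aeval A.τ ab.1 (ab.2 i)).sum))‖ + ε := by
  have hp0 : 0 < Q.p := by linarith [Q.hp1]
  have hq0 : 0 < Q.q := Q.hq
  induction l with
  | nil =>
    intro G0 x β0 V0 hcl u w ε hε K0
    refine ⟨G0, x, β0, V0, hcl, by simp, ?_, fun i => ?_, by linarith, fun i => ?_⟩
    · simp [hε.le]
    · simp [hε.le]
    · simp [hε.le]
  | cons ab l ih =>
    obtain ⟨a, b⟩ := ab
    intro G0 x β0 V0 hcl u w ε hε K0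
    -- the small number
    have hev : ∀ᶠ δ : ℝ in 𝓝[>] 0, (‖aeval B.τ a c‖ + δ) ^ Q.q ≤ ‖aeval B.τ a c‖ ^ Q.q + ε / 4 ∧
        (∀ i, (‖b i‖ + δ) ^ Q.p ≤ ‖b i‖ ^ Q.p + ε / 4) ∧ δ ≤ ε / 8 := by
      refine (exists_rpow_add_le _ hq0 (by positivity)).and ((eventually_all.2 fun i =>
        exists_rpow_add_le _ hp0 (by positivity)).and ?_)
      have : ∀ᶠ δ : ℝ in 𝓝 0, δ < ε / 8 := gt_mem_nhds (by positivity)
      exact (this.filter_mono nhdsWithin_le_nhds).mono fun _ h => h.le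
    obtain ⟨δ, ⟨hδ1, hδ2, hδ3⟩, hδ0⟩ := (hev.and self_mem_nhdsWithin).exists
    have hδ0 : 0 < δ := hδ0
    -- the vectors
    set ρ : ι → F := fun i => V0 (A.P (aeval A.τ G0 (x i) -
      (((a, b) :: l).map fun ab => aeval A.τ ab.1 (ab.2 i)).sum)) with hρ
    set θ : ι → F := fun i => V0 (aeval A.τ G0 (b i)) with hθ
    have hfin := Fintype.ofFinite ι
    set C := 1 + ∑ i, ‖θ i‖ with hC
    have hC1 : 1 ≤ C := by
      have : 0 ≤ ∑ i, ‖θ i‖ := Finset.sum_nonneg fun _ _ => norm_nonneg _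
      linarith
    obtain ⟨β, V, hcl', -, hD, hH, hU⟩ := Q.closers hA hB (ι := ι ⊕ ι) (κ := Fin 2)
      (Sum.elim ρ b) (Sum.elim (fun _ _ => 0) fun i k => if k = 0 then θ i else 0)
      ![aeval B.τ β0 c, aeval B.τ a c] hC1 (by
        rintro (i | i) k
        · simp only [Sum.elim_inl, norm_zero]
          positivity
        · simp only [Sum.elim_inr]
          by_cases hk : k = 0
          · subst hk
            simp only [if_true, zero_add, pow_one]
            have := Finset.single_le_sum (f := fun i => ‖θ i‖) (fun i _ => norm_nonneg _)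
              (Finset.mem_univ i)
            linarith
          · rw [if_neg hk, norm_zero]
            positivity) hδ0
    have hρV : ∀ i, ‖V (ρ i)‖ ≤ ‖ρ i‖ + δ := fun i => hD (Sum.inl i)
    have hbV : ∀ i, ‖V (b i)‖ ≤ ‖b i‖ + δ := fun i => hD (Sum.inr i)
    have hθV : ∀ i, ‖(V ^ 2) (θ i)‖ ≤ δ := fun i => by
      have := hH (Sum.inr i) 0
      simpa using this
    have hU0 : ‖aeval B.τ β (aeval B.τ β0 c)‖ ≤ ‖aeval B.τ β0 c‖ + δ := hU 0
    have hU1 : ‖aeval B.τ β (aeval B.τ a c)‖ ≤ ‖aeval B.τ a c‖ + δ := hU 1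
    -- choose K
    have hK1 := B.add_far' hq0 hB u (aeval B.τ (β * a) c) (ε := ε / 4) (by positivity)
    have hK2 : ∀ᶠ K : ℕ in atTop, ∀ i, ‖w i + (A.σ ^ K) (-(V (b i)))‖ ^ Q.p ≤
        ‖w i‖ ^ Q.p + ‖-(V (b i))‖ ^ Q.p + ε / 4 :=
      eventually_all.2 fun i => A.add_far hp0 hA (w i) _ (by positivity)
    have hK3 : ∀ᶠ K : ℕ in atTop, ∀ i, ‖(V0 * V) ((A.σ ^ K) (aeval A.τ G0 (V (b i))) -
        A.P ((A.σ ^ K) (aeval A.τ G0 (V (b i)))))‖ < ε / 8 := by
      refine eventually_all.2 fun i => ?_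
      have h := ((V0 * V).continuous.tendsto 0).comp (hA.left (aeval A.τ G0 (V (b i))))
      rw [map_zero] at h
      have h2 := h.norm
      rw [norm_zero] at h2
      exact h2.eventually (gt_mem_nhds (by positivity))
    have hK4 : ∀ᶠ K : ℕ in atTop, ∀ i, ‖(V0 * V) (A.P ((A.τ ^ K) (aeval A.τ (β * a) (x i))))‖ <
        ε / 8 := by
      refine eventually_all.2 fun i => ?_
      have h := ((V0 * V).continuous.tendsto 0).comp (hA.right (aeval A.τ (β * a) (x i)))
      rw [map_zero] at h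
      have h2 := h.norm
      rw [norm_zero] at h2
      exact h2.eventually (gt_mem_nhds (by positivity))
    obtain ⟨K, hK1, hK2, hK3, hK4, hKK⟩ :=
      (hK1.and (hK2.and (hK3.and (hK4.and (eventually_ge_atTop K0))))).exists
    set G1 := G0 + X ^ K * (β * a) with hG1
    set x1 : ι → F := fun i => x i - (A.σ ^ K) (V (b i)) with hx1
    have hclm := hcl.mul hcl'
    have hG10 : G1 - G0 = X ^ K * (β * a) := by rw [hG1]; ring
    have key : ∀ i, aeval A.τ G1 (x1 i) = aeval A.τ G0 (x i) - aeval A.τ a (b i) -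
        (A.σ ^ K) (aeval A.τ G0 (V (b i))) + (A.τ ^ K) (aeval A.τ (β * a) (x i)) := by
      intro i
      have h1 : (A.τ ^ K) (aeval A.τ (β * a) ((A.σ ^ K) (V (b i)))) = aeval A.τ a (b i) := by
        rw [aeval_σ, A.τσ_pow, mul_comm β a, map_mul, ContinuousLinearMap.mul_apply, hcl'.inv]
      rw [hG1, hx1, map_add, ContinuousLinearMap.add_apply, aeval_X_pow_mul, map_sub, map_sub,
        map_sub, h1, aeval_σ]
      abel
    obtain ⟨G2, x2, β2, V2, hcl2, hdvd, hq2, hp2, hβ2, hV2⟩ := ih G1 x1 (β0 * β) (V0 * V) hclm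
      (u + aeval B.τ (G1 - G0) c) (fun i => w i + (x1 i - x i)) (ε / 4) (by positivity) K0
    refine ⟨G2, x2, β2, V2, hcl2, ?_, ?_, fun i => ?_, ?_, fun i => ?_⟩
    · have : G2 - G0 = (G2 - G1) + X ^ K * (β * a) := by rw [← hG10]; ring
      rw [this]
      exact dvd_add hdvd ((pow_dvd_pow X hKK).trans (dvd_mul_right _ _))
    · have e1 : u + aeval B.τ (G2 - G0) c =
          (u + aeval B.τ (G1 - G0) c) + aeval B.τ (G2 - G1) c := by
        rw [add_assoc, ← ContinuousLinearMap.add_apply, ← map_add]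
        congr 4
        ring
      rw [e1]
      refine hq2.trans ?_
      have e2 : ‖u + aeval B.τ (G1 - G0) c‖ ^ Q.q ≤ ‖u‖ ^ Q.q + ‖aeval B.τ a c‖ ^ Q.q + ε / 2 := by
        rw [hG10, aeval_X_pow_mul]
        refine hK1.trans ?_
        have : ‖aeval B.τ (β * a) c‖ ^ Q.q ≤ ‖aeval B.τ a c‖ ^ Q.q + ε / 4 := by
          rw [map_mul, ContinuousLinearMap.mul_apply]
          exact (Real.rpow_le_rpow (norm_nonneg _) hU1 hq0.le).trans hδ1
        linarith
      rw [List.map_cons, List.sum_cons]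
      linarith
    · have e1 : w i + (x2 i - x i) = w i + (x1 i - x i) + (x2 i - x1 i) := by abel
      rw [e1]
      refine (hp2 i).trans ?_
      have e2 : ‖w i + (x1 i - x i)‖ ^ Q.p ≤ ‖w i‖ ^ Q.p + ‖b i‖ ^ Q.p + ε / 2 := by
        have e3 : w i + (x1 i - x i) = w i + (A.σ ^ K) (-(V (b i))) := by
          simp only [hx1, map_neg]
          abel
        rw [e3]
        refine (hK2 i).trans ?_
        have : ‖-(V (b i))‖ ^ Q.p ≤ ‖b i‖ ^ Q.p + ε / 4 := by
          rw [norm_neg]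
          exact (Real.rpow_le_rpow (norm_nonneg _) (hbV i) hp0.le).trans (hδ2 i)
        linarith
      rw [List.map_cons, List.sum_cons]
      linarith
    · refine hβ2.trans ?_
      have : ‖aeval B.τ (β0 * β) c‖ ≤ ‖aeval B.τ β0 c‖ + δ := by
        rw [mul_comm, map_mul, ContinuousLinearMap.mul_apply]
        exact hU0
      linarith
    · refine (hV2 i).trans ?_
      set g := aeval A.τ G0 (V (b i)) with hg
      have hVV0 : Commute V V0 := hcl'.comm V0 hcl.commute_τ.symm hcl.commute_σ.symm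
      have hVV0' : ∀ f, V (V0 f) = V0 (V f) := fun f => by
        have := congrArg (fun B : F →L[ℂ] F => B f) hVV0.eq
        simpa [ContinuousLinearMap.mul_apply] using this
      have e1 : (V0 * V) (A.P (aeval A.τ G1 (x1 i) -
          (l.map fun ab => aeval A.τ ab.1 (ab.2 i)).sum)) =
          V (ρ i) - (A.σ ^ K) ((V ^ 2) (θ i)) + (V0 * V) ((A.σ ^ K) g - A.P ((A.σ ^ K) g)) +
            (V0 * V) (A.P ((A.τ ^ K) (aeval A.τ (β * a) (x i)))) := by
        have e2 : V (ρ i) = (V0 * V) (A.P (aeval A.τ G0 (x i) -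
            (((a, b) :: l).map fun ab => aeval A.τ ab.1 (ab.2 i)).sum)) := by
          rw [hρ, ContinuousLinearMap.mul_apply]
          exact hVV0' _
        have e3 : (A.σ ^ K) ((V ^ 2) (θ i)) = (V0 * V) ((A.σ ^ K) g) := by
          rw [ContinuousLinearMap.mul_apply, comm_σ hcl', comm_σ hcl, hg, comm_aeval hcl',
            ← comm_aeval hcl', ← comm_aeval hcl', hθ, pow_two, ContinuousLinearMap.mul_apply,
            hVV0', hVV0']
        rw [e2, e3, key, List.map_cons, List.sum_cons]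
        simp only [map_sub, map_add]
        abel
      rw [e1]
      have n1 := hρV i
      have n2 := hθV i
      have n3 := (hK3 i).le
      have n4 := (hK4 i).le
      have n5 : ‖(A.σ ^ K) ((V ^ 2) (θ i))‖ ≤ δ := by
        rw [A.isoσpow]
        exact n2
      have n6 := norm_add_le (V (ρ i) - (A.σ ^ K) ((V ^ 2) (θ i)) +
        (V0 * V) ((A.σ ^ K) g - A.P ((A.σ ^ K) g)))
        ((V0 * V) (A.P ((A.τ ^ K) (aeval A.τ (β * a) (x i)))))
      have n7 := norm_add_le (V (ρ i) - (A.σ ^ K) ((V ^ 2) (θ i)))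
        ((V0 * V) ((A.σ ^ K) g - A.P ((A.σ ^ K) g)))
      have n8 := norm_sub_le (V (ρ i)) ((A.σ ^ K) ((V ^ 2) (θ i)))
      show _ ≤ ‖ρ i‖ + ε
      linarith

end Par

end Pool.Agent.V7H86.HD
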