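import Mathlib
import Pool.Agent.V7H86.HD.A5

/-!
# Theorem B: exact solutions near approximate solutions
-/

set_option autoImplicit false
set_option linter.deprecated false
set_option linter.unusedSectionVars false
set_option linter.unusedVariables false

open Filter Polynomial
open scoped Topology ENNReal

namespace Pool.Agent.V7H86.HD

namespace Par

section general

variable {F : Type} [NormedAddCommGroup F] [NormedSpace ℂ F] [CompleteSpace F]

theorem P_aeval_P {r : ℝ} (A : SS F r) (a : ℂ[X]) (f : F) :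
    A.P (aeval A.τ a (A.P f)) = A.P (aeval A.τ a f) := by
  rw [aeval_apply, aeval_apply, map_sum, map_sum]
  refine Finset.sum_congr rfl fun j _ => ?_
  rw [map_smul, map_smul, A.PτP_pow]

/-- Neumann series -/
theorem neumann (Gop D R : F →L[ℂ] F) (hDR : D * R = 1) (hGR : Commute Gop R) (C' : ℝ)
    (hb : ∀ k f, ‖(R ^ (k + 1)) ((Gop ^ k) f)‖ ≤ C' * (1 / 2) ^ k * ‖f‖) :
    ∃ W : F →L[ℂ] F, (Gop + D) * W = 1 ∧ (∀ f, ‖W f‖ ≤ 2 * C' * ‖f‖) ∧
      ∀ f, ∀ ε : ℝ, (∀ k, ‖(R ^ (k + 2)) ((Gop ^ (k + 1)) f)‖ ≤ ε * (1 / 2) ^ k) →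
        ‖W f‖ ≤ ‖R f‖ + 2 * ε := by
  by_cases hC' : 0 ≤ C'
  swap
  · -- the space is trivial
    have hz : ∀ f : F, f = 0 := fun f => by
      by_contra hf
      have h1 := hb 0 f
      have h2 : 0 < ‖f‖ := norm_pos_iff.2 hf
      have h3 := norm_nonneg ((R ^ (0 + 1)) ((Gop ^ 0) f))
      push Not at hC'
      have : C' * (1 / 2) ^ 0 * ‖f‖ < 0 := by
        rw [pow_zero, mul_one]
        exact mul_neg_of_neg_of_pos hC' h2
      linarith
    refine ⟨0, ?_, fun f => by rw [hz f]; simp, fun f ε _ => ?_⟩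
    · ext f
      rw [hz f]
      simp
    · have : ‖R f‖ = 0 := by rw [hz (R f), norm_zero]
      rw [this]
      rename_i h
      have h4 := h 0
      have h5 := norm_nonneg ((R ^ (0 + 2)) ((Gop ^ (0 + 1)) f))
      simp only [pow_zero, mul_one] at h4
      simp only [ContinuousLinearMap.zero_apply, norm_zero]
      linarith
  set T : ℕ → F →L[ℂ] F := fun k => (-1 : ℂ) ^ k • (R ^ (k + 1) * Gop ^ k) with hT
  have hTn : ∀ k, ‖T k‖ ≤ C' * (1 / 2) ^ k := fun k => by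
    refine ContinuousLinearMap.opNorm_le_bound _ (by positivity) fun f => ?_
    have : T k f = (-1 : ℂ) ^ k • (R ^ (k + 1)) ((Gop ^ k) f) := rfl
    rw [this, norm_smul, norm_pow, norm_neg, norm_one, one_pow, one_mul]
    exact hb k f
  have hgs : HasSum (fun k : ℕ => C' * (1 / 2 : ℝ) ^ k) (2 * C') := by
    have := (hasSum_geometric_of_lt_one (r := (1 / 2 : ℝ)) (by norm_num) (by norm_num)).mul_left C'
    rw [show (2 * C' : ℝ) = C' * (1 - 1 / 2)⁻¹ by norm_num [mul_comm]]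
    exact this
  have hsum : Summable T := Summable.of_norm_bounded hgs.summable hTn
  refine ⟨∑' k, T k, ?_, fun f => ?_, fun f ε hε => ?_⟩
  · have h1 : D * T 0 = 1 := by simp [hT, hDR]
    have h2 : ∀ k, D * T (k + 1) = -(Gop * T k) := fun k => by
      have hc : Commute Gop (R ^ (k + 1)) := hGR.pow_right _
      calc D * T (k + 1) = (-1 : ℂ) ^ (k + 1) • ((D * R) * R ^ (k + 1) * Gop ^ (k + 1)) := by
            simp only [hT, mul_smul_comm, pow_succ' R (k + 1), mul_assoc]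
        _ = (-1 : ℂ) ^ (k + 1) • (R ^ (k + 1) * Gop * Gop ^ k) := by
            rw [hDR, one_mul, pow_succ' Gop, mul_assoc]
        _ = (-1 : ℂ) ^ (k + 1) • (Gop * R ^ (k + 1) * Gop ^ k) := by rw [hc.eq]
        _ = -(Gop * T k) := by
            rw [hT, mul_smul_comm, pow_succ, mul_neg_one, neg_smul, mul_assoc]
    have h3 : (Gop + D) * ∑' k, T k = (∑' k, Gop * T k) + ∑' k, D * T k := by
      rw [add_mul, hsum.tsum_mul_left, hsum.tsum_mul_left]
    rw [h3, (hsum.mul_left D).tsum_eq_zero_add, h1]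
    simp only [h2]
    rw [tsum_neg]
    abel
  · have h := (hsum.hasSum.mapL (ContinuousLinearMap.apply ℂ F f))
    have h' : ‖(∑' k, T k) f‖ ≤ 2 * C' * ‖f‖ := by
      have e : (∑' k, T k) f = ∑' k, T k f := h.tsum_eq.symm
      rw [e]
      have hg2 : HasSum (fun k : ℕ => C' * (1 / 2 : ℝ) ^ k * ‖f‖) (2 * C' * ‖f‖) :=
        hgs.mul_right _
      refine tsum_of_norm_bounded hg2 fun k => ?_
      exact (T k).le_of_opNorm_le (hTn k) f
    exact h'
  · have h := (hsum.hasSum.mapL (ContinuousLinearMap.apply ℂ F f))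
    have e : (∑' k, T k) f = ∑' k, T k f := h.tsum_eq.symm
    have hs : Summable fun k => T k f := h.summable
    rw [e, hs.tsum_eq_zero_add]
    have e0 : T 0 f = R f := by simp [hT]
    rw [e0]
    refine (norm_add_le _ _).trans ?_
    have hg2 : HasSum (fun k : ℕ => ε * (1 / 2 : ℝ) ^ k) (2 * ε) := by
      have := (hasSum_geometric_of_lt_one (r := (1 / 2 : ℝ)) (by norm_num)
        (by norm_num)).mul_left ε
      rw [show (2 * ε : ℝ) = ε * (1 - 1 / 2)⁻¹ by norm_num [mul_comm]]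
      exact this
    have : ‖∑' k, T (k + 1) f‖ ≤ 2 * ε := by
      refine tsum_of_norm_bounded hg2 fun k => ?_
      have e1 : T (k + 1) f = (-1 : ℂ) ^ (k + 1) • (R ^ (k + 2)) ((Gop ^ (k + 1)) f) := rfl
      rw [e1, norm_smul, norm_pow, norm_neg, norm_one, one_pow, one_mul]
      exact hε k
    linarith

/-- exact solutions for the polynomial and its perturbations by constants -/
theorem perturb {r : ℝ} (hr : 0 < r) (A : SS F r) (G1 : ℂ[X]) (W : F →L[ℂ] F)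
    (hW : aeval A.τ G1 * W = 1) {ι : Type} [Finite ι] (x1 : ι → F) {ε : ℝ} (hε : 0 < ε) :
    ∃ δ > 0, ∀ z : ℂ, ‖z‖ < δ → ∀ i, ∃ y, A.P y = y ∧ A.P (aeval A.τ (G1 - C z) y) = 0 ∧
      ‖y - A.P (x1 i)‖ ≤ ‖W (A.P (aeval A.τ G1 (x1 i)))‖ + ε := by
  have hfin := Fintype.ofFinite ι
  set w := ‖W‖ with hw
  have hw0 : 0 ≤ w := norm_nonneg _
  set S := ∑ i, (‖x1 i‖ + ‖aeval A.τ G1 (x1 i)‖) with hS
  have hSi : ∀ i, ‖x1 i‖ + ‖aeval A.τ G1 (x1 i)‖ ≤ S := fun i =>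
    Finset.single_le_sum (f := fun i => ‖x1 i‖ + ‖aeval A.τ G1 (x1 i)‖)
      (fun i _ => by positivity) (Finset.mem_univ i)
  have hS0 : 0 ≤ S := Finset.sum_nonneg fun _ _ => by positivity
  set C0 := w * S + 2 * w ^ 2 * S with hC0
  have hC00 : 0 ≤ C0 := by positivity
  refine ⟨min 1 (min (1 / (2 * (w + 1))) (ε / (C0 + 1))), by positivity, fun z hz i => ?_⟩
  have hz1 : ‖z‖ ≤ 1 := (hz.le.trans (min_le_left _ _))
  have hz2 : ‖z‖ ≤ 1 / (2 * (w + 1)) := hz.le.trans ((min_le_right _ _).trans (min_le_left _ _))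
  have hz3 : ‖z‖ ≤ ε / (C0 + 1) := hz.le.trans ((min_le_right _ _).trans (min_le_right _ _))
  have hzW : ‖z • W‖ ≤ 1 / 2 := by
    rw [norm_smul]
    calc ‖z‖ * ‖W‖ ≤ 1 / (2 * (w + 1)) * (w + 1) := by
          refine mul_le_mul hz2 (by linarith) hw0 (by positivity)
      _ = 1 / 2 := by field_simp
  have hzW1 : ‖z • W‖ < 1 := lt_of_le_of_lt hzW (by norm_num)
  set f := A.P (aeval A.τ (G1 - C z) (x1 i)) with hf
  set u := inv1 (z • W) f with hu
  have hu1 : u - z • W u = f := inv1_apply' hzW1 f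
  have hu2 : ‖u‖ ≤ 2 * ‖f‖ := by
    have := norm_inv1_le (by norm_num) hzW (by norm_num) f
    norm_num at this
    exact this
  have hWu : aeval A.τ (G1 - C z) (W u) = f := by
    rw [map_sub, ContinuousLinearMap.sub_apply, aeval_C]
    have h1 : aeval A.τ G1 (W u) = u := by
      have := congrArg (fun B : F →L[ℂ] F => B u) hW
      simpa using this
    rw [h1, Algebra.algebraMap_eq_smul_one]
    exact hu1
  refine ⟨A.P (x1 i - W u), A.PP _, ?_, ?_⟩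
  · rw [P_aeval_P, map_sub, hWu, map_sub, ← hf, hf, A.PP, sub_self]
  · have e1 : A.P (x1 i - W u) - A.P (x1 i) = -A.P (W u) := by
      rw [map_sub]
      abel
    rw [e1, norm_neg]
    refine (A.norm_P_le hr _).trans ?_
    have e2 : f = A.P (aeval A.τ G1 (x1 i)) - z • A.P (x1 i) := by
      rw [hf, map_sub, ContinuousLinearMap.sub_apply, aeval_C, Algebra.algebraMap_eq_smul_one,
        map_sub]
      congr 1
      rw [ContinuousLinearMap.smul_apply, map_smul]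
      rfl
    have hfn : ‖f‖ ≤ S := by
      rw [e2]
      refine (norm_sub_le _ _).trans ?_
      rw [norm_smul]
      have h1 := A.norm_P_le hr (aeval A.τ G1 (x1 i))
      have h2 := A.norm_P_le hr (x1 i)
      have h3 : ‖z‖ * ‖A.P (x1 i)‖ ≤ 1 * ‖x1 i‖ :=
        mul_le_mul hz1 h2 (norm_nonneg _) zero_le_one
      have := hSi i
      linarith
    have e3 : W u = W (A.P (aeval A.τ G1 (x1 i))) - z • W (A.P (x1 i)) + z • W (W u) := by
      have : u = f + z • W u := by rw [← hu1]; abel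
      conv_lhs => rw [this, e2]
      rw [map_add, map_sub, map_smul, map_smul]
    rw [e3]
    have n1 : ‖z • W (A.P (x1 i))‖ ≤ ‖z‖ * (w * S) := by
      rw [norm_smul]
      refine mul_le_mul_of_nonneg_left ?_ (norm_nonneg _)
      refine (W.le_opNorm _).trans (mul_le_mul_of_nonneg_left ?_ hw0)
      have h2 := A.norm_P_le hr (x1 i)
      have := hSi i
      have := norm_nonneg (aeval A.τ G1 (x1 i))
      linarith
    have n2 : ‖z • W (W u)‖ ≤ ‖z‖ * (2 * w ^ 2 * S) := by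
      rw [norm_smul]
      refine mul_le_mul_of_nonneg_left ?_ (norm_nonneg _)
      calc ‖W (W u)‖ ≤ w * (w * (2 * S)) :=
            (W.le_opNorm _).trans (mul_le_mul_of_nonneg_left ((W.le_opNorm _).trans
              (mul_le_mul_of_nonneg_left (by linarith) hw0)) hw0)
        _ = _ := by ring
    have n3 : ‖z‖ * C0 ≤ ε := by
      calc ‖z‖ * C0 ≤ ε / (C0 + 1) * (C0 + 1) :=
            mul_le_mul hz3 (by linarith) hC00 (by positivity)
        _ = ε := by field_simp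
    have n4 := norm_add_le (W (A.P (aeval A.τ G1 (x1 i))) - z • W (A.P (x1 i))) (z • W (W u))
    have n5 := norm_sub_le (W (A.P (aeval A.τ G1 (x1 i)))) (z • W (A.P (x1 i)))
    have n6 : ‖z‖ * C0 = ‖z‖ * (w * S) + ‖z‖ * (2 * w ^ 2 * S) := by rw [hC0]; ring
    linarith

end general

end Par

open Par in
/-- Theorem B -/
theorem thmB (Q : Par) {F G : Type} [NormedAddCommGroup F] [NormedSpace ℂ F] [CompleteSpace F]
    [NormedAddCommGroup G] [NormedSpace ℂ G] [CompleteSpace G] {A : SS F Q.p} (hA : A.Tails)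
    {B : SS G Q.q} (hB : B.Tails) (c : G) {ι : Type} [Finite ι] (G0 : ℂ[X]) (x : ι → F)
    (l : List (ℂ[X] × (ι → F))) (η : ℝ) (hη : 0 ≤ η)
    (hres : ∀ i, ‖A.P (aeval A.τ G0 (x i) - (l.map fun ab => aeval A.τ ab.1 (ab.2 i)).sum)‖ ≤ η)
    (κ : ℝ) (hκ : 0 < κ) (ε : ℝ) (hε : 0 < ε) (K0 : ℕ) :
    ∃ G1 : ℂ[X], X ^ K0 ∣ G1 - G0 ∧
      ‖aeval B.τ (G1 - G0) c‖ ^ Q.q ≤ (l.map fun ab => ‖aeval B.τ ab.1 c‖ ^ Q.q).sum +
        (κ * ‖c‖) ^ Q.q + ε ∧
      ∃ δ > 0, ∀ z : ℂ, ‖z‖ < δ → ∀ i, ∃ y, A.P y = y ∧ A.P (aeval A.τ (G1 - C z) y) = 0 ∧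
        ‖y - A.P (x i)‖ ≤ ((l.map fun ab => ‖ab.2 i‖ ^ Q.p).sum + ε) ^ (1 / Q.p) + η / κ + ε := by
  have hp0 : 0 < Q.p := by linarith [Q.hp1]
  have hq0 : 0 < Q.q := Q.hq
  have hfin := Fintype.ofFinite ι
  -- the small number
  have hev : ∀ᶠ δ : ℝ in 𝓝[>] 0, (κ * ‖c‖ + δ) ^ Q.q ≤ (κ * ‖c‖) ^ Q.q + ε / 4 ∧
      δ < min (ε / 8) (min (ε / (8 * κ⁻¹)) (1 / 2)) := by
    refine (exists_rpow_add_le _ hq0 (by positivity)).and ?_
    have : ∀ᶠ δ : ℝ in 𝓝 0, δ < min (ε / 8) (min (ε / (8 * κ⁻¹)) (1 / 2)) :=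
      gt_mem_nhds (by positivity)
    exact this.filter_mono nhdsWithin_le_nhds
  obtain ⟨δ, ⟨hδ1, hδm⟩, hδ0⟩ := (hev.and self_mem_nhdsWithin).exists
  have hδ0 : 0 < δ := hδ0
  have hδ8 : δ ≤ ε / 8 := hδm.le.trans (min_le_left _ _)
  have hδκ : κ⁻¹ * δ ≤ ε / 8 := by
    have h := hδm.le.trans ((min_le_right _ _).trans (min_le_left _ _))
    have hk : 0 < κ⁻¹ := inv_pos.2 hκ
    calc κ⁻¹ * δ ≤ κ⁻¹ * (ε / (8 * κ⁻¹)) := mul_le_mul_of_nonneg_left h hk.le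
      _ = ε / 8 := by field_simp
  set δ1 := min δ (δ / κ) / 2 with hδ1'
  have hδ10 : 0 < δ1 := by positivity
  have hδ1δ : δ1 ≤ δ / 2 := by
    rw [hδ1']
    have := min_le_left δ (δ / κ)
    linarith
  have hδ1κ : κ * (2 * δ1) ≤ δ := by
    have h := min_le_right δ (δ / κ)
    calc κ * (2 * δ1) = κ * min δ (δ / κ) := by rw [hδ1']; ring
      _ ≤ κ * (δ / κ) := mul_le_mul_of_nonneg_left h hκ.le
      _ = δ := by field_simp
  obtain ⟨G1, x1, β1, V1, hcl1, hdvd, hq1, hp1, hβ1, hV1⟩ := Q.stepList hA hB c l G0 x 1 1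
    (Closer.one A) 0 0 δ1 hδ10 K0
  set ρ : ι → F := fun i => A.P (aeval A.τ G1 (x1 i)) with hρ
  have hρV : ∀ i, ‖V1 (ρ i)‖ ≤ η + δ1 := fun i => by
    refine (hV1 i).trans ?_
    have := hres i
    simpa using this
  set Gop := aeval A.τ G1 with hGop
  set v := ‖V1‖ with hv
  set g := ‖Gop‖ with hg
  have hv0 : 0 ≤ v := norm_nonneg _
  have hg0 : 0 ≤ g := norm_nonneg _
  set S := ∑ i, ‖ρ i‖ with hS
  have hS0 : 0 ≤ S := Finset.sum_nonneg fun _ _ => norm_nonneg _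
  have hSi : ∀ i, ‖ρ i‖ ≤ S := fun i =>
    Finset.single_le_sum (f := fun i => ‖ρ i‖) (fun i _ => norm_nonneg _) (Finset.mem_univ i)
  set Cc := (1 + κ⁻¹ * v) ^ 2 * (1 + g) * (1 + S) with hCc
  have hk : 0 < κ⁻¹ := inv_pos.2 hκ
  have h1v : 1 ≤ 1 + κ⁻¹ * v := by
    have : 0 ≤ κ⁻¹ * v := by positivity
    linarith
  have h1v2 : 1 ≤ (1 + κ⁻¹ * v) ^ 2 := one_le_pow₀ h1v
  have hCc1 : 1 ≤ Cc := by
    have h2 : (1 : ℝ) ≤ 1 + g := by linarith
    have h3 : (1 : ℝ) ≤ 1 + S := by linarith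
    calc (1 : ℝ) = 1 * 1 * 1 := by norm_num
      _ ≤ Cc := by
        rw [hCc]
        exact mul_le_mul (mul_le_mul h1v2 h2 zero_le_one (by positivity)) h3 zero_le_one
          (by positivity)
  have hVk : ∀ k f, ‖(V1 ^ k) f‖ ≤ v ^ k * ‖f‖ := fun k f => by
    induction k generalizing f with
    | zero => simp
    | succ k ih =>
      rw [pow_succ, ContinuousLinearMap.mul_apply]
      refine (ih _).trans ?_
      calc v ^ k * ‖V1 f‖ ≤ v ^ k * (v * ‖f‖) :=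
            mul_le_mul_of_nonneg_left (V1.le_opNorm f) (by positivity)
        _ = _ := by ring
  have hGk : ∀ k f, ‖(Gop ^ k) f‖ ≤ g ^ k * ‖f‖ := fun k f => by
    induction k generalizing f with
    | zero => simp
    | succ k ih =>
      rw [pow_succ, ContinuousLinearMap.mul_apply]
      refine (ih _).trans ?_
      calc g ^ k * ‖Gop f‖ ≤ g ^ k * (g * ‖f‖) :=
            mul_le_mul_of_nonneg_left (Gop.le_opNorm f) (by positivity)
        _ = _ := by ring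
  have hexp : ∀ k : ℕ, Cc ^ (k + 1) = ((1 + κ⁻¹ * v) ^ 2) ^ (k + 1) * (1 + g) ^ (k + 1) *
      (1 + S) ^ (k + 1) := fun k => by rw [hCc, mul_pow, mul_pow]
  have hpow1 : ∀ k : ℕ, (κ⁻¹ * v) ^ (k + 2) * g ^ (k + 1) * S ≤ Cc ^ (k + 1) := fun k => by
    have i1 : (κ⁻¹ * v) ^ (k + 2) ≤ ((1 + κ⁻¹ * v) ^ 2) ^ (k + 1) := by
      calc (κ⁻¹ * v) ^ (k + 2) ≤ (1 + κ⁻¹ * v) ^ (k + 2) :=
            pow_le_pow_left₀ (by positivity) (by linarith) _
        _ ≤ (1 + κ⁻¹ * v) ^ (2 * (k + 1)) := pow_le_pow_right₀ h1v (by omega)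
        _ = _ := by rw [pow_mul]
    have i2 : g ^ (k + 1) ≤ (1 + g) ^ (k + 1) := pow_le_pow_left₀ hg0 (by linarith) _
    have i3 : S ≤ (1 + S) ^ (k + 1) := by
      calc S ≤ (1 + S) ^ 1 := by rw [pow_one]; linarith
        _ ≤ _ := pow_le_pow_right₀ (by linarith) (by omega)
    rw [hexp]
    exact mul_le_mul (mul_le_mul i1 i2 (by positivity) (by positivity)) i3 hS0 (by positivity)
  have hpow2 : ∀ k : ℕ, (κ⁻¹ * v) ^ (k + 1) * g ^ k ≤ Cc ^ (k + 1) := fun k => by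
    have i1 : (κ⁻¹ * v) ^ (k + 1) ≤ ((1 + κ⁻¹ * v) ^ 2) ^ (k + 1) := by
      refine pow_le_pow_left₀ (by positivity) ?_ _
      calc κ⁻¹ * v ≤ (1 + κ⁻¹ * v) ^ 1 := by rw [pow_one]; linarith
        _ ≤ _ := pow_le_pow_right₀ h1v (by omega)
    have i2 : g ^ k ≤ (1 + g) ^ (k + 1) := by
      calc g ^ k ≤ (1 + g) ^ k := pow_le_pow_left₀ hg0 (by linarith) _
        _ ≤ _ := pow_le_pow_right₀ (by linarith) (by omega)
    have i3 : 1 ≤ (1 + S) ^ (k + 1) := one_le_pow₀ (by linarith)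
    rw [hexp, ← mul_one ((κ⁻¹ * v) ^ (k + 1) * g ^ k)]
    exact mul_le_mul (mul_le_mul i1 i2 (by positivity) (by positivity)) i3 zero_le_one
      (by positivity)
  set H : ι → ℕ → F := fun i k => ((κ : ℂ)⁻¹) ^ (k + 2) • (V1 ^ (k + 2)) ((Gop ^ (k + 1)) (ρ i))
    with hH
  have hκn : ‖((κ : ℂ)⁻¹)‖ = κ⁻¹ := by
    rw [norm_inv, Complex.norm_real, Real.norm_of_nonneg hκ.le]
  have hHn : ∀ i k, ‖H i k‖ ≤ Cc ^ (k + 1) := fun i k => by
    rw [hH, norm_smul, norm_pow, hκn]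
    calc κ⁻¹ ^ (k + 2) * ‖(V1 ^ (k + 2)) ((Gop ^ (k + 1)) (ρ i))‖ ≤
          κ⁻¹ ^ (k + 2) * (v ^ (k + 2) * (g ^ (k + 1) * S)) := by
          refine mul_le_mul_of_nonneg_left ((hVk _ _).trans (mul_le_mul_of_nonneg_left
            ((hGk _ _).trans (mul_le_mul_of_nonneg_left (hSi i) (by positivity)))
            (by positivity))) (by positivity)
      _ = (κ⁻¹ * v) ^ (k + 2) * g ^ (k + 1) * S := by rw [mul_pow]; ring
      _ ≤ _ := hpow1 k
  obtain ⟨β, V, hcl, ⟨C', hC'⟩, hD, hHV, hU⟩ := Q.closers hA hB (ι := ι) (κ := Fin 1)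
    (fun i => V1 (ρ i)) H (fun _ => aeval B.τ β1 c) hCc1 hHn hδ10
  set VF := V1 * V with hVF
  have hclF : Closer A (β1 * β) VF := hcl1.mul hcl
  have hVV1 : Commute V V1 := hcl.comm V1 hcl1.commute_τ.symm hcl1.commute_σ.symm
  have hVFpow : ∀ k, VF ^ k = V ^ k * V1 ^ k := fun k => by
    rw [hVF, ← hVV1.eq, hVV1.mul_pow]
  -- choose K
  have hK1 := B.add_far' hq0 hB (aeval B.τ (G1 - G0) c) (aeval B.τ (C (κ : ℂ) * (β1 * β)) c)
    (ε := ε / 4) (by positivity)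
  have hK2 : ∀ᶠ K : ℕ in atTop, ∀ i, 2 * |C'| * ‖A.P ((A.τ ^ K)
      (aeval A.τ (C (κ : ℂ) * (β1 * β)) (x1 i)))‖ < ε / 8 := by
    refine eventually_all.2 fun i => ?_
    have h := (hA.right (aeval A.τ (C (κ : ℂ) * (β1 * β)) (x1 i))).norm.const_mul (2 * |C'|)
    rw [norm_zero, mul_zero] at h
    exact h.eventually (gt_mem_nhds (by positivity))
  obtain ⟨K, hK1, hK2, hKK⟩ := (hK1.and (hK2.and (eventually_ge_atTop K0))).exists
  set G2 := G1 + X ^ K * (C (κ : ℂ) * (β1 * β)) with hG2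
  -- the inverse
  set R : F →L[ℂ] F := (κ : ℂ)⁻¹ • (A.σ ^ K * VF) with hR
  set Dop := aeval A.τ (X ^ K * (C (κ : ℂ) * (β1 * β))) with hDop
  have hκ0 : (κ : ℂ) ≠ 0 := by exact_mod_cast hκ.ne'
  have hRf : ∀ f, R f = (κ : ℂ)⁻¹ • (A.σ ^ K) (VF f) := fun f => rfl
  have hDR : Dop * R = 1 := by
    ext f
    rw [ContinuousLinearMap.mul_apply, hRf, map_smul, hDop, aeval_X_pow_mul, map_mul, aeval_C,
      ContinuousLinearMap.mul_apply, Algebra.algebraMap_eq_smul_one,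
      ContinuousLinearMap.smul_apply, map_smul, smul_smul, inv_mul_cancel₀ hκ0, one_smul,
      ContinuousLinearMap.one_apply, aeval_σ, A.τσ_pow, hclF.inv, ContinuousLinearMap.one_apply]
  have hGR : Commute Gop R := by
    have h1 : ∀ f, Gop (R f) = R (Gop f) := fun f => by
      rw [hRf, hRf, map_smul, hGop, aeval_σ, ← comm_aeval hclF]
    exact ContinuousLinearMap.ext h1
  have hRpow : ∀ k f, ‖(R ^ k) f‖ = κ⁻¹ ^ k * ‖(VF ^ k) f‖ := fun k f => by
    have hc : Commute (A.σ ^ K) VF := (hclF.commute_σ.pow_right K).symm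
    rw [hR, _root_.smul_pow, ContinuousLinearMap.smul_apply, norm_smul, norm_pow, hκn, hc.mul_pow,
      ContinuousLinearMap.mul_apply, ← pow_mul, A.isoσpow]
  have hb : ∀ k f, ‖(R ^ (k + 1)) ((Gop ^ k) f)‖ ≤ |C'| * (1 / 2) ^ k * ‖f‖ := fun k f => by
    rw [hRpow, hVFpow, ContinuousLinearMap.mul_apply]
    have i1 := hC' (k + 1) ((V1 ^ (k + 1)) ((Gop ^ k) f))
    have i2 : ‖(V1 ^ (k + 1)) ((Gop ^ k) f)‖ ≤ v ^ (k + 1) * (g ^ k * ‖f‖) :=
      (hVk _ _).trans (mul_le_mul_of_nonneg_left (hGk _ _) (by positivity))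
    have hCc0 : 0 < Cc := by linarith
    have i3 : C' * ((2 * Cc)⁻¹) ^ (k + 1) * ‖(V1 ^ (k + 1)) ((Gop ^ k) f)‖ ≤
        |C'| * ((2 * Cc)⁻¹) ^ (k + 1) * (v ^ (k + 1) * (g ^ k * ‖f‖)) := by
      refine mul_le_mul (mul_le_mul_of_nonneg_right (le_abs_self _) (by positivity)) i2
        (norm_nonneg _) (by positivity)
    calc κ⁻¹ ^ (k + 1) * ‖(V ^ (k + 1)) ((V1 ^ (k + 1)) ((Gop ^ k) f))‖ ≤
          κ⁻¹ ^ (k + 1) * (|C'| * ((2 * Cc)⁻¹) ^ (k + 1) * (v ^ (k + 1) * (g ^ k * ‖f‖))) :=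
          mul_le_mul_of_nonneg_left (i1.trans i3) (by positivity)
      _ = |C'| * ((2 * Cc)⁻¹) ^ (k + 1) * ((κ⁻¹ * v) ^ (k + 1) * g ^ k) * ‖f‖ := by
          rw [mul_pow]; ring
      _ ≤ |C'| * ((2 * Cc)⁻¹) ^ (k + 1) * Cc ^ (k + 1) * ‖f‖ := by
          refine mul_le_mul_of_nonneg_right (mul_le_mul_of_nonneg_left (hpow2 k) (by positivity))
            (norm_nonneg _)
      _ = |C'| * (1 / 2) ^ (k + 1) * ‖f‖ := by
          rw [mul_assoc |C'|, ← mul_pow]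
          congr 3
          field_simp
      _ ≤ |C'| * (1 / 2) ^ k * ‖f‖ := by
          refine mul_le_mul_of_nonneg_right (mul_le_mul_of_nonneg_left ?_ (abs_nonneg _))
            (norm_nonneg _)
          exact pow_le_pow_of_le_one (by norm_num) (by norm_num) (by omega)
  obtain ⟨W, hW, hWn, hWρ⟩ := neumann Gop Dop R hDR hGR |C'| hb
  have hG2W : aeval A.τ G2 * W = 1 := by
    rw [hG2, map_add]
    exact hW
  have hWi : ∀ i, ‖W (A.P (aeval A.τ G2 (x1 i)))‖ ≤ η / κ + ε / 2 := fun i => by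
    have e1 : A.P (aeval A.τ G2 (x1 i)) = ρ i + A.P ((A.τ ^ K)
        (aeval A.τ (C (κ : ℂ) * (β1 * β)) (x1 i))) := by
      rw [hG2, map_add, ContinuousLinearMap.add_apply, map_add, aeval_X_pow_mul]
    rw [e1, map_add]
    have n1 : ‖W (ρ i)‖ ≤ ‖R (ρ i)‖ + 2 * δ1 := by
      refine hWρ (ρ i) δ1 fun k => ?_
      rw [hRpow, hVFpow, ContinuousLinearMap.mul_apply]
      have h := hHV i k
      rw [hH] at h
      simp only [map_smul, norm_smul, norm_pow, hκn] at h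
      exact h
    have n2 : ‖R (ρ i)‖ ≤ κ⁻¹ * (η + 2 * δ1) := by
      have h := hRpow 1 (ρ i)
      rw [pow_one, pow_one, pow_one] at h
      rw [h]
      refine mul_le_mul_of_nonneg_left ?_ hk.le
      have h2 : VF (ρ i) = V (V1 (ρ i)) := by
        rw [hVF, ← hVV1.eq]
        rfl
      rw [h2]
      have h3 := hD i
      have h4 := hρV i
      linarith
    have n3 : ‖W (A.P ((A.τ ^ K) (aeval A.τ (C (κ : ℂ) * (β1 * β)) (x1 i))))‖ ≤ ε / 8 :=
      (hWn _).trans (hK2 i).le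
    have n4 := norm_add_le (W (ρ i)) (W (A.P ((A.τ ^ K)
      (aeval A.τ (C (κ : ℂ) * (β1 * β)) (x1 i)))))
    have n5 : κ⁻¹ * (2 * δ1) ≤ ε / 8 := by
      calc κ⁻¹ * (2 * δ1) ≤ κ⁻¹ * δ := mul_le_mul_of_nonneg_left (by linarith) hk.le
        _ ≤ ε / 8 := hδκ
    have n6 : κ⁻¹ * (η + 2 * δ1) = η / κ + κ⁻¹ * (2 * δ1) := by
      rw [div_eq_inv_mul]
      ring
    linarith
  obtain ⟨δ2, hδ2, hδ2'⟩ := perturb hp0 A G2 W hG2W x1 (ε := ε / 4) (by positivity)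
  refine ⟨G2, ?_, ?_, δ2, hδ2, fun z hz i => ?_⟩
  · have : G2 - G0 = (G1 - G0) + X ^ K * (C (κ : ℂ) * (β1 * β)) := by rw [hG2]; ring
    rw [this]
    exact dvd_add hdvd ((pow_dvd_pow X hKK).trans (dvd_mul_right _ _))
  · have e1 : aeval B.τ (G2 - G0) c = aeval B.τ (G1 - G0) c +
        (B.τ ^ K) (aeval B.τ (C (κ : ℂ) * (β1 * β)) c) := by
      have : G2 - G0 = (G1 - G0) + X ^ K * (C (κ : ℂ) * (β1 * β)) := by rw [hG2]; ring
      rw [this, map_add, ContinuousLinearMap.add_apply, aeval_X_pow_mul]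
    rw [e1]
    refine hK1.trans ?_
    have e2 : ‖aeval B.τ (C (κ : ℂ) * (β1 * β)) c‖ ^ Q.q ≤ (κ * ‖c‖) ^ Q.q + ε / 4 := by
      refine (Real.rpow_le_rpow (norm_nonneg _) ?_ hq0.le).trans hδ1
      rw [map_mul, aeval_C, ContinuousLinearMap.mul_apply, Algebra.algebraMap_eq_smul_one,
        ContinuousLinearMap.smul_apply, norm_smul, Complex.norm_real, Real.norm_of_nonneg hκ.le,
        ContinuousLinearMap.one_apply, mul_comm β1 β, map_mul, ContinuousLinearMap.mul_apply]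
      have h1 := hU 0
      have h2 : ‖aeval B.τ β1 c‖ ≤ ‖c‖ + δ1 := by simpa using hβ1
      calc κ * ‖aeval B.τ β (aeval B.τ β1 c)‖ ≤ κ * (‖c‖ + 2 * δ1) :=
            mul_le_mul_of_nonneg_left (by linarith) hκ.le
        _ = κ * ‖c‖ + κ * (2 * δ1) := by ring
        _ ≤ κ * ‖c‖ + δ := by linarith
    have e3 : ‖aeval B.τ (G1 - G0) c‖ ^ Q.q ≤
        (l.map fun ab => ‖aeval B.τ ab.1 c‖ ^ Q.q).sum + δ1 := by
      have := hq1
      rw [zero_add, norm_zero, Real.zero_rpow hq0.ne', zero_add] at this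
      exact this
    linarith
  · obtain ⟨y, hy1, hy2, hy3⟩ := hδ2' z hz i
    refine ⟨y, hy1, hy2, ?_⟩
    have e1 : y - A.P (x i) = (y - A.P (x1 i)) + A.P (x1 i - x i) := by
      rw [map_sub]
      abel
    rw [e1]
    refine (norm_add_le _ _).trans ?_
    have n1 : ‖A.P (x1 i - x i)‖ ≤ ((l.map fun ab => ‖ab.2 i‖ ^ Q.p).sum + ε) ^ (1 / Q.p) := by
      refine (A.norm_P_le hp0 _).trans ?_
      have h1 := hp1 i
      simp only [Pi.zero_apply, zero_add, norm_zero, Real.zero_rpow hp0.ne'] at h1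
      have h2 : ‖x1 i - x i‖ ^ Q.p ≤ (l.map fun ab => ‖ab.2 i‖ ^ Q.p).sum + ε := by linarith
      calc ‖x1 i - x i‖ = (‖x1 i - x i‖ ^ Q.p) ^ (1 / Q.p) := by
            rw [← Real.rpow_mul (norm_nonneg _), mul_one_div_cancel hp0.ne', Real.rpow_one]
        _ ≤ _ := Real.rpow_le_rpow (Real.rpow_nonneg (norm_nonneg _) _) h2 (by positivity)
    have n2 := hWi i
    linarith

end Pool.Agent.V7H86.HD
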