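import Mathlib

/-!
# The space `L^p(ℝ)`, translations, truncations, exponentials
-/

set_option autoImplicit false

open MeasureTheory Set Filter
open scoped ENNReal Topology

namespace Pool.Agent.V7H86.HD

variable {p : ℝ≥0∞} [Fact (1 ≤ p)]

/-- `L^p(ℝ)` -/
noncomputable abbrev E (p : ℝ≥0∞) := Lp ℂ p (volume : Measure ℝ)

theorem mp_add (s : ℝ) : MeasurePreserving (fun t : ℝ => t + s) volume volume :=
  measurePreserving_add_right volume s

/-- the translation `(tr s f)(t) = f (t + s)` -/
noncomputable def tr0 (s : ℝ) : E p →ₗᵢ[ℂ] E p :=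
  Lp.compMeasurePreservingₗᵢ ℂ (fun t : ℝ => t + s) (mp_add s)

theorem tr0_coe (s : ℝ) (f : E p) : tr0 s f =ᵐ[volume] fun t => f (t + s) :=
  Lp.coeFn_compMeasurePreserving f (mp_add s)

theorem tr0_add (s u : ℝ) (f : E p) : tr0 s (tr0 u f) = tr0 (s + u) f := by
  refine Lp.ext ?_
  filter_upwards [tr0_coe s (tr0 u f), tr0_coe (s + u) f,
    (mp_add s).quasiMeasurePreserving.ae (tr0_coe u f)] with t h1 h2 h3
  rw [h1, h2, h3, add_assoc]

theorem tr0_zero (f : E p) : tr0 0 f = f := by
  refine Lp.ext ?_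
  filter_upwards [tr0_coe 0 f] with t h1
  rw [h1, add_zero]

/-- the translation as an isometric isomorphism -/
noncomputable def tr (s : ℝ) : E p ≃ₗᵢ[ℂ] E p where
  toLinearEquiv := LinearEquiv.ofLinearMap (tr0 s).toLinearMap (tr0 (-s)).toLinearMap
    (LinearMap.ext fun f => by
      show tr0 s (tr0 (-s) f) = f
      rw [tr0_add, add_neg_cancel, tr0_zero])
    (LinearMap.ext fun f => by
      show tr0 (-s) (tr0 s f) = f
      rw [tr0_add, neg_add_cancel, tr0_zero])
  norm_map' f := (tr0 s).norm_map f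

theorem tr_coe (s : ℝ) (f : E p) : tr s f =ᵐ[volume] fun t => f (t + s) := tr0_coe s f

theorem tr_add (s u : ℝ) (f : E p) : tr s (tr u f) = tr (s + u) f := tr0_add s u f

theorem tr_zero (f : E p) : tr 0 f = f := tr0_zero f

theorem tr_symm (s : ℝ) (f : E p) : (tr s).symm f = tr (-s) f := rfl

theorem continuous_tr (hp : p ≠ ∞) (f : E p) : Continuous fun s => tr s f := by
  have h := Continuous.compMeasurePreservingLp (μ := (volume : Measure ℝ))
    (ν := (volume : Measure ℝ)) (f := fun _ : ℝ => f)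
    (g := fun s : ℝ => (⟨fun t => t + s, by fun_prop⟩ : C(ℝ, ℝ))) continuous_const
    (ContinuousMap.continuous_of_continuous_uncurry _ (by
      show Continuous fun x : ℝ × ℝ => x.2 + x.1
      fun_prop)) (fun s => mp_add s) hp
  exact h

/-- multiplication by the indicator function of `A` -/
noncomputable def ind (A : Set ℝ) (hA : MeasurableSet A) : E p →L[ℂ] E p :=
  LinearMap.mkContinuous
    { toFun := fun f => (MemLp.indicator hA (Lp.memLp f)).toLp (A.indicator f)
      map_add' := fun f g => by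
        refine Lp.ext ?_
        filter_upwards [(MemLp.indicator hA (Lp.memLp (f + g))).coeFn_toLp,
          Lp.coeFn_add ((MemLp.indicator hA (Lp.memLp f)).toLp (A.indicator f))
            ((MemLp.indicator hA (Lp.memLp g)).toLp (A.indicator g)), Lp.coeFn_add f g,
          (MemLp.indicator hA (Lp.memLp f)).coeFn_toLp,
          (MemLp.indicator hA (Lp.memLp g)).coeFn_toLp] with t h1 h2 h3 h4 h5
        rw [h1, h2]
        simp only [Pi.add_apply] at h3 ⊢
        rw [h4, h5]
        by_cases ht : t ∈ A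
        · simp only [indicator_of_mem ht]
          exact h3
        · simp [ht]
      map_smul' := fun c f => by
        refine Lp.ext ?_
        filter_upwards [(MemLp.indicator hA (Lp.memLp (c • f))).coeFn_toLp,
          Lp.coeFn_smul c ((MemLp.indicator hA (Lp.memLp f)).toLp (A.indicator f)),
          Lp.coeFn_smul c f, (MemLp.indicator hA (Lp.memLp f)).coeFn_toLp] with t h1 h2 h3 h4
        rw [h1]
        simp only [RingHom.id_apply]
        rw [h2]
        simp only [Pi.smul_apply] at h3 ⊢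
        rw [h4]
        by_cases ht : t ∈ A <;> simp [ht, h3] } 1 (fun f => by
      rw [one_mul]
      show ‖(MemLp.indicator hA (Lp.memLp f)).toLp (A.indicator f)‖ ≤ ‖f‖
      refine Lp.norm_le_norm_of_ae_le ?_
      filter_upwards [(MemLp.indicator hA (Lp.memLp f)).coeFn_toLp] with t h1
      rw [h1]
      exact norm_indicator_le_norm_self _ _)

theorem ind_coe (A : Set ℝ) (hA : MeasurableSet A) (f : E p) :
    ind A hA f =ᵐ[volume] A.indicator f :=
  (MemLp.indicator hA (Lp.memLp f)).coeFn_toLp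

theorem norm_ind_le (A : Set ℝ) (hA : MeasurableSet A) (f : E p) : ‖ind A hA f‖ ≤ ‖f‖ := by
  refine Lp.norm_le_norm_of_ae_le ?_
  filter_upwards [ind_coe A hA f] with t h1
  rw [h1]
  exact norm_indicator_le_norm_self _ _

/-- restriction to the positive half-line -/
noncomputable def P : E p →L[ℂ] E p := ind (Ioi 0) measurableSet_Ioi

theorem P_coe (f : E p) : P f =ᵐ[volume] (Ioi (0 : ℝ)).indicator f := ind_coe _ _ f

theorem P_P (f : E p) : P (P f) = P f := by
  refine Lp.ext ?_
  filter_upwards [P_coe (P f), P_coe f] with t h1 h2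
  rw [h1]
  by_cases ht : t ∈ Ioi (0 : ℝ) <;> simp [ht, h2]

theorem norm_P_le (f : E p) : ‖P f‖ ≤ ‖f‖ := norm_ind_le _ _ f

/-- the semigroup of left translations of the half-line -/
noncomputable def S (v : ℝ) : E p →L[ℂ] E p :=
  P.comp (tr v).toContinuousLinearEquiv.toContinuousLinearMap

theorem S_apply (v : ℝ) (f : E p) : S v f = P (tr v f) := rfl

theorem norm_S_le (v : ℝ) (f : E p) : ‖S v f‖ ≤ ‖f‖ := by
  rw [S_apply]
  exact (norm_P_le _).trans (by rw [LinearIsometryEquiv.norm_map])

/-- for `v ≥ 0`, `P T_v P = P T_v` -/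
theorem P_tr_P (v : ℝ) (hv : 0 ≤ v) (f : E p) : P (tr v (P f)) = P (tr v f) := by
  refine Lp.ext ?_
  filter_upwards [P_coe (tr v (P f)), P_coe (tr v f), tr_coe v (P f), tr_coe v f,
    (mp_add v).quasiMeasurePreserving.ae (P_coe f)] with t h1 h2 h3 h4 h5
  rw [h1, h2]
  by_cases ht : t ∈ Ioi (0 : ℝ)
  · have ht' : t + v ∈ Ioi (0 : ℝ) := by
      simp only [mem_Ioi] at ht ⊢
      linarith
    simp only [indicator_of_mem ht]
    rw [h3, h4, h5, indicator_of_mem ht']
  · simp [ht]

theorem S_P (v : ℝ) (hv : 0 ≤ v) (f : E p) : S v (P f) = S v f := P_tr_P v hv f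

theorem P_S (v : ℝ) (f : E p) : P (S v f) = S v f := P_P _

theorem S_S (v w : ℝ) (hv : 0 ≤ v) (f : E p) : S v (S w f) = S (v + w) f := by
  rw [S_apply w, S_P v hv, S_apply, tr_add]
  rfl

theorem S_zero (f : E p) : S 0 f = P f := by
  rw [S_apply, tr_zero]

theorem continuous_S (hp : p ≠ ∞) (f : E p) : Continuous fun v => S v f :=
  P.continuous.comp (continuous_tr hp f)

/-- the function `e ^ (-z t)` on the positive half-line -/
noncomputable def exfun (z : ℂ) : ℝ → ℂ := (Ioi (0 : ℝ)).indicator fun t => Complex.exp (-(z * t))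

open Classical in
/-- the element `e ^ (-z t)`, `t > 0`, of `L^p` (`Re z > 0`) -/
noncomputable def ex (z : ℂ) : E p :=
  if h : MemLp (exfun z) p (volume : Measure ℝ) then h.toLp (exfun z) else 0

theorem memLp_exfun (hp : p ≠ ∞) {z : ℂ} (hz : 0 < z.re) :
    MemLp (exfun z) p (volume : Measure ℝ) := by
  have hp0 : p ≠ 0 := (one_pos.trans_le (Fact.out : 1 ≤ p)).ne'
  have hm : AEStronglyMeasurable (exfun z) (volume : Measure ℝ) := by
    refine (Measurable.indicator ?_ measurableSet_Ioi).aestronglyMeasurable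
    fun_prop
  have hpr : 0 < p.toReal := ENNReal.toReal_pos hp0 hp
  rw [← integrable_norm_rpow_iff hm hp0 hp]
  have h1 : (fun t : ℝ => ‖exfun z t‖ ^ p.toReal) =
      (Ioi (0 : ℝ)).indicator fun t => Real.exp (-(z.re * p.toReal) * t) := by
    funext t
    by_cases ht : t ∈ Ioi (0 : ℝ)
    · simp only [exfun, indicator_of_mem ht, Complex.norm_exp]
      rw [← Real.exp_mul]
      congr 1
      simp
      ring
    · simp only [exfun, indicator_of_notMem ht, norm_zero]
      exact Real.zero_rpow hpr.ne'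
  rw [h1, integrable_indicator_iff measurableSet_Ioi]
  exact integrableOn_exp_mul_Ioi (by nlinarith [mul_pos hz hpr]) 0

theorem ex_coe (hp : p ≠ ∞) {z : ℂ} (hz : 0 < z.re) :
    (ex z : E p) =ᵐ[volume] exfun z := by
  rw [ex, dif_pos (memLp_exfun hp hz)]
  exact MemLp.coeFn_toLp _

theorem P_ex (hp : p ≠ ∞) {z : ℂ} (hz : 0 < z.re) : P (ex z : E p) = ex z := by
  refine Lp.ext ?_
  filter_upwards [P_coe (ex z : E p), ex_coe hp hz] with t h1 h2
  rw [h1]
  by_cases ht : t ∈ Ioi (0 : ℝ)
  · simp [ht]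
  · simp [ht, h2, exfun]

theorem S_ex (hp : p ≠ ∞) {z : ℂ} (hz : 0 < z.re) (v : ℝ) (hv : 0 ≤ v) :
    S v (ex z : E p) = Complex.exp (-(z * v)) • ex z := by
  refine Lp.ext ?_
  filter_upwards [P_coe (tr v (ex z : E p)), ex_coe hp hz, tr_coe v (ex z : E p),
    (mp_add v).quasiMeasurePreserving.ae (ex_coe hp hz),
    Lp.coeFn_smul (Complex.exp (-(z * v))) (ex z : E p)] with t h1 h2 h3 h4 h5
  rw [S_apply, h1, h5, Pi.smul_apply, h2]
  by_cases ht : t ∈ Ioi (0 : ℝ)
  · have ht' : t + v ∈ Ioi (0 : ℝ) := by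
      simp only [mem_Ioi] at ht ⊢
      linarith
    rw [indicator_of_mem ht, h3, h4]
    simp only [exfun, indicator_of_mem ht, indicator_of_mem ht', smul_eq_mul]
    rw [← Complex.exp_add]
    congr 1
    push_cast
    ring
  · simp [ht, exfun]

end Pool.Agent.V7H86.HD
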