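import Mathlib
import Pool.Agent.V7H86.HD.A3

/-!
# The parameters for the exponents `p`, `q`
-/

set_option autoImplicit false

open scoped ENNReal

namespace Pool.Agent.V7H86.HD

theorem exists_par_real {p q : ℝ} (hp1 : 1 < p) (hp2 : p < 2) (hpq : 1 / p + 1 / q = 1) :
    ∃ Q : Par, Q.p = p ∧ Q.q = q := by
  have hp0 : 0 < p := by linarith
  have hq0 : 0 < 1 / q := by
    have : 1 / p < 1 := by
      rw [div_lt_one hp0]
      exact hp1
    linarith
  have hq : 0 < q := one_div_pos.1 hq0
  have h2 : (0 : ℝ) < 2 := by norm_num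
  have hpi : 0 < 1 / p := by positivity
  refine ⟨{ p := p, q := q, x := 2 ^ (-(1 / p)), y := 2 ^ (-(1 / q)), t := 2 ^ (1 / 2 - 1 / p),
            c := 2 ^ (-(1 / 2) : ℝ), hp1 := hp1, hp2 := hp2, hq := hq,
            hx := Real.rpow_pos_of_pos h2 _,
            hx1 := Real.rpow_lt_one_of_one_lt_of_neg (by norm_num) (by linarith),
            hy := Real.rpow_pos_of_pos h2 _,
            hy1 := Real.rpow_lt_one_of_one_lt_of_neg (by norm_num) (by linarith),
            hxy := ?_,
            ht := Real.rpow_pos_of_pos h2 _,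
            ht1 := Real.rpow_lt_one_of_one_lt_of_neg (by norm_num) ?_,
            hc := Real.rpow_pos_of_pos h2 _,
            hc1 := Real.rpow_lt_one_of_one_lt_of_neg (by norm_num) (by norm_num),
            hxt := ?_, htt := ?_, hyq := ?_, htp := ?_ }, rfl, rfl⟩
  · rw [← Real.rpow_add h2, show -(1 / p) + -(1 / q) = -1 by linarith, Real.rpow_neg_one]
    norm_num
  · have h3 : 1 / 2 < 1 / p := one_div_lt_one_div_of_lt hp0 hp2
    linarith
  · rw [← Real.rpow_add h2]
    congr 1
    ring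
  · rw [← Real.rpow_natCast, ← Real.rpow_mul h2.le, ← Real.rpow_add h2]
    conv_lhs => rw [← Real.rpow_one (2 : ℝ)]
    rw [← Real.rpow_mul h2.le, ← Real.rpow_add h2]
    congr 1
    push_cast
    ring
  · rw [← Real.rpow_mul h2.le, show -(1 / q) * q = -1 by field_simp, Real.rpow_neg_one]
    norm_num
  · have h3 : (2 : ℝ) - p ≠ 0 := by linarith
    rw [← Real.rpow_mul h2.le, show (1 / 2 - 1 / p) * (2 * p / (2 - p)) = -1 by
      field_simp
      ring, Real.rpow_neg_one]
    norm_num

variable {p q : ℝ≥0∞} [Fact (1 ≤ p)] [Fact (1 ≤ q)]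

omit [Fact (1 ≤ p)] [Fact (1 ≤ q)] in
/-- the parameters for the exponents `p`, `q` -/
theorem exists_par (hp1 : 1 < p.toReal) (hp2 : p.toReal < 2)
    (hpq : 1 / p.toReal + 1 / q.toReal = 1) :
    ∃ Q : Par, Q.p = p.toReal ∧ Q.q = q.toReal := exists_par_real hp1 hp2 hpq

end Pool.Agent.V7H86.HD
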