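import Mathlib
import Pool.Agent.V7H86.HD.Defs
import Pool.Agent.V7H86.HD.A1

/-!
# `L^p(ℝ)` is a shift space
-/

set_option autoImplicit false

open MeasureTheory Set Filter
open scoped ENNReal Topology

namespace Pool.Agent.V7H86.HD

variable {p : ℝ≥0∞} [Fact (1 ≤ p)]

theorem toReal_pos_of (hp : p ≠ ∞) : 0 < p.toReal :=
  ENNReal.toReal_pos (one_pos.trans_le (Fact.out : 1 ≤ p)).ne' hp

/-- the norm as an integral -/
theorem norm_rpow_eq (hp : p ≠ ∞) (f : E p) : ‖f‖ ^ p.toReal = ∫ t, ‖f t‖ ^ p.toReal := by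
  have hp0 : p ≠ 0 := (one_pos.trans_le (Fact.out : 1 ≤ p)).ne'
  have hr := toReal_pos_of hp
  have hI : 0 ≤ ∫ t, ‖f t‖ ^ p.toReal :=
    integral_nonneg fun t => Real.rpow_nonneg (norm_nonneg _) _
  rw [Lp.norm_def, (Lp.memLp f).eLpNorm_eq_integral_rpow_norm hp0 hp,
    ENNReal.toReal_ofReal (Real.rpow_nonneg hI _), ← Real.rpow_mul hI,
    inv_mul_cancel₀ hr.ne', Real.rpow_one]

theorem integrable_rpow (hp : p ≠ ∞) (f : E p) : Integrable fun t => ‖f t‖ ^ p.toReal :=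
  (Lp.memLp f).integrable_norm_rpow (one_pos.trans_le (Fact.out : 1 ≤ p)).ne' hp

theorem norm_ind_rpow (hp : p ≠ ∞) (A : Set ℝ) (hA : MeasurableSet A) (f : E p) :
    ‖ind A hA f‖ ^ p.toReal = ∫ t in A, ‖f t‖ ^ p.toReal := by
  have hr := toReal_pos_of hp
  rw [norm_rpow_eq hp, ← integral_indicator hA]
  refine integral_congr_ae ?_
  filter_upwards [ind_coe A hA f] with t h1
  rw [h1]
  by_cases ht : t ∈ A
  · simp [ht]
  · simp [ht, Real.zero_rpow hr.ne']

theorem sub_ind (A : Set ℝ) (hA : MeasurableSet A) (f : E p) :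
    f - ind A hA f = ind Aᶜ hA.compl f := by
  refine Lp.ext ?_
  filter_upwards [Lp.coeFn_sub f (ind A hA f), ind_coe A hA f, ind_coe Aᶜ hA.compl f] with t h1 h2 h3
  rw [h1, Pi.sub_apply, h2, h3]
  by_cases ht : t ∈ A <;> simp [ht]

theorem norm_rpow_P (hp : p ≠ ∞) (f : E p) :
    ‖f‖ ^ p.toReal = ‖P f‖ ^ p.toReal + ‖f - P f‖ ^ p.toReal := by
  have h1 : f - P f = ind (Ioi (0 : ℝ))ᶜ measurableSet_Ioi.compl f := sub_ind _ _ f
  have h2 : P f = ind (Ioi (0 : ℝ)) measurableSet_Ioi f := rfl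
  rw [h1, h2, norm_ind_rpow hp, norm_ind_rpow hp, norm_rpow_eq hp f,
    integral_add_compl measurableSet_Ioi (integrable_rpow hp f)]

theorem P_tr_neg_P (h : ℝ) (hh : 0 ≤ h) (f : E p) : P (tr (-h) (P f)) = tr (-h) (P f) := by
  refine Lp.ext ?_
  filter_upwards [P_coe (tr (-h) (P f)), tr_coe (-h) (P f),
    (mp_add (-h)).quasiMeasurePreserving.ae (P_coe f)] with t h1 h2 h3
  rw [h1]
  by_cases ht : t ∈ Ioi (0 : ℝ)
  · rw [indicator_of_mem ht]
  · rw [indicator_of_notMem ht, h2, h3, indicator_of_notMem]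
    simp only [mem_Ioi] at ht ⊢
    linarith

/-- `L^p(ℝ)` is a shift space -/
noncomputable def ssE (hp : p ≠ ∞) (h : ℝ) (hh : 0 ≤ h) : SS (E p) p.toReal where
  τ := (tr h).toContinuousLinearEquiv.toContinuousLinearMap
  σ := (tr (-h)).toContinuousLinearEquiv.toContinuousLinearMap
  P := P
  τσ f := by
    show tr h (tr (-h) f) = f
    rw [tr_add, add_neg_cancel, tr_zero]
  στ f := by
    show tr (-h) (tr h f) = f
    rw [tr_add, neg_add_cancel, tr_zero]
  iso f := (tr h).norm_map f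
  PP := P_P
  PτP f := P_tr_P h hh f
  PσP f := P_tr_neg_P h hh f
  norm_rpow f := norm_rpow_P hp f

theorem ssE_τ_pow (hp : p ≠ ∞) (h : ℝ) (hh : 0 ≤ h) (n : ℕ) (f : E p) :
    ((ssE hp h hh).τ ^ n) f = tr (n * h) f := by
  induction n generalizing f with
  | zero => simp [tr_zero]
  | succ n ih =>
    rw [pow_succ, ContinuousLinearMap.mul_apply, ih]
    have e : (n : ℝ) * h + h = ((n + 1 : ℕ) : ℝ) * h := by
      push_cast
      ring
    show tr (n * h) (tr h f) = _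
    rw [tr_add, e]

theorem ssE_σ_pow (hp : p ≠ ∞) (h : ℝ) (hh : 0 ≤ h) (n : ℕ) (f : E p) :
    ((ssE hp h hh).σ ^ n) f = tr (-(n * h)) f := by
  induction n generalizing f with
  | zero => simp [tr_zero]
  | succ n ih =>
    rw [pow_succ, ContinuousLinearMap.mul_apply, ih]
    have e : -((n : ℝ) * h) + -h = -(((n + 1 : ℕ) : ℝ) * h) := by
      push_cast
      ring
    show tr (-(n * h)) (tr (-h) f) = _
    rw [tr_add, e]

/-- `1_A (τ^s f) = τ^s (1_(A + s) f)` -/
theorem norm_ind_tr (A B : Set ℝ) (hA : MeasurableSet A) (hB : MeasurableSet B)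
    (s : ℝ) (hAB : ∀ t, t ∈ A ↔ t + s ∈ B) (f : E p) :
    ‖ind A hA (tr s f)‖ = ‖ind B hB f‖ := by
  have h : ind A hA (tr s f) = tr s (ind B hB f) := by
    refine Lp.ext ?_
    filter_upwards [ind_coe A hA (tr s f), tr_coe s f, tr_coe s (ind B hB f),
      (mp_add s).quasiMeasurePreserving.ae (ind_coe B hB f)] with t h1 h2 h3 h4
    rw [h1, h3, h4]
    by_cases ht : t ∈ A
    · rw [indicator_of_mem ht, indicator_of_mem ((hAB t).1 ht), h2]
    · rw [indicator_of_notMem ht, indicator_of_notMem fun h => ht ((hAB t).2 h)]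
  rw [h, LinearIsometryEquiv.norm_map]

theorem tendsto_ind (hp : p ≠ ∞) (B : ℕ → Set ℝ) (hB : ∀ n, MeasurableSet (B n))
    (hanti : Antitone B) (hemp : ⋂ n, B n = ∅) (f : E p) :
    Tendsto (fun n => ‖ind (B n) (hB n) f‖) atTop (𝓝 0) := by
  have hr := toReal_pos_of hp
  have h1 : Tendsto (fun n => ∫ t in B n, ‖f t‖ ^ p.toReal) atTop (𝓝 0) := by
    have h := tendsto_setIntegral_of_antitone (μ := volume) (f := fun t => ‖f t‖ ^ p.toReal) hB
      hanti ⟨0, (integrable_rpow hp f).integrableOn⟩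
    rwa [hemp, setIntegral_empty] at h
  have h2 : (fun n => ‖ind (B n) (hB n) f‖) =
      fun n => (∫ t in B n, ‖f t‖ ^ p.toReal) ^ (p.toReal)⁻¹ := by
    funext n
    rw [← norm_ind_rpow hp (B n) (hB n), ← Real.rpow_mul (norm_nonneg _),
      mul_inv_cancel₀ hr.ne', Real.rpow_one]
  rw [h2]
  have h3 := h1.rpow_const (p := (p.toReal)⁻¹) (Or.inr (inv_nonneg.2 hr.le))
  rwa [Real.zero_rpow (inv_ne_zero hr.ne')] at h3

theorem ssE_tails (hp : p ≠ ∞) (h : ℝ) (hh : 0 < h) : (ssE (p := p) hp h hh.le).Tails := by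
  refine ⟨fun f => ?_, fun f => ?_⟩
  · rw [tendsto_zero_iff_norm_tendsto_zero]
    have e : (fun n : ℕ => ‖(ssE (p := p) hp h hh.le).P (((ssE (p := p) hp h hh.le).τ ^ n) f)‖) =
        fun n : ℕ => ‖ind (Ioi (n * h)) measurableSet_Ioi f‖ := by
      funext n
      rw [ssE_τ_pow]
      exact norm_ind_tr (Ioi 0) (Ioi (n * h)) measurableSet_Ioi measurableSet_Ioi (n * h)
        (fun t => by simp) f
    rw [e]
    refine tendsto_ind hp (fun n : ℕ => Ioi (n * h)) (fun n => measurableSet_Ioi) ?_ ?_ f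
    · intro m n hmn
      refine Ioi_subset_Ioi ?_
      have : (m : ℝ) ≤ n := by exact_mod_cast hmn
      nlinarith
    · refine eq_empty_of_forall_notMem fun t ht => ?_
      obtain ⟨n, hn⟩ := exists_nat_gt (t / h)
      have h1 := mem_iInter.1 ht n
      rw [mem_Ioi] at h1
      rw [div_lt_iff₀ hh] at hn
      linarith
  · rw [tendsto_zero_iff_norm_tendsto_zero]
    have e : (fun n : ℕ => ‖((ssE (p := p) hp h hh.le).σ ^ n) f -
        (ssE (p := p) hp h hh.le).P (((ssE (p := p) hp h hh.le).σ ^ n) f)‖) =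
        fun n : ℕ => ‖ind (Ioi (-(n * h)))ᶜ measurableSet_Ioi.compl f‖ := by
      funext n
      rw [ssE_σ_pow]
      have h1 : tr (-(n * h)) f - (ssE (p := p) hp h hh.le).P (tr (-(n * h)) f) =
          ind (Ioi (0 : ℝ))ᶜ measurableSet_Ioi.compl (tr (-(n * h)) f) := sub_ind _ measurableSet_Ioi _
      rw [h1]
      exact norm_ind_tr (Ioi 0)ᶜ (Ioi (-(n * h)))ᶜ measurableSet_Ioi.compl
        measurableSet_Ioi.compl (-(n * h)) (fun t => by simp) f
    rw [e]
    refine tendsto_ind hp (fun n : ℕ => (Ioi (-(n * h)))ᶜ) (fun n => measurableSet_Ioi.compl) ?_ ?_ f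
    · intro m n hmn
      refine compl_subset_compl.2 (Ioi_subset_Ioi ?_)
      have : (m : ℝ) ≤ n := by exact_mod_cast hmn
      nlinarith
    · refine eq_empty_of_forall_notMem fun t ht => ?_
      obtain ⟨n, hn⟩ := exists_nat_gt (-t / h)
      have h1 := mem_iInter.1 ht n
      rw [mem_compl_iff, mem_Ioi, not_lt] at h1
      rw [div_lt_iff₀ hh] at hn
      linarith

end Pool.Agent.V7H86.HD
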