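import Mathlib
import Pool.Agent.V7H86.HD.Defs

/-!
# The transfer isometry `L^p(0,1) → L^p(0,∞)`, `(U f)(t) = e^{-t/p} f(e^{-t})`
-/

set_option autoImplicit false

open MeasureTheory Set Filter
open scoped ENNReal Topology

namespace Pool.Agent.V7H86.HD

namespace T1

/-! ### the change of variables -/

theorem image_exp (a : ℝ) : (fun v : ℝ => Real.exp (-(a + v))) '' Ioi 0 = Ioo 0 (Real.exp (-a)) := by
  ext x
  constructor
  · rintro ⟨v, hv, rfl⟩
    refine ⟨Real.exp_pos _, Real.exp_lt_exp.2 ?_⟩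
    have : 0 < v := hv
    linarith
  · rintro ⟨h0, h1⟩
    refine ⟨-a - Real.log x, ?_, ?_⟩
    · have := (Real.log_lt_iff_lt_exp h0).2 h1
      show 0 < -a - Real.log x
      linarith
    · show Real.exp (-(a + (-a - Real.log x))) = x
      rw [show -(a + (-a - Real.log x)) = Real.log x by ring, Real.exp_log h0]

theorem injOn_exp (a : ℝ) (s : Set ℝ) : InjOn (fun v : ℝ => Real.exp (-(a + v))) s := by
  intro v _ w _ h
  have := Real.exp_injective h
  linarith

theorem deriv_exp (a v : ℝ) (s : Set ℝ) :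
    HasDerivWithinAt (fun v : ℝ => Real.exp (-(a + v))) (-Real.exp (-(a + v))) s v := by
  have h : HasDerivAt (fun v : ℝ => -(a + v)) (-1) v :=
    ((hasDerivAt_id v).const_add a).neg
  have h2 := h.exp
  simp only [mul_neg, mul_one] at h2
  exact h2.hasDerivWithinAt

theorem lintegral_cov (g : ℝ → ℝ≥0∞) : ∫⁻ x in Ioo 0 1, g x =
    ∫⁻ t in Ioi 0, ENNReal.ofReal (Real.exp (-t)) * g (Real.exp (-t)) := by
  have h := lintegral_image_eq_lintegral_abs_deriv_mul (s := Ioi (0 : ℝ)) measurableSet_Ioi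
    (fun v _ => deriv_exp 0 v (Ioi 0)) (injOn_exp 0 (Ioi 0)) g
  rw [image_exp] at h
  simpa [abs_of_pos (Real.exp_pos _)] using h

theorem integral_cov (a : ℝ) (g : ℝ → ℂ) : ∫ x in Ioo 0 (Real.exp (-a)), g x =
    ∫ v in Ioi (0 : ℝ), Real.exp (-(a + v)) • g (Real.exp (-(a + v))) := by
  have h := integral_image_eq_integral_abs_deriv_smul (s := Ioi (0 : ℝ)) measurableSet_Ioi
    (fun v _ => deriv_exp a v (Ioi 0)) (injOn_exp a (Ioi 0)) g
  rw [image_exp] at h
  rw [h]
  refine integral_congr_ae (Eventually.of_forall fun v => ?_)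
  simp only [abs_neg, abs_of_pos (Real.exp_pos _)]

theorem ae_iff_ae (Q : ℝ → Prop) : (∀ᵐ x ∂(volume.restrict (Ioo (0 : ℝ) 1)), Q x) ↔
    ∀ᵐ t ∂(volume : Measure ℝ), 0 < t → Q (Real.exp (-t)) := by
  rw [ae_restrict_iff' measurableSet_Ioo, ae_iff, ae_iff]
  constructor
  · intro h
    have hs : {t : ℝ | ¬(0 < t → Q (Real.exp (-t)))} ⊆
        (fun x => -Real.log x) '' {x : ℝ | ¬(x ∈ Ioo (0 : ℝ) 1 → Q x)} := by
      intro t ht
      simp only [mem_ofPred_eq, Classical.not_imp] at ht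
      refine ⟨Real.exp (-t), ?_, ?_⟩
      · simp only [mem_ofPred_eq, Classical.not_imp]
        exact ⟨⟨Real.exp_pos _, by rw [Real.exp_lt_one_iff]; linarith [ht.1]⟩, ht.2⟩
      · simp
    refine measure_mono_null hs ?_
    refine addHaar_image_eq_zero_of_differentiableOn_of_addHaar_eq_zero volume ?_ h
    intro x hx
    simp only [mem_ofPred_eq, Classical.not_imp] at hx
    exact (Real.differentiableAt_log hx.1.1.ne').neg.differentiableWithinAt
  · intro h
    have hs : {x : ℝ | ¬(x ∈ Ioo (0 : ℝ) 1 → Q x)} ⊆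
        (fun t => Real.exp (-t)) '' {t : ℝ | ¬(0 < t → Q (Real.exp (-t)))} := by
      intro x hx
      simp only [mem_ofPred_eq, Classical.not_imp] at hx
      have hx0 : 0 < x := hx.1.1
      refine ⟨-Real.log x, ?_, ?_⟩
      · simp only [mem_ofPred_eq, Classical.not_imp, neg_neg, Real.exp_log hx0]
        exact ⟨by have := Real.log_neg hx0 hx.1.2; linarith, hx.2⟩
      · simp only [neg_neg, Real.exp_log hx0]
    refine measure_mono_null hs ?_
    refine addHaar_image_eq_zero_of_differentiableOn_of_addHaar_eq_zero volume ?_ h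
    intro x _
    exact (by fun_prop : DifferentiableAt ℝ (fun t : ℝ => Real.exp (-t)) x).differentiableWithinAt

variable {p : ℝ≥0∞} [Fact (1 ≤ p)]

/-- `L^p(0,1)` -/
noncomputable abbrev E1 (p : ℝ≥0∞) := Lp ℂ p (volume.restrict (Ioo (0 : ℝ) 1))

/-- the transferred function -/
noncomputable def uf (p : ℝ≥0∞) (f : ℝ → ℂ) : ℝ → ℂ := (Ioi (0 : ℝ)).indicator fun t =>
  ((Real.exp (-(t / p.toReal)) : ℝ) : ℂ) * f (Real.exp (-t))

omit [Fact (1 ≤ p)] in
theorem stronglyMeasurable_uf {f : ℝ → ℂ} (hf : StronglyMeasurable f) :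
    StronglyMeasurable (uf p f) := by
  refine StronglyMeasurable.indicator ?_ measurableSet_Ioi
  refine StronglyMeasurable.mul ?_ (hf.comp_measurable (by fun_prop))
  exact (by fun_prop : Measurable fun t : ℝ => ((Real.exp (-(t / p.toReal)) : ℝ) : ℂ)).stronglyMeasurable

theorem one_le_pr (hp : p ≠ ∞) : 1 ≤ p.toReal := by
  rw [← ENNReal.toReal_one]
  exact ENNReal.toReal_mono hp Fact.out

theorem eLpNorm_uf (hp : p ≠ ∞) (f : ℝ → ℂ) :
    eLpNorm (uf p f) p volume = eLpNorm f p (volume.restrict (Ioo (0 : ℝ) 1)) := by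
  have hp0 : p ≠ 0 := (one_pos.trans_le (Fact.out : 1 ≤ p)).ne'
  have hpr : 0 < p.toReal := ENNReal.toReal_pos hp0 hp
  rw [eLpNorm_eq_lintegral_rpow_enorm_toReal hp0 hp, eLpNorm_eq_lintegral_rpow_enorm_toReal hp0 hp]
  congr 1
  rw [lintegral_cov, ← lintegral_indicator measurableSet_Ioi]
  refine lintegral_congr fun t => ?_
  by_cases ht : t ∈ Ioi (0 : ℝ)
  · simp only [uf, indicator_of_mem ht]
    rw [enorm_mul, ENNReal.mul_rpow_of_nonneg _ _ hpr.le]
    congr 1
    rw [← ofReal_norm, Complex.norm_real, Real.norm_eq_abs,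
      abs_of_pos (Real.exp_pos _), ENNReal.ofReal_rpow_of_pos (Real.exp_pos _), ← Real.exp_mul]
    congr 2
    field_simp
  · simp only [uf, indicator_of_notMem ht, enorm_zero]
    exact ENNReal.zero_rpow_of_pos hpr

theorem memLp_uf (hp : p ≠ ∞) (f : E1 p) : MemLp (uf p f) p volume :=
  ⟨(stronglyMeasurable_uf (Lp.stronglyMeasurable f)).aestronglyMeasurable, by
    rw [eLpNorm_uf hp]
    exact (Lp.memLp f).2⟩

/-- the transfer -/
noncomputable def U0 (hp : p ≠ ∞) : E1 p →ₗᵢ[ℂ] E p where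
  toFun f := (memLp_uf hp f).toLp (uf p f)
  map_add' f g := by
    refine Lp.ext ?_
    filter_upwards [(memLp_uf hp (f + g)).coeFn_toLp,
      Lp.coeFn_add ((memLp_uf hp f).toLp (uf p f)) ((memLp_uf hp g).toLp (uf p g)),
      (memLp_uf hp f).coeFn_toLp, (memLp_uf hp g).coeFn_toLp,
      (ae_iff_ae _).1 (Lp.coeFn_add f g)] with t h1 h2 h3 h4 h5
    rw [h1, h2, Pi.add_apply, h3, h4]
    by_cases ht : t ∈ Ioi (0 : ℝ)
    · simp only [uf, indicator_of_mem ht]
      rw [h5 ht, Pi.add_apply]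
      ring
    · simp [uf, indicator_of_notMem ht]
  map_smul' c f := by
    refine Lp.ext ?_
    filter_upwards [(memLp_uf hp (c • f)).coeFn_toLp,
      Lp.coeFn_smul c ((memLp_uf hp f).toLp (uf p f)),
      (memLp_uf hp f).coeFn_toLp,
      (ae_iff_ae _).1 (Lp.coeFn_smul c f)] with t h1 h2 h3 h5
    rw [h1, RingHom.id_apply, h2, Pi.smul_apply, h3]
    by_cases ht : t ∈ Ioi (0 : ℝ)
    · simp only [uf, indicator_of_mem ht]
      rw [h5 ht, Pi.smul_apply, smul_eq_mul, smul_eq_mul]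
      ring
    · simp [uf, indicator_of_notMem ht]
  norm_map' f := by
    show ‖(memLp_uf hp f).toLp (uf p f)‖ = ‖f‖
    rw [Lp.norm_toLp, eLpNorm_uf hp, Lp.norm_def]

theorem U0_coe (hp : p ≠ ∞) (f : E1 p) : U0 hp f =ᵐ[volume] uf p f :=
  (memLp_uf hp f).coeFn_toLp

theorem P_U0 (hp : p ≠ ∞) (f : E1 p) : P (U0 hp f) = U0 hp f := by
  refine Lp.ext ?_
  filter_upwards [P_coe (U0 hp f), U0_coe hp f] with t h1 h2
  rw [h1]
  by_cases ht : t ∈ Ioi (0 : ℝ)
  · simp [ht]
  · simp [ht, h2, uf]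

theorem exists_of_P (hp : p ≠ ∞) (f : E p) (hf : P f = f) : ∃ g, U0 hp g = f := by
  -- the inverse transfer
  set g : ℝ → ℂ := fun x => ((Real.exp (-(Real.log x / p.toReal)) : ℝ) : ℂ) * f (-Real.log x)
    with hg
  have hgm : StronglyMeasurable g := by
    refine StronglyMeasurable.mul ?_ ((Lp.stronglyMeasurable f).comp_measurable (by fun_prop))
    exact (by fun_prop : Measurable fun x : ℝ =>
      ((Real.exp (-(Real.log x / p.toReal)) : ℝ) : ℂ)).stronglyMeasurable
  have huf : uf p g = (Ioi (0 : ℝ)).indicator f := by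
    funext t
    by_cases ht : t ∈ Ioi (0 : ℝ)
    · simp only [uf, indicator_of_mem ht, hg, Real.log_exp, neg_neg]
      rw [← mul_assoc, ← Complex.ofReal_mul, ← Real.exp_add,
        show -(t / p.toReal) + -(-t / p.toReal) = 0 by ring, Real.exp_zero]
      simp
    · simp [uf, indicator_of_notMem ht]
  have hgL : MemLp g p (volume.restrict (Ioo (0 : ℝ) 1)) := by
    refine ⟨hgm.aestronglyMeasurable, ?_⟩
    rw [← eLpNorm_uf hp, huf]
    exact (MemLp.indicator measurableSet_Ioi (Lp.memLp f)).2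
  refine ⟨hgL.toLp g, ?_⟩
  refine Lp.ext ?_
  have h0 : P f =ᵐ[volume] f := by rw [hf]
  filter_upwards [U0_coe hp (hgL.toLp g), (ae_iff_ae _).1 hgL.coeFn_toLp, P_coe f, h0]
    with t h1 h2 h3 h4
  rw [h1, ← h4, h3, ← huf]
  by_cases ht : t ∈ Ioi (0 : ℝ)
  · simp only [uf, indicator_of_mem ht]
    rw [h2 ht]
  · simp [uf, indicator_of_notMem ht]

theorem mono_U0 (hp : p ≠ ∞) (s : ℂ) (hs : -(1 / p.toReal) < s.re) (g : E1 p)
    (hg : ∀ᵐ x ∂(volume.restrict (Ioo (0 : ℝ) 1)), g x = (x : ℂ) ^ s) :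
    U0 hp g = ex (s + (1 / p.toReal : ℝ)) := by
  refine Lp.ext ?_
  have hre : 0 < (s + ((1 / p.toReal : ℝ) : ℂ)).re := by
    rw [Complex.add_re, Complex.ofReal_re]
    linarith
  filter_upwards [U0_coe hp g, ex_coe (p := p) hp hre, (ae_iff_ae _).1 hg] with t h1 h2 h3
  rw [h1, h2]
  by_cases ht : t ∈ Ioi (0 : ℝ)
  · simp only [uf, exfun, indicator_of_mem ht]
    rw [h3 ht, Complex.cpow_def_of_ne_zero (by exact_mod_cast (Real.exp_pos _).ne'),
      ← Complex.ofReal_log (Real.exp_pos _).le, Real.log_exp, Complex.ofReal_exp, ← Complex.exp_add]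
    congr 1
    push_cast
    ring
  · simp [uf, exfun, indicator_of_notMem ht]

theorem exists_mono (hp : p ≠ ∞) (s : ℂ) (hs : -(1 / p.toReal) < s.re) : ∃ g : E1 p,
    ∀ᵐ x ∂(volume.restrict (Ioo (0 : ℝ) 1)), g x = (x : ℂ) ^ s := by
  have hre : 0 < (s + ((1 / p.toReal : ℝ) : ℂ)).re := by
    rw [Complex.add_re, Complex.ofReal_re]
    linarith
  obtain ⟨g, hg⟩ := exists_of_P hp (ex (s + (1 / p.toReal : ℝ))) (P_ex hp hre)
  refine ⟨g, (ae_iff_ae _).2 ?_⟩
  have h0 : U0 hp g =ᵐ[volume] (ex (s + (1 / p.toReal : ℝ)) : E p) := by rw [hg]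
  filter_upwards [U0_coe hp g, ex_coe (p := p) hp hre, h0] with t h1 h2 h3 ht
  have ht' : t ∈ Ioi (0 : ℝ) := ht
  rw [h1, h2] at h3
  simp only [uf, exfun, indicator_of_mem ht'] at h3
  have he : ((Real.exp (-(t / p.toReal)) : ℝ) : ℂ) ≠ 0 := by
    exact_mod_cast (Real.exp_pos _).ne'
  refine mul_left_cancel₀ he ?_
  rw [h3, Complex.cpow_def_of_ne_zero (by exact_mod_cast (Real.exp_pos _).ne'),
    ← Complex.ofReal_log (Real.exp_pos _).le, Real.log_exp, Complex.ofReal_exp, ← Complex.exp_add]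
  congr 1
  push_cast
  ring

/-! ### pointwise values of a Bochner integral in `L^p` -/

/-- the integral over a set of finite measure as a functional -/
theorem exists_functional (hp1 : 1 ≤ p) (A : Set ℝ) (hA : MeasurableSet A)
    (hA' : volume A ≠ ∞) : ∃ L : E p →L[ℂ] ℂ, ∀ g : E p, L g = ∫ t in A, g t := by
  have hq : p.HolderConjugate p.conjExponent := ENNReal.HolderConjugate.conjExponent hp1
  have hq' : p.conjExponent.HolderConjugate p := hq.symm
  have hf : Fact (1 ≤ p.conjExponent) := ⟨hq'.one_le⟩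
  refine ⟨((ContinuousLinearMap.mul ℂ ℂ).lpPairing volume p.conjExponent p
    (indicatorConstLp p.conjExponent hA hA' (1 : ℂ))), fun g => ?_⟩
  rw [ContinuousLinearMap.lpPairing_eq_integral, ← integral_indicator hA]
  refine integral_congr_ae ?_
  filter_upwards [indicatorConstLp_coeFn (p := p.conjExponent) (hs := hA) (hμs := hA')
    (c := (1 : ℂ))] with t ht
  rw [ht, ContinuousLinearMap.mul_apply']
  by_cases h : t ∈ A <;> simp [h]

theorem integrableOn_coe (g : E p) (A : Set ℝ) (hA' : volume A < ∞) : IntegrableOn g A := by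
  have : IsFiniteMeasure (volume.restrict A) := ⟨by rwa [Measure.restrict_apply_univ]⟩
  exact ((Lp.memLp g).restrict A).integrable Fact.out

theorem integral_ae (hp : p ≠ ∞) (F : ℝ → E p) (hF : IntegrableOn F (Ioi 0))
    (G : ℝ → ℝ → ℂ) (hG : StronglyMeasurable (Function.uncurry G))
    (h : ∀ v ∈ Ioi (0 : ℝ), F v =ᵐ[volume] fun t => G t v) :
    (∫ v in Ioi (0 : ℝ), F v : E p) =ᵐ[volume] fun t => ∫ v in Ioi (0 : ℝ), G t v := by
  have hp1 : (1 : ℝ≥0∞) ≤ p := Fact.out
  -- integrability on the product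
  have hint : ∀ A : Set ℝ, MeasurableSet A → volume A < ∞ →
      Integrable (Function.uncurry G) ((volume.restrict A).prod (volume.restrict (Ioi 0))) := by
    intro A hA hA'
    refine ⟨hG.aestronglyMeasurable, ?_⟩
    rw [hasFiniteIntegral_iff_enorm, lintegral_prod_symm _ hG.enorm.aemeasurable]
    have hb : ∀ v ∈ Ioi (0 : ℝ), ∫⁻ t in A, ‖Function.uncurry G (t, v)‖ₑ ≤
        ‖F v‖ₑ * volume A ^ (1 / (1 : ℝ≥0∞).toReal - 1 / p.toReal) := by
      intro v hv
      have h1 : ∫⁻ t in A, ‖Function.uncurry G (t, v)‖ₑ = eLpNorm (F v) 1 (volume.restrict A) := by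
        rw [eLpNorm_one_eq_lintegral_enorm]
        refine lintegral_congr_ae ?_
        filter_upwards [ae_restrict_of_ae (h v hv)] with t ht
        rw [ht]
        rfl
      rw [h1]
      refine (eLpNorm_le_eLpNorm_mul_rpow_measure_univ hp1
        (Lp.aestronglyMeasurable (F v)).restrict).trans ?_
      rw [Measure.restrict_apply_univ]
      gcongr
      rw [Lp.enorm_def]
      exact eLpNorm_mono_measure _ Measure.restrict_le_self
    calc ∫⁻ v in Ioi (0 : ℝ), ∫⁻ t in A, ‖Function.uncurry G (t, v)‖ₑ ≤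
        ∫⁻ v in Ioi (0 : ℝ), ‖F v‖ₑ * volume A ^ (1 / (1 : ℝ≥0∞).toReal - 1 / p.toReal) :=
          setLIntegral_mono' measurableSet_Ioi hb
      _ = (∫⁻ v in Ioi (0 : ℝ), ‖F v‖ₑ) *
          volume A ^ (1 / (1 : ℝ≥0∞).toReal - 1 / p.toReal) := by
          rw [lintegral_mul_const'']
          exact hF.1.enorm
      _ < ∞ := by
          refine ENNReal.mul_lt_top hF.2 ?_
          refine ENNReal.rpow_lt_top_of_nonneg ?_ hA'.ne
          have := one_le_pr (p := p) hp
          rw [ENNReal.toReal_one]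
          have h2 : 1 / p.toReal ≤ 1 := by
            rw [div_le_one (by linarith)]
            exact this
          linarith
  refine ae_eq_of_forall_setIntegral_eq_of_sigmaFinite ?_ ?_ ?_
  · intro A _ hA'
    exact integrableOn_coe _ A hA'
  · intro A hA hA'
    exact (hint A hA hA').integral_prod_left
  · intro A hA hA'
    obtain ⟨L, hL⟩ := exists_functional hp1 A hA hA'.ne
    rw [← hL, ← L.integral_comp_comm hF]
    rw [integral_integral_swap (hint A hA hA')]
    refine setIntegral_congr_fun measurableSet_Ioi fun v hv => ?_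
    show L (F v) = ∫ t in A, G t v
    rw [hL]
    refine integral_congr_ae ?_
    filter_upwards [ae_restrict_of_ae (h v hv)] with t ht
    rw [ht]

/-! ### the Hardy operator -/

theorem S_U0_coe (hp : p ≠ ∞) (f : E1 p) (v : ℝ) : S v (U0 hp f) =ᵐ[volume]
    fun t => (Ioi (0 : ℝ)).indicator (fun t => uf p f (t + v)) t := by
  filter_upwards [P_coe (tr v (U0 hp f)), tr_coe v (U0 hp f),
    (mp_add v).quasiMeasurePreserving.ae (U0_coe hp f)] with t h1 h2 h3
  rw [S_apply, h1]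
  by_cases ht : t ∈ Ioi (0 : ℝ)
  · rw [indicator_of_mem ht, indicator_of_mem ht, h2, h3]
  · rw [indicator_of_notMem ht, indicator_of_notMem ht]

theorem integrableOn_S (hp1 : 1 < p) (hp : p ≠ ∞) (f : E p) : IntegrableOn (fun v : ℝ =>
    ((Real.exp (-((1 - 1 / p.toReal) * v)) : ℝ) : ℂ) • S v f) (Ioi 0) := by
  have hpr : 1 < p.toReal := by
    rw [← ENNReal.toReal_one]
    exact (ENNReal.toReal_lt_toReal ENNReal.one_ne_top hp).2 hp1
  have hc : 0 < 1 - 1 / p.toReal := by
    have : 1 / p.toReal < 1 := by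
      rw [div_lt_one (by linarith)]
      exact hpr
    linarith
  have hi : IntegrableOn (fun v : ℝ => Real.exp (-(1 - 1 / p.toReal) * v)) (Ioi 0) :=
    integrableOn_exp_mul_Ioi (by linarith) 0
  refine (hi.mul_const ‖f‖).mono' ?_ ?_
  · refine Continuous.aestronglyMeasurable ?_
    exact (by fun_prop : Continuous fun v : ℝ =>
      ((Real.exp (-((1 - 1 / p.toReal) * v)) : ℝ) : ℂ)).smul (continuous_S hp f)
  · refine Eventually.of_forall fun v => ?_
    rw [norm_smul, Complex.norm_real, Real.norm_eq_abs, abs_of_pos (Real.exp_pos _), neg_mul]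
    exact mul_le_mul_of_nonneg_left (norm_S_le v f) (Real.exp_pos _).le

theorem hardy_ae (hp1 : 1 < p) (hp : p ≠ ∞) (f g : E1 p) (hg : U0 hp g =
    ∫ v in Ioi (0 : ℝ), ((Real.exp (-((1 - 1 / p.toReal) * v)) : ℝ) : ℂ) • S v (U0 hp f)) :
    ∀ᵐ x ∂(volume.restrict (Ioo (0 : ℝ) 1)), g x = (1 / x : ℝ) • ∫ t in (0 : ℝ)..x, f t := by
  rw [ae_iff_ae]
  have hw := stronglyMeasurable_uf (p := p) (Lp.stronglyMeasurable f)
  have h1 := integral_ae hp (fun v : ℝ =>
    ((Real.exp (-((1 - 1 / p.toReal) * v)) : ℝ) : ℂ) • S v (U0 hp f))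
    (integrableOn_S hp1 hp (U0 hp f))
    (fun t v => ((Real.exp (-((1 - 1 / p.toReal) * v)) : ℝ) : ℂ) *
      (Ioi (0 : ℝ)).indicator (fun t => uf p f (t + v)) t) (by
      refine StronglyMeasurable.mul ?_ ?_
      · exact (by fun_prop : Measurable fun x : ℝ × ℝ =>
          ((Real.exp (-((1 - 1 / p.toReal) * x.2)) : ℝ) : ℂ)).stronglyMeasurable
      · have h2 : (fun x : ℝ × ℝ => (Ioi (0 : ℝ)).indicator (fun t => uf p f (t + x.2)) x.1) =
            {x : ℝ × ℝ | 0 < x.1}.indicator (fun x => uf p f (x.1 + x.2)) := by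
          funext x
          by_cases hx : 0 < x.1
          · rw [indicator_of_mem (show x.1 ∈ Ioi (0 : ℝ) from hx),
              indicator_of_mem (show x ∈ {x : ℝ × ℝ | 0 < x.1} from hx)]
          · rw [indicator_of_notMem (show x.1 ∉ Ioi (0 : ℝ) from hx),
              indicator_of_notMem (show x ∉ {x : ℝ × ℝ | 0 < x.1} from hx)]
        rw [h2]
        exact (hw.comp_measurable (by fun_prop)).indicator
          (measurableSet_lt measurable_const measurable_fst))
    (fun v _ => by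
      filter_upwards [Lp.coeFn_smul ((Real.exp (-((1 - 1 / p.toReal) * v)) : ℝ) : ℂ)
        (S v (U0 hp f)), S_U0_coe hp f v] with t h2 h3
      rw [h2, Pi.smul_apply, h3, smul_eq_mul])
  rw [← hg] at h1
  filter_upwards [h1, U0_coe hp g] with t h2 h3 ht
  have ht' : t ∈ Ioi (0 : ℝ) := ht
  rw [h3] at h2
  simp only [uf, indicator_of_mem ht'] at h2
  have he : ((Real.exp (-(t / p.toReal)) : ℝ) : ℂ) ≠ 0 := by
    exact_mod_cast (Real.exp_pos _).ne'
  refine mul_left_cancel₀ he ?_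
  rw [h2, intervalIntegral.integral_of_le (Real.exp_pos _).le, integral_Ioc_eq_integral_Ioo,
    integral_cov, ← integral_smul, ← integral_const_mul]
  refine setIntegral_congr_fun measurableSet_Ioi fun v hv => ?_
  have hv' : t + v ∈ Ioi (0 : ℝ) := by
    have : 0 < v := hv
    show 0 < t + v
    linarith
  simp only [indicator_of_mem hv', Complex.real_smul]
  rw [← mul_assoc, ← mul_assoc, ← mul_assoc, one_div (Real.exp (-t)), ← Real.exp_neg,
    ← Complex.ofReal_mul,
    ← Complex.ofReal_mul, ← Complex.ofReal_mul, ← Real.exp_add, ← Real.exp_add, ← Real.exp_add]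
  congr 3
  ring

end T1

variable {p : ℝ≥0∞} [Fact (1 ≤ p)]

/-- `g` is `H f` -/
def IsHardy (f g : Lp ℂ p (volume.restrict (Ioo (0 : ℝ) 1))) : Prop :=
  ∀ᵐ x ∂(volume.restrict (Ioo (0 : ℝ) 1)), g x = (1 / x : ℝ) • ∫ t in (0 : ℝ)..x, f t

/-- `g` is the monomial `x ^ s` -/
def IsMono (s : ℂ) (g : Lp ℂ p (volume.restrict (Ioo (0 : ℝ) 1))) : Prop :=
  ∀ᵐ x ∂(volume.restrict (Ioo (0 : ℝ) 1)), g x = (x : ℂ) ^ s

/-- the transfer isometry exists -/
theorem exists_U (hp1 : 1 < p) (hp : p ≠ ∞) :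
    ∃ U : Lp ℂ p (volume.restrict (Ioo (0 : ℝ) 1)) →ₗᵢ[ℂ] E p,
      (∀ f : E p, (∃ g, U g = f) ↔ P f = f) ∧
      (∀ (s : ℂ) (g : Lp ℂ p (volume.restrict (Ioo (0 : ℝ) 1))), -(1 / p.toReal) < s.re →
        (IsMono s g ↔ U g = ex (s + (1 / p.toReal : ℝ)))) ∧
      (∀ f g : Lp ℂ p (volume.restrict (Ioo (0 : ℝ) 1)), (IsHardy f g ↔
        U g = ∫ v in Ioi (0 : ℝ), ((Real.exp (-((1 - 1 / p.toReal) * v)) : ℝ) : ℂ) • S v (U f))) := by
  refine ⟨T1.U0 hp, fun f => ⟨?_, T1.exists_of_P hp f⟩, fun s g hs => ⟨T1.mono_U0 hp s hs g, ?_⟩,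
    fun f g => ?_⟩
  · rintro ⟨g, rfl⟩
    exact T1.P_U0 hp g
  · intro h
    obtain ⟨g', hg'⟩ := T1.exists_mono hp s hs
    have h2 := T1.mono_U0 hp s hs g' hg'
    have h3 : g = g' := (T1.U0 hp).injective (h.trans h2.symm)
    rw [h3]
    exact hg'
  · have hP : P (∫ v in Ioi (0 : ℝ), ((Real.exp (-((1 - 1 / p.toReal) * v)) : ℝ) : ℂ) •
        S v (T1.U0 hp f)) = ∫ v in Ioi (0 : ℝ),
          ((Real.exp (-((1 - 1 / p.toReal) * v)) : ℝ) : ℂ) • S v (T1.U0 hp f) := by
      rw [← ContinuousLinearMap.integral_comp_comm _ (T1.integrableOn_S hp1 hp (T1.U0 hp f))]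
      refine setIntegral_congr_fun measurableSet_Ioi fun v _ => ?_
      simp only [map_smul, P_S]
    obtain ⟨g', hg'⟩ := T1.exists_of_P hp _ hP
    have h2 := T1.hardy_ae hp1 hp f g' hg'
    constructor
    · intro h
      have h3 : g = g' := by
        refine Lp.ext ?_
        filter_upwards [h, h2] with x h4 h5
        rw [h4, h5]
      rw [h3]
      exact hg'
    · intro h
      have h3 : g = g' := (T1.U0 hp).injective (h.trans hg'.symm)
      rw [h3]
      exact h2

end Pool.Agent.V7H86.HD
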