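import Mathlib
import Pool.Agent.V7H86.HD.Defs
import Pool.Agent.V7H86.HD.T1

/-!
# Averages in `L^p(ℝ)`
-/

set_option autoImplicit false

open MeasureTheory Set Filter
open scoped ENNReal Topology

namespace Pool.Agent.V7H86.HD

variable {p : ℝ≥0∞} [Fact (1 ≤ p)]

/-- the indicator function of `(0, h]` -/
noncomputable def one (h : ℝ) : E p :=
  indicatorConstLp p (measurableSet_Ioc (a := (0 : ℝ)) (b := h)) (by simp) (1 : ℂ)

/-- averages over `(s, s + h]` -/
theorem exists_avg (hp : p ≠ ∞) (f : E p) (h : ℝ) (hh : 0 < h) :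
    ∃ g : E p, (∀ᵐ s : ℝ, g s = (1 / h : ℝ) • ∫ v in (0 : ℝ)..h, f (s + v)) ∧
      ∀ w D : ℝ, (∀ v ∈ Icc (0 : ℝ) h, ‖tr v f - tr w f‖ ≤ D) → ‖g - tr w f‖ ≤ D := by
  have hc : Continuous fun v => tr v f := continuous_tr hp f
  have hI : IntervalIntegrable (fun v => tr v f) volume 0 h := hc.intervalIntegrable _ _
  refine ⟨(1 / h : ℝ) • ∫ v in (0 : ℝ)..h, tr v f, ?_, ?_⟩
  · have hsub : Ioc (0 : ℝ) h ⊆ Ioi 0 := fun x hx => hx.1
    have hG : StronglyMeasurable (Function.uncurry
        fun t v : ℝ => (Ioc (0 : ℝ) h).indicator (fun v => f (t + v)) v) := by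
      have hm : MeasurableSet {x : ℝ × ℝ | x.2 ∈ Ioc (0 : ℝ) h} :=
        measurable_snd measurableSet_Ioc
      have h2 : StronglyMeasurable fun x : ℝ × ℝ => f (x.1 + x.2) :=
        (Lp.stronglyMeasurable f).comp_measurable (by fun_prop)
      have e : (Function.uncurry
          fun t v : ℝ => (Ioc (0 : ℝ) h).indicator (fun v => f (t + v)) v) =
          {x : ℝ × ℝ | x.2 ∈ Ioc (0 : ℝ) h}.indicator fun x : ℝ × ℝ => f (x.1 + x.2) := by
        funext x
        obtain ⟨t, v⟩ := x
        by_cases hv : v ∈ Ioc (0 : ℝ) h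
        · simp only [Function.uncurry_apply_pair]
          rw [indicator_of_mem hv, indicator_of_mem (show (t, v) ∈ {x : ℝ × ℝ | x.2 ∈ Ioc (0 : ℝ) h}
            from hv)]
        · simp only [Function.uncurry_apply_pair]
          rw [indicator_of_notMem hv,
            indicator_of_notMem (show (t, v) ∉ {x : ℝ × ℝ | x.2 ∈ Ioc (0 : ℝ) h} from hv)]
      rw [e]
      exact h2.indicator hm
    have h1 := T1.integral_ae hp (fun v => (Ioc (0 : ℝ) h).indicator (fun v => tr v f) v) (by
        have : IntegrableOn (fun v => tr v f) (Ioc 0 h) volume := hc.integrableOn_Ioc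
        exact (this.integrable_indicator measurableSet_Ioc).integrableOn)
      (fun t v => (Ioc (0 : ℝ) h).indicator (fun v => f (t + v)) v) hG (by
        intro v _
        by_cases hv : v ∈ Ioc (0 : ℝ) h
        · simp only [indicator_of_mem hv]
          exact tr_coe v f
        · simp only [indicator_of_notMem hv]
          exact Lp.coeFn_zero _ _ _)
    have e1 : (∫ v in Ioi (0 : ℝ), (Ioc (0 : ℝ) h).indicator (fun v => tr v f) v : E p) =
        ∫ v in (0 : ℝ)..h, tr v f := by
      rw [setIntegral_indicator measurableSet_Ioc, inter_eq_self_of_subset_right hsub,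
        intervalIntegral.integral_of_le hh.le]
    have e2 : ∀ s : ℝ, (∫ v in Ioi (0 : ℝ), (Ioc (0 : ℝ) h).indicator (fun v => f (s + v)) v) =
        ∫ v in (0 : ℝ)..h, f (s + v) := by
      intro s
      rw [setIntegral_indicator measurableSet_Ioc, inter_eq_self_of_subset_right hsub,
        intervalIntegral.integral_of_le hh.le]
    rw [e1] at h1
    filter_upwards [h1, Lp.coeFn_smul (1 / h : ℝ) (∫ v in (0 : ℝ)..h, tr v f : E p)] with s h3 h4
    rw [h4, Pi.smul_apply, h3, e2]
  · intro w D hD
    have e : (1 / h : ℝ) • (∫ v in (0 : ℝ)..h, tr v f) - tr w f =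
        (1 / h : ℝ) • ∫ v in (0 : ℝ)..h, (tr v f - tr w f) := by
      rw [intervalIntegral.integral_sub hI intervalIntegrable_const,
        intervalIntegral.integral_const, sub_zero, smul_sub, smul_smul,
        one_div_mul_cancel hh.ne', one_smul]
    rw [e, norm_smul]
    have h1 := intervalIntegral.norm_integral_le_of_norm_le_const (a := (0 : ℝ)) (b := h)
      (f := fun v => tr v f - tr w f) (C := D) (fun v hv => hD v (by
        rw [uIoc_of_le hh.le] at hv
        exact ⟨hv.1.le, hv.2⟩))
    rw [sub_zero, abs_of_pos hh] at h1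
    rw [Real.norm_of_nonneg (by positivity : (0 : ℝ) ≤ 1 / h), one_div, inv_mul_le_iff₀ hh]
    linarith

end Pool.Agent.V7H86.HD
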