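import Mathlib
import Pool.Agent.V7H86.HD.Defs
import Pool.Agent.V7H86.HD.A1
import Pool.Agent.V7H86.HD.T5
import Pool.Agent.V7H86.HD.T6

/-!
# The discretisation of a functional: norm bounds
-/

set_option autoImplicit false

open MeasureTheory Set Filter Polynomial
open scoped ENNReal Topology

namespace Pool.Agent.V7H86.HD

variable {p q : ℝ≥0∞} [Fact (1 ≤ p)] [Fact (1 ≤ q)]

/-- the polynomial `∑ j < N, (1/h) g(1_{(jh, (j+1)h]}) X ^ j` -/
noncomputable def Gam (g : E p →L[ℂ] ℂ) (h : ℝ) (N : ℕ) : ℂ[X] :=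
  ∑ j ∈ Finset.range N, C ((1 / h : ℝ) * g (tr (-(j * h)) (one h)) : ℂ) * X ^ j

omit [Fact (1 ≤ p)] in
theorem one_coe (h : ℝ) : (one h : E p) =ᵐ[volume] (Ioc (0 : ℝ) h).indicator fun _ => (1 : ℂ) :=
  indicatorConstLp_coeFn

theorem norm_one_rpow (hp : p ≠ ∞) (h : ℝ) (hh : 0 < h) : ‖(one h : E p)‖ ^ p.toReal = h := by
  have hp0 : p ≠ 0 := (one_pos.trans_le (Fact.out : 1 ≤ p)).ne'
  have hr := toReal_pos_of (p := p) hp
  rw [one, norm_indicatorConstLp hp0 hp, norm_one, one_mul, ← Real.rpow_mul measureReal_nonneg,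
    one_div, inv_mul_cancel₀ hr.ne', Real.rpow_one]
  simp [measureReal_def, hh.le]

theorem cell_one (hp : p ≠ ∞) (h : ℝ) (hh : 0 < h) : (ssE hp h hh.le).Cell (one h : E p) := by
  constructor
  · show P (one h : E p) = one h
    refine Lp.ext ?_
    filter_upwards [P_coe (one h : E p), one_coe (p := p) h] with t h1 h2
    rw [h1]
    by_cases ht : t ∈ Ioi (0 : ℝ)
    · rw [indicator_of_mem ht]
    · rw [indicator_of_notMem ht, h2, indicator_of_notMem]
      exact fun h3 => ht h3.1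
  · show P (tr h (one h : E p)) = 0
    refine Lp.ext ?_
    filter_upwards [P_coe (tr h (one h : E p)), tr_coe h (one h : E p),
      (mp_add h).quasiMeasurePreserving.ae (one_coe (p := p) h),
      Lp.coeFn_zero ℂ p (volume : Measure ℝ)] with t h1 h2 h3 h4
    rw [h1, h4, Pi.zero_apply]
    by_cases ht : t ∈ Ioi (0 : ℝ)
    · rw [indicator_of_mem ht, h2, h3, indicator_of_notMem]
      intro h5
      have h6 : 0 < t := ht
      linarith [h5.2]
    · rw [indicator_of_notMem ht]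

theorem Gam_coeff (g : E p →L[ℂ] ℂ) (h : ℝ) (N j : ℕ) : (Gam g h N).coeff j =
    if j < N then ((1 / h : ℝ) * g (tr (-(j * h)) (one h)) : ℂ) else 0 := by
  rw [Gam, finsetSum_coeff]
  simp only [coeff_C_mul, coeff_X_pow, mul_ite, mul_one, mul_zero, Finset.sum_ite_eq,
    Finset.mem_range]

/-- T10'. -/
theorem norm_aeval_one (hq : q ≠ ∞) (h : ℝ) (hh : 0 < h) (a : ℂ[X]) (D : ℕ)
    (hD : a.natDegree < D) :
    ‖aeval (ssE (p := q) hq h hh.le).τ a (one h : E q)‖ ^ q.toReal =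
      h * ∑ j ∈ Finset.range D, ‖a.coeff j‖ ^ q.toReal := by
  have h1 : aeval (ssE (p := q) hq h hh.le).τ a (one h : E q) =
      ∑ j ∈ Finset.range D, a.coeff j • ((ssE (p := q) hq h hh.le).τ ^ j) (one h) := by
    rw [aeval_eq_sum_range' hD, sum_apply]
    rfl
  rw [h1, SS.sum_left _ (toReal_pos_of hq) (cell_one hq h hh), norm_one_rpow hq h hh, mul_comm]

/-- T10. The `ℓ^q` bound, by duality (`∑ |G_j| ^ q h ≤ ‖g‖ ^ q`, test with
`∑ conj G_j |G_j| ^ (q-2) 1_{cell j}`; norms of step functions by `SS.sum_right` for `ssE`). -/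
theorem gam_norm (hp : p ≠ ∞) (hpq : 1 / p.toReal + 1 / q.toReal = 1) (hp1 : 1 < p.toReal)
    (g : E p →L[ℂ] ℂ) (h : ℝ) (hh : 0 < h) (N : ℕ) :
    h * ∑ j ∈ Finset.range N, ‖(Gam g h N).coeff j‖ ^ q.toReal ≤ ‖g‖ ^ q.toReal := by
  set r := p.toReal with hr
  set s := q.toReal with hs
  have hr0 : 0 < r := by linarith
  have hs1 : 0 < 1 / s := by
    have : 1 / r < 1 := by
      rw [div_lt_one hr0]
      exact hp1
    linarith
  have hs0 : 0 < s := one_div_pos.1 hs1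
  have hs2 : 1 < s := by
    have h1 : 1 / s < 1 := by
      have : 0 < 1 / r := by positivity
      linarith
    rwa [div_lt_one hs0] at h1
  have hrs : (s - 1) * r = s := by
    field_simp at hpq
    linarith
  set c : ℕ → ℂ := fun j => (Gam g h N).coeff j with hc
  set T : ℝ := h * ∑ j ∈ Finset.range N, ‖c j‖ ^ s with hT
  have hT0 : 0 ≤ T := by positivity
  set b : ℕ → ℂ := fun j => (starRingEnd ℂ) (c j) * ((‖c j‖ ^ (s - 2) : ℝ) : ℂ) with hb
  -- the test function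
  set u : E p := ∑ j ∈ Finset.range N, b j • ((ssE hp h hh.le).σ ^ j) (one h) with hu
  have hbn : ∀ j, ‖b j‖ = ‖c j‖ ^ (s - 1) := by
    intro j
    simp only [hb]
    rw [norm_mul, RCLike.norm_conj, Complex.norm_real, Real.norm_eq_abs,
      abs_of_nonneg (Real.rpow_nonneg (norm_nonneg _) _)]
    by_cases h0 : ‖c j‖ = 0
    · rw [h0, zero_mul, Real.zero_rpow (by linarith)]
    · have h1 : 0 < ‖c j‖ := lt_of_le_of_ne (norm_nonneg _) (Ne.symm h0)
      conv_lhs => rw [← Real.rpow_one ‖c j‖]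
      rw [Real.rpow_one, show s - 1 = 1 + (s - 2) by ring, Real.rpow_add h1, Real.rpow_one]
  have hun : ‖u‖ ^ r = T := by
    rw [hu, SS.sum_right _ hr0 (cell_one hp h hh), norm_one_rpow hp h hh, hT, mul_comm]
    congr 1
    refine Finset.sum_congr rfl fun j _ => ?_
    rw [hbn, ← Real.rpow_mul (norm_nonneg _), hrs]
  have hgu : g u = (T : ℂ) := by
    rw [hu, map_sum, hT, Complex.ofReal_mul, Complex.ofReal_sum, Finset.mul_sum]
    refine Finset.sum_congr rfl fun j hj => ?_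
    have hj' := Finset.mem_range.1 hj
    rw [map_smul, ssE_σ_pow, smul_eq_mul]
    have h1 : g (tr (-(j * h)) (one h)) = h * c j := by
      simp only [hc]
      rw [Gam_coeff, if_pos hj']
      have : (h : ℂ) ≠ 0 := by exact_mod_cast hh.ne'
      push_cast
      field_simp
    rw [h1]
    simp only [hb]
    have h2 : (starRingEnd ℂ) (c j) * c j = ((‖c j‖ ^ 2 : ℝ) : ℂ) := by
      rw [mul_comm, Complex.mul_conj, Complex.normSq_eq_norm_sq]
    have h3 : ‖c j‖ ^ 2 * ‖c j‖ ^ (s - 2) = ‖c j‖ ^ s := by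
      by_cases h0 : ‖c j‖ = 0
      · rw [h0, Real.zero_rpow hs0.ne']
        simp
      · have h1 : 0 < ‖c j‖ := lt_of_le_of_ne (norm_nonneg _) (Ne.symm h0)
        rw [← Real.rpow_natCast, ← Real.rpow_add h1]
        congr 1
        push_cast
        ring
    calc (starRingEnd ℂ) (c j) * ((‖c j‖ ^ (s - 2) : ℝ) : ℂ) * (h * c j) =
        h * (((starRingEnd ℂ) (c j) * c j) * ((‖c j‖ ^ (s - 2) : ℝ) : ℂ)) := by ring
      _ = h * (((‖c j‖ ^ 2 : ℝ) : ℂ) * ((‖c j‖ ^ (s - 2) : ℝ) : ℂ)) := by rw [h2]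
      _ = h * ((‖c j‖ ^ s : ℝ) : ℂ) := by rw [← Complex.ofReal_mul, h3]
  have h1 : T ≤ ‖g‖ * ‖u‖ := by
    have h2 := g.le_opNorm u
    rwa [hgu, Complex.norm_real, Real.norm_eq_abs, abs_of_nonneg hT0] at h2
  show T ≤ ‖g‖ ^ s
  by_cases hT1 : T = 0
  · rw [hT1]
    exact Real.rpow_nonneg (norm_nonneg _) _
  · have hT2 : 0 < T := lt_of_le_of_ne hT0 (Ne.symm hT1)
    have hu1 : ‖u‖ = T ^ (1 / r) := by
      rw [← hun, ← Real.rpow_mul (norm_nonneg _), mul_one_div_cancel hr0.ne', Real.rpow_one]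
    have h3 : T ^ (1 / s) ≤ ‖g‖ := by
      rw [hu1] at h1
      have h4 : T = T ^ (1 / s) * T ^ (1 / r) := by
        rw [← Real.rpow_add hT2, show 1 / s + 1 / r = 1 by linarith, Real.rpow_one]
      have h5 : 0 < T ^ (1 / r) := Real.rpow_pos_of_pos hT2 _
      have h6 : T ^ (1 / s) * T ^ (1 / r) ≤ ‖g‖ * T ^ (1 / r) := by
        rw [← h4]
        exact h1
      exact le_of_mul_le_mul_right h6 h5
    have h4 := Real.rpow_le_rpow (Real.rpow_nonneg hT0 _) h3 hs0.le
    rwa [← Real.rpow_mul hT0, one_div_mul_cancel hs0.ne', Real.rpow_one] at h4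

end Pool.Agent.V7H86.HD
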