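import Mathlib
import Pool.Agent.V7H86.HD.T10

/-!
T11, the `ℓ^q` bound of the list of `predisc` (helper34).
-/

set_option autoImplicit false

open MeasureTheory Set Filter Polynomial
open scoped ENNReal Topology

namespace Pool.Agent.V7H86.HD

variable {p q : ℝ≥0∞} [Fact (1 ≤ p)] [Fact (1 ≤ q)]

/-- the part `k` modulo `n` of the coefficients -/
noncomputable def part (a : ℂ[X]) (N n k : ℕ) : ℂ[X] :=
  ∑ j ∈ Finset.range N, C (a.coeff (j * n + k)) * X ^ j

theorem part_coeff (a : ℂ[X]) (N n k j : ℕ) :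
    (part a N n k).coeff j = if j < N then a.coeff (j * n + k) else 0 := by
  rw [part, finset_sum_coeff]
  simp only [coeff_C_mul, coeff_X_pow, mul_ite, mul_one, mul_zero]
  rw [Finset.sum_ite_eq (Finset.range N) j]
  simp only [Finset.mem_range]

theorem natDegree_part (a : ℂ[X]) (N n k : ℕ) : (part a N n k).natDegree < N + 1 := by
  rw [Nat.lt_succ_iff, natDegree_le_iff_coeff_eq_zero]
  intro j hj
  rw [part_coeff, if_neg (by omega)]

theorem natDegree_Gam (g : E p →L[ℂ] ℂ) (h : ℝ) (N : ℕ) : (Gam g h N).natDegree < N + 1 := by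
  rw [Nat.lt_succ_iff, natDegree_le_iff_coeff_eq_zero]
  intro j hj
  rw [Gam_coeff, if_neg (by omega)]

theorem sum_parts (u : ℕ → ℝ) (N n : ℕ) :
    ∑ k ∈ Finset.range n, ∑ j ∈ Finset.range N, u (j * n + k) =
      ∑ i ∈ Finset.range (N * n), u i := by
  rw [Finset.sum_comm]
  induction N with
  | zero => simp
  | succ N ih =>
    rw [Finset.sum_range_succ, ih, add_mul, one_mul, Finset.sum_range_add]

theorem predisc_q (hp : p ≠ ∞) (hq : q ≠ ∞) (hpq : 1 / p.toReal + 1 / q.toReal = 1)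
    (hp1 : 1 < p.toReal) (g : E p →L[ℂ] ℂ) (h : ℝ) (hh : 0 < h) (N N' : ℕ) (hN : N ≤ N')
    (n : ℕ) (hn : 0 < n) :
    ‖aeval (ssE (p := q) hq h hh.le).τ (-(Gam g h N' - Gam g h N)) (one h : E q)‖ ^ q.toReal +
      ∑ k ∈ Finset.range n, ‖aeval (ssE (p := q) hq h hh.le).τ
        (C (((n : ℝ) ^ (1 / p.toReal) / n : ℝ) : ℂ) * part (Gam g (h / n) (N' * n)) N' n k)
          (one h : E q)‖ ^ q.toReal ≤ 2 * ‖g‖ ^ q.toReal := by
  have hn' : (0 : ℝ) < n := by exact_mod_cast hn
  have hq0 : 0 < q.toReal := toReal_pos_of hq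
  have hp0 : 0 < p.toReal := toReal_pos_of hp
  have b1 : ‖aeval (ssE (p := q) hq h hh.le).τ (-(Gam g h N' - Gam g h N))
      (one h : E q)‖ ^ q.toReal ≤ ‖g‖ ^ q.toReal := by
    have hdeg : (-(Gam g h N' - Gam g h N)).natDegree < N' + 1 := by
      rw [Nat.lt_succ_iff, natDegree_le_iff_coeff_eq_zero]
      intro j hj
      rw [coeff_neg, coeff_sub, Gam_coeff, Gam_coeff, if_neg (by omega), if_neg (by omega)]
      simp
    rw [norm_aeval_one hq h hh _ (N' + 1) hdeg]
    refine le_trans ?_ (gam_norm hp hpq hp1 g h hh (N' + 1 - 1 : ℕ))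
    rw [Nat.add_sub_cancel, Finset.sum_range_succ]
    have e0 : (-(Gam g h N' - Gam g h N)).coeff N' = 0 := by
      rw [coeff_neg, coeff_sub, Gam_coeff, Gam_coeff, if_neg (by omega), if_neg (by omega)]
      simp
    rw [e0, norm_zero, Real.zero_rpow hq0.ne', add_zero]
    refine mul_le_mul_of_nonneg_left (Finset.sum_le_sum fun j hj => ?_) hh.le
    refine Real.rpow_le_rpow (norm_nonneg _) ?_ hq0.le
    rw [Finset.mem_range] at hj
    rw [coeff_neg, norm_neg, coeff_sub, Gam_coeff, Gam_coeff, if_pos hj]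
    split_ifs with h1
    · rw [sub_self, norm_zero]
      exact norm_nonneg _
    · rw [sub_zero]
  have b2 : ∑ k ∈ Finset.range n, ‖aeval (ssE (p := q) hq h hh.le).τ
      (C (((n : ℝ) ^ (1 / p.toReal) / n : ℝ) : ℂ) * part (Gam g (h / n) (N' * n)) N' n k)
        (one h : E q)‖ ^ q.toReal ≤ ‖g‖ ^ q.toReal := by
    have e1 : ∀ k, ‖aeval (ssE (p := q) hq h hh.le).τ
      (C (((n : ℝ) ^ (1 / p.toReal) / n : ℝ) : ℂ) * part (Gam g (h / n) (N' * n)) N' n k)
        (one h : E q)‖ ^ q.toReal = (h / n) * ∑ j ∈ Finset.range N',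
          ‖(Gam g (h / n) (N' * n)).coeff (j * n + k)‖ ^ q.toReal := by
      intro k
      have hmul : aeval (ssE (p := q) hq h hh.le).τ
        (C (((n : ℝ) ^ (1 / p.toReal) / n : ℝ) : ℂ) * part (Gam g (h / n) (N' * n)) N' n k)
        (one h : E q) = ((((n : ℝ) ^ (1 / p.toReal) / n : ℝ) : ℂ)) •
          aeval (ssE (p := q) hq h hh.le).τ (part (Gam g (h / n) (N' * n)) N' n k) (one h : E q) := by
        rw [map_mul, aeval_C, Algebra.algebraMap_eq_smul_one, smul_one_mul]
        rfl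
      rw [hmul, norm_smul, Complex.norm_real, Real.norm_of_nonneg (by positivity),
        Real.mul_rpow (by positivity) (norm_nonneg _),
        norm_aeval_one hq h hh _ (N' + 1) (natDegree_part _ _ _ _), Finset.sum_range_succ,
        part_coeff, if_neg (by omega), norm_zero, Real.zero_rpow hq0.ne', add_zero, ← mul_assoc]
      congr 1
      · have e2 : ((n : ℝ) ^ (1 / p.toReal) / n) ^ q.toReal = (n : ℝ)⁻¹ := by
          have e3 : (n : ℝ) ^ (1 / p.toReal) / n = (n : ℝ) ^ (-(1 / q.toReal)) := by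
            rw [← Real.rpow_sub_one hn'.ne']
            congr 1
            linarith
          rw [e3, ← Real.rpow_mul hn'.le, neg_mul, one_div, inv_mul_cancel₀ hq0.ne',
            Real.rpow_neg_one]
        rw [e2]
        field_simp
      · refine Finset.sum_congr rfl fun j hj => ?_
        rw [Finset.mem_range] at hj
        rw [part_coeff, if_pos hj]
    rw [Finset.sum_congr rfl fun k _ => e1 k, ← Finset.mul_sum,
      sum_parts (fun i => ‖(Gam g (h / n) (N' * n)).coeff i‖ ^ q.toReal) N' n]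
    exact gam_norm hp hpq hp1 g (h / n) (by positivity) (N' * n)
  linarith

end Pool.Agent.V7H86.HD
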