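import Mathlib
import Pool.Agent.V7H86.HD.Defs
import Pool.Agent.V7H86.HD.T5
import Pool.Agent.V7H86.HD.T6

/-!
T6, second part (helper34): step functions of averages.
-/

set_option autoImplicit false

open MeasureTheory Set Filter
open scoped ENNReal Topology

namespace Pool.Agent.V7H86.HD

variable {p : ℝ≥0∞} [Fact (1 ≤ p)]

theorem enorm_rpow_E (hp : p ≠ ∞) (g : E p) : ‖g‖ₑ ^ p.toReal = ∫⁻ t, ‖g t‖ₑ ^ p.toReal := by
  have hp0 : p ≠ 0 := (one_pos.trans_le (Fact.out : 1 ≤ p)).ne'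
  have hr := toReal_pos_of (p := p) hp
  rw [Lp.enorm_def, eLpNorm_eq_lintegral_rpow_enorm_toReal hp0 hp, ← ENNReal.rpow_mul, one_div,
    inv_mul_cancel₀ hr.ne', ENNReal.rpow_one]

theorem integrableOn_E (f : E p) (a b : ℝ) : IntegrableOn f (Ioc a b) volume :=
  ((Lp.memLp f).restrict (Ioc a b)).integrable Fact.out

/-- Jensen -/
theorem jensen_cell (hp : p ≠ ∞) (f : E p) (a h : ℝ) (hh : 0 < h) (w : ℂ) :
    ‖w - (1 / h : ℝ) * ∫ s in Ioc a (a + h), f s‖ₑ ^ p.toReal ≤
      (ENNReal.ofReal h)⁻¹ * ∫⁻ s in Ioc a (a + h), ‖f s - w‖ₑ ^ p.toReal := by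
  have hp0 : p ≠ 0 := (one_pos.trans_le (Fact.out : 1 ≤ p)).ne'
  have hr := toReal_pos_of (p := p) hp
  have hh0 : ENNReal.ofReal h ≠ 0 := by simpa using hh
  set ν : Measure ℝ := (ENNReal.ofReal h)⁻¹ • (volume.restrict (Ioc a (a + h))) with hν
  have hprob : IsProbabilityMeasure ν := by
    constructor
    rw [hν, Measure.smul_apply, Measure.restrict_apply MeasurableSet.univ, univ_inter,
      Real.volume_Ioc, add_sub_cancel_left, smul_eq_mul,
      ENNReal.inv_mul_cancel hh0 ENNReal.ofReal_ne_top]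
  have hint : Integrable (fun s => f s) ν :=
    (integrableOn_E f a (a + h)).smul_measure (ENNReal.inv_ne_top.2 hh0)
  have e1 : ∫ s, (f s - w) ∂ν = (1 / h : ℝ) * (∫ s in Ioc a (a + h), f s) - w := by
    rw [integral_sub hint (integrable_const w), integral_const, hν, integral_smul_measure]
    have h2 : (((ENNReal.ofReal h)⁻¹ • (volume.restrict (Ioc a (a + h)))).real univ : ℝ) = 1 := by
      have := hprob.measure_univ
      rw [hν] at this
      rw [measureReal_def, this, ENNReal.toReal_one]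
    rw [h2, one_smul, ENNReal.toReal_inv, ENNReal.toReal_ofReal hh.le, one_div]
    rw [Complex.real_smul]
  have e2 : ‖w - (1 / h : ℝ) * ∫ s in Ioc a (a + h), f s‖ₑ ≤ eLpNorm (fun s => f s - w) p ν := by
    rw [enorm_sub_rev, ← e1]
    refine (enorm_integral_le_lintegral_enorm _).trans ?_
    rw [← eLpNorm_one_eq_lintegral_enorm]
    exact eLpNorm_le_eLpNorm_of_exponent_le Fact.out
      (hint.sub (integrable_const w)).aestronglyMeasurable
  refine (ENNReal.rpow_le_rpow e2 hr.le).trans (le_of_eq ?_)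
  rw [eLpNorm_eq_lintegral_rpow_enorm_toReal hp0 hp, ← ENNReal.rpow_mul, one_div,
    inv_mul_cancel₀ hr.ne', ENNReal.rpow_one, hν, lintegral_smul_measure, smul_eq_mul]

theorem cell_le_window (F : ℝ → ℝ≥0∞) (hF : Measurable F) (a h t : ℝ) (hh : 0 < h)
    (ht : t ∈ Ioc a (a + h)) :
    ∫⁻ s in Ioc a (a + h), F s ≤ ∫⁻ v in Icc (-h) h, F (t + v) := by
  have h1 : ∫⁻ s in Ioc a (a + h), F s ≤ ∫⁻ s in Icc (t - h) (t + h), F s := by
    refine lintegral_mono_set fun s hs => ?_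
    obtain ⟨h2, h3⟩ := hs
    obtain ⟨h4, h5⟩ := ht
    constructor <;> linarith
  refine h1.trans (le_of_eq ?_)
  rw [← lintegral_indicator measurableSet_Icc, ← lintegral_indicator measurableSet_Icc,
    ← lintegral_add_left_eq_self _ t]
  refine lintegral_congr fun v => ?_
  by_cases hv : v ∈ Icc (-h) h
  · rw [indicator_of_mem hv, indicator_of_mem]
    obtain ⟨h2, h3⟩ := hv
    constructor <;> linarith
  · rw [indicator_of_notMem hv, indicator_of_notMem]
    intro h2
    obtain ⟨h3, h4⟩ := h2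
    exact hv ⟨by linarith, by linarith⟩

theorem step_ptwise (hp : p ≠ ∞) (f : E p) (h : ℝ) (hh : 0 < h) (N : ℕ) :
    ∀ᵐ t : ℝ, ‖(ind (Ioc 0 (N * h)) measurableSet_Ioc f - ∑ j ∈ Finset.range N,
      ((1 / h : ℝ) * ∫ t in (j * h)..((j + 1) * h), f t : ℂ) • tr (-(j * h)) (one h : E p) : E p)
        t‖ₑ ^ p.toReal ≤
      (ENNReal.ofReal h)⁻¹ * ∫⁻ v in Icc (-h) h, ‖f (t + v) - f t‖ₑ ^ p.toReal := by
  have hr := toReal_pos_of (p := p) hp
  set c : ℕ → ℂ := fun j => (1 / h : ℝ) * ∫ t in (j * h)..((j + 1) * h), f t with hc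
  have hone : (one h : E p) =ᵐ[volume] (Ioc (0 : ℝ) h).indicator fun _ => (1 : ℂ) :=
    indicatorConstLp_coeFn
  have hsum : ∀ N : ℕ, ∀ᵐ t : ℝ, (∑ j ∈ Finset.range N, c j • tr (-(j * h)) (one h : E p) : E p) t =
      ∑ j ∈ Finset.range N, c j * (Ioc (0 : ℝ) h).indicator (fun _ => (1 : ℂ)) (t - j * h) := by
    intro N
    induction N with
    | zero =>
      filter_upwards [Lp.coeFn_zero ℂ p (volume : Measure ℝ)] with t h1
      rw [Finset.sum_range_zero, Finset.sum_range_zero, h1, Pi.zero_apply]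
    | succ N ih =>
      filter_upwards [ih, Lp.coeFn_add (∑ j ∈ Finset.range N, c j • tr (-(j * h)) (one h : E p))
        (c N • tr (-(N * h)) (one h : E p)), Lp.coeFn_smul (c N) (tr (-(N * h)) (one h : E p)),
        tr_coe (-(N * h)) (one h : E p),
        (mp_add (-(N * h))).quasiMeasurePreserving.ae hone] with t h1 h2 h3 h4 h5
      rw [Finset.sum_range_succ, Finset.sum_range_succ, h2, Pi.add_apply, h1, h3, Pi.smul_apply, h4,
        h5, smul_eq_mul, sub_eq_add_neg]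
  filter_upwards [hsum N, Lp.coeFn_sub (ind (Ioc 0 (N * h)) measurableSet_Ioc f)
    (∑ j ∈ Finset.range N, c j • tr (-(j * h)) (one h : E p)),
    ind_coe (Ioc 0 (N * h)) measurableSet_Ioc f] with t h1 h2 h3
  rw [h2, Pi.sub_apply, h1, h3]
  by_cases ht : t ∈ Ioc 0 (N * h)
  · rw [indicator_of_mem ht]
    -- the cell of `t`
    obtain ⟨k, hk⟩ : ∃ k : ℕ, t ∈ Ioc (k * h) (k * h + h) := by
      have h4 : 0 < t / h := div_pos ht.1 hh
      have h5 : 0 < ⌈t / h⌉₊ := Nat.ceil_pos.2 h4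
      refine ⟨⌈t / h⌉₊ - 1, ?_, ?_⟩
      · have h6 : ((⌈t / h⌉₊ - 1 : ℕ) : ℝ) < t / h := Nat.lt_ceil.1 (by omega)
        rwa [lt_div_iff₀ hh] at h6
      · have h6 : t / h ≤ ((⌈t / h⌉₊ - 1 : ℕ) : ℝ) + 1 := by
          have : ((⌈t / h⌉₊ - 1 : ℕ) : ℝ) + 1 = (⌈t / h⌉₊ : ℝ) := by
            rw [Nat.cast_sub (by omega : 1 ≤ ⌈t / h⌉₊)]
            simp
          rw [this]
          exact Nat.le_ceil _
        rw [div_le_iff₀ hh] at h6
        linarith
    have hkN : k < N := by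
      have h4 : (k : ℝ) * h < N * h := lt_of_lt_of_le hk.1 ht.2
      have h5 : (k : ℝ) < N := lt_of_mul_lt_mul_right h4 hh.le
      exact_mod_cast h5
    have e1 : ∑ j ∈ Finset.range N, c j * (Ioc (0 : ℝ) h).indicator (fun _ => (1 : ℂ)) (t - j * h) =
        c k := by
      rw [Finset.sum_eq_single k]
      · rw [indicator_of_mem, mul_one]
        constructor
        · linarith [hk.1]
        · linarith [hk.2]
      · intro j _ hjk
        rw [indicator_of_notMem, mul_zero]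
        intro h4
        apply hjk
        have h5 : (j : ℝ) * h < (k + 1) * h := by linarith [h4.1, hk.2]
        have h6 : (k : ℝ) * h < (j + 1) * h := by linarith [h4.2, hk.1]
        have h7 : (j : ℝ) < k + 1 := lt_of_mul_lt_mul_right h5 hh.le
        have h8 : (k : ℝ) < j + 1 := lt_of_mul_lt_mul_right h6 hh.le
        have h9 : j < k + 1 := by exact_mod_cast h7
        have h10 : k < j + 1 := by exact_mod_cast h8
        omega
      · intro h4
        exact absurd (Finset.mem_range.2 hkN) h4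
    rw [e1, hc]
    dsimp only
    rw [show ((k : ℝ) + 1) * h = k * h + h by ring,
      intervalIntegral.integral_of_le (by linarith : (k : ℝ) * h ≤ k * h + h)]
    refine (jensen_cell hp f (k * h) h hh (f t)).trans (mul_le_mul_right ?_ _)
    exact cell_le_window (fun s => ‖f s - f t‖ₑ ^ p.toReal)
      (((Lp.stronglyMeasurable f).measurable.sub_const _).enorm.pow_const _) (k * h) h t hh hk
  · rw [indicator_of_notMem ht]
    have e1 : ∑ j ∈ Finset.range N, c j * (Ioc (0 : ℝ) h).indicator (fun _ => (1 : ℂ)) (t - j * h) =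
        0 := by
      refine Finset.sum_eq_zero fun j hj => ?_
      rw [indicator_of_notMem, mul_zero]
      intro h4
      apply ht
      rw [Finset.mem_range] at hj
      have h5 : ((j : ℝ) + 1) ≤ N := by exact_mod_cast hj
      have h6 : ((j : ℝ) + 1) * h ≤ N * h := mul_le_mul_of_nonneg_right h5 hh.le
      have h7 : 0 ≤ (j : ℝ) * h := by positivity
      constructor
      · linarith [h4.1]
      · linarith [h4.2]
    rw [e1, sub_zero, enorm_zero, ENNReal.zero_rpow_of_pos hr]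
    exact zero_le

/-- the step function of the averages over the cells is near `f` -/
theorem step_approx (hp : p ≠ ∞) (f : E p) (h : ℝ) (hh : 0 < h) (N : ℕ) (D : ℝ)
    (hD : ∀ v : ℝ, |v| ≤ h → ‖tr v f - f‖ ≤ D) :
    ‖ind (Ioc 0 (N * h)) measurableSet_Ioc f - ∑ j ∈ Finset.range N,
      ((1 / h : ℝ) * ∫ t in (j * h)..((j + 1) * h), f t : ℂ) • tr (-(j * h)) (one h : E p)‖ ≤
      2 * D := by
  have hr := toReal_pos_of (p := p) hp
  have hr1 : 1 ≤ p.toReal := by
    have := (ENNReal.toReal_le_toReal ENNReal.one_ne_top hp).2 (Fact.out : 1 ≤ p)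
    simpa using this
  have hD0 : 0 ≤ D := (norm_nonneg _).trans (hD 0 (by simpa using hh.le))
  have hh0 : ENNReal.ofReal h ≠ 0 := by simpa using hh
  set g : E p := ind (Ioc 0 (N * h)) measurableSet_Ioc f - ∑ j ∈ Finset.range N,
      ((1 / h : ℝ) * ∫ t in (j * h)..((j + 1) * h), f t : ℂ) • tr (-(j * h)) (one h : E p) with hg
  have hfm : Measurable (f : ℝ → ℂ) := (Lp.stronglyMeasurable f).measurable
  have hsl : ∀ v : ℝ, |v| ≤ h → ∫⁻ t, ‖f (t + v) - f t‖ₑ ^ p.toReal ≤
      ENNReal.ofReal D ^ p.toReal := by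
    intro v hv
    have e1 : ∫⁻ t, ‖f (t + v) - f t‖ₑ ^ p.toReal = ‖tr v f - f‖ₑ ^ p.toReal := by
      rw [enorm_rpow_E hp]
      refine lintegral_congr_ae ?_
      filter_upwards [Lp.coeFn_sub (tr v f) f, tr_coe v f] with t h1 h2
      rw [h1, Pi.sub_apply, h2]
    rw [e1]
    refine ENNReal.rpow_le_rpow ?_ hr.le
    rw [← ofReal_norm]
    exact ENNReal.ofReal_le_ofReal (hD v hv)
  have b1 : ‖g‖ₑ ^ p.toReal ≤ 2 * ENNReal.ofReal D ^ p.toReal := by
    rw [enorm_rpow_E hp]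
    calc ∫⁻ t, ‖g t‖ₑ ^ p.toReal ≤ ∫⁻ t, (ENNReal.ofReal h)⁻¹ * ∫⁻ v in Icc (-h) h,
          ‖f (t + v) - f t‖ₑ ^ p.toReal := lintegral_mono_ae (step_ptwise hp f h hh N)
      _ = (ENNReal.ofReal h)⁻¹ * ∫⁻ t, ∫⁻ v in Icc (-h) h, ‖f (t + v) - f t‖ₑ ^ p.toReal :=
          lintegral_const_mul' _ _ (ENNReal.inv_ne_top.2 hh0)
      _ = (ENNReal.ofReal h)⁻¹ * ∫⁻ v in Icc (-h) h, ∫⁻ t, ‖f (t + v) - f t‖ₑ ^ p.toReal := by
          rw [lintegral_lintegral_swap]
          refine Measurable.aemeasurable ?_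
          show Measurable fun x : ℝ × ℝ => ‖f (x.1 + x.2) - f x.1‖ₑ ^ p.toReal
          exact ((((hfm.comp (measurable_fst.add measurable_snd)).sub
            (hfm.comp measurable_fst)).enorm).pow_const _)
      _ ≤ (ENNReal.ofReal h)⁻¹ * ∫⁻ _v in Icc (-h) h, ENNReal.ofReal D ^ p.toReal := by
          refine mul_le_mul_right ?_ _
          refine setLIntegral_mono measurable_const fun v hv => hsl v ?_
          rw [abs_le]
          exact hv
      _ = 2 * ENNReal.ofReal D ^ p.toReal := by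
          rw [setLIntegral_const, Real.volume_Icc, show h - -h = 2 * h by ring,
            ENNReal.ofReal_mul (by norm_num), ENNReal.ofReal_ofNat,
            mul_comm (ENNReal.ofReal D ^ p.toReal), ← mul_assoc, mul_comm (2 : ℝ≥0∞), ← mul_assoc,
            ENNReal.inv_mul_cancel hh0 ENNReal.ofReal_ne_top, one_mul]
  have b2 : ‖g‖ₑ ^ p.toReal ≤ ENNReal.ofReal (2 * D) ^ p.toReal := by
    refine b1.trans ?_
    rw [ENNReal.ofReal_mul (by norm_num), ENNReal.mul_rpow_of_nonneg _ _ hr.le,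
      ENNReal.ofReal_ofNat]
    gcongr
    calc (2 : ℝ≥0∞) = 2 ^ (1 : ℝ) := by rw [ENNReal.rpow_one]
      _ ≤ 2 ^ p.toReal := ENNReal.rpow_le_rpow_of_exponent_le (by norm_num) hr1
  have b3 : ‖g‖ₑ ≤ ENNReal.ofReal (2 * D) := (ENNReal.rpow_le_rpow_iff hr).1 b2
  rw [← ofReal_norm] at b3
  exact (ENNReal.ofReal_le_ofReal_iff (by positivity)).1 b3

end Pool.Agent.V7H86.HD
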