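import Mathlib
import Pool.Agent.V7H86.HD.T6b
import Pool.Agent.V7H86.HD.T10
import Pool.Agent.V7H86.HD.T11q

/-!
T11: the three lemmas (helper27): splitting of `one h`, the coefficients for `h` and `h / n`, the
pointwise bound.
-/

set_option autoImplicit false

open MeasureTheory Set Filter Polynomial
open scoped ENNReal Topology

namespace Pool.Agent.V7H86.HD

variable {p q : ℝ≥0∞} [Fact (1 ≤ p)] [Fact (1 ≤ q)]

theorem one_mul_split (d : ℝ) (hd : 0 < d) (n : ℕ) :
    (one (n * d) : E p) = ∑ k ∈ Finset.range n, tr (-(k * d)) (one d) := by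
  induction n with
  | zero =>
    rw [Finset.sum_range_zero]
    refine Lp.ext ?_
    filter_upwards [one_coe (p := p) ((0 : ℕ) * d), Lp.coeFn_zero ℂ p (volume : Measure ℝ)]
      with t h1 h2
    rw [h1, h2, Pi.zero_apply, indicator_of_notMem]
    simp
  | succ n ih =>
    rw [Finset.sum_range_succ, ← ih]
    refine Lp.ext ?_
    filter_upwards [one_coe (p := p) ((n + 1 : ℕ) * d), one_coe (p := p) (n * d),
      Lp.coeFn_add (one (n * d) : E p) (tr (-(n * d)) (one d)), tr_coe (-(n * d)) (one d : E p),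
      (mp_add (-(n * d))).quasiMeasurePreserving.ae (one_coe (p := p) d)] with t h1 h2 h3 h4 h5
    rw [h1, h3, Pi.add_apply, h2, h4, h5]
    have hnd : 0 ≤ (n : ℝ) * d := by positivity
    by_cases ht : t ∈ Ioc (0 : ℝ) (n * d)
    · have e1 : t ∈ Ioc (0 : ℝ) ((n + 1 : ℕ) * d) := by
        refine ⟨ht.1, ?_⟩
        push_cast
        linarith [ht.2]
      have e2 : t + -(n * d) ∉ Ioc (0 : ℝ) d := by
        intro h6
        linarith [h6.1, ht.2]
      rw [indicator_of_mem e1, indicator_of_mem ht, indicator_of_notMem e2, add_zero]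
    · by_cases ht2 : t + -(n * d) ∈ Ioc (0 : ℝ) d
      · have e1 : t ∈ Ioc (0 : ℝ) ((n + 1 : ℕ) * d) := by
          refine ⟨by linarith [ht2.1], ?_⟩
          push_cast
          linarith [ht2.2]
        rw [indicator_of_mem e1, indicator_of_notMem ht, indicator_of_mem ht2, zero_add]
      · have e1 : t ∉ Ioc (0 : ℝ) ((n + 1 : ℕ) * d) := by
          intro h6
          obtain ⟨h7, h8⟩ := h6
          push_cast at h8
          refine ht2 ⟨?_, by linarith⟩
          by_contra h9
          exact ht ⟨h7, by linarith [not_lt.1 h9]⟩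
        rw [indicator_of_notMem e1, indicator_of_notMem ht, indicator_of_notMem ht2, zero_add]

/-- T11A -/
theorem one_split (h : ℝ) (hh : 0 < h) (n : ℕ) (hn : 0 < n) :
    (one h : E p) = ∑ k ∈ Finset.range n, tr (-(k * (h / n))) (one (h / n)) := by
  have hn' : (0 : ℝ) < n := by exact_mod_cast hn
  rw [← one_mul_split (h / n) (by positivity) n]
  congr 1
  field_simp

/-- T11B -/
theorem Gam_parts (g : E p →L[ℂ] ℂ) (h : ℝ) (hh : 0 < h) (N n : ℕ) (hn : 0 < n) :
    C (1 / n : ℂ) * ∑ k ∈ Finset.range n, part (Gam g (h / n) (N * n)) N n k = Gam g h N := by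
  have hn' : (n : ℂ) ≠ 0 := by exact_mod_cast hn.ne'
  have hh' : (h : ℂ) ≠ 0 := by exact_mod_cast hh.ne'
  have hnr : (n : ℝ) ≠ 0 := by exact_mod_cast hn.ne'
  ext j
  rw [coeff_C_mul, finset_sum_coeff, Gam_coeff]
  by_cases hj : j < N
  · rw [if_pos hj, one_split (p := p) h hh n hn, map_sum, map_sum, Finset.mul_sum, Finset.mul_sum]
    refine Finset.sum_congr rfl fun k hk => ?_
    have hk' := Finset.mem_range.1 hk
    have hlt : j * n + k < N * n := by
      calc j * n + k < j * n + n := by omega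
        _ = (j + 1) * n := by ring
        _ ≤ N * n := Nat.mul_le_mul_right n hj
    rw [part_coeff, if_pos hj, Gam_coeff, if_pos hlt, tr_add]
    have e : -(((j * n + k : ℕ) : ℝ) * (h / n)) = -(j * h) + -(k * (h / n)) := by
      push_cast
      field_simp
      ring
    rw [e]
    push_cast
    field_simp
  · rw [if_neg hj]
    rw [Finset.sum_eq_zero, mul_zero]
    intro k _
    rw [part_coeff, if_neg hj]

theorem sum_tr_coe (c : ℕ → ℂ) (d : ℕ → ℝ) (a : E p) (M : ℕ) :
    ∀ᵐ s : ℝ, (∑ i ∈ Finset.range M, c i • tr (d i) a : E p) s =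
      ∑ i ∈ Finset.range M, c i * a (s + d i) := by
  induction M with
  | zero =>
    filter_upwards [Lp.coeFn_zero ℂ p (volume : Measure ℝ)] with t h1
    rw [Finset.sum_range_zero, Finset.sum_range_zero, h1, Pi.zero_apply]
  | succ M ih =>
    filter_upwards [ih, Lp.coeFn_add (∑ i ∈ Finset.range M, c i • tr (d i) a)
      (c M • tr (d M) a), Lp.coeFn_smul (c M) (tr (d M) a), tr_coe (d M) a] with t h1 h2 h3 h4
    rw [Finset.sum_range_succ, Finset.sum_range_succ, h2, Pi.add_apply, h1, h3, Pi.smul_apply, h4,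
      smul_eq_mul]

theorem ind_ind_of_subset (A B : Set ℝ) (hA : MeasurableSet A) (hB : MeasurableSet B) (hAB : A ⊆ B)
    (f : E p) : ind A hA (ind B hB f) = ind A hA f := by
  refine Lp.ext ?_
  filter_upwards [ind_coe A hA (ind B hB f), ind_coe B hB f, ind_coe A hA f] with t h1 h2 h3
  rw [h1, h3]
  by_cases ht : t ∈ A
  · rw [indicator_of_mem ht, indicator_of_mem ht, h2, indicator_of_mem (hAB ht)]
  · rw [indicator_of_notMem ht, indicator_of_notMem ht]

theorem ind_Ioc_eq (b : ℝ) (hb : 0 ≤ b) (f : E p) :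
    ind (Ioc 0 b) measurableSet_Ioc f = P f - ind (Ioi b) measurableSet_Ioi f := by
  refine Lp.ext ?_
  filter_upwards [ind_coe (Ioc 0 b) measurableSet_Ioc f, P_coe f,
    ind_coe (Ioi b) measurableSet_Ioi f, Lp.coeFn_sub (P f) (ind (Ioi b) measurableSet_Ioi f)]
    with t h1 h2 h3 h4
  rw [h1, h4, Pi.sub_apply, h2, h3]
  by_cases ht : 0 < t
  · by_cases ht2 : t ≤ b
    · rw [indicator_of_mem (show t ∈ Ioc 0 b from ⟨ht, ht2⟩),
        indicator_of_mem (show t ∈ Ioi (0 : ℝ) from ht),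
        indicator_of_notMem (show t ∉ Ioi b from not_lt.2 ht2), sub_zero]
    · rw [indicator_of_notMem (show t ∉ Ioc 0 b from fun h5 => ht2 h5.2),
        indicator_of_mem (show t ∈ Ioi (0 : ℝ) from ht),
        indicator_of_mem (show t ∈ Ioi b from not_le.1 ht2), sub_self]
  · rw [indicator_of_notMem (show t ∉ Ioc 0 b from fun h5 => ht h5.1),
      indicator_of_notMem (show t ∉ Ioi (0 : ℝ) from ht),
      indicator_of_notMem (show t ∉ Ioi b from fun h5 => ht (lt_of_le_of_lt hb h5)), sub_zero]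

/-- T11C. Here `a` is the average of `f` over `(s, s + h]` (from `exists_avg`); the value at `s` is
`(1/h) g(step function of tr s f with M cells)`; use `step_approx` for `tr s f` and
`g (P (tr s f)) = 0`. -/
theorem w_bound (hp : p ≠ ∞) (g : E p →L[ℂ] ℂ) (h : ℝ) (hh : 0 < h) (M : ℕ) (f a : E p)
    (ha : ∀ᵐ s : ℝ, a s = (1 / h : ℝ) • ∫ v in (0 : ℝ)..h, f (s + v))
    (hg : ∀ v, 0 ≤ v → g (S v f) = 0) (D : ℝ) (hD : ∀ v : ℝ, |v| ≤ h → ‖tr v f - f‖ ≤ D) :
    ∀ᵐ s : ℝ, 0 < s →
      ‖(∑ i ∈ Finset.range M, (Gam g h M).coeff i • tr (i * h) a : E p) s‖ ≤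
        (1 / h) * (‖g‖ * (2 * D + ‖ind (Ioi (M * h)) measurableSet_Ioi f‖)) := by
  have ha' : ∀ᵐ s : ℝ, ∀ i : ℕ, a (s + i * h) =
      (1 / h : ℝ) • ∫ v in (0 : ℝ)..h, f (s + i * h + v) :=
    ae_all_iff.2 fun i => (mp_add (i * h)).quasiMeasurePreserving.ae ha
  filter_upwards [sum_tr_coe (fun i => (Gam g h M).coeff i) (fun i => i * h) a M, ha']
    with s h1 h2 hs
  rw [h1]
  set y : E p := tr s f with hy
  set st : E p := ∑ j ∈ Finset.range M,
      ((1 / h : ℝ) * ∫ t in (j * h)..((j + 1) * h), y t : ℂ) • tr (-(j * h)) (one h : E p) with hst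
  have hMh : 0 ≤ (M : ℝ) * h := by positivity
  have hint : ∀ j : ℕ, ∫ t in (j * h)..((j + 1) * h), y t =
      ∫ v in (0 : ℝ)..h, f (s + j * h + v) := by
    intro j
    have e1 : ∫ t in (j * h)..((j + 1) * h), y t = ∫ t in (j * h)..((j + 1) * h), f (t + s) := by
      refine intervalIntegral.integral_congr_ae ?_
      filter_upwards [tr_coe s f] with t h3 _
      rw [hy, h3]
    rw [e1, intervalIntegral.integral_comp_add_right (fun x => f x) s,
      intervalIntegral.integral_comp_add_left (fun x => f x) (s + j * h)]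
    congr 1 <;> ring
  have e1 : ∑ i ∈ Finset.range M, (Gam g h M).coeff i * a (s + i * h) = (1 / h : ℝ) * g st := by
    rw [hst, map_sum, Finset.mul_sum]
    refine Finset.sum_congr rfl fun i hi => ?_
    rw [Gam_coeff, if_pos (Finset.mem_range.1 hi), h2 i, map_smul, hint i, smul_eq_mul,
      Complex.real_smul]
    ring
  rw [e1]
  have e2 : g st = g (st - ind (Ioc 0 (M * h)) measurableSet_Ioc y) -
      g (ind (Ioi (M * h)) measurableSet_Ioi y) := by
    rw [ind_Ioc_eq _ hMh, ← map_sub]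
    have e3 : st - (P y - ind (Ioi (M * h)) measurableSet_Ioi y) -
        ind (Ioi (M * h)) measurableSet_Ioi y = st - P y := by abel
    rw [e3, map_sub, show P y = S s f from rfl, hg s hs.le, sub_zero]
  have b1 : ‖st - ind (Ioc 0 (M * h)) measurableSet_Ioc y‖ ≤ 2 * D := by
    rw [norm_sub_rev]
    refine step_approx hp y h hh M D fun v hv => ?_
    have e4 : tr v y - y = tr s (tr v f - f) := by
      rw [map_sub, tr_add, hy, tr_add, add_comm]
    rw [e4, LinearIsometryEquiv.norm_map]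
    exact hD v hv
  have b2 : ‖ind (Ioi (M * h)) measurableSet_Ioi y‖ ≤ ‖ind (Ioi (M * h)) measurableSet_Ioi f‖ := by
    rw [hy, norm_ind_tr (Ioi (M * h)) (Ioi (M * h + s)) measurableSet_Ioi measurableSet_Ioi s
      (fun t => by simp) f,
      ← ind_ind_of_subset (Ioi (M * h + s)) (Ioi (M * h)) measurableSet_Ioi measurableSet_Ioi
      (Ioi_subset_Ioi (by linarith)) f]
    exact norm_ind_le _ _ _
  rw [norm_mul, Complex.norm_real, Real.norm_of_nonneg (by positivity)]
  refine mul_le_mul_of_nonneg_left ?_ (by positivity)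
  calc ‖g st‖ ≤ ‖g (st - ind (Ioc 0 (M * h)) measurableSet_Ioc y)‖ +
        ‖g (ind (Ioi (M * h)) measurableSet_Ioi y)‖ := by
        rw [e2]
        exact norm_sub_le _ _
    _ ≤ ‖g‖ * ‖st - ind (Ioc 0 (M * h)) measurableSet_Ioc y‖ +
        ‖g‖ * ‖ind (Ioi (M * h)) measurableSet_Ioi y‖ :=
        add_le_add (g.le_opNorm _) (g.le_opNorm _)
    _ ≤ ‖g‖ * (2 * D + ‖ind (Ioi (M * h)) measurableSet_Ioi f‖) := by
        rw [mul_add]
        exact add_le_add (mul_le_mul_of_nonneg_left b1 (norm_nonneg _))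
          (mul_le_mul_of_nonneg_left b2 (norm_nonneg _))

end Pool.Agent.V7H86.HD
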