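import Mathlib
import Pool.Agent.V7H86.HD.A1

/-!
T8 (pairing): Hölder's inequality for the functional `f ↦ φ (a(τ) f)` (helper35).
-/

set_option autoImplicit false

open MeasureTheory Set Filter Polynomial
open scoped ENNReal Topology

namespace Pool.Agent.V7H86.HD

variable {F G : Type} [NormedAddCommGroup F] [NormedSpace ℂ F] [NormedAddCommGroup G]
  [NormedSpace ℂ G] {p q : ℝ}

/-- the projection to the cells `≥ m` -/
noncomputable def SS.Pn {r : ℝ} (A : SS F r) (m : ℕ) : F →L[ℂ] F := A.σ ^ m * A.P * A.τ ^ m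

theorem SS.Pn_apply {r : ℝ} (A : SS F r) (m : ℕ) (f : F) :
    A.Pn m f = (A.σ ^ m) (A.P ((A.τ ^ m) f)) := rfl

theorem SS.norm_Pn {r : ℝ} (A : SS F r) (m : ℕ) (f : F) :
    ‖A.Pn m f‖ = ‖A.P ((A.τ ^ m) f)‖ := by
  rw [A.Pn_apply, A.isoσpow]

/-- one cell is cut off -/
theorem SS.cut {r : ℝ} (A : SS F r) (f : F) :
    ‖A.P f‖ ^ r = ‖A.P f - A.Pn 1 f‖ ^ r + ‖A.P (A.τ f)‖ ^ r := by
  have h := A.norm_rpow (A.τ (A.P f))
  rw [A.iso, A.PτP] at h
  have h2 : A.τ (A.P f) - A.P (A.τ f) = A.τ (A.P f - A.Pn 1 f) := by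
    rw [map_sub, A.Pn_apply, pow_one, pow_one, A.τσ]
  rw [h2, A.iso] at h
  rw [h, add_comm]

/-- telescoping -/
theorem SS.cuts {r : ℝ} (A : SS F r) (f : F) (K n : ℕ) :
    ‖A.P ((A.τ ^ K) f)‖ ^ r = ∑ j ∈ Finset.range n,
      ‖A.P ((A.τ ^ (K + j)) f) - A.Pn 1 ((A.τ ^ (K + j)) f)‖ ^ r +
        ‖A.P ((A.τ ^ (K + n)) f)‖ ^ r := by
  induction n with
  | zero => simp
  | succ n ih =>
    rw [ih, Finset.sum_range_succ, A.cut ((A.τ ^ (K + n)) f), add_assoc]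
    have h : A.τ ((A.τ ^ (K + n)) f) = (A.τ ^ (K + (n + 1))) f := by
      rw [← add_assoc, pow_succ' A.τ (K + n), ContinuousLinearMap.mul_apply]
    rw [h]

/-- Hölder: the functional `f ↦ φ (a(τ) f)` -/
theorem pairing (hp : 0 < p) (hq : 0 < q) (hpq : 1 / p + 1 / q = 1) (A : SS F p) (B : SS G q)
    {c : G} (hc : B.Cell c) (φ : F →L[ℂ] ℂ) (hφ : ∀ f, ‖φ f‖ ≤ ‖c‖ * ‖A.P f - A.Pn 1 f‖)
    (a : ℂ[X]) (K : ℕ) (hK : X ^ K ∣ a) (f : F) :
    ‖φ (aeval A.τ a f)‖ ≤ ‖aeval B.τ a c‖ * ‖A.Pn K f‖ := by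
  obtain ⟨b, rfl⟩ := hK
  set n := b.natDegree + 1 with hn
  -- the left side
  have e1 : aeval A.τ (X ^ K * b) f = ∑ j ∈ Finset.range n, b.coeff j • (A.τ ^ (K + j)) f := by
    rw [map_mul, map_pow, aeval_X, aeval_eq_sum_range, ContinuousLinearMap.mul_apply,
      ContinuousLinearMap.sum_apply, map_sum]
    refine Finset.sum_congr rfl fun j _ => ?_
    rw [ContinuousLinearMap.smul_apply, map_smul, pow_add, ContinuousLinearMap.mul_apply]
  have e2 : ‖aeval B.τ (X ^ K * b) c‖ ^ q = (∑ j ∈ Finset.range n, ‖b.coeff j‖ ^ q) * ‖c‖ ^ q := by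
    rw [← B.sum_left hq hc, map_mul, map_pow, aeval_X, aeval_eq_sum_range,
      ContinuousLinearMap.mul_apply, B.isopow, ContinuousLinearMap.sum_apply]
    rfl
  have hS0 : 0 ≤ ∑ j ∈ Finset.range n, ‖b.coeff j‖ ^ q :=
    Finset.sum_nonneg fun j _ => Real.rpow_nonneg (norm_nonneg _) _
  have e3 : ‖aeval B.τ (X ^ K * b) c‖ = (∑ j ∈ Finset.range n, ‖b.coeff j‖ ^ q) ^ (1 / q) * ‖c‖ := by
    have h := congrArg (fun x : ℝ => x ^ (1 / q)) e2
    rw [Real.mul_rpow hS0 (Real.rpow_nonneg (norm_nonneg _) _), ← Real.rpow_mul (norm_nonneg _),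
      ← Real.rpow_mul (norm_nonneg _), mul_one_div_cancel hq.ne', Real.rpow_one, Real.rpow_one] at h
    exact h
  have hH : p.HolderConjugate q :=
    { inv_add_inv_eq_inv := by simpa [one_div] using hpq
      left_pos := hp
      right_pos := hq }
  have e4 := A.cuts f K n
  set x : ℕ → ℝ := fun j => ‖A.P ((A.τ ^ (K + j)) f) - A.Pn 1 ((A.τ ^ (K + j)) f)‖ with hx
  have hx0 : ∀ j, 0 ≤ x j := fun j => norm_nonneg _
  have e5 : (∑ j ∈ Finset.range n, x j ^ p) ^ (1 / p) ≤ ‖A.Pn K f‖ := by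
    rw [A.norm_Pn]
    have h1 : ∑ j ∈ Finset.range n, x j ^ p ≤ ‖A.P ((A.τ ^ K) f)‖ ^ p := by
      rw [e4]
      exact le_add_of_nonneg_right (Real.rpow_nonneg (norm_nonneg _) _)
    have h2 := Real.rpow_le_rpow (Finset.sum_nonneg fun j _ => Real.rpow_nonneg (hx0 j) _) h1
      (by positivity : (0 : ℝ) ≤ 1 / p)
    rwa [← Real.rpow_mul (norm_nonneg _), mul_one_div_cancel hp.ne', Real.rpow_one] at h2
  calc ‖φ (aeval A.τ (X ^ K * b) f)‖ = ‖∑ j ∈ Finset.range n, b.coeff j * φ ((A.τ ^ (K + j)) f)‖ := by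
        rw [e1, map_sum]
        congr 1
        refine Finset.sum_congr rfl fun j _ => ?_
        rw [map_smul, smul_eq_mul]
    _ ≤ ∑ j ∈ Finset.range n, ‖b.coeff j‖ * (‖c‖ * x j) := by
        refine (norm_sum_le _ _).trans (Finset.sum_le_sum fun j _ => ?_)
        rw [norm_mul]
        exact mul_le_mul_of_nonneg_left (hφ _) (norm_nonneg _)
    _ = ‖c‖ * ∑ j ∈ Finset.range n, x j * ‖b.coeff j‖ := by
        rw [Finset.mul_sum]
        exact Finset.sum_congr rfl fun j _ => by ring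
    _ ≤ ‖c‖ * ((∑ j ∈ Finset.range n, x j ^ p) ^ (1 / p) *
          (∑ j ∈ Finset.range n, ‖b.coeff j‖ ^ q) ^ (1 / q)) := by
        refine mul_le_mul_of_nonneg_left ?_ (norm_nonneg _)
        exact Real.inner_le_Lp_mul_Lq_of_nonneg _ hH (fun j _ => hx0 j) fun j _ => norm_nonneg _
    _ ≤ ‖c‖ * (‖A.Pn K f‖ * (∑ j ∈ Finset.range n, ‖b.coeff j‖ ^ q) ^ (1 / q)) := by
        refine mul_le_mul_of_nonneg_left ?_ (norm_nonneg _)
        exact mul_le_mul_of_nonneg_right e5 (Real.rpow_nonneg hS0 _)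
    _ = ‖aeval B.τ (X ^ K * b) c‖ * ‖A.Pn K f‖ := by
        rw [e3]
        ring

end Pool.Agent.V7H86.HD
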