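import Mathlib
import Pool.Agent.V7H86.HD.T5
import Pool.Agent.V7H86.HD.T6
import Pool.Agent.V7H86.HD.T8
import Pool.Agent.V7H86.HD.T10
import Pool.Agent.V7H86.HD.T11q
import Pool.Agent.V7H86.HD.T11c

/-!
T11 (predisc), the assembly (helper27).
-/

set_option autoImplicit false

open MeasureTheory Set Filter Polynomial
open scoped ENNReal Topology

namespace Pool.Agent.V7H86.HD

section abs

variable {F : Type} [NormedAddCommGroup F] [NormedSpace ℂ F] {r : ℝ}

theorem SS.P_aeval_zero (A : SS F r) (a : ℂ[X]) (x : F) (hx : A.P x = 0) :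
    A.P (aeval A.τ a x) = 0 := by
  rw [aeval_eq_sum_range, sum_apply, map_sum]
  refine Finset.sum_eq_zero fun j _ => ?_
  rw [ContinuousLinearMap.smul_apply, map_smul, ← A.PτP_pow, hx, map_zero, map_zero, smul_zero]

theorem SS.P_aeval_sub_Pn (A : SS F r) (a : ℂ[X]) (N : ℕ) (ha : X ^ N ∣ a) (x : F) :
    A.P (aeval A.τ a (x - A.Pn N x)) = 0 := by
  obtain ⟨b, rfl⟩ := ha
  rw [mul_comm, map_mul, map_pow, aeval_X, ContinuousLinearMap.mul_apply]
  refine A.P_aeval_zero b _ ?_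
  rw [map_sub, map_sub, show A.Pn N x = (A.σ ^ N) (A.P ((A.τ ^ N) x)) from rfl, A.τσ_pow, A.PP,
    sub_self]

end abs

theorem sum_parts' {M : Type*} [AddCommMonoid M] (u : ℕ → M) (N n : ℕ) :
    ∑ k ∈ Finset.range n, ∑ j ∈ Finset.range N, u (j * n + k) =
      ∑ i ∈ Finset.range (N * n), u i := by
  rw [Finset.sum_comm]
  induction N with
  | zero => simp
  | succ N ih =>
    rw [Finset.sum_range_succ, ih, add_mul, one_mul, Finset.sum_range_add]

theorem list_range_sum {M : Type*} [AddCommMonoid M] (f : ℕ → M) (n : ℕ) :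
    ((List.range n).map f).sum = ∑ t ∈ Finset.range n, f t := by
  induction n with
  | zero => simp
  | succ n ih => rw [List.range_succ, List.map_append, List.sum_append, ih,
      Finset.sum_range_succ]; simp

variable {p q : ℝ≥0∞} [Fact (1 ≤ p)] [Fact (1 ≤ q)]

theorem parts_apply (hp : p ≠ ∞) (h : ℝ) (hh : 0 < h) (a : ℂ[X]) (N n : ℕ) (hn : 0 < n)
    (x : E p) :
    ∑ k ∈ Finset.range n, aeval (ssE hp h hh.le).τ (part a N n k) (tr (k * (h / n)) x) =
      ∑ i ∈ Finset.range (N * n), a.coeff i • tr (i * (h / n)) x := by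
  have hn' : (n : ℝ) ≠ 0 := by exact_mod_cast hn.ne'
  rw [← sum_parts' (fun i => a.coeff i • tr (i * (h / n)) x)]
  refine Finset.sum_congr rfl fun k _ => ?_
  rw [part, map_sum, sum_apply]
  refine Finset.sum_congr rfl fun j _ => ?_
  rw [map_mul, aeval_C, map_pow, aeval_X, Algebra.algebraMap_eq_smul_one, smul_one_mul]
  show a.coeff (j * n + k) • ((ssE hp h hh.le).τ ^ j) (tr (k * (h / n)) x) = _
  rw [ssE_τ_pow, tr_add]
  have e : (j : ℝ) * h + k * (h / n) = ((j * n + k : ℕ) : ℝ) * (h / n) := by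
    push_cast
    field_simp
  rw [e]

theorem X_pow_dvd_Gam (g : E p →L[ℂ] ℂ) (h : ℝ) {N N' : ℕ} (hN : N ≤ N') :
    X ^ N ∣ Gam g h N' - Gam g h N := by
  rw [X_pow_dvd_iff]
  intro d hd
  rw [coeff_sub, Gam_coeff, Gam_coeff, if_pos (by omega), if_pos hd, sub_self]

theorem u_eq (hp : p ≠ ∞) (g : E p →L[ℂ] ℂ) (h : ℝ) (hh : 0 < h) {N N' : ℕ} (hN : N ≤ N')
    (n : ℕ) (hn : 0 < n) (c1 c2 : ℂ) (hc : c1 * c2 = 1 / n) (f a : E p) :
    P (aeval (ssE hp h hh.le).τ (Gam g h N) f -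
      (aeval (ssE hp h hh.le).τ (-(Gam g h N' - Gam g h N)) ((ssE hp h hh.le).Pn N f) +
        ∑ k ∈ Finset.range n, aeval (ssE hp h hh.le).τ
          (C c1 * part (Gam g (h / n) (N' * n)) N' n k) (c2 • (f - tr (k * (h / n)) a)))) =
    (1 / n : ℂ) • P (∑ i ∈ Finset.range (N' * n),
      (Gam g (h / n) (N' * n)).coeff i • tr (i * (h / n)) a) := by
  set T := (ssE hp h hh.le).τ with hT
  have e1 : ∑ k ∈ Finset.range n, aeval T
      (C c1 * part (Gam g (h / n) (N' * n)) N' n k) (c2 • (f - tr (k * (h / n)) a)) =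
      aeval T (Gam g h N') f - (1 / n : ℂ) • (∑ i ∈ Finset.range (N' * n),
      (Gam g (h / n) (N' * n)).coeff i • tr (i * (h / n)) a) := by
    have e2 : ∀ k, aeval T (C c1 * part (Gam g (h / n) (N' * n)) N' n k)
        (c2 • (f - tr (k * (h / n)) a)) =
        (1 / n : ℂ) • aeval T (part (Gam g (h / n) (N' * n)) N' n k) f -
        (1 / n : ℂ) • aeval T (part (Gam g (h / n) (N' * n)) N' n k) (tr (k * (h / n)) a) := by
      intro k
      rw [map_mul, aeval_C, Algebra.algebraMap_eq_smul_one, smul_one_mul]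
      show c1 • aeval T (part (Gam g (h / n) (N' * n)) N' n k) (c2 • (f - tr (k * (h / n)) a)) = _
      rw [map_smul, map_sub, smul_smul, hc, smul_sub]
    rw [Finset.sum_congr rfl fun k _ => e2 k, Finset.sum_sub_distrib, ← Finset.smul_sum,
      ← Finset.smul_sum, parts_apply hp h hh _ N' n hn a, ← Gam_parts g h hh N' n hn]
    congr 1
    rw [map_mul, aeval_C, Algebra.algebraMap_eq_smul_one, smul_one_mul, map_sum]
    show _ = (1 / n : ℂ) • ((∑ k ∈ Finset.range n, aeval T (part (Gam g (h / n) (N' * n)) N' n k)) f)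
    rw [sum_apply]
  have e3 : aeval T (Gam g h N) f -
      (aeval T (-(Gam g h N' - Gam g h N)) ((ssE hp h hh.le).Pn N f) +
        (aeval T (Gam g h N') f - (1 / n : ℂ) • (∑ i ∈ Finset.range (N' * n),
      (Gam g (h / n) (N' * n)).coeff i • tr (i * (h / n)) a))) =
      -(aeval T (Gam g h N' - Gam g h N) (f - (ssE hp h hh.le).Pn N f)) +
      (1 / n : ℂ) • (∑ i ∈ Finset.range (N' * n),
      (Gam g (h / n) (N' * n)).coeff i • tr (i * (h / n)) a) := by
    have e4 : aeval T (-(Gam g h N' - Gam g h N)) ((ssE hp h hh.le).Pn N f) =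
        -(aeval T (Gam g h N' - Gam g h N) ((ssE hp h hh.le).Pn N f)) := by
      rw [map_neg]
      rfl
    have e5 : aeval T (Gam g h N' - Gam g h N) f = aeval T (Gam g h N') f - aeval T (Gam g h N) f := by
      rw [map_sub]
      rfl
    rw [e4, map_sub (aeval T (Gam g h N' - Gam g h N)), e5]
    abel
  have e6 : P (aeval T (Gam g h N' - Gam g h N) (f - (ssE hp h hh.le).Pn N f)) = 0 :=
    (ssE hp h hh.le).P_aeval_sub_Pn _ N (X_pow_dvd_Gam g h hN) f
  rw [e1, e3, map_add, map_neg, e6, neg_zero, zero_add, map_smul]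

theorem sub_Pn_eq (hp : p ≠ ∞) (h : ℝ) (hh : 0 < h) (m : ℕ) (u : E p) (hu : P u = u) :
    u - (ssE hp h hh.le).Pn m u = ind (Ioc 0 (m * h)) measurableSet_Ioc u := by
  have e : (ssE hp h hh.le).Pn m u = tr (-(m * h)) (P (tr (m * h) u)) := by
    show ((ssE hp h hh.le).σ ^ m) (P (((ssE hp h hh.le).τ ^ m) u)) = _
    rw [ssE_τ_pow, ssE_σ_pow]
  rw [e]
  refine Lp.ext ?_
  have hPu := P_coe u
  rw [hu] at hPu
  filter_upwards [Lp.coeFn_sub u (tr (-(m * h)) (P (tr (m * h) u))),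
    ind_coe (Ioc 0 (m * h)) measurableSet_Ioc u, tr_coe (-(m * h)) (P (tr (m * h) u)),
    (mp_add (-(m * h))).quasiMeasurePreserving.ae (P_coe (tr (m * h) u)),
    (mp_add (-(m * h))).quasiMeasurePreserving.ae (tr_coe (m * h) u), hPu] with t h1 h2 h3 h4 h5 h6
  have hmh : 0 ≤ (m : ℝ) * h := by positivity
  rw [h1, Pi.sub_apply, h2, h3, h4]
  by_cases ht : t ∈ Ioi (0 : ℝ)
  · by_cases ht' : t ≤ m * h
    · rw [indicator_of_notMem, sub_zero,
        indicator_of_mem (show t ∈ Ioc (0 : ℝ) (m * h) from ⟨ht, ht'⟩)]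
      rw [mem_Ioi, not_lt]
      linarith
    · rw [indicator_of_mem, indicator_of_notMem fun h7 => ht' h7.2, h5,
        show t + -(m * h) + m * h = t by ring, sub_self]
      rw [mem_Ioi]
      linarith [not_le.1 ht']
  · have ht2 : u t = 0 := by
      rw [h6, indicator_of_notMem ht]
    rw [indicator_of_notMem (s := Ioc (0 : ℝ) (m * h)) fun h7 => ht h7.1, ht2,
      indicator_of_notMem, sub_zero]
    rw [mem_Ioi, not_lt] at ht ⊢
    linarith

theorem norm_sub_Pn_le (hp : p ≠ ∞) (h : ℝ) (hh : 0 < h) (m : ℕ) (u : E p) (hu : P u = u)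
    (B : ℝ) (hb : ∀ᵐ s : ℝ, 0 < s → ‖u s‖ ≤ B) :
    ‖u - (ssE hp h hh.le).Pn m u‖ ^ p.toReal ≤ m * h * B ^ p.toReal := by
  have hr := toReal_pos_of hp
  have hmh : 0 ≤ (m : ℝ) * h := by positivity
  rw [sub_Pn_eq hp h hh m u hu, norm_ind_rpow hp]
  have e : m * h * B ^ p.toReal = ∫ t in Ioc (0 : ℝ) (m * h), B ^ p.toReal := by
    rw [setIntegral_const, smul_eq_mul, measureReal_def, Real.volume_Ioc, sub_zero,
      ENNReal.toReal_ofReal hmh]
  rw [e]
  refine setIntegral_mono_on_ae (integrable_rpow hp u).integrableOn ?_ measurableSet_Ioc ?_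
  · exact integrableOn_const measure_Ioc_lt_top.ne (by simp)
  · filter_upwards [hb] with t h1 h2
    exact Real.rpow_le_rpow (norm_nonneg _) (h1 h2.1) hr.le

/-- T11. The decomposition before windows. With `h' = h / n'`, `n'` large, `N' ≥ N` large,
`G'(i) = (1/h') g(1_{(ih', (i+1)h']})`, `A f` the average of `f` over `(s, s + h']`:
the list consists of `(-(Gam g h N' - Gam g h N), Pn N f)` and of the pairs
`(n'^(1/p) / n' * ∑ j < N', G'(j n' + k) X ^ j, n'^(-1/p) (f - tr (k h') (A f)))`, `k < n'`. -/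
theorem predisc (hp : p ≠ ∞) (hq : q ≠ ∞) (hpq : 1 / p.toReal + 1 / q.toReal = 1)
    (hp1 : 1 < p.toReal) (g : E p →L[ℂ] ℂ) (h : ℝ) (hh : 0 < h) (N : ℕ) {ι : Type} [Finite ι]
    (f : ι → E p) (hf : ∀ i, P (f i) = f i) (hg : ∀ i v, 0 ≤ v → g (S v (f i)) = 0)
    (D : ι → ℝ) (hD : ∀ i (v : ℝ), |v| ≤ 2 * h → ‖tr v (f i) - f i‖ ≤ D i) (m : ℕ) (δ : ℝ)
    (hδ : 0 < δ) :
    ∃ l : List (ℂ[X] × (ι → E p)),
      (∀ i, ∀ u : E p, u = P (aeval (ssE hp h hh.le).τ (Gam g h N) (f i) -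
          (l.map fun ab => aeval (ssE hp h hh.le).τ ab.1 (ab.2 i)).sum) →
        ‖u - (ssE hp h hh.le).Pn m u‖ ≤ δ) ∧
      (l.map fun ab => ‖aeval (ssE (p := q) hq h hh.le).τ ab.1 (one h)‖ ^ q.toReal).sum ≤
        2 * ‖g‖ ^ q.toReal ∧
      ∀ i, (l.map fun ab => ‖ab.2 i‖ ^ p.toReal).sum ≤ D i ^ p.toReal +
        ‖(ssE hp h hh.le).Pn N (f i)‖ ^ p.toReal := by
  have hr := toReal_pos_of hp
  -- the bound `B` of `|u|`
  obtain ⟨B, hB0, hB⟩ : ∃ B : ℝ, 0 < B ∧ m * h * B ^ p.toReal ≤ δ ^ p.toReal := by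
    have hmh : (0 : ℝ) < m * h + 1 := by positivity
    refine ⟨δ / (m * h + 1) ^ (1 / p.toReal), by positivity, ?_⟩
    rw [Real.div_rpow hδ.le (by positivity), ← Real.rpow_mul hmh.le, one_div_mul_cancel hr.ne',
      Real.rpow_one, mul_div_assoc', div_le_iff₀ hmh, mul_comm]
    have : 0 ≤ δ ^ p.toReal := by positivity
    nlinarith
  obtain ⟨e, he0, he⟩ : ∃ e : ℝ, 0 < e ∧ (1 / h) * (‖g‖ * (2 * e + e)) ≤ B := by
    refine ⟨B * h / (3 * (‖g‖ + 1)), by positivity, ?_⟩
    have hg1 : (0 : ℝ) < ‖g‖ + 1 := by positivity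
    have e1 : (1 / h) * (‖g‖ * (2 * (B * h / (3 * (‖g‖ + 1))) + B * h / (3 * (‖g‖ + 1)))) =
        B * (‖g‖ / (‖g‖ + 1)) := by
      field_simp
      ring
    rw [e1]
    have e2 : ‖g‖ / (‖g‖ + 1) ≤ 1 := by
      rw [div_le_one hg1]
      linarith
    nlinarith
  -- the choice of `n`
  obtain ⟨n, hn0, hn⟩ : ∃ n : ℕ, 0 < n ∧ ∀ i (v : ℝ), |v| ≤ h / n → ‖tr v (f i) - f i‖ ≤ e := by
    have h1 : ∀ᶠ v : ℝ in 𝓝 0, ∀ i, ‖tr v (f i) - f i‖ < e := by
      rw [eventually_all]
      intro i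
      have h2 : Continuous fun v : ℝ => ‖tr v (f i) - f i‖ :=
        ((continuous_tr hp (f i)).sub continuous_const).norm
      have h3 := h2.tendsto 0
      rw [tr_zero, sub_self, norm_zero] at h3
      exact h3.eventually (gt_mem_nhds he0)
    rw [Metric.eventually_nhds_iff] at h1
    obtain ⟨d, hd, h1⟩ := h1
    obtain ⟨n, hn⟩ := exists_nat_gt (h / d)
    have hn0 : (0 : ℝ) < n := lt_trans (by positivity) hn
    refine ⟨n, by exact_mod_cast hn0, fun i v hv => (h1 ?_ i).le⟩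
    rw [Real.dist_0_eq_abs]
    refine lt_of_le_of_lt hv ?_
    rw [div_lt_iff₀ hd] at hn
    rw [div_lt_iff₀ hn0]
    linarith
  -- the choice of `N'`
  obtain ⟨N', hN', hNe⟩ : ∃ N' : ℕ, N ≤ N' ∧
      ∀ i, ‖ind (Ioi (N' * h)) measurableSet_Ioi (f i)‖ ≤ e := by
    have h1 : ∀ᶠ N' : ℕ in atTop, ∀ i, ‖ind (Ioi (N' * h)) measurableSet_Ioi (f i)‖ < e := by
      rw [eventually_all]
      intro i
      have h2 : Tendsto (fun n : ℕ => ‖ind (Ioi (n * h)) measurableSet_Ioi (f i)‖) atTop (𝓝 0) := by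
        refine tendsto_ind hp (fun n : ℕ => Ioi (n * h)) (fun n => measurableSet_Ioi) ?_ ?_ (f i)
        · intro m n hmn
          refine Ioi_subset_Ioi ?_
          have : (m : ℝ) ≤ n := by exact_mod_cast hmn
          nlinarith
        · refine eq_empty_of_forall_notMem fun t ht => ?_
          obtain ⟨n, hn⟩ := exists_nat_gt (t / h)
          have h1 := mem_iInter.1 ht n
          rw [mem_Ioi] at h1
          rw [div_lt_iff₀ hh] at hn
          linarith
      exact h2.eventually (gt_mem_nhds he0)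
    obtain ⟨N', h2, h3⟩ := (h1.and (eventually_ge_atTop N)).exists
    exact ⟨N', h3, fun i => (h2 i).le⟩
  have hn1 : (0 : ℝ) < n := by exact_mod_cast hn0
  have hh' : 0 < h / n := by positivity
  -- the averages
  choose a ha1 ha2 using fun i => exists_avg hp (f i) (h / n) hh'
  set c1 : ℂ := (((n : ℝ) ^ (1 / p.toReal) / n : ℝ) : ℂ) with hc1
  set c2 : ℂ := (((n : ℝ) ^ (-(1 / p.toReal)) : ℝ) : ℂ) with hc2
  have hc : c1 * c2 = 1 / n := by
    rw [hc1, hc2, ← Complex.ofReal_mul]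
    have : (n : ℝ) ^ (1 / p.toReal) / n * (n : ℝ) ^ (-(1 / p.toReal)) = 1 / n := by
      rw [div_mul_eq_mul_div, ← Real.rpow_add hn1, add_neg_cancel, Real.rpow_zero]
    rw [this]
    push_cast
    rfl
  refine ⟨(-(Gam g h N' - Gam g h N), fun i => (ssE hp h hh.le).Pn N (f i)) ::
    (List.range n).map fun k => (C c1 * part (Gam g (h / n) (N' * n)) N' n k,
      fun i => c2 • (f i - tr (k * (h / n)) (a i))), ?_, ?_, ?_⟩
  · intro i u hu
    rw [List.map_cons, List.sum_cons, List.map_map, list_range_sum] at hu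
    have hu1 := u_eq hp g h hh hN' n hn0 c1 c2 hc (f i) (a i)
    have hu2 : u = (1 / n : ℂ) • P (∑ i_1 ∈ Finset.range (N' * n),
      (Gam g (h / n) (N' * n)).coeff i_1 • tr (i_1 * (h / n)) (a i)) := by
      rw [← hu1, hu]
      rfl
    have hPu : P u = u := by
      rw [hu2, map_smul, P_P]
    have hb := w_bound hp g (h / n) hh' (N' * n) (f i) (a i) (ha1 i) (hg i) e (hn i)
    have hbu : ∀ᵐ s : ℝ, 0 < s → ‖u s‖ ≤ B := by
      rw [hu2]
      set W : E p := ∑ i_1 ∈ Finset.range (N' * n),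
        (Gam g (h / n) (N' * n)).coeff i_1 • tr (i_1 * (h / n)) (a i) with hW
      filter_upwards [hb, Lp.coeFn_smul (1 / n : ℂ) (P W), P_coe W] with s h1 h2 h3 hs
      rw [h2, Pi.smul_apply, h3, indicator_of_mem (show s ∈ Ioi (0 : ℝ) from hs), norm_smul]
      have e1 : ‖(1 / n : ℂ)‖ = 1 / n := by simp
      rw [e1]
      have h4 := h1 hs
      have e2 : ((N' * n : ℕ) : ℝ) * (h / n) = N' * h := by
        push_cast
        field_simp
      rw [e2] at h4
      calc 1 / (n : ℝ) * ‖W s‖ ≤ 1 / (n : ℝ) * (1 / (h / n) * (‖g‖ * (2 * e +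
            ‖ind (Ioi (N' * h)) measurableSet_Ioi (f i)‖))) :=
            mul_le_mul_of_nonneg_left h4 (by positivity)
        _ = (1 / h) * (‖g‖ * (2 * e + ‖ind (Ioi (N' * h)) measurableSet_Ioi (f i)‖)) := by
            field_simp
        _ ≤ (1 / h) * (‖g‖ * (2 * e + e)) := by
            refine mul_le_mul_of_nonneg_left ?_ (by positivity)
            refine mul_le_mul_of_nonneg_left ?_ (norm_nonneg _)
            linarith [hNe i]
        _ ≤ B := he
    have h5 := norm_sub_Pn_le hp h hh m u hPu B hbu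
    exact (Real.rpow_le_rpow_iff (norm_nonneg _) hδ.le hr).1 (h5.trans hB)
  · rw [List.map_cons, List.sum_cons, List.map_map, list_range_sum]
    exact predisc_q hp hq hpq hp1 g h hh N N' hN' n hn0
  · intro i
    rw [List.map_cons, List.sum_cons, List.map_map, list_range_sum, add_comm]
    refine add_le_add ?_ le_rfl
    have h1 : ∀ k ∈ Finset.range n, ‖c2 • (f i - tr (k * (h / n)) (a i))‖ ^ p.toReal ≤
        (1 / n) * D i ^ p.toReal := by
      intro k hk
      have hk' : (k : ℝ) + 1 ≤ n := by exact_mod_cast Finset.mem_range.1 hk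
      have h2 : ‖f i - tr (k * (h / n)) (a i)‖ ≤ D i := by
        have h3 : ‖a i - tr (-(k * (h / n))) (f i)‖ ≤ D i := by
          refine ha2 i _ _ fun v hv => ?_
          have h4 : ‖tr v (f i) - tr (-(k * (h / n))) (f i)‖ =
              ‖tr (v + k * (h / n)) (f i) - f i‖ := by
            rw [← (tr (k * (h / n))).norm_map, map_sub, tr_add, tr_add, add_neg_cancel, tr_zero,
              add_comm v]
          rw [h4]
          refine hD i _ ?_
          have h5 : 0 ≤ (k : ℝ) * (h / n) := by positivity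
          have h6 : (k : ℝ) * (h / n) + h / n ≤ h := by
            have : (k : ℝ) * (h / n) + h / n = (k + 1) * (h / n) := by ring
            rw [this]
            calc ((k : ℝ) + 1) * (h / n) ≤ n * (h / n) :=
                  mul_le_mul_of_nonneg_right hk' hh'.le
              _ = h := by field_simp
          rw [abs_of_nonneg (by linarith [hv.1])]
          linarith [hv.2]
        rw [← norm_neg, neg_sub, ← (tr (-(k * (h / n)))).norm_map, map_sub, tr_add, neg_add_cancel,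
          tr_zero]
        exact h3
      have hc2n : ‖c2‖ ^ p.toReal = 1 / n := by
        rw [hc2, Complex.norm_real, Real.norm_of_nonneg (by positivity), ← Real.rpow_mul hn1.le,
          neg_mul, one_div_mul_cancel hr.ne', Real.rpow_neg_one, one_div]
      rw [norm_smul, Real.mul_rpow (norm_nonneg _) (norm_nonneg _), hc2n]
      exact mul_le_mul_of_nonneg_left (Real.rpow_le_rpow (norm_nonneg _) h2 hr.le) (by positivity)
    refine (Finset.sum_le_sum h1).trans ?_
    rw [Finset.sum_const, Finset.card_range, nsmul_eq_mul, ← mul_assoc, mul_one_div_cancel hn1.ne',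
      one_mul]

end Pool.Agent.V7H86.HD
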