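import Mathlib
import Pool.Agent.V7H86.HD.A1
import Pool.Agent.V7H86.HD.T8

/-!
T7 (windows) (helper34).
-/

set_option autoImplicit false

open MeasureTheory Set Filter Polynomial
open scoped ENNReal Topology

namespace Pool.Agent.V7H86.HD

section T7

variable {F G : Type} [NormedAddCommGroup F] [NormedSpace ℂ F] [NormedAddCommGroup G]
  [NormedSpace ℂ G] {p q : ℝ}

theorem SS.Pn_zero {r : ℝ} (A : SS F r) (f : F) : A.Pn 0 f = A.P f := by
  rw [A.Pn_apply]
  simp

theorem SS.P_pow_Pn_le {r : ℝ} (A : SS F r) {m j : ℕ} (h : m ≤ j) (f : F) :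
    A.P ((A.τ ^ j) (A.Pn m f)) = A.P ((A.τ ^ j) f) := by
  obtain ⟨k, rfl⟩ := Nat.exists_eq_add_of_le h
  rw [A.Pn_apply, add_comm m k, pow_add, ContinuousLinearMap.mul_apply, A.τσ_pow, A.PτP_pow,
    ContinuousLinearMap.mul_apply]

theorem SS.P_pow_Pn_ge {r : ℝ} (A : SS F r) (j k : ℕ) (f : F) :
    A.P ((A.τ ^ j) (A.Pn (j + k) f)) = A.Pn k ((A.τ ^ j) f) := by
  rw [A.Pn_apply, pow_add A.σ, ContinuousLinearMap.mul_apply, A.τσ_pow, A.PσP_pow, A.Pn_apply,
    add_comm j k, pow_add A.τ, ContinuousLinearMap.mul_apply]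

theorem SS.Pn_split {r : ℝ} (A : SS F r) {m m' : ℕ} (h : m ≤ m') (f : F) :
    ‖A.Pn m f‖ ^ r = ‖A.Pn m f - A.Pn m' f‖ ^ r + ‖A.Pn m' f‖ ^ r := by
  rw [← A.isopow m' (A.Pn m f), A.norm_rpow, A.P_pow_Pn_le h, ← A.norm_Pn m' f,
    ← A.isopow m' (A.Pn m f - A.Pn m' f), map_sub, A.Pn_apply m', A.τσ_pow, add_comm]

theorem SS.Pn_anti {r : ℝ} (A : SS F r) {m m' : ℕ} (h : m ≤ m') (f : F) :
    ‖A.Pn m' f‖ ^ r ≤ ‖A.Pn m f‖ ^ r := by
  rw [A.Pn_split h]
  exact le_add_of_nonneg_left (Real.rpow_nonneg (norm_nonneg _) _)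

theorem sum_window {M : Type*} [AddCommMonoid M] (g : ℕ → M) (n j N : ℕ) (h : j + n ≤ N) :
    (∑ t ∈ Finset.range N, if j ≤ t ∧ t < j + n then g t else 0) =
      ∑ s ∈ Finset.range n, g (j + s) := by
  rw [← Finset.sum_filter]
  have : (Finset.range N).filter (fun t => j ≤ t ∧ t < j + n) = Finset.Ico j (j + n) := by
    ext t
    simp only [Finset.mem_filter, Finset.mem_range, Finset.mem_Ico]
    omega
  rw [this, Finset.sum_Ico_eq_sum_range, Nat.add_sub_cancel_left]

theorem list_sum_range {M : Type*} [AddCommMonoid M] (f : ℕ → M) (n : ℕ) :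
    ((List.range n).map f).sum = ∑ t ∈ Finset.range n, f t := by
  induction n with
  | zero => simp
  | succ n ih => rw [List.range_succ, List.map_append, List.sum_append, ih,
      Finset.sum_range_succ]; simp

/-- the windowed polynomial -/
noncomputable def wpol (α : ℂ) (a : ℂ[X]) (n t : ℕ) : ℂ[X] :=
  ∑ j ∈ Finset.range (a.natDegree + 1),
    C (if j ≤ t ∧ t < j + n then α * a.coeff j else 0) * X ^ j

theorem aeval_wpol {H : Type} [NormedAddCommGroup H] [NormedSpace ℂ H] (T : H →L[ℂ] H)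
    (α : ℂ) (a : ℂ[X]) (n t : ℕ) (x : H) :
    aeval T (wpol α a n t) x = ∑ j ∈ Finset.range (a.natDegree + 1),
      (if j ≤ t ∧ t < j + n then α * a.coeff j else 0) • (T ^ j) x := by
  rw [wpol, map_sum, ContinuousLinearMap.sum_apply]
  refine Finset.sum_congr rfl fun j _ => ?_
  rw [map_mul, aeval_C, map_pow, aeval_X, Algebra.algebraMap_eq_smul_one, smul_one_mul]
  rfl

theorem aeval_apply_sum {H : Type} [NormedAddCommGroup H] [NormedSpace ℂ H] (T : H →L[ℂ] H)
    (a : ℂ[X]) (x : H) :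
    aeval T a x = ∑ j ∈ Finset.range (a.natDegree + 1), a.coeff j • (T ^ j) x := by
  rw [aeval_eq_sum_range, ContinuousLinearMap.sum_apply]
  rfl

theorem tele_window (g : ℕ → ℝ) (hg : ∀ m, 0 ≤ g m) (n D : ℕ) :
    ∑ t ∈ Finset.range (n + D), (g (t + 1 - n) - g (t + 1)) ≤ n * g 0 := by
  rw [Finset.sum_sub_distrib, Finset.sum_range_add]
  have h1 : ∑ t ∈ Finset.range n, g (t + 1 - n) = n * g 0 := by
    rw [Finset.sum_congr rfl (g := fun _ => g 0), Finset.sum_const, Finset.card_range,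
      nsmul_eq_mul]
    intro t ht
    rw [Finset.mem_range] at ht
    rw [show t + 1 - n = 0 by omega]
  have h2 : ∑ t ∈ Finset.range D, g (n + t + 1 - n) = ∑ t ∈ Finset.range D, g (t + 1) := by
    refine Finset.sum_congr rfl fun t _ => ?_
    rw [show n + t + 1 - n = t + 1 by omega]
  have h3 : ∑ t ∈ Finset.range D, g (t + 1) ≤ ∑ t ∈ Finset.range (n + D), g (t + 1) :=
    Finset.sum_le_sum_of_subset_of_nonneg (Finset.range_mono (by omega)) fun _ _ _ => hg _
  rw [h1, h2]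
  linarith

/-- T7 -/
theorem windows (hp : 0 < p) (hq : 0 < q) (hpq : 1 / p + 1 / q = 1) (A : SS F p) (B : SS G q)
    {c : G} (hc : B.Cell c) {ι : Type} (a : ℂ[X]) (b : ι → F) (n : ℕ) (hn : 0 < n) :
    ∃ l : List (ℂ[X] × (ι → F)),
      (∀ i, A.P ((l.map fun ab => aeval A.τ ab.1 (ab.2 i)).sum) = A.P (aeval A.τ a (b i)) -
        (1 / n : ℂ) • ∑ s ∈ Finset.range n, A.Pn (s + 1) (aeval A.τ a (b i))) ∧
      (l.map fun ab => ‖aeval B.τ ab.1 c‖ ^ q).sum ≤ ‖aeval B.τ a c‖ ^ q ∧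
      ∀ i, (l.map fun ab => ‖ab.2 i‖ ^ p).sum ≤ ‖A.P (b i)‖ ^ p := by
  have hn' : (0 : ℝ) < n := by exact_mod_cast hn
  have hn0 : (n : ℂ) ≠ 0 := by exact_mod_cast hn.ne'
  set α : ℝ := (n : ℝ) ^ (-(1 / q)) with hα
  set β : ℝ := (n : ℝ) ^ (-(1 / p)) with hβ
  have hα0 : 0 ≤ α := Real.rpow_nonneg hn'.le _
  have hβ0 : 0 ≤ β := Real.rpow_nonneg hn'.le _
  have hαq : α ^ q = (n : ℝ)⁻¹ := by
    rw [hα, ← Real.rpow_mul hn'.le, neg_mul, one_div, inv_mul_cancel₀ hq.ne', Real.rpow_neg_one]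
  have hβp : β ^ p = (n : ℝ)⁻¹ := by
    rw [hβ, ← Real.rpow_mul hn'.le, neg_mul, one_div, inv_mul_cancel₀ hp.ne', Real.rpow_neg_one]
  have hαβ : α * β = (n : ℝ)⁻¹ := by
    rw [hα, hβ, ← Real.rpow_add hn', ← Real.rpow_neg_one]
    congr 1
    linarith
  have hαβ' : (α : ℂ) * (β : ℂ) = 1 / n := by
    rw [← Complex.ofReal_mul, hαβ]
    push_cast
    rw [one_div]
  set N := n + (a.natDegree + 1) with hN
  refine ⟨(List.range N).map fun t => (wpol α a n t, fun i =>
    (β : ℂ) • (A.Pn (t + 1 - n) (b i) - A.Pn (t + 1) (b i))), ?_, ?_, ?_⟩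
  · intro i
    rw [List.map_map, list_sum_range, map_sum]
    simp only [Function.comp_apply]
    have e1 : ∀ t, A.P (aeval A.τ (wpol α a n t)
        ((β : ℂ) • (A.Pn (t + 1 - n) (b i) - A.Pn (t + 1) (b i)))) =
        ∑ j ∈ Finset.range (a.natDegree + 1), (if j ≤ t ∧ t < j + n then
          (a.coeff j * (1 / n : ℂ)) • (A.P ((A.τ ^ j) (b i)) - A.Pn (t + 1 - j) ((A.τ ^ j) (b i)))
          else 0) := by
      intro t
      rw [aeval_wpol, map_sum]
      refine Finset.sum_congr rfl fun j _ => ?_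
      split_ifs with h
      · rw [map_smul, map_smul, map_smul, smul_smul, map_sub, map_sub,
          A.P_pow_Pn_le (by omega : t + 1 - n ≤ j), ← hαβ']
        congr 1
        · ring
        · congr 1
          have : t + 1 = j + (t + 1 - j) := by omega
          conv_lhs => rw [this]
          rw [A.P_pow_Pn_ge]
      · rw [zero_smul, map_zero]
    rw [Finset.sum_congr rfl fun t _ => e1 t, Finset.sum_comm]
    have e2 : ∀ j ∈ Finset.range (a.natDegree + 1), (∑ t ∈ Finset.range N,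
        if j ≤ t ∧ t < j + n then (a.coeff j * (1 / n : ℂ)) •
          (A.P ((A.τ ^ j) (b i)) - A.Pn (t + 1 - j) ((A.τ ^ j) (b i))) else 0) =
        a.coeff j • A.P ((A.τ ^ j) (b i)) - (1 / n : ℂ) • ∑ s ∈ Finset.range n,
          a.coeff j • A.Pn (s + 1) ((A.τ ^ j) (b i)) := by
      intro j hj
      rw [Finset.mem_range] at hj
      rw [sum_window (fun t => (a.coeff j * (1 / n : ℂ)) •
          (A.P ((A.τ ^ j) (b i)) - A.Pn (t + 1 - j) ((A.τ ^ j) (b i)))) n j N (by omega),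
        ← Finset.smul_sum, Finset.sum_sub_distrib, Finset.sum_const, Finset.card_range, smul_sub]
      congr 1
      · rw [← Nat.cast_smul_eq_nsmul ℂ, smul_smul]
        congr 1
        field_simp
      · rw [← Finset.smul_sum, smul_smul, mul_comm]
        congr 1
        refine Finset.sum_congr rfl fun s _ => ?_
        rw [show j + s + 1 - j = s + 1 by omega]
    rw [Finset.sum_congr rfl e2, Finset.sum_sub_distrib, aeval_apply_sum, map_sum,
      ← Finset.smul_sum, Finset.sum_comm]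
    congr 1
    · refine Finset.sum_congr rfl fun j _ => ?_
      rw [map_smul]
    · congr 1
      refine Finset.sum_congr rfl fun s _ => ?_
      rw [map_sum]
      refine Finset.sum_congr rfl fun j _ => ?_
      rw [map_smul]
  · rw [List.map_map, list_sum_range]
    simp only [Function.comp_apply]
    rw [aeval_apply_sum, B.sum_left hq hc]
    have e1 : ∀ t, ‖aeval B.τ (wpol α a n t) c‖ ^ q =
        ∑ j ∈ Finset.range (a.natDegree + 1), (if j ≤ t ∧ t < j + n then
          (n : ℝ)⁻¹ * ‖a.coeff j‖ ^ q * ‖c‖ ^ q else 0) := by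
      intro t
      rw [aeval_wpol, B.sum_left hq hc, Finset.sum_mul]
      refine Finset.sum_congr rfl fun j _ => ?_
      split_ifs with h
      · rw [norm_mul, Complex.norm_real, Real.norm_of_nonneg hα0,
          Real.mul_rpow hα0 (norm_nonneg _), hαq]
      · rw [norm_zero, Real.zero_rpow hq.ne', zero_mul]
    rw [Finset.sum_congr rfl fun t _ => e1 t, Finset.sum_comm, Finset.sum_mul]
    refine le_of_eq (Finset.sum_congr rfl fun j hj => ?_)
    rw [Finset.mem_range] at hj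
    rw [sum_window (fun _ => (n : ℝ)⁻¹ * ‖a.coeff j‖ ^ q * ‖c‖ ^ q) n j N (by omega),
      Finset.sum_const, Finset.card_range, nsmul_eq_mul]
    field_simp
  · intro i
    rw [List.map_map, list_sum_range]
    simp only [Function.comp_apply]
    have e1 : ∀ t, ‖(β : ℂ) • (A.Pn (t + 1 - n) (b i) - A.Pn (t + 1) (b i))‖ ^ p =
        (n : ℝ)⁻¹ * (‖A.Pn (t + 1 - n) (b i)‖ ^ p - ‖A.Pn (t + 1) (b i)‖ ^ p) := by
      intro t
      rw [norm_smul, Complex.norm_real, Real.norm_of_nonneg hβ0,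
        Real.mul_rpow hβ0 (norm_nonneg _), hβp, A.Pn_split (by omega : t + 1 - n ≤ t + 1)]
      ring
    rw [Finset.sum_congr rfl fun t _ => e1 t, ← Finset.mul_sum]
    have h := tele_window (fun m => ‖A.Pn m (b i)‖ ^ p)
      (fun m => Real.rpow_nonneg (norm_nonneg _) _) n (a.natDegree + 1)
    simp only [A.Pn_zero] at h
    rw [inv_mul_le_iff₀ hn']
    exact h

end T7

end Pool.Agent.V7H86.HD
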