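import Mathlib
import Pool.Agent.V7H86.HD.A1
import Pool.Agent.V7H86.HD.T7

/-!
T12, abstract part (helper34): windows for all pairs of a list.
-/

set_option autoImplicit false

open MeasureTheory Set Filter Polynomial
open scoped ENNReal Topology

namespace Pool.Agent.V7H86.HD

variable {F G : Type} [NormedAddCommGroup F] [NormedSpace ℂ F] [NormedAddCommGroup G]
  [NormedSpace ℂ G] {p q : ℝ}

theorem flatMap_map_sum {α β M : Type*} [AddCommMonoid M] (l : List α) (w : α → List β)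
    (g : β → M) : ((l.flatMap w).map g).sum = (l.map fun a => ((w a).map g).sum).sum := by
  induction l with
  | nil => simp
  | cons a l ih => rw [List.flatMap_cons, List.map_append, List.sum_append, ih, List.map_cons,
      List.sum_cons]

theorem map_list_sum_eq {α : Type*} (P L : F →L[ℂ] F) (S T : α → F) (h : ∀ a, P (S a) = L (T a))
    (l : List α) : P ((l.map S).sum) = L ((l.map T).sum) := by
  induction l with
  | nil => simp
  | cons a l ih => rw [List.map_cons, List.map_cons, List.sum_cons, List.sum_cons, map_add,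
      map_add, ih, h]

theorem list_sum_le {α : Type*} (l : List α) (f g : α → ℝ) (h : ∀ a, f a ≤ g a) :
    (l.map f).sum ≤ (l.map g).sum := by
  induction l with
  | nil => simp
  | cons a l ih => rw [List.map_cons, List.map_cons, List.sum_cons, List.sum_cons]
                   exact add_le_add (h a) ih

theorem SS.Pn_P {r : ℝ} (A : SS F r) (m : ℕ) (f : F) : A.Pn m (A.P f) = A.Pn m f := by
  rw [A.Pn_apply, A.PτP_pow, A.Pn_apply]

theorem SS.norm_sub_Pn_mono {r : ℝ} (hr : 0 < r) (A : SS F r) {m n : ℕ} (h : m ≤ n) (u : F)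
    (hu : A.P u = u) : ‖u - A.Pn m u‖ ≤ ‖u - A.Pn n u‖ := by
  have h1 := A.Pn_split (Nat.zero_le m) u
  have h2 := A.Pn_split (Nat.zero_le n) u
  have h3 := A.Pn_anti h u
  rw [A.Pn_zero, hu] at h1 h2
  refine (Real.rpow_le_rpow_iff (norm_nonneg _) (norm_nonneg _) hr).1 ?_
  linarith

/-- windows for all pairs of a list -/
theorem windows_all (hp : 0 < p) (hq : 0 < q) (hpq : 1 / p + 1 / q = 1) (A : SS F p)
    (hA : A.Tails) (B : SS G q) {c : G} (hc : B.Cell c) {ι : Type} [Finite ι] (v : ι → F)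
    (W : ℝ) (Y : ι → ℝ)
    (h : ∀ (m : ℕ) (δ : ℝ), 0 < δ → ∃ l : List (ℂ[X] × (ι → F)),
      (∀ i, ∀ u : F, u = A.P (v i - (l.map fun ab => aeval A.τ ab.1 (ab.2 i)).sum) →
        ‖u - A.Pn m u‖ ≤ δ) ∧
      (l.map fun ab => ‖aeval B.τ ab.1 c‖ ^ q).sum ≤ W ∧
      ∀ i, (l.map fun ab => ‖ab.2 i‖ ^ p).sum ≤ Y i) (η : ℝ) (hη : 0 < η) :
    ∃ l : List (ℂ[X] × (ι → F)),
      (∀ i, ‖A.P (v i - (l.map fun ab => aeval A.τ ab.1 (ab.2 i)).sum)‖ ≤ η) ∧
      (l.map fun ab => ‖aeval B.τ ab.1 c‖ ^ q).sum ≤ W ∧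
      ∀ i, (l.map fun ab => ‖ab.2 i‖ ^ p).sum ≤ Y i := by
  have hev : ∀ᶠ n : ℕ in atTop, ∀ i, (n : ℝ)⁻¹ * ∑ s ∈ Finset.range n,
      ‖A.P ((A.τ ^ (s + 1)) (v i))‖ < η / 2 := by
    rw [eventually_all]
    intro i
    have h1 : Tendsto (fun s : ℕ => ‖A.P ((A.τ ^ (s + 1)) (v i))‖) atTop (𝓝 0) := by
      have := ((hA.right (v i)).comp (tendsto_add_atTop_nat 1)).norm
      rw [norm_zero] at this
      exact this
    exact h1.cesaro.eventually (gt_mem_nhds (by positivity))
  obtain ⟨n, hn, hn0⟩ := (hev.and (eventually_gt_atTop 0)).exists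
  have hn' : (0 : ℝ) < n := by exact_mod_cast hn0
  have hnC : (n : ℂ) ≠ 0 := by exact_mod_cast hn0.ne'
  obtain ⟨l, hl1, hl2, hl3⟩ := h n (η / 2) (by positivity)
  choose w hw1 hw2 hw3 using fun ab : ℂ[X] × (ι → F) =>
    windows hp hq hpq A B hc ab.1 ab.2 n hn0
  set L : F →L[ℂ] F := A.P - (1 / n : ℂ) • ∑ s ∈ Finset.range n, A.Pn (s + 1) with hL
  have hLa : ∀ x, L x = A.P x - (1 / n : ℂ) • ∑ s ∈ Finset.range n, A.Pn (s + 1) x := by
    intro x
    rw [hL]
    simp [ContinuousLinearMap.sum_apply]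
  refine ⟨l.flatMap w, ?_, ?_, ?_⟩
  · intro i
    rw [map_sub, flatMap_map_sum, map_list_sum_eq A.P L _
      (fun ab : ℂ[X] × (ι → F) => aeval A.τ ab.1 (ab.2 i)) (fun ab => by rw [hw1, hLa])]
    set T := (l.map fun ab : ℂ[X] × (ι → F) => aeval A.τ ab.1 (ab.2 i)).sum with hT
    set u := A.P (v i - T) with hu
    have hPu : A.P u = u := by rw [hu, A.PP]
    have hLu : L (v i - T) = L u := by
      rw [hLa, hLa, hPu]
      simp only [hu, A.Pn_P]
    have e : A.P (v i) - L T = (1 / n : ℂ) • ∑ s ∈ Finset.range n, A.Pn (s + 1) (v i) + L u := by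
      rw [← hLu, map_sub L, hLa (v i)]
      abel
    rw [e]
    have b1 : ‖(1 / n : ℂ) • ∑ s ∈ Finset.range n, A.Pn (s + 1) (v i)‖ ≤ η / 2 := by
      rw [norm_smul]
      have : ‖(1 / n : ℂ)‖ = (n : ℝ)⁻¹ := by
        rw [norm_div, norm_one, Complex.norm_natCast, one_div]
      rw [this]
      refine le_trans (mul_le_mul_of_nonneg_left (norm_sum_le _ _) (by positivity)) ?_
      simp only [A.norm_Pn]
      exact (hn i).le
    have b2 : ‖L u‖ ≤ η / 2 := by
      have e2 : L u = (1 / n : ℂ) • ∑ s ∈ Finset.range n, (u - A.Pn (s + 1) u) := by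
        rw [hLa, hPu, Finset.sum_sub_distrib, Finset.sum_const, Finset.card_range, smul_sub,
          ← Nat.cast_smul_eq_nsmul ℂ, smul_smul, one_div, inv_mul_cancel₀ hnC, one_smul]
      rw [e2, norm_smul]
      have : ‖(1 / n : ℂ)‖ = (n : ℝ)⁻¹ := by
        rw [norm_div, norm_one, Complex.norm_natCast, one_div]
      rw [this]
      refine le_trans (mul_le_mul_of_nonneg_left ((norm_sum_le _ _).trans
        (Finset.sum_le_card_nsmul _ _ (η / 2) fun s hs => ?_)) (by positivity)) ?_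
      · rw [Finset.mem_range] at hs
        exact (A.norm_sub_Pn_mono hp (by omega : s + 1 ≤ n) u hPu).trans (hl1 i u hu)
      · rw [Finset.card_range, nsmul_eq_mul, ← mul_assoc, inv_mul_cancel₀ hn'.ne', one_mul]
    calc _ ≤ _ := norm_add_le _ _
      _ ≤ η / 2 + η / 2 := add_le_add b1 b2
      _ = η := by ring
  · rw [flatMap_map_sum]
    exact (list_sum_le _ _ _ fun ab => hw2 ab).trans hl2
  · intro i
    rw [flatMap_map_sum]
    refine (list_sum_le _ _ _ fun ab => (hw3 ab i).trans ?_).trans (hl3 i)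
    exact Real.rpow_le_rpow (norm_nonneg _) (A.norm_P_le hp _) hp.le

end Pool.Agent.V7H86.HD
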