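import Mathlib
import Pool.Agent.V7H86.HD.T12a
import Pool.Agent.V7H86.HD.T10
import Pool.Agent.V7H86.HD.T11

/-!
T12 (helper34): discretize from predisc (T11) and windows.
-/

set_option autoImplicit false

open MeasureTheory Set Filter Polynomial
open scoped ENNReal Topology

namespace Pool.Agent.V7H86.HD

variable {p q : ℝ≥0∞} [Fact (1 ≤ p)] [Fact (1 ≤ q)]

/-- T12. -/
theorem discretize (hp : p ≠ ∞) (hq : q ≠ ∞) (hpq : 1 / p.toReal + 1 / q.toReal = 1)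
    (hp1 : 1 < p.toReal) (g : E p →L[ℂ] ℂ) (h : ℝ) (hh : 0 < h) (N : ℕ) {ι : Type} [Finite ι]
    (f : ι → E p) (hf : ∀ i, P (f i) = f i) (hg : ∀ i v, 0 ≤ v → g (S v (f i)) = 0)
    (D : ι → ℝ) (hD : ∀ i (v : ℝ), |v| ≤ 2 * h → ‖tr v (f i) - f i‖ ≤ D i) (η : ℝ)
    (hη : 0 < η) :
    ∃ l : List (ℂ[X] × (ι → E p)),
      (∀ i, ‖P (aeval (ssE hp h hh.le).τ (Gam g h N) (f i) -
          (l.map fun ab => aeval (ssE hp h hh.le).τ ab.1 (ab.2 i)).sum)‖ ≤ η) ∧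
      (l.map fun ab => ‖aeval (ssE (p := q) hq h hh.le).τ ab.1 (one h)‖ ^ q.toReal).sum ≤
        2 * ‖g‖ ^ q.toReal ∧
      ∀ i, (l.map fun ab => ‖ab.2 i‖ ^ p.toReal).sum ≤ D i ^ p.toReal +
        ‖(ssE hp h hh.le).Pn N (f i)‖ ^ p.toReal :=
  windows_all (toReal_pos_of hp) (toReal_pos_of hq) hpq (ssE hp h hh.le) (ssE_tails hp h hh)
    (ssE (p := q) hq h hh.le) (cell_one hq h hh)
    (fun i => aeval (ssE hp h hh.le).τ (Gam g h N) (f i)) (2 * ‖g‖ ^ q.toReal)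
    (fun i => D i ^ p.toReal + ‖(ssE hp h hh.le).Pn N (f i)‖ ^ p.toReal)
    (fun m δ hδ => predisc hp hq hpq hp1 g h hh N f hf hg D hD m δ hδ) η hη

end Pool.Agent.V7H86.HD
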