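import Mathlib
import Pool.Agent.V7H86.HD.Defs

/-!
# The kernels of polynomials in a translation

`ker_exp`: an element of `L^p(0, ∞)` which is annihilated by a polynomial in the translation by `h`, with simple
nonzero roots, is a limit of linear combinations of exponentials.
-/

set_option autoImplicit false

open MeasureTheory Set Filter
open scoped ENNReal Topology

namespace Pool.Agent.V7H86.HD

variable {p : ℝ≥0∞} [Fact (1 ≤ p)]

/-- the span of the exponentials with exponents in `Z` -/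
noncomputable def expSpan (Z : Set ℂ) : Submodule ℂ (E p) := Submodule.span ℂ (ex '' Z)

namespace T3

/-- the translates tend to zero -/
theorem tendsto_S (hp : p ≠ ∞) (f : E p) (ε : ℝ) (hε : 0 < ε) :
    ∃ R : ℝ, ∀ v, R ≤ v → ‖S v f‖ < ε := by
  obtain ⟨g, hg1, hg2, hg3, hg4⟩ := (Lp.memLp f).exists_hasCompactSupport_eLpNorm_sub_le hp
    (ε := ENNReal.ofReal (ε / 2)) (by simpa using hε)
  have h1 : ‖f - hg4.toLp g‖ ≤ ε / 2 := by
    rw [Lp.norm_def]
    refine ENNReal.toReal_le_of_le_ofReal (by positivity) ?_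
    have h2 : ((f - hg4.toLp g : E p) : ℝ → ℂ) =ᵐ[volume] (f : ℝ → ℂ) - g := by
      filter_upwards [Lp.coeFn_sub f (hg4.toLp g), hg4.coeFn_toLp] with t k1 k2
      rw [k1, Pi.sub_apply, Pi.sub_apply, k2]
    rw [eLpNorm_congr_ae h2]
    exact hg2
  obtain ⟨R, hR⟩ : ∃ R : ℝ, ∀ t, R < t → g t = 0 := by
    obtain ⟨R, hR⟩ := hg1.isCompact.isBounded.subset_closedBall 0
    refine ⟨R, fun t ht => ?_⟩
    by_contra hne
    have := hR (subset_tsupport g hne)
    rw [Metric.mem_closedBall, dist_zero_right, Real.norm_eq_abs] at this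
    exact absurd ((le_abs_self t).trans this) (not_le.2 ht)
  refine ⟨R, fun v hv => ?_⟩
  have h2 : S v (hg4.toLp g) = 0 := by
    refine Lp.ext ?_
    filter_upwards [P_coe (tr v (hg4.toLp g)), tr_coe v (hg4.toLp g),
      (mp_add v).quasiMeasurePreserving.ae hg4.coeFn_toLp,
      Lp.coeFn_zero ℂ p (volume : Measure ℝ)] with t k1 k2 k3 k4
    rw [S_apply, k1, k4]
    by_cases ht : t ∈ Ioi (0 : ℝ)
    · rw [indicator_of_mem ht, k2, k3]
      have ht' : (0 : ℝ) < t := ht
      exact hR _ (by linarith)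
    · rw [indicator_of_notMem ht]
      rfl
  calc ‖S v f‖ = ‖S v (f - hg4.toLp g)‖ := by rw [map_sub, h2, sub_zero]
    _ ≤ ‖f - hg4.toLp g‖ := norm_S_le _ _
    _ < ε := by linarith

variable {h : ℝ} {ρ : ℂ} {y : E p}

theorem eigen_P (hρ : ρ ≠ 0) (hy : S h y = ρ • y) : P y = y := by
  have h1 : ρ • P y = ρ • y := by rw [← map_smul, ← hy, P_S]
  exact smul_right_injective _ hρ h1

theorem eigen_pow (hh : 0 ≤ h) (hρ : ρ ≠ 0) (hy : S h y = ρ • y) (n : ℕ) :
    S (n * h) y = ρ ^ n • y := by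
  induction n with
  | zero => rw [Nat.cast_zero, zero_mul, S_zero, pow_zero, one_smul, eigen_P hρ hy]
  | succ n ih =>
    have h1 : ((n + 1 : ℕ) : ℝ) * h = h + n * h := by push_cast; ring
    rw [h1, ← S_S _ _ hh, ih, map_smul, hy, smul_smul, pow_succ]

theorem eigen_big (hp : p ≠ ∞) (hh : 0 < h) (hρ : 1 ≤ ‖ρ‖) (hy : S h y = ρ • y) : y = 0 := by
  by_contra hne
  have hpos : 0 < ‖y‖ := norm_pos_iff.2 hne
  have hρ0 : ρ ≠ 0 := by
    rintro rfl
    rw [norm_zero] at hρ
    linarith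
  obtain ⟨R, hR⟩ := tendsto_S hp y ‖y‖ hpos
  obtain ⟨n, hn⟩ := exists_nat_ge (R / h)
  have h1 := hR (n * h) (by rwa [div_le_iff₀ hh] at hn)
  rw [eigen_pow hh.le hρ0 hy n, norm_smul, norm_pow] at h1
  have h2 : 1 ≤ ‖ρ‖ ^ n := one_le_pow₀ hρ
  nlinarith

theorem norm_le_of_eigen (h0 : ρ ≠ 0) (hy : S h y = ρ • y) :
    (1 - ‖ρ‖) * ‖y‖ ≤ ‖ind (Ioc 0 h) measurableSet_Ioc y‖ := by
  have hP := eigen_P h0 hy
  have h1 : y = ind (Ioc 0 h) measurableSet_Ioc y + tr (-h) (S h y) := by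
    refine Lp.ext ?_
    have hP' : P y =ᵐ[volume] y := by rw [hP]
    filter_upwards [Lp.coeFn_add (ind (Ioc 0 h) measurableSet_Ioc y) (tr (-h) (S h y)),
      ind_coe (Ioc 0 h) measurableSet_Ioc y, tr_coe (-h) (S h y),
      (mp_add (-h)).quasiMeasurePreserving.ae (P_coe (tr h y)),
      (mp_add (-h)).quasiMeasurePreserving.ae (tr_coe h y), P_coe y, hP'] with t k1 k2 k3 k4 k5 k6 k7
    rw [k1, Pi.add_apply, k2, k3, S_apply, k4]
    by_cases ht : t + -h ∈ Ioi (0 : ℝ)
    · have ht' : 0 < t + -h := ht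
      rw [indicator_of_mem ht, k5, indicator_of_notMem (fun hm => by
        have := hm.2
        linarith), zero_add]
      congr 1
      ring
    · rw [indicator_of_notMem ht, add_zero]
      have ht' : t + -h ≤ 0 := not_lt.1 ht
      by_cases ht2 : t ∈ Ioi (0 : ℝ)
      · rw [indicator_of_mem (show t ∈ Ioc 0 h from ⟨ht2, by linarith⟩)]
      · rw [indicator_of_notMem (fun hm => ht2 hm.1), ← k7, k6, indicator_of_notMem ht2]
  have h2 : ‖y‖ ≤ ‖ind (Ioc 0 h) measurableSet_Ioc y‖ + ‖ρ‖ * ‖y‖ := by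
    calc ‖y‖ = ‖ind (Ioc 0 h) measurableSet_Ioc y + tr (-h) (S h y)‖ := by rw [← h1]
      _ ≤ ‖ind (Ioc 0 h) measurableSet_Ioc y‖ + ‖tr (-h) (S h y)‖ := norm_add_le _ _
      _ = ‖ind (Ioc 0 h) measurableSet_Ioc y‖ + ‖ρ‖ * ‖y‖ := by
          rw [LinearIsometryEquiv.norm_map, hy, norm_smul]
  linarith

/-- the approximation on one period -/
theorem period_approx (hp : p ≠ ∞) (hh : 0 < h) (z0 : ℂ) (hz0 : 0 < z0.re) (y : E p) (δ : ℝ)
    (hδ : 0 < δ) :
    ∃ c : ℤ →₀ ℂ, ‖ind (Ioc 0 h) measurableSet_Ioc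
      (y - c.sum fun k a => a • (ex (z0 - 2 * Real.pi * Complex.I * k / h) : E p))‖ ≤ δ := by
  have : Fact (0 < h) := ⟨hh⟩
  have hp0 : p ≠ 0 := (one_pos.trans_le (Fact.out : 1 ≤ p)).ne'
  let F : ℝ → ℂ := fun t => Complex.exp (z0 * t) * y t
  have hF : StronglyMeasurable F :=
    (by fun_prop : Continuous fun t : ℝ => Complex.exp (z0 * t)).stronglyMeasurable.mul
      (Lp.stronglyMeasurable y)
  let Q : AddCircle h → ℂ := fun x => F (AddCircle.measurableEquivIoc h 0 x)
  have hQ : StronglyMeasurable Q :=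
    hF.comp_measurable (measurable_subtype_coe.comp (AddCircle.measurableEquivIoc h 0).measurable)
  have hQF : ∀ t ∈ Ioc (0 : ℝ) (0 + h), Q (t : AddCircle h) = F t := by
    intro t ht
    show F ((AddCircle.equivIoc h 0 (t : AddCircle h) : Ioc (0 : ℝ) (0 + h)) : ℝ) = F t
    rw [AddCircle.equivIoc_coe_eq ht]
  have hmp := AddCircle.measurePreserving_mk h 0
  have hFm : MemLp F p (volume.restrict (Ioc (0 : ℝ) (0 + h))) := by
    refine MemLp.of_le_mul (c := Real.exp (z0.re * h)) ((Lp.memLp y).restrict _)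
      hF.aestronglyMeasurable ?_
    filter_upwards [ae_restrict_mem measurableSet_Ioc] with t ht
    rw [norm_mul, Complex.norm_exp]
    refine mul_le_mul_of_nonneg_right (Real.exp_le_exp.2 ?_) (norm_nonneg _)
    simp only [Complex.mul_re, Complex.ofReal_re, Complex.ofReal_im, mul_zero, sub_zero]
    have := ht.2
    nlinarith
  have hQm : MemLp Q p (volume : Measure (AddCircle h)) := by
    rw [← hmp.map_eq, memLp_map_measure_iff (by
      rw [hmp.map_eq]
      exact hQ.aestronglyMeasurable) hmp.aemeasurable]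
    refine (memLp_congr_ae ?_).2 hFm
    filter_upwards [ae_restrict_mem measurableSet_Ioc] with t ht
    exact hQF t ht
  have hQh : MemLp Q p (@AddCircle.haarAddCircle h _) := hQm.haarAddCircle
  set C : ℝ≥0∞ := (ENNReal.ofReal h) ^ (1 / p).toReal with hC
  have hCt : C ≠ ∞ := ENNReal.rpow_ne_top_of_nonneg ENNReal.toReal_nonneg ENNReal.ofReal_ne_top
  obtain ⟨g, hg1, hg2⟩ : ∃ g ∈ Submodule.span ℂ (range (@fourierLp h _ p _)),
      dist (hQh.toLp Q) g < δ / (C.toReal + 1) := by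
    have h1 : hQh.toLp Q ∈ (Submodule.span ℂ (range (@fourierLp h _ p _))).topologicalClosure := by
      rw [span_fourierLp_closure_eq_top hp]
      trivial
    have h2 : hQh.toLp Q ∈ closure (Submodule.span ℂ (range (@fourierLp h _ p _)) :
        Set (Lp ℂ p (@AddCircle.haarAddCircle h _))) := h1
    exact Metric.mem_closure_iff.1 h2 _ (by positivity)
  obtain ⟨c, hc⟩ := Finsupp.mem_span_range_iff_exists_finsupp.1 hg1
  refine ⟨c, ?_⟩
  -- the sum on the circle
  let G : AddCircle h → ℂ := fun x => Q x - ∑ k ∈ c.support, c k * fourier k x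
  have hGm : StronglyMeasurable G := by
    refine hQ.sub (Continuous.stronglyMeasurable ?_)
    fun_prop
  have hG : ((hQh.toLp Q - g : Lp ℂ p (@AddCircle.haarAddCircle h _)) : AddCircle h → ℂ)
      =ᵐ[AddCircle.haarAddCircle] G := by
    rw [← hc, Finsupp.sum]
    have h3 : ∀ᵐ x ∂(@AddCircle.haarAddCircle h _), ∀ k ∈ c.support,
        ((c k • @fourierLp h _ p _ k : Lp ℂ p (@AddCircle.haarAddCircle h _)) : AddCircle h → ℂ) x =
          c k * fourier k x := by
      rw [Filter.eventually_all_finset]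
      intro k _
      filter_upwards [Lp.coeFn_smul (c k) (@fourierLp h _ p _ k), coeFn_fourierLp (T := h) p k]
        with x k1 k2
      rw [k1, Pi.smul_apply, k2, smul_eq_mul]
    filter_upwards [Lp.coeFn_sub (hQh.toLp Q) (∑ k ∈ c.support, c k • @fourierLp h _ p _ k),
      hQh.coeFn_toLp, Lp.coeFn_fun_finsetSum c.support fun k => c k • @fourierLp h _ p _ k, h3]
      with x k1 k2 k3 k4
    rw [k1, Pi.sub_apply, k2, k3]
    show _ = Q x - _
    congr 1
    exact Finset.sum_congr rfl k4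
  have hnorm : eLpNorm G p (@AddCircle.haarAddCircle h _) ≤ ENNReal.ofReal (δ / (C.toReal + 1)) := by
    rw [← eLpNorm_congr_ae hG, ← Lp.enorm_def, ← ofReal_norm, ← dist_eq_norm]
    exact ENNReal.ofReal_le_ofReal hg2.le
  have hvol : eLpNorm G p (volume : Measure (AddCircle h)) ≤
      C * ENNReal.ofReal (δ / (C.toReal + 1)) := by
    rw [AddCircle.volume_eq_smul_haarAddCircle, eLpNorm_smul_measure_of_ne_top hp, smul_eq_mul]
    exact mul_le_mul_right hnorm _
  rw [Lp.norm_def]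
  refine ENNReal.toReal_le_of_le_ofReal hδ.le ?_
  rw [eLpNorm_congr_ae (ind_coe (Ioc 0 h) measurableSet_Ioc _),
    eLpNorm_indicator_eq_eLpNorm_restrict measurableSet_Ioc]
  have hkey : eLpNorm (⇑(y - c.sum fun k a => a • (ex (z0 - 2 * Real.pi * Complex.I * k / h) : E p)))
      p (volume.restrict (Ioc 0 h)) ≤ eLpNorm (G ∘ ((↑) : ℝ → AddCircle h)) p
        (volume.restrict (Ioc 0 (0 + h))) := by
    rw [zero_add]
    refine eLpNorm_mono_ae ?_
    have h3 : ∀ᵐ t ∂(volume : Measure ℝ), ∀ k ∈ c.support,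
        ((c k • (ex (z0 - 2 * Real.pi * Complex.I * k / h) : E p) : E p) : ℝ → ℂ) t =
          c k * exfun (z0 - 2 * Real.pi * Complex.I * k / h) t := by
      rw [Filter.eventually_all_finset]
      intro k _
      filter_upwards [Lp.coeFn_smul (c k) (ex (z0 - 2 * Real.pi * Complex.I * k / h) : E p),
        ex_coe (p := p) hp (z := z0 - 2 * Real.pi * Complex.I * k / h) (by
          have h4 : (2 * Real.pi * Complex.I * k / h : ℂ) = ((2 * Real.pi * k / h : ℝ) : ℂ) *
              Complex.I := by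
            push_cast
            ring
          rw [h4, Complex.sub_re, Complex.re_ofReal_mul, Complex.I_re, mul_zero, sub_zero]
          exact hz0)] with t k1 k2
      rw [k1, Pi.smul_apply, k2, smul_eq_mul]
    filter_upwards [ae_restrict_mem measurableSet_Ioc, ae_restrict_of_ae h3,
      ae_restrict_of_ae (Lp.coeFn_sub y
        (∑ k ∈ c.support, c k • (ex (z0 - 2 * Real.pi * Complex.I * k / h) : E p))),
      ae_restrict_of_ae (Lp.coeFn_fun_finsetSum c.support fun k =>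
        c k • (ex (z0 - 2 * Real.pi * Complex.I * k / h) : E p))] with t ht k1 k2 k3
    rw [Finsupp.sum, k2, Pi.sub_apply, k3, Finset.sum_congr rfl k1]
    have ht0 : t ∈ Ioi (0 : ℝ) := ht.1
    have h5 : (G ∘ ((↑) : ℝ → AddCircle h)) t = Complex.exp (z0 * t) *
        (y t - ∑ k ∈ c.support, c k * exfun (z0 - 2 * Real.pi * Complex.I * k / h) t) := by
      show Q (t : AddCircle h) - _ = _
      rw [hQF t (by simpa using ht), mul_sub, Finset.mul_sum]
      congr 1
      refine Finset.sum_congr rfl fun k _ => ?_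
      rw [fourier_coe_apply, exfun, indicator_of_mem ht0, mul_left_comm, ← Complex.exp_add]
      congr 2
      ring
    rw [h5, norm_mul]
    refine le_mul_of_one_le_left (norm_nonneg _) ?_
    rw [Complex.norm_exp]
    refine Real.one_le_exp ?_
    simp only [Complex.mul_re, Complex.ofReal_re, Complex.ofReal_im, mul_zero, sub_zero]
    exact mul_nonneg hz0.le (le_of_lt ht.1)
  refine hkey.trans ?_
  rw [eLpNorm_comp_measurePreserving hGm.aestronglyMeasurable hmp]
  refine hvol.trans ?_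
  rw [← ENNReal.ofReal_toReal hCt, ENNReal.toReal_ofReal ENNReal.toReal_nonneg,
    ← ENNReal.ofReal_mul ENNReal.toReal_nonneg]
  refine ENNReal.ofReal_le_ofReal ?_
  have hC0 : 0 ≤ C.toReal := ENNReal.toReal_nonneg
  rw [mul_div_assoc', div_le_iff₀ (by positivity)]
  nlinarith

theorem ex_mem (hp : p ≠ ∞) {z : ℂ} (hz : 0 < z.re) (hh : 0 < h)
    (hzρ : Complex.exp (-(z * h)) = ρ) : S h (ex z : E p) = ρ • ex z := by
  rw [S_ex hp hz h hh.le, hzρ]

theorem eigen_small (hp : p ≠ ∞) (hh : 0 < h) (h0 : ρ ≠ 0) (h1 : ‖ρ‖ < 1) (hy : S h y = ρ • y)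
    (ε : ℝ) (hε : 0 < ε) :
    ∃ Z : Finset ℂ, (∀ z ∈ Z, 0 < z.re ∧ Complex.exp (-(z * h)) = ρ) ∧
      ∃ g ∈ expSpan (p := p) (Z : Set ℂ), ‖y - g‖ < ε := by
  classical
  have hhC : (h : ℂ) ≠ 0 := Complex.ofReal_ne_zero.2 hh.ne'
  set z0 : ℂ := -Complex.log ρ / h with hz0
  have hre : 0 < z0.re := by
    rw [hz0, Complex.div_ofReal_re, Complex.neg_re, Complex.log_re]
    have : Real.log ‖ρ‖ < 0 := Real.log_neg (norm_pos_iff.2 h0) h1
    exact div_pos (by linarith) hh
  have hpos : 0 < 1 - ‖ρ‖ := by linarith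
  obtain ⟨c, hc⟩ := period_approx hp hh z0 hre y (ε * (1 - ‖ρ‖) / 2) (by positivity)
  have hzk : ∀ k : ℤ, 0 < (z0 - 2 * Real.pi * Complex.I * k / h).re ∧
      Complex.exp (-((z0 - 2 * Real.pi * Complex.I * k / h) * h)) = ρ := by
    intro k
    constructor
    · have h4 : (2 * Real.pi * Complex.I * k / h : ℂ) = ((2 * Real.pi * k / h : ℝ) : ℂ) *
          Complex.I := by
        push_cast
        ring
      rw [h4, Complex.sub_re, Complex.re_ofReal_mul, Complex.I_re, mul_zero, sub_zero]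
      exact hre
    · have h4 : -((z0 - 2 * Real.pi * Complex.I * k / h) * h) =
          Complex.log ρ + k * (2 * Real.pi * Complex.I) := by
        rw [hz0]
        field_simp
        ring
      rw [h4, Complex.exp_add, Complex.exp_log h0, Complex.exp_int_mul_two_pi_mul_I, mul_one]
  refine ⟨c.support.image fun k : ℤ => z0 - 2 * Real.pi * Complex.I * k / h, ?_,
    c.sum fun k a => a • (ex (z0 - 2 * Real.pi * Complex.I * k / h) : E p), ?_, ?_⟩
  · intro z hz
    obtain ⟨k, -, rfl⟩ := Finset.mem_image.1 hz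
    exact hzk k
  · refine Submodule.sum_mem _ fun k hk => Submodule.smul_mem _ _ (Submodule.subset_span ?_)
    refine ⟨z0 - 2 * Real.pi * Complex.I * k / h, ?_, rfl⟩
    rw [Finset.mem_coe]
    exact Finset.mem_image_of_mem _ hk
  · have h2 : S h (y - c.sum fun k a => a • (ex (z0 - 2 * Real.pi * Complex.I * k / h) : E p)) =
        ρ • (y - c.sum fun k a => a • (ex (z0 - 2 * Real.pi * Complex.I * k / h) : E p)) := by
      rw [map_sub, hy, smul_sub, Finsupp.sum, map_sum, Finset.smul_sum]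
      congr 1
      refine Finset.sum_congr rfl fun k _ => ?_
      rw [map_smul, ex_mem hp (hzk k).1 hh (hzk k).2, smul_comm]
    have h3 := norm_le_of_eigen h0 h2
    have h4 := h3.trans hc
    by_contra h5
    rw [not_lt] at h5
    have h6 : (1 - ‖ρ‖) * ε ≤ (1 - ‖ρ‖) * ‖y - c.sum fun k a =>
        a • (ex (z0 - 2 * Real.pi * Complex.I * k / h) : E p)‖ :=
      mul_le_mul_of_nonneg_left h5 hpos.le
    nlinarith [mul_pos hε hpos]

theorem eigen_approx (hp : p ≠ ∞) (hh : 0 < h) (h0 : ρ ≠ 0) (hy : S h y = ρ • y)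
    (ε : ℝ) (hε : 0 < ε) :
    ∃ Z : Finset ℂ, (∀ z ∈ Z, 0 < z.re ∧ Complex.exp (-(z * h)) = ρ) ∧
      ∃ g ∈ expSpan (p := p) (Z : Set ℂ), ‖y - g‖ < ε := by
  by_cases h1 : ‖ρ‖ < 1
  · exact eigen_small hp hh h0 h1 hy ε hε
  · refine ⟨∅, by simp, 0, Submodule.zero_mem _, ?_⟩
    rw [eigen_big hp hh (not_lt.1 h1) hy, sub_zero, norm_zero]
    exact hε

theorem expSpan_mono {Z Z' : Set ℂ} (hZ : Z ⊆ Z') : expSpan (p := p) Z ≤ expSpan Z' :=
  Submodule.span_mono (Set.image_mono hZ)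

open Polynomial in
theorem prod_approx (hp : p ≠ ∞) (hh : 0 < h) (R : Finset ℂ) : (∀ ρ ∈ R, ρ ≠ 0) → ∀ (y : E p),
    Polynomial.aeval (S (p := p) h : E p →ₗ[ℂ] E p) (∏ ρ ∈ R, (X - C ρ)) y = 0 →
    ∀ ε : ℝ, 0 < ε → ∃ Z : Finset ℂ, (∀ z ∈ Z, 0 < z.re ∧ Complex.exp (-(z * h)) ∈ R) ∧
      ∃ g ∈ expSpan (p := p) (Z : Set ℂ), ‖y - g‖ < ε := by
  classical
  induction R using Finset.induction_on with
  | empty =>
    intro _ y hy ε hε
    rw [Finset.prod_empty, map_one, Module.End.one_apply] at hy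
    refine ⟨∅, by simp, 0, Submodule.zero_mem _, ?_⟩
    rw [hy, sub_zero, norm_zero]
    exact hε
  | insert ρ R hρ ih =>
    intro h0 y hy ε hε
    rw [Finset.prod_insert hρ] at hy
    have hcop : IsCoprime (X - C ρ) (∏ ρ ∈ R, (X - C ρ)) := by
      refine IsCoprime.prod_right fun ρ' hρ' => ?_
      refine Polynomial.isCoprime_X_sub_C_of_isUnit_sub ?_
      rw [isUnit_iff_ne_zero, sub_ne_zero]
      rintro rfl
      exact hρ hρ'
    have h1 : y ∈ LinearMap.ker (aeval (S (p := p) h : E p →ₗ[ℂ] E p) (X - C ρ)) ⊔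
        LinearMap.ker (aeval (S (p := p) h : E p →ₗ[ℂ] E p) (∏ ρ ∈ R, (X - C ρ))) := by
      rw [Polynomial.sup_ker_aeval_eq_ker_aeval_mul_of_coprime _ hcop]
      exact hy
    obtain ⟨y1, hy1, y2, hy2, rfl⟩ := Submodule.mem_sup.1 h1
    have hy1' : S h y1 = ρ • y1 := by
      have h2 := LinearMap.mem_ker.1 hy1
      rw [map_sub, aeval_X, aeval_C, LinearMap.sub_apply, Module.algebraMap_end_apply,
        sub_eq_zero] at h2
      exact h2
    obtain ⟨Z1, hZ1, g1, hg1, hn1⟩ := eigen_approx hp hh (h0 ρ (Finset.mem_insert_self _ _)) hy1'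
      (ε / 2) (by positivity)
    obtain ⟨Z2, hZ2, g2, hg2, hn2⟩ := ih (fun ρ' hρ' => h0 ρ' (Finset.mem_insert_of_mem hρ')) y2
      (LinearMap.mem_ker.1 hy2) (ε / 2) (by positivity)
    refine ⟨Z1 ∪ Z2, fun z hz => ?_, g1 + g2, ?_, ?_⟩
    · rcases Finset.mem_union.1 hz with h3 | h3
      · exact ⟨(hZ1 z h3).1, by rw [(hZ1 z h3).2]; exact Finset.mem_insert_self _ _⟩
      · exact ⟨(hZ2 z h3).1, Finset.mem_insert_of_mem (hZ2 z h3).2⟩
    · refine Submodule.add_mem _ (expSpan_mono ?_ hg1) (expSpan_mono ?_ hg2)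
      · rw [Finset.coe_union]
        exact Set.subset_union_left
      · rw [Finset.coe_union]
        exact Set.subset_union_right
    · calc ‖y1 + y2 - (g1 + g2)‖ = ‖(y1 - g1) + (y2 - g2)‖ := by rw [add_sub_add_comm]
        _ ≤ ‖y1 - g1‖ + ‖y2 - g2‖ := norm_add_le _ _
        _ < ε := by linarith

/-- polynomials in continuous linear maps -/
theorem aeval_coe (A : E p →L[ℂ] E p) (G : Polynomial ℂ) (y : E p) :
    Polynomial.aeval (A : E p →ₗ[ℂ] E p) G y = Polynomial.aeval A G y := by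
  induction G using Polynomial.induction_on' with
  | add G H h1 h2 => rw [map_add, map_add, LinearMap.add_apply, _root_.add_apply, h1, h2]
  | monomial n a =>
    rw [Polynomial.aeval_monomial, Polynomial.aeval_monomial, Algebra.algebraMap_eq_smul_one,
      Algebra.algebraMap_eq_smul_one, smul_mul_assoc, smul_mul_assoc, one_mul, one_mul,
      LinearMap.smul_apply, ContinuousLinearMap.smul_apply]
    congr 1
    induction n generalizing y with
    | zero => rfl
    | succ n ih =>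
      rw [pow_succ, pow_succ]
      exact ih (A y)

end T3

open Polynomial in
theorem ker_exp (hp : p ≠ ∞) (h : ℝ) (hh : 0 < h) (G : Polynomial ℂ) (hG : G.Separable)
    (hG0 : G.coeff 0 ≠ 0) (y : E p) (_hy : P y = y) (hker : Polynomial.aeval (S (p := p) h) G y = 0)
    (ε : ℝ) (hε : 0 < ε) :
    ∃ Z : Finset ℂ, (∀ z ∈ Z, 0 < z.re ∧ G.eval (Complex.exp (-(z * h))) = 0) ∧
      ∃ g ∈ expSpan (p := p) (Z : Set ℂ), ‖y - g‖ < ε := by
  classical
  have hGne : G ≠ 0 := by
    rintro rfl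
    exact hG0 (coeff_zero 0)
  have hfac : G = C G.leadingCoeff * ∏ ρ ∈ G.roots.toFinset, (X - C ρ) := by
    have h1 := (IsAlgClosed.splits G).eq_prod_roots
    have h2 : (G.roots.map fun a => X - C a).prod = ∏ ρ ∈ G.roots.toFinset, (X - C ρ) := by
      rw [Finset.prod_eq_multiset_prod, Multiset.toFinset_val,
        Multiset.dedup_eq_self.2 (nodup_roots hG)]
    rw [← h2]
    exact h1
  have hlead : G.leadingCoeff ≠ 0 := leadingCoeff_ne_zero.2 hGne
  have h3 : Polynomial.aeval (S (p := p) h : E p →ₗ[ℂ] E p)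
      (∏ ρ ∈ G.roots.toFinset, (X - C ρ)) y = 0 := by
    have h4 : Polynomial.aeval (S (p := p) h : E p →ₗ[ℂ] E p) G y = 0 := by
      rw [T3.aeval_coe, hker]
    rw [hfac, map_mul, aeval_C, Module.End.mul_apply, Module.algebraMap_end_apply] at h4
    exact (smul_eq_zero.1 h4).resolve_left hlead
  obtain ⟨Z, hZ, g, hg, hn⟩ := T3.prod_approx hp hh G.roots.toFinset (fun ρ hρ h0 => by
    rw [Multiset.mem_toFinset, mem_roots hGne, h0, IsRoot.def, ← coeff_zero_eq_eval_zero] at hρ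
    exact hG0 hρ) y h3 ε hε
  refine ⟨Z, fun z hz => ⟨(hZ z hz).1, ?_⟩, g, hg, hn⟩
  have h5 := (hZ z hz).2
  rw [Multiset.mem_toFinset, mem_roots hGne] at h5
  exact h5

end Pool.Agent.V7H86.HD
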