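import Mathlib

/-!
T2: a closed subspace invariant under one resolvent of a contraction semigroup is invariant under
the semigroup.
-/

set_option autoImplicit false
set_option linter.unusedSectionVars false

open MeasureTheory Set Filter
open scoped ENNReal Topology

namespace Pool.Agent.V7H86.HD

namespace T2

variable {F : Type*} [NormedAddCommGroup F] [NormedSpace ℂ F] [CompleteSpace F]

/-- the resolvent -/
noncomputable def R (S : ℝ → F →L[ℂ] F) (l : ℝ) (f : F) : F :=
  ∫ v in Ioi (0 : ℝ), Real.exp (-(l * v)) • S v f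

section

variable {S : ℝ → F →L[ℂ] F} (hS : ∀ v w, 0 ≤ v → 0 ≤ w → ∀ f, S v (S w f) = S (v + w) f)
    (hb : ∀ v f, ‖S v f‖ ≤ ‖f‖) (hc : ∀ f, Continuous fun v => S v f)

include hb hc in
theorem integrable (l : ℝ) (hl : 0 < l) (f : F) (a : ℝ) :
    IntegrableOn (fun v : ℝ => Real.exp (-(l * v)) • S v f) (Ioi a) := by
  have h1 : IntegrableOn (fun v : ℝ => Real.exp (-l * v) * ‖f‖) (Ioi a) :=
    (integrableOn_exp_mul_Ioi (by linarith) a).mul_const _
  refine Integrable.mono' h1 ?_ ?_
  · have h2 : Continuous fun v : ℝ => Real.exp (-(l * v)) • S v f :=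
      (by fun_prop : Continuous fun v : ℝ => Real.exp (-(l * v))).smul (hc f)
    exact h2.aestronglyMeasurable
  · refine Eventually.of_forall fun v => ?_
    rw [norm_smul, Real.norm_eq_abs, Real.abs_exp, neg_mul]
    exact mul_le_mul_of_nonneg_left (hb v f) (Real.exp_pos _).le

include hb hc in
theorem norm_R_le (l : ℝ) (hl : 0 < l) (f : F) : ‖R S l f‖ ≤ l⁻¹ * ‖f‖ := by
  have h1 : ‖R S l f‖ ≤ ∫ v in Ioi (0 : ℝ), Real.exp (-l * v) * ‖f‖ := by
    refine norm_integral_le_of_norm_le ((integrableOn_exp_mul_Ioi (by linarith) 0).mul_const _) ?_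
    refine Eventually.of_forall fun v => ?_
    rw [norm_smul, Real.norm_eq_abs, Real.abs_exp, neg_mul]
    exact mul_le_mul_of_nonneg_left (hb v f) (Real.exp_pos _).le
  rw [integral_mul_const, integral_exp_mul_Ioi (by linarith : -l < 0)] at h1
  simp only [mul_zero, Real.exp_zero] at h1
  refine h1.trans (le_of_eq ?_)
  congr 1
  field_simp

include hb hc in
theorem R_sub (l : ℝ) (hl : 0 < l) (f g : F) : R S l (f - g) = R S l f - R S l g := by
  unfold R
  rw [← integral_sub (integrable hb hc l hl f 0) (integrable hb hc l hl g 0)]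
  congr 1
  funext v
  rw [map_sub, smul_sub]

/-- the tail of the resolvent -/
noncomputable def G (S : ℝ → F →L[ℂ] F) (m : ℝ) (f : F) (s : ℝ) : F :=
  R S m f - ∫ v in (0 : ℝ)..s, Real.exp (-(m * v)) • S v f

include hb hc in
theorem G_eq (m : ℝ) (hm : 0 < m) (f : F) (s : ℝ) (hs : 0 ≤ s) :
    G S m f s = ∫ v in Ioi s, Real.exp (-(m * v)) • S v f := by
  unfold G R
  have h := intervalIntegral.integral_Ioi_sub_Ioi (a := (0:ℝ)) (b := s)
    (f := fun v : ℝ => Real.exp (-(m * v)) • S v f) (μ := volume)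
    (integrable hb hc m hm f 0) hs
  rw [← h]
  abel

include hS hb hc in
theorem S_R (m : ℝ) (hm : 0 < m) (f : F) (s : ℝ) (hs : 0 ≤ s) :
    S s (R S m f) = Real.exp (m * s) • G S m f s := by
  rw [G_eq hb hc m hm f s hs]
  unfold R
  rw [← ContinuousLinearMap.integral_comp_comm _ (integrable hb hc m hm f 0)]
  have h1 : ∫ v in Ioi s, Real.exp (-(m * v)) • S v f =
      ∫ v in Ioi (0 : ℝ), Real.exp (-(m * (v + s))) • S (v + s) f := by
    have h2 := (measurePreserving_add_right (volume : Measure ℝ) s).setIntegral_preimage_emb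
      (measurableEmbedding_addRight s) (fun v : ℝ => Real.exp (-(m * v)) • S v f) (Ioi s)
    rw [← h2]
    congr 2
    ext v
    simp
  rw [h1, ← integral_smul]
  refine setIntegral_congr_fun measurableSet_Ioi fun v hv => ?_
  have hv0 : (0 : ℝ) < v := hv
  show S s (Real.exp (-(m * v)) • S v f) =
    Real.exp (m * s) • (Real.exp (-(m * (v + s))) • S (v + s) f)
  rw [smul_smul, ← Real.exp_add]
  have e1 : S s (Real.exp (-(m * v)) • S v f) = Real.exp (-(m * v)) • S s (S v f) := by
    rw [← Complex.coe_smul, map_smul, Complex.coe_smul]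
  rw [e1, hS s v hs hv0.le f, add_comm s v]
  congr 2
  ring

include hb hc in
theorem G_deriv (m : ℝ) (f : F) (s : ℝ) :
    HasDerivAt (G S m f) (-(Real.exp (-(m * s)) • S s f)) s := by
  have h2 : Continuous fun v : ℝ => Real.exp (-(m * v)) • S v f :=
    (by fun_prop : Continuous fun v : ℝ => Real.exp (-(m * v))).smul (hc f)
  have h3 : HasDerivAt (fun s : ℝ => ∫ v in (0 : ℝ)..s, Real.exp (-(m * v)) • S v f)
      (Real.exp (-(m * s)) • S s f) s :=
    intervalIntegral.integral_hasDerivAt_right (h2.intervalIntegrable _ _)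
      (h2.stronglyMeasurableAtFilter _ _) h2.continuousAt
  have h4 := (hasDerivAt_const s (R S m f)).sub h3
  rw [zero_sub] at h4
  exact h4

include hb hc in
theorem norm_G_le (m : ℝ) (hm : 0 < m) (f : F) (s : ℝ) (hs : 0 ≤ s) :
    ‖G S m f s‖ ≤ Real.exp (-(m * s)) * (m⁻¹ * ‖f‖) := by
  rw [G_eq hb hc m hm f s hs]
  have h1 : ‖∫ v in Ioi s, Real.exp (-(m * v)) • S v f‖ ≤
      ∫ v in Ioi s, Real.exp (-m * v) * ‖f‖ := by
    refine norm_integral_le_of_norm_le ((integrableOn_exp_mul_Ioi (by linarith) s).mul_const _) ?_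
    refine Eventually.of_forall fun v => ?_
    rw [norm_smul, Real.norm_eq_abs, Real.abs_exp, neg_mul]
    exact mul_le_mul_of_nonneg_left (hb v f) (Real.exp_pos _).le
  rw [integral_mul_const, integral_exp_mul_Ioi (by linarith : -m < 0)] at h1
  refine h1.trans (le_of_eq ?_)
  rw [neg_mul]
  field_simp

include hS hb hc in
/-- the resolvent identity -/
theorem resolvent (l m : ℝ) (hl : 0 < l) (hm : 0 < m) (f : F) :
    (m - l) • R S l (R S m f) = R S l f - R S m f := by
  have hderiv : ∀ s ∈ Ici (0 : ℝ), HasDerivAt (fun s : ℝ => Real.exp ((m - l) * s) • G S m f s)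
      ((m - l) • (Real.exp (-(l * s)) • S s (R S m f)) - Real.exp (-(l * s)) • S s f) s := by
    intro s hs
    have h1 : HasDerivAt (fun s : ℝ => Real.exp ((m - l) * s)) ((m - l) * Real.exp ((m - l) * s))
        s := by
      have := ((hasDerivAt_id s).const_mul (m - l)).exp
      simpa [mul_comm] using this
    have h2 := h1.smul (G_deriv hb hc m f s)
    refine HasDerivAt.congr_deriv (f := fun s : ℝ => Real.exp ((m - l) * s) • G S m f s) h2 ?_
    rw [S_R hS hb hc m hm f s hs, smul_neg, smul_smul, smul_smul, smul_smul, ← Real.exp_add,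
      mul_assoc, ← Real.exp_add]
    have e1 : (m - l) * s + -(m * s) = -(l * s) := by ring
    have e2 : -(l * s) + m * s = (m - l) * s := by ring
    rw [e1, e2]
    abel
  have hint : IntegrableOn (fun s : ℝ => (m - l) • (Real.exp (-(l * s)) • S s (R S m f)) -
      Real.exp (-(l * s)) • S s f) (Ioi 0) :=
    ((integrable hb hc l hl (R S m f) 0).smul (m - l)).sub (integrable hb hc l hl f 0)
  have hlim : Tendsto (fun s : ℝ => Real.exp ((m - l) * s) • G S m f s) atTop (𝓝 0) := by
    have h3 : Tendsto (fun s : ℝ => Real.exp (-(l * s)) * (m⁻¹ * ‖f‖)) atTop (𝓝 0) := by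
      have h4 : Tendsto (fun s : ℝ => Real.exp (-(l * s))) atTop (𝓝 0) :=
        Real.tendsto_exp_neg_atTop_nhds_zero.comp (tendsto_id.const_mul_atTop hl)
      simpa using h4.mul_const (m⁻¹ * ‖f‖)
    refine squeeze_zero_norm' ?_ h3
    filter_upwards [eventually_ge_atTop (0 : ℝ)] with s hs
    rw [norm_smul, Real.norm_eq_abs, Real.abs_exp]
    calc Real.exp ((m - l) * s) * ‖G S m f s‖
        ≤ Real.exp ((m - l) * s) * (Real.exp (-(m * s)) * (m⁻¹ * ‖f‖)) :=
          mul_le_mul_of_nonneg_left (norm_G_le hb hc m hm f s hs) (Real.exp_pos _).le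
      _ = Real.exp (-(l * s)) * (m⁻¹ * ‖f‖) := by
          rw [← mul_assoc, ← Real.exp_add]
          congr 2
          ring
  have hmain := integral_Ioi_of_hasDerivAt_of_tendsto' hderiv hint hlim
  have hA : IntegrableOn (fun s : ℝ => (m - l) • (Real.exp (-(l * s)) • S s (R S m f)))
      (Ioi 0) := (integrable hb hc l hl (R S m f) 0).smul (m - l)
  rw [integral_sub hA (integrable hb hc l hl f 0)] at hmain
  have e0 : G S m f 0 = R S m f := by
    unfold G
    rw [intervalIntegral.integral_same, sub_zero]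
  simp only [mul_zero, Real.exp_zero, one_smul, e0, zero_sub] at hmain
  rw [integral_smul] at hmain
  change (m - l) • R S l (R S m f) - R S l f = -R S m f at hmain
  rw [sub_eq_iff_eq_add] at hmain
  rw [hmain]
  abel

variable (M : Submodule ℂ F) (hM : IsClosed (M : Set F))

include hS hb hc hM in
theorem inv_step (l m : ℝ) (hl : 0 < l) (hm : 0 < m) (hlm : |m - l| < l)
    (hR : ∀ f ∈ M, R S l f ∈ M) : ∀ f ∈ M, R S m f ∈ M := by
  intro f hf
  by_contra hcon
  set y := R S m f with hy
  have hne : (M : Set F).Nonempty := ⟨0, M.zero_mem⟩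
  have hpos : 0 < Metric.infDist y (M : Set F) := by
    rcases (Metric.infDist_nonneg (x := y) (s := (M : Set F))).lt_or_eq with h | h
    · exact h
    · exact absurd ((hM.mem_iff_infDist_zero hne).2 h.symm) hcon
  have hid := resolvent hS hb hc l m hl hm f
  rw [← hy] at hid
  have hq : |m - l| * l⁻¹ < 1 := by
    rw [← div_eq_mul_inv, div_lt_one hl]
    exact hlm
  have hq0 : 0 ≤ |m - l| * l⁻¹ := by positivity
  -- for every z in M
  have hz : ∀ z ∈ (M : Set F), Metric.infDist y (M : Set F) ≤ |m - l| * l⁻¹ * dist y z := by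
    intro z hz
    have h1 : R S l f - (m - l) • R S l z ∈ (M : Set F) := by
      have h2 : (m - l) • R S l z ∈ M := by
        rw [← Complex.coe_smul]
        exact M.smul_mem _ (hR z hz)
      exact M.sub_mem (hR f hf) h2
    refine (Metric.infDist_le_dist_of_mem h1).trans ?_
    have e : y - (R S l f - (m - l) • R S l z) = -((m - l) • R S l (y - z)) := by
      rw [R_sub hb hc l hl, smul_sub, hid]
      abel
    rw [dist_eq_norm, e, norm_neg, norm_smul, Real.norm_eq_abs, mul_assoc, dist_eq_norm]
    exact mul_le_mul_of_nonneg_left (norm_R_le hb hc l hl _) (abs_nonneg _)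
  have h2 : Metric.infDist y (M : Set F) ≤ |m - l| * l⁻¹ * Metric.infDist y (M : Set F) := by
    refine le_of_forall_pos_lt_add fun ε hε => ?_
    obtain ⟨z, hzM, hzd⟩ := (Metric.infDist_lt_iff hne).1
      (lt_add_of_pos_right (Metric.infDist y (M : Set F)) hε)
    calc Metric.infDist y (M : Set F) ≤ |m - l| * l⁻¹ * dist y z := hz z hzM
      _ ≤ |m - l| * l⁻¹ * (Metric.infDist y (M : Set F) + ε) :=
          mul_le_mul_of_nonneg_left hzd.le hq0
      _ < |m - l| * l⁻¹ * Metric.infDist y (M : Set F) + ε := by nlinarith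
  nlinarith

include hS hb hc hM in
theorem inv_all (l : ℝ) (hl : 0 < l) (hR : ∀ f ∈ M, R S l f ∈ M) (n : ℕ) :
    ∀ f ∈ M, R S (l + n * (l / 2)) f ∈ M := by
  induction n with
  | zero => simpa using hR
  | succ n ih =>
    have hn : (0 : ℝ) ≤ n := Nat.cast_nonneg n
    have h0 : 0 < l + n * (l / 2) := by positivity
    refine inv_step hS hb hc M hM (l + n * (l / 2)) _ h0 (by positivity) ?_ ih
    push_cast
    have e : l + (n + 1) * (l / 2) - (l + n * (l / 2)) = l / 2 := by ring
    rw [e, abs_of_pos (by positivity)]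
    have : 0 ≤ n * (l / 2) := by positivity
    linarith

end

/-- a continuous function on `[0, 1]` all of whose moments vanish is zero -/
theorem moments {w : ℝ → ℝ} (hw : ContinuousOn w (Icc 0 1))
    (hm : ∀ n : ℕ, ∫ x in (0 : ℝ)..1, x ^ n * w x = 0) : ∀ x ∈ Icc (0 : ℝ) 1, w x = 0 := by
  have hu : uIcc (0 : ℝ) 1 = Icc 0 1 := uIcc_of_le zero_le_one
  have hwi : IntervalIntegrable w volume 0 1 := by
    apply ContinuousOn.intervalIntegrable
    rwa [hu]
  have hpoly : ∀ q : Polynomial ℝ, ∫ x in (0 : ℝ)..1, q.eval x * w x = 0 := by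
    intro q
    have e : (fun x : ℝ => q.eval x * w x) =
        fun x : ℝ => ∑ i ∈ Finset.range (q.natDegree + 1), q.coeff i * (x ^ i * w x) := by
      funext x
      rw [Polynomial.eval_eq_sum_range, Finset.sum_mul]
      exact Finset.sum_congr rfl fun i _ => by ring
    rw [e, intervalIntegral.integral_finsetSum]
    · refine Finset.sum_eq_zero fun i _ => ?_
      rw [intervalIntegral.integral_const_mul, hm i, mul_zero]
    · intro i _
      refine (ContinuousOn.intervalIntegrable ?_).const_mul _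
      rw [hu]
      exact (continuous_pow i).continuousOn.mul hw
  have hsq : ∫ x in (0 : ℝ)..1, w x ^ 2 = 0 := by
    have hw2 : ContinuousOn (fun x => w x ^ 2) (uIcc 0 1) := by
      rw [hu]; exact hw.pow 2
    have hwn : ContinuousOn (fun x => |w x|) (uIcc 0 1) := by
      rw [hu]; exact hw.abs
    have hC0 : 0 ≤ ∫ x in (0 : ℝ)..1, |w x| :=
      intervalIntegral.integral_nonneg zero_le_one fun x _ => abs_nonneg _
    have hle : ∀ ε : ℝ, 0 < ε → ∫ x in (0 : ℝ)..1, w x ^ 2 ≤ ε * ∫ x in (0 : ℝ)..1, |w x| := by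
      intro ε hε
      obtain ⟨q, hq⟩ := exists_polynomial_near_of_continuousOn 0 1 w hw ε hε
      have hqc : ContinuousOn (fun x : ℝ => q.eval x * w x) (uIcc 0 1) := by
        rw [hu]
        exact q.continuous.continuousOn.mul hw
      have h1 : ∫ x in (0 : ℝ)..1, w x ^ 2 =
          ∫ x in (0 : ℝ)..1, (w x ^ 2 - q.eval x * w x) := by
        rw [intervalIntegral.integral_sub hw2.intervalIntegrable hqc.intervalIntegrable, hpoly q,
          sub_zero]
      rw [h1, ← intervalIntegral.integral_const_mul]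
      refine intervalIntegral.integral_mono_on zero_le_one
        (hw2.sub hqc).intervalIntegrable (hwn.intervalIntegrable.const_mul ε) fun x hx => ?_
      have h2 := (hq x hx).le
      calc w x ^ 2 - q.eval x * w x = (w x - q.eval x) * w x := by ring
        _ ≤ |(w x - q.eval x) * w x| := le_abs_self _
        _ = |q.eval x - w x| * |w x| := by rw [abs_mul, abs_sub_comm]
        _ ≤ ε * |w x| := mul_le_mul_of_nonneg_right h2 (abs_nonneg _)
    apply le_antisymm
    · refine le_of_forall_pos_le_add fun δ hδ => ?_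
      have h3 := hle (δ / (1 + ∫ x in (0 : ℝ)..1, |w x|)) (by positivity)
      refine h3.trans ?_
      rw [zero_add, div_mul_eq_mul_div, div_le_iff₀ (by positivity)]
      nlinarith
    · exact intervalIntegral.integral_nonneg zero_le_one fun x _ => sq_nonneg _
  intro x hx
  by_contra hne
  have hw2 : ContinuousOn (fun x => w x ^ 2) (Icc 0 1) := hw.pow 2
  have hpos : 0 < ∫ x in (0 : ℝ)..1, w x ^ 2 :=
    intervalIntegral.integral_pos zero_lt_one hw2 (fun y _ => sq_nonneg _)
      ⟨x, hx, by positivity⟩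
  exact hpos.ne' hsq

end T2

open T2 in
theorem semigroup_invariant {F : Type*} [NormedAddCommGroup F] [NormedSpace ℂ F] [CompleteSpace F]
    (S : ℝ → F →L[ℂ] F) (hS : ∀ v w, 0 ≤ v → 0 ≤ w → ∀ f, S v (S w f) = S (v + w) f)
    (hb : ∀ v f, ‖S v f‖ ≤ ‖f‖) (hc : ∀ f, Continuous fun v => S v f)
    (M : Submodule ℂ F) (hM : IsClosed (M : Set F)) (l : ℝ) (hl : 0 < l)
    (hR : ∀ f ∈ M, (∫ v in Ioi (0 : ℝ), ((Real.exp (-(l * v)) : ℝ) : ℂ) • S v f) ∈ M) :
    ∀ f ∈ M, ∀ v, 0 ≤ v → S v f ∈ M := by
  have hR' : ∀ f ∈ M, R S l f ∈ M := by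
    intro f hf
    have h := hR f hf
    have e : (∫ v in Ioi (0 : ℝ), ((Real.exp (-(l * v)) : ℝ) : ℂ) • S v f) = R S l f := by
      unfold R
      congr 1
    rwa [e] at h
  intro f hf v hv
  by_contra hcon
  have hconv : Convex ℝ (M : Set F) := (M.restrictScalars ℝ).convex
  obtain ⟨φ, u, hφ1, hφ2⟩ := geometric_hahn_banach_point_closed hconv hM hcon
  have hφM : ∀ z ∈ M, φ z = 0 := by
    intro z hz
    by_contra hne
    have h1 : (((u - 1) / φ z : ℝ)) • z ∈ (M : Set F) := by
      rw [← Complex.coe_smul]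
      exact M.smul_mem _ hz
    have h2 := hφ2 _ h1
    rw [map_smul, smul_eq_mul, div_mul_cancel₀ _ hne] at h2
    linarith
  have hu0 : u < 0 := by
    have := hφ2 0 M.zero_mem
    rwa [map_zero] at this
  have hφv : φ (S v f) ≠ 0 := fun h => by
    rw [h] at hφ1
    linarith
  set c : ℝ := l / 2 with hcdef
  have hcpos : 0 < c := by positivity
  -- the function on the interval
  set w : ℝ → ℝ := fun x => x * φ (S (-(Real.log x) / c) f) with hw
  have hwc : ContinuousOn w (Icc 0 1) := by
    intro x hx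
    rcases hx.1.eq_or_lt with h0 | h0
    · subst h0
      have hw0 : w 0 = 0 := by simp [hw]
      rw [ContinuousWithinAt, hw0]
      refine squeeze_zero_norm' (a := fun x : ℝ => |x| * (‖φ‖ * ‖f‖)) ?_ ?_
      · refine Eventually.of_forall fun y => ?_
        rw [hw]
        show ‖y * φ (S (-(Real.log y) / c) f)‖ ≤ _
        rw [norm_mul, Real.norm_eq_abs]
        refine mul_le_mul_of_nonneg_left ?_ (abs_nonneg _)
        exact (φ.le_opNorm _).trans (mul_le_mul_of_nonneg_left (hb _ _) (norm_nonneg _))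
      · have h3 : Continuous fun x : ℝ => |x| * (‖φ‖ * ‖f‖) := by fun_prop
        have h4 := h3.tendsto 0
        simp only [abs_zero, zero_mul] at h4
        exact h4.mono_left nhdsWithin_le_nhds
    · have h3 : ContinuousAt (fun x : ℝ => -(Real.log x) / c) x :=
        (Real.continuousAt_log h0.ne').neg.div_const c
      have h4 : Continuous fun s : ℝ => φ (S s f) := φ.continuous.comp (hc f)
      have h5 : ContinuousAt w x := continuousAt_id.mul (h4.continuousAt.comp h3)
      exact h5.continuousWithinAt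
  have himg : (fun s : ℝ => Real.exp (-(c * s))) '' Ioi 0 = Ioo 0 1 := by
    ext x
    constructor
    · rintro ⟨s, hs, rfl⟩
      refine ⟨Real.exp_pos _, ?_⟩
      rw [Real.exp_lt_one_iff]
      have : 0 < c * s := mul_pos hcpos hs
      linarith
    · rintro ⟨h0, h1⟩
      refine ⟨-(Real.log x) / c, ?_, ?_⟩
      · have := Real.log_neg h0 h1
        show 0 < -(Real.log x) / c
        exact div_pos (by linarith) hcpos
      · show Real.exp (-(c * (-(Real.log x) / c))) = x
        rw [mul_div_cancel₀ _ hcpos.ne', neg_neg, Real.exp_log h0]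
  have hmom : ∀ n : ℕ, ∫ x in (0 : ℝ)..1, x ^ n * w x = 0 := by
    intro n
    have h1 := φ.integral_comp_comm (μ := volume.restrict (Ioi (0:ℝ)))
      (integrable hb hc (l + n * (l / 2)) (by positivity) f 0)
    have h2 : φ (∫ s in Ioi (0 : ℝ), Real.exp (-((l + n * (l / 2)) * s)) • S s f) = 0 :=
      hφM _ (inv_all hS hb hc M hM l hl hR' n f hf)
    rw [h2] at h1
    rw [intervalIntegral.integral_of_le zero_le_one, integral_Ioc_eq_integral_Ioo, ← himg]
    rw [integral_image_eq_integral_abs_deriv_smul measurableSet_Ioi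
      (f' := fun s : ℝ => -c * Real.exp (-(c * s)))]
    · have h3 : ∀ s ∈ Ioi (0 : ℝ), |(-c * Real.exp (-(c * s)))| •
          (Real.exp (-(c * s)) ^ n * w (Real.exp (-(c * s)))) =
          c * φ (Real.exp (-((l + n * (l / 2)) * s)) • S s f) := by
        intro s hs
        rw [abs_mul, abs_neg, abs_of_pos hcpos, Real.abs_exp, map_smul, smul_eq_mul, smul_eq_mul]
        rw [hw]
        show c * Real.exp (-(c * s)) * (Real.exp (-(c * s)) ^ n * (Real.exp (-(c * s)) *
          φ (S (-(Real.log (Real.exp (-(c * s)))) / c) f))) = _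
        rw [Real.log_exp, neg_neg, mul_div_cancel_left₀ _ hcpos.ne']
        have e : Real.exp (-((l + n * (l / 2)) * s)) =
            Real.exp (-(c * s)) * Real.exp (-(c * s)) ^ n * Real.exp (-(c * s)) := by
          rw [← Real.exp_nat_mul, ← Real.exp_add, ← Real.exp_add]
          congr 1
          rw [hcdef]
          ring
        rw [e]
        ring
      rw [setIntegral_congr_fun measurableSet_Ioi h3, integral_const_mul, h1, mul_zero]
    · intro s _
      have h4 : HasDerivAt (fun s : ℝ => Real.exp (-(c * s))) (-c * Real.exp (-(c * s))) s := by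
        have := ((hasDerivAt_id s).const_mul c).neg.exp
        simpa [mul_comm] using this
      exact h4.hasDerivWithinAt
    · intro s _ t _ hst
      have := Real.exp_injective hst
      have h5 : c * s = c * t := by linarith
      exact mul_left_cancel₀ hcpos.ne' h5
  have hzero := moments hwc hmom (Real.exp (-(c * v))) ⟨(Real.exp_pos _).le, by
    rw [Real.exp_le_one_iff]
    have : 0 ≤ c * v := by positivity
    linarith⟩
  rw [hw] at hzero
  change Real.exp (-(c * v)) * φ (S (-(Real.log (Real.exp (-(c * v)))) / c) f) = 0 at hzero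
  rw [Real.log_exp, neg_neg, mul_div_cancel_left₀ _ hcpos.ne'] at hzero
  rcases mul_eq_zero.1 hzero with h | h
  · exact (Real.exp_pos _).ne' h
  · exact hφv h

end Pool.Agent.V7H86.HD
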