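import Mathlib
import Pool.Agent.V7H86.HD.Defs
import Pool.Agent.V7H86.HD.T1
import Pool.Agent.V7H86.HD.T2
import Pool.Agent.V7H86.HD.T3

/-!
T4: final assembly.
-/

set_option autoImplicit false

open MeasureTheory Set Filter
open scoped ENNReal Topology

namespace Pool.Agent.V7H86.HD

variable {p : ℝ≥0∞} [Fact (1 ≤ p)]

/-- Theorem C, as a `Prop` -/
def ThmC (p : ℝ≥0∞) [Fact (1 ≤ p)] : Prop :=
  ∀ M : Submodule ℂ (E p), IsClosed (M : Set (E p)) → (∀ f ∈ M, P f = f) →
    (∀ f ∈ M, ∀ v, 0 ≤ v → S v f ∈ M) → ∀ g : E p →L[ℂ] ℂ, (∀ f ∈ M, g f = 0) →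
    ∃ C : ℝ, ∀ A B : Finset (E p), (∀ f ∈ A, f ∈ M) → (∀ u ∈ B, P u = u) → ∀ ε > 0,
      ∃ (Z : Finset ℂ) (γ : E p →L[ℂ] ℂ), (∀ z ∈ Z, 0 < z.re) ∧ ‖γ‖ ≤ C ∧ (∀ z ∈ Z, γ (ex z) = 0) ∧
        (∀ f ∈ A, ∃ e ∈ expSpan (p := p) (Z : Set ℂ), ‖f - e‖ ≤ ε) ∧ ∀ u ∈ B, ‖γ u - g u‖ ≤ ε

/-- the finite monomial space with the exponents in `s` -/
noncomputable def monoSpan (s : Set ℂ) : Submodule ℂ (Lp ℂ p (volume.restrict (Ioo (0 : ℝ) 1))) :=
  Submodule.span ℂ {g | ∃ z ∈ s, IsMono z g}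

/-- `M` is a limit of a sequence of finite monomial spaces -/
def IsMonomialSpace (M : Submodule ℂ (Lp ℂ p (volume.restrict (Ioo (0 : ℝ) 1)))) : Prop :=
  ∃ s : ℕ → Finset ℂ, (∀ n, ∀ z ∈ s n, -(1 / p.toReal) < z.re) ∧
    ∀ f, f ∈ M ↔ Tendsto (fun n => Metric.infDist f
      ((monoSpan (p := p) (s n : Set ℂ) : Submodule ℂ _) : Set _)) atTop (𝓝 0)

/-- `M` is invariant for the Hardy operator -/
def HardyInvariant (M : Submodule ℂ (Lp ℂ p (volume.restrict (Ioo (0 : ℝ) 1)))) : Prop :=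
  ∀ f ∈ M, ∀ g, IsHardy f g → g ∈ M

namespace T4

/-- a functional of norm at most one which vanishes on `M` and gives the distance from `M` -/
theorem exists_fun {F : Type*} [NormedAddCommGroup F] [NormedSpace ℂ F] (M : Submodule ℂ F)
    (hM : IsClosed (M : Set F)) (x : F) :
    ∃ g : F →L[ℂ] ℂ, (∀ f ∈ M, g f = 0) ∧ ‖g‖ ≤ 1 ∧ ‖g x‖ = Metric.infDist x (M : Set F) := by
  have := hM
  obtain ⟨φ, hφ1, hφ2⟩ := exists_dual_vector'' ℂ (Submodule.Quotient.mk x : F ⧸ M)
  let q : F →L[ℂ] F ⧸ M := LinearMap.mkContinuous M.mkQ 1 fun m => by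
    rw [one_mul]
    exact Submodule.Quotient.norm_mk_le M m
  have hq : ‖q‖ ≤ 1 := LinearMap.mkContinuous_norm_le _ zero_le_one _
  refine ⟨φ.comp q, ?_, ?_, ?_⟩
  · intro f hf
    show φ (M.mkQ f) = 0
    have : M.mkQ f = 0 := by
      rw [Submodule.mkQ_apply]
      exact (Submodule.Quotient.mk_eq_zero M).2 hf
    rw [this, map_zero]
  · refine (ContinuousLinearMap.opNorm_comp_le _ _).trans ?_
    calc ‖φ‖ * ‖q‖ ≤ 1 * 1 := mul_le_mul hφ1 hq (ContinuousLinearMap.opNorm_nonneg q) zero_le_one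
      _ = 1 := one_mul 1
  · show ‖φ (Submodule.Quotient.mk x)‖ = _
    rw [hφ2]
    simp only [Complex.coe_algebraMap, Complex.norm_real, norm_norm]
    exact QuotientAddGroup.norm_mk (S := M.toAddSubgroup) x

theorem seq (hp : p ≠ ∞) (M : Submodule ℂ (E p)) (hM : IsClosed (M : Set (E p)))
    (hMP : ∀ f ∈ M, P f = f)
    (hC : ∀ g : E p →L[ℂ] ℂ, (∀ f ∈ M, g f = 0) →
      ∃ C : ℝ, ∀ A B : Finset (E p), (∀ f ∈ A, f ∈ M) → (∀ u ∈ B, P u = u) → ∀ ε > 0,
        ∃ (Z : Finset ℂ) (γ : E p →L[ℂ] ℂ), (∀ z ∈ Z, 0 < z.re) ∧ ‖γ‖ ≤ C ∧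
          (∀ z ∈ Z, γ (ex z) = 0) ∧
          (∀ f ∈ A, ∃ e ∈ expSpan (p := p) (Z : Set ℂ), ‖f - e‖ ≤ ε) ∧
          ∀ u ∈ B, ‖γ u - g u‖ ≤ ε) :
    ∃ Z : ℕ → Finset ℂ, (∀ n, ∀ z ∈ Z n, 0 < z.re) ∧ ∀ f : E p, P f = f →
      (f ∈ M ↔ Tendsto (fun n => Metric.infDist f
        ((expSpan (p := p) (Z n : Set ℂ) : Submodule ℂ (E p)) : Set (E p))) atTop (𝓝 0)) := by
  classical
  have : Fact (p ≠ ∞) := ⟨hp⟩
  have hsc : SecondCountableTopology (E p) := inferInstance
  -- dense sequences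
  have hne1 : Nonempty {f : E p // P f = f} := ⟨⟨0, map_zero _⟩⟩
  have hne2 : Nonempty {f : E p // f ∈ M} := ⟨⟨0, M.zero_mem⟩⟩
  set u : ℕ → E p := fun k => (TopologicalSpace.denseSeq {f : E p // P f = f} k : E p) with hu
  set e : ℕ → E p := fun k => (TopologicalSpace.denseSeq {f : E p // f ∈ M} k : E p) with he
  have huP : ∀ k, P (u k) = u k := fun k =>
    (TopologicalSpace.denseSeq {f : E p // P f = f} k).2
  have heM : ∀ k, e k ∈ M := fun k => (TopologicalSpace.denseSeq {f : E p // f ∈ M} k).2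
  have hud : ∀ f : E p, P f = f → ∀ δ > 0, ∃ k, ‖f - u k‖ < δ := by
    intro f hf δ hδ
    obtain ⟨k, hk⟩ := (TopologicalSpace.denseRange_denseSeq {f : E p // P f = f}).exists_dist_lt
      ⟨f, hf⟩ hδ
    refine ⟨k, ?_⟩
    rw [← dist_eq_norm]
    exact hk
  have hed : ∀ f ∈ M, ∀ δ > 0, ∃ k, ‖f - e k‖ < δ := by
    intro f hf δ hδ
    obtain ⟨k, hk⟩ := (TopologicalSpace.denseRange_denseSeq {f : E p // f ∈ M}).exists_dist_lt
      ⟨f, hf⟩ hδ
    refine ⟨k, ?_⟩
    rw [← dist_eq_norm]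
    exact hk
  -- functionals
  choose g hg0 hg1 hg2 using fun k => exists_fun M hM (u k)
  choose C hCk using fun k => hC (g k) (hg0 k)
  have hstep : ∀ m : ℕ, ∃ (Z : Finset ℂ) (γ : E p →L[ℂ] ℂ), (∀ z ∈ Z, 0 < z.re) ∧
      ‖γ‖ ≤ C (Nat.unpair m).1 ∧ (∀ z ∈ Z, γ (ex z) = 0) ∧
      (∀ j ≤ m, ∃ y ∈ expSpan (p := p) (Z : Set ℂ), ‖e j - y‖ ≤ 1 / ((m : ℝ) + 1)) ∧
      ∀ j ≤ m, ‖γ (u j) - g (Nat.unpair m).1 (u j)‖ ≤ 1 / ((m : ℝ) + 1) := by
    intro m
    obtain ⟨Z, γ, h1, h2, h3, h4, h5⟩ := hCk (Nat.unpair m).1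
      ((Finset.range (m + 1)).image e) ((Finset.range (m + 1)).image u)
      (by
        intro f hf
        obtain ⟨j, _, rfl⟩ := Finset.mem_image.1 hf
        exact heM j)
      (by
        intro f hf
        obtain ⟨j, _, rfl⟩ := Finset.mem_image.1 hf
        exact huP j)
      (1 / ((m : ℝ) + 1)) (by positivity)
    refine ⟨Z, γ, h1, h2, h3, fun j hj => h4 _ ?_, fun j hj => h5 _ ?_⟩
    · exact Finset.mem_image_of_mem _ (Finset.mem_range.2 (by omega))
    · exact Finset.mem_image_of_mem _ (Finset.mem_range.2 (by omega))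
  choose Z γ hZ hγ hγ0 hA hB using hstep
  refine ⟨Z, hZ, fun f hf => ⟨fun hfM => ?_, fun hlim => ?_⟩⟩
  · rw [Metric.tendsto_atTop]
    intro δ hδ
    obtain ⟨j, hj⟩ := hed f hfM (δ / 2) (half_pos hδ)
    obtain ⟨N, hN⟩ := exists_nat_gt (2 / δ)
    refine ⟨max j N, fun m hm => ?_⟩
    obtain ⟨y, hy, hyn⟩ := hA m j ((le_max_left _ _).trans hm)
    have hmN : (N : ℝ) ≤ m := by exact_mod_cast (le_max_right _ _).trans hm
    have h1 : 1 / ((m : ℝ) + 1) < δ / 2 := by
      rw [div_lt_iff₀ (by positivity)]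
      have h2 : 2 / δ < (m : ℝ) + 1 := by linarith
      rw [div_lt_iff₀ hδ] at h2
      linarith
    have h3 : Metric.infDist f ((expSpan (p := p) (Z m : Set ℂ) : Submodule ℂ (E p)) :
        Set (E p)) ≤ dist f y := Metric.infDist_le_dist_of_mem hy
    rw [Real.dist_eq, sub_zero, abs_of_nonneg Metric.infDist_nonneg]
    refine h3.trans_lt ?_
    rw [dist_eq_norm]
    calc ‖f - y‖ = ‖(f - e j) + (e j - y)‖ := by rw [sub_add_sub_cancel]
      _ ≤ ‖f - e j‖ + ‖e j - y‖ := norm_add_le _ _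
      _ < δ / 2 + δ / 2 := by linarith
      _ = δ := add_halves δ
  · by_contra hfM
    have hne : (M : Set (E p)).Nonempty := ⟨0, M.zero_mem⟩
    have hd : 0 < Metric.infDist f (M : Set (E p)) := by
      rcases (Metric.infDist_nonneg (x := f) (s := (M : Set (E p)))).lt_or_eq with h | h
      · exact h
      · exact absurd ((hM.mem_iff_infDist_zero hne).2 h.symm) hfM
    set d := Metric.infDist f (M : Set (E p)) with hdd
    obtain ⟨k, hk⟩ := hud f hf (d / 3) (by positivity)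
    have hgk : d / 3 < ‖g k f‖ := by
      have h1 : d ≤ Metric.infDist (u k) (M : Set (E p)) + ‖f - u k‖ := by
        have := Metric.infDist_le_infDist_add_dist (s := (M : Set (E p))) (x := f) (y := u k)
        rwa [dist_eq_norm] at this
      have h2 : ‖g k (u k)‖ ≤ ‖g k f‖ + ‖f - u k‖ := by
        have e1 : g k (u k) = g k f - g k (f - u k) := by
          rw [map_sub]
          ring
        rw [e1]
        refine (norm_sub_le _ _).trans (add_le_add le_rfl ?_)
        refine ((g k).le_opNorm _).trans ?_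
        exact mul_le_of_le_one_left (norm_nonneg _) (hg1 k)
      rw [hg2] at h2
      linarith
    set K : ℝ := max (C k) 0 + 1 with hK
    have hK1 : 1 ≤ K := by
      have := le_max_right (C k) 0
      linarith
    have hCK : C k ≤ K := by
      have := le_max_left (C k) 0
      linarith
    obtain ⟨j, hj⟩ := hud f hf (d / (12 * (K + 1))) (by positivity)
    have hj' : (K + 1) * ‖f - u j‖ < d / 12 := by
      rw [lt_div_iff₀ (by positivity)] at hj
      linarith
    have hev := hlim.eventually (gt_mem_nhds (by positivity : (0 : ℝ) < d / (6 * K)))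
    obtain ⟨N, hN⟩ := eventually_atTop.1 hev
    obtain ⟨N', hN'⟩ := exists_nat_gt (12 / d)
    set n := max N (max j N') with hn
    set m := Nat.pair k n with hm
    have hnm : n ≤ m := Nat.right_le_pair k n
    have hmk : (Nat.unpair m).1 = k := by rw [hm, Nat.unpair_pair]
    have hm1 : N ≤ m := (le_max_left _ _).trans hnm
    have hm2 : j ≤ m := ((le_max_left _ _).trans (le_max_right _ _)).trans hnm
    have hm3 : (N' : ℝ) ≤ m := by
      exact_mod_cast ((le_max_right _ _).trans (le_max_right _ _)).trans hnm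
    have h1 := hN m hm1
    have hB1 := hB m j hm2
    have hγ1 := hγ m
    rw [hmk] at hB1 hγ1
    have hsmall : 1 / ((m : ℝ) + 1) < d / 12 := by
      rw [div_lt_iff₀ (by positivity)]
      have h2 : 12 / d < (m : ℝ) + 1 := by linarith
      rw [div_lt_iff₀ hd] at h2
      linarith
    have hγf : d / 6 < ‖γ m f‖ := by
      have e1 : g k f = γ m f - (γ m (u j) - g k (u j)) - (γ m (f - u j) - g k (f - u j)) := by
        rw [map_sub, map_sub]
        ring
      have h3 : ‖g k f‖ ≤ ‖γ m f‖ + ‖γ m (u j) - g k (u j)‖ + (K + 1) * ‖f - u j‖ := by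
        rw [e1]
        refine (norm_sub_le _ _).trans (add_le_add (norm_sub_le _ _) ?_)
        refine (norm_sub_le _ _).trans ?_
        rw [add_mul, one_mul]
        refine add_le_add ?_ ?_
        · exact ((γ m).le_opNorm _).trans
            (mul_le_mul_of_nonneg_right (hγ1.trans hCK) (norm_nonneg _))
        · exact ((g k).le_opNorm _).trans (mul_le_of_le_one_left (norm_nonneg _) (hg1 k))
      linarith
    -- the functional bounds the distance
    have hzero : ∀ y ∈ expSpan (p := p) (Z m : Set ℂ), γ m y = 0 := by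
      intro y hy
      have hle : expSpan (p := p) (Z m : Set ℂ) ≤ LinearMap.ker (γ m).toLinearMap := by
        refine Submodule.span_le.2 ?_
        rintro _ ⟨z, hz, rfl⟩
        exact hγ0 m z hz
      exact hle hy
    have hne3 : ((expSpan (p := p) (Z m : Set ℂ) : Submodule ℂ (E p)) : Set (E p)).Nonempty :=
      ⟨0, Submodule.zero_mem _⟩
    have h4 : d / (6 * K) ≤ Metric.infDist f
        ((expSpan (p := p) (Z m : Set ℂ) : Submodule ℂ (E p)) : Set (E p)) := by
      refine (Metric.le_infDist hne3).2 fun y hy => ?_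
      have h5 : ‖γ m f‖ ≤ K * dist f y := by
        have e2 : γ m f = γ m (f - y) := by rw [map_sub, hzero y hy, sub_zero]
        rw [e2, dist_eq_norm]
        exact ((γ m).le_opNorm _).trans
          (mul_le_mul_of_nonneg_right (hγ1.trans hCK) (norm_nonneg _))
      rw [div_le_iff₀ (by positivity)]
      linarith
    exact absurd h1 (not_lt.2 h4)

end T4

theorem main (hp1 : 1 < p) (hp : p ≠ ∞) (hC : ThmC p)
    (M : Submodule ℂ (Lp ℂ p (volume.restrict (Ioo (0 : ℝ) 1))))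
    (hM : IsClosed (M : Set (Lp ℂ p (volume.restrict (Ioo (0 : ℝ) 1)))))
    (hinv : HardyInvariant M) :
    (∀ f : Lp ℂ p (volume.restrict (Ioo (0 : ℝ) 1)), ∃ g, IsHardy f g) ∧ IsMonomialSpace M := by
  classical
  obtain ⟨U, hU1, hU2, hU3⟩ := exists_U (p := p) hp1 hp
  have hpr : 1 < p.toReal := by
    rw [← ENNReal.toReal_one]
    exact (ENNReal.toReal_lt_toReal ENNReal.one_ne_top hp).2 hp1
  have hl : 0 < 1 - 1 / p.toReal := by
    have : 1 / p.toReal < 1 := by
      rw [div_lt_one (by linarith)]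
      exact hpr
    linarith
  have hex : ∀ f : Lp ℂ p (volume.restrict (Ioo (0 : ℝ) 1)), ∃ g, IsHardy f g := by
    intro f
    have hP : P (∫ v in Ioi (0 : ℝ), ((Real.exp (-((1 - 1 / p.toReal) * v)) : ℝ) : ℂ) •
        S v (U f)) = ∫ v in Ioi (0 : ℝ),
          ((Real.exp (-((1 - 1 / p.toReal) * v)) : ℝ) : ℂ) • S v (U f) := by
      rw [← ContinuousLinearMap.integral_comp_comm _ (T1.integrableOn_S hp1 hp (U f))]
      refine setIntegral_congr_fun measurableSet_Ioi fun v _ => ?_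
      simp only [map_smul, P_S]
    obtain ⟨g, hg⟩ := (hU1 _).2 hP
    exact ⟨g, (hU3 f g).2 hg⟩
  refine ⟨hex, ?_⟩
  have hiso : Isometry U := U.isometry
  -- the image
  set M' : Submodule ℂ (E p) := M.map U.toLinearMap with hM'
  have hM'set : (M' : Set (E p)) = U '' (M : Set _) := by
    rw [hM', Submodule.map_coe]
    rfl
  have hM'c : IsClosed (M' : Set (E p)) := by
    rw [hM'set]
    exact hiso.isClosedEmbedding.isClosedMap _ hM
  have hM'P : ∀ f ∈ M', P f = f := by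
    intro f hf
    obtain ⟨x, _, rfl⟩ := Submodule.mem_map.1 hf
    exact (hU1 _).1 ⟨x, rfl⟩
  have hM'S : ∀ f ∈ M', ∀ v, 0 ≤ v → S v f ∈ M' := by
    refine semigroup_invariant (fun v => S (p := p) v) (fun v w hv _ f => S_S v w hv f)
      (fun v f => norm_S_le v f) (fun f => continuous_S hp f) M' hM'c (1 - 1 / p.toReal) hl ?_
    intro f hf
    obtain ⟨x, hx, rfl⟩ := Submodule.mem_map.1 hf
    obtain ⟨g, hg⟩ := hex x
    have h1 := (hU3 x g).1 hg
    refine Submodule.mem_map.2 ⟨g, hinv x hx g hg, ?_⟩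
    exact h1
  obtain ⟨Z, hZ, hlim⟩ := T4.seq hp M' hM'c hM'P (hC M' hM'c hM'P hM'S)
  -- the monomial spaces
  set c : ℂ := ((1 / p.toReal : ℝ) : ℂ) with hc
  refine ⟨fun n => (Z n).image fun z => z - c, ?_, ?_⟩
  · intro n z hz
    obtain ⟨w, hw, rfl⟩ := Finset.mem_image.1 hz
    have h1 := hZ n w hw
    rw [Complex.sub_re, hc, Complex.ofReal_re]
    linarith
  intro f
  have hspan : ∀ n, U '' ((monoSpan (p := p) (((Z n).image fun z => z - c : Finset ℂ) : Set ℂ) :
      Submodule ℂ _) : Set _) = ((expSpan (p := p) (Z n : Set ℂ) : Submodule ℂ (E p)) :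
        Set (E p)) := by
    intro n
    have h1 : U '' ((monoSpan (p := p) (((Z n).image fun z => z - c : Finset ℂ) : Set ℂ) :
      Submodule ℂ _) : Set _) = ((Submodule.map U.toLinearMap (monoSpan (p := p)
        (((Z n).image fun z => z - c : Finset ℂ) : Set ℂ))) : Set (E p)) := by
      rw [Submodule.map_coe]
      rfl
    rw [h1]
    congr 1
    unfold monoSpan expSpan
    rw [Submodule.map_span]
    congr 1
    ext y
    constructor
    · rintro ⟨g, ⟨z, hz, hg⟩, rfl⟩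
      obtain ⟨w, hw, rfl⟩ := Finset.mem_image.1 (Finset.mem_coe.1 hz)
      refine ⟨w, Finset.mem_coe.2 hw, ?_⟩
      have hre : -(1 / p.toReal) < (w - c).re := by
        have h1 := hZ n w hw
        rw [Complex.sub_re, hc, Complex.ofReal_re]
        linarith
      have h2 := (hU2 (w - c) g hre).1 hg
      rw [sub_add_cancel] at h2
      exact h2.symm
    · rintro ⟨w, hw, rfl⟩
      have hw' := hZ n w (Finset.mem_coe.1 hw)
      obtain ⟨g, hg⟩ := (hU1 _).2 (P_ex hp hw')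
      have hre : -(1 / p.toReal) < (w - c).re := by
        rw [Complex.sub_re, hc, Complex.ofReal_re]
        linarith
      refine ⟨g, ⟨w - c, Finset.mem_coe.2 (Finset.mem_image_of_mem _ (Finset.mem_coe.1 hw)),
        (hU2 (w - c) g hre).2 ?_⟩, hg⟩
      rw [sub_add_cancel]
      exact hg
  have hiff := hlim (U f) ((hU1 _).1 ⟨f, rfl⟩)
  have hmem : U f ∈ M' ↔ f ∈ M := by
    rw [← SetLike.mem_coe, hM'set]
    exact U.injective.mem_set_image
  rw [← hmem, hiff]
  have heq : (fun n => Metric.infDist (U f)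
      ((expSpan (p := p) (Z n : Set ℂ) : Submodule ℂ (E p)) : Set (E p))) =
      fun n => Metric.infDist f ((monoSpan (p := p)
        (((Z n).image fun z => z - c : Finset ℂ) : Set ℂ) : Submodule ℂ _) : Set _) := by
    funext n
    rw [← hspan n, Metric.infDist_image hiso]
  rw [heq]

end Pool.Agent.V7H86.HD
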