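import Mathlib

/-!
# A small constant makes a polynomial separable
-/

set_option autoImplicit false

open Polynomial

namespace Pool.Agent.V7H86.HD

theorem exists_small (S : Finset ℂ) (δ : ℝ) (hδ : 0 < δ) : ∃ c : ℂ, ‖c‖ < δ ∧ c ∉ S := by
  have h1 : (Metric.ball (0 : ℂ) δ).Infinite :=
    infinite_of_mem_nhds (0 : ℂ) (Metric.ball_mem_nhds 0 hδ)
  obtain ⟨c, hc, hcS⟩ := h1.exists_notMem_finset S
  exact ⟨c, by simpa using hc, hcS⟩

theorem exists_sep (G : ℂ[X]) (δ : ℝ) (hδ : 0 < δ) :
    ∃ c : ℂ, ‖c‖ < δ ∧ (G - C c).Separable ∧ (G - C c).coeff 0 ≠ 0 := by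
  classical
  obtain ⟨c, hc, hcS⟩ := exists_small
    (insert (G.coeff 0) ((derivative G).roots.toFinset.image fun z => G.eval z)) δ hδ
  rw [Finset.mem_insert, not_or] at hcS
  refine ⟨c, hc, ?_, ?_⟩
  · by_cases hG : derivative G = 0
    · have h1 : G = C (G.coeff 0) := eq_C_of_derivative_eq_zero hG
      rw [h1, ← C_sub, separable_C]
      exact (sub_ne_zero.2 (Ne.symm hcS.1)).isUnit
    · rw [separable_def, derivative_sub, derivative_C, sub_zero,
        Polynomial.isCoprime_iff_aeval_ne_zero_of_isAlgClosed (k := ℂ) ℂ]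
      intro z
      by_cases hz : aeval z (derivative G) = 0
      · left
        intro h2
        refine hcS.2 (Finset.mem_image.2 ⟨z, ?_, ?_⟩)
        · rw [Multiset.mem_toFinset, mem_roots hG, IsRoot.def]
          simpa [aeval_def] using hz
        · rw [map_sub, aeval_C, sub_eq_zero] at h2
          simpa [aeval_def] using h2
      · right
        exact hz
  · rw [coeff_sub, coeff_C_zero]
    exact sub_ne_zero.2 (Ne.symm hcS.1)

end Pool.Agent.V7H86.HD
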