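import Mathlib
import Pool.Agent.V7H86.HD.A1
import Pool.Agent.V7H86.HD.T8

/-!
# Fejér means of an operator which commutes with the shift
-/

set_option autoImplicit false

open Set Filter Polynomial
open scoped ENNReal Topology

namespace Pool.Agent.V7H86.HD

namespace X1

section

variable {F : Type} [NormedAddCommGroup F] [NormedSpace ℂ F] {r : ℝ} (hr : 1 ≤ r)
    (A : SS F r) {c : F} (hc : A.Cell c) (hc0 : c ≠ 0) (φ : F →L[ℂ] ℂ)
    (hφ : ∀ f, ‖φ f‖ * ‖c‖ ≤ ‖A.P f - A.Pn 1 f‖) (T : F →L[ℂ] F)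
    (hT1 : ∀ f, T (A.P f) = T f) (hT2 : ∀ f, A.P (T f) = T f)
    (hT3 : ∀ f, T (A.P (A.τ f)) = A.P (A.τ (T f)))

include hc0 hφ in
theorem φ_P (f : F) : φ (A.P f) = φ f := by
  have h1 : A.P (f - A.P f) = 0 := by rw [map_sub, A.PP, sub_self]
  have h2 : A.Pn 1 (f - A.P f) = 0 := by
    rw [A.Pn_apply, ← A.PτP_pow, h1, map_zero, map_zero, map_zero]
  have h3 := hφ (f - A.P f)
  rw [h1, h2, sub_zero, norm_zero] at h3
  have h4 : 0 < ‖c‖ := norm_pos_iff.2 hc0
  have h5 : ‖φ (f - A.P f)‖ = 0 := by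
    have := norm_nonneg (φ (f - A.P f))
    nlinarith
  rw [norm_eq_zero, map_sub, sub_eq_zero] at h5
  exact h5.symm

include hT1 hT2 hT3 in
theorem T_τ_pow (i : ℕ) (f : F) : T ((A.τ ^ i) f) = A.P ((A.τ ^ i) (T f)) := by
  induction i generalizing f with
  | zero => simp [hT2]
  | succ i ih =>
    rw [pow_succ, mul_apply_eq_comp, mul_apply_eq_comp, ih, ← hT1, hT3,
      A.PτP_pow]

include hc hc0 hφ hT1 hT2 hT3 in
theorem entry (i l : ℕ) : φ ((A.τ ^ i) (T ((A.σ ^ l) c))) =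
    if i ≤ l then φ (T ((A.σ ^ (l - i)) c)) else 0 := by
  rw [← φ_P A hc0 φ hφ, ← T_τ_pow A T hT1 hT2 hT3]
  split_ifs with h
  · obtain ⟨k, rfl⟩ := Nat.exists_eq_add_of_le h
    rw [Nat.add_sub_cancel_left, pow_add, mul_apply_eq_comp, A.τσ_pow]
  · obtain ⟨k, rfl⟩ := Nat.exists_eq_add_of_lt (not_le.1 h)
    rw [show l + k + 1 = (k + 1) + l by ring, pow_add, mul_apply_eq_comp, A.τσ_pow,
      ← hT1, hc.pow_zero, map_zero, map_zero]

include hr hφ in
theorem avg_le (f : F) (L : ℕ) :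
    (∑ i ∈ Finset.range L, ‖φ ((A.τ ^ i) f)‖ ^ r) * ‖c‖ ^ r ≤ ‖f‖ ^ r := by
  have h := A.cuts f 0 L
  have hr0 : 0 < r := by linarith
  have h1 : ‖A.P ((A.τ ^ 0) f)‖ ^ r ≤ ‖f‖ ^ r := by
    rw [pow_zero]
    exact Real.rpow_le_rpow (norm_nonneg _) (A.norm_P_le hr0 f) hr0.le
  refine le_trans ?_ h1
  rw [h, Finset.sum_mul]
  refine le_trans ?_ (le_add_of_nonneg_right (Real.rpow_nonneg (norm_nonneg _) _))
  refine Finset.sum_le_sum fun i _ => ?_
  rw [zero_add, ← Real.mul_rpow (norm_nonneg _) (norm_nonneg _)]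
  exact Real.rpow_le_rpow (mul_nonneg (norm_nonneg _) (norm_nonneg _)) (hφ _) hr0.le

end

theorem triangle_sum (g : ℕ → ℂ) (n : ℕ) : ∑ s ∈ Finset.range n, ∑ j ∈ Finset.range (s + 1), g j =
    ∑ j ∈ Finset.range n, ((n : ℂ) - j) * g j := by
  induction n with
  | zero => simp
  | succ n ih =>
    rw [Finset.sum_range_succ, ih, Finset.sum_range_succ (fun j => ((n + 1 : ℕ) - (j : ℂ)) * g j),
      Finset.sum_range_succ (fun j => g j) n]
    have : ∑ j ∈ Finset.range n, ((n + 1 : ℕ) - (j : ℂ)) * g j =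
        ∑ j ∈ Finset.range n, ((n : ℂ) - j) * g j + ∑ j ∈ Finset.range n, g j := by
      rw [← Finset.sum_add_distrib]
      refine Finset.sum_congr rfl fun j _ => ?_
      push_cast
      ring
    rw [this]
    push_cast
    ring

theorem row_sum (a x : ℕ → ℂ) (L n i s : ℕ) (hs : s < n) (hx : ∀ l, L ≤ l → x l = 0) :
    ∑ l ∈ Finset.range L, (if l ≤ i + s ∧ i + s < l + n then x l else 0) *
      (if i ≤ l then a (l - i) else 0) = ∑ j ∈ Finset.range (s + 1), a j * x (i + j) := by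
  have h1 : ∑ l ∈ Finset.range L, (if l ≤ i + s ∧ i + s < l + n then x l else 0) *
      (if i ≤ l then a (l - i) else 0) =
      ∑ l ∈ Finset.range (L + (i + s + 1)), if l ∈ Finset.Ico i (i + (s + 1)) then
        x l * a (l - i) else 0 := by
    rw [Finset.sum_range_add]
    have h2 : ∑ k ∈ Finset.range (i + s + 1), (if L + k ∈ Finset.Ico i (i + (s + 1)) then
        x (L + k) * a (L + k - i) else 0) = 0 := by
      refine Finset.sum_eq_zero fun k _ => ?_
      rw [hx _ (by omega)]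
      simp
    rw [h2, add_zero]
    refine Finset.sum_congr rfl fun l _ => ?_
    by_cases h3 : i ≤ l
    · by_cases h4 : l ≤ i + s
      · have h5 : i + s < l + n := by omega
        have h6 : l ∈ Finset.Ico i (i + (s + 1)) := Finset.mem_Ico.2 ⟨h3, by omega⟩
        rw [if_pos ⟨h4, h5⟩, if_pos h3, if_pos h6]
      · have h6 : l ∉ Finset.Ico i (i + (s + 1)) := fun h => by
          have := Finset.mem_Ico.1 h
          omega
        rw [if_neg (fun h => h4 h.1), if_neg h6, zero_mul]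
    · have h6 : l ∉ Finset.Ico i (i + (s + 1)) := fun h => by
        have := Finset.mem_Ico.1 h
        omega
      rw [if_neg h3, if_neg h6, mul_zero]
  rw [h1, Finset.sum_ite_mem]
  have h2 : Finset.range (L + (i + s + 1)) ∩ Finset.Ico i (i + (s + 1)) =
      Finset.Ico i (i + (s + 1)) := by
    refine Finset.inter_eq_right.2 fun l hl => ?_
    have := Finset.mem_Ico.1 hl
    exact Finset.mem_range.2 (by omega)
  rw [h2, Finset.sum_Ico_eq_sum_range, Nat.add_sub_cancel_left]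
  refine Finset.sum_congr rfl fun j _ => ?_
  rw [Nat.add_sub_cancel_left, mul_comm]

end X1

open X1

/-- Fejér means of an operator which commutes with the shift -/
theorem fejer {F : Type} [NormedAddCommGroup F] [NormedSpace ℂ F] {r : ℝ} (hr : 1 ≤ r)
    (A : SS F r) {c : F} (hc : A.Cell c) (hc0 : c ≠ 0) (φ : F →L[ℂ] ℂ) (_hφ1 : φ c = 1)
    (hφ : ∀ f, ‖φ f‖ * ‖c‖ ≤ ‖A.P f - A.Pn 1 f‖) (T : F →L[ℂ] F)
    (hT1 : ∀ f, T (A.P f) = T f) (hT2 : ∀ f, A.P (T f) = T f)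
    (hT3 : ∀ f, T (A.P (A.τ f)) = A.P (A.τ (T f))) (n : ℕ) (hn : 0 < n) (x : ℕ → ℂ) (L : ℕ)
    (hx : ∀ l, L ≤ l → x l = 0) :
    ∑ i ∈ Finset.range L, ‖∑ j ∈ Finset.range n,
      (((1 - j / n : ℝ) : ℂ) * φ (T ((A.σ ^ j) c))) * x (i + j)‖ ^ r ≤
      ‖T‖ ^ r * ∑ l ∈ Finset.range L, ‖x l‖ ^ r := by
  have hr0 : 0 < r := by linarith
  have hc1 : 0 < ‖c‖ := norm_pos_iff.2 hc0
  have hcr : 0 < ‖c‖ ^ r := Real.rpow_pos_of_pos hc1 r
  have hn' : (0 : ℝ) < n := by exact_mod_cast hn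
  set a : ℕ → ℂ := fun j => φ (T ((A.σ ^ j) c)) with ha
  set G : ℕ → F := fun t => ∑ l ∈ Finset.range L,
    (if l ≤ t ∧ t < l + n then x l else 0) • (A.σ ^ l) c with hG
  set u : ℕ → ℕ → ℂ := fun t i => φ ((A.τ ^ i) (T (G t))) with hu
  -- the windows
  have hB : ∀ i, (n : ℂ) * ∑ j ∈ Finset.range n, (((1 - j / n : ℝ) : ℂ) * a j) * x (i + j) =
      ∑ s ∈ Finset.range n, u (i + s) i := by
    intro i
    have e1 : ∀ s ∈ Finset.range n, u (i + s) i = ∑ j ∈ Finset.range (s + 1), a j * x (i + j) := by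
      intro s hs
      simp only [hu, hG]
      rw [map_sum, map_sum, map_sum, ← row_sum a x L n i s (Finset.mem_range.1 hs) hx]
      refine Finset.sum_congr rfl fun l _ => ?_
      rw [map_smul, map_smul, map_smul, smul_eq_mul,
        entry A hc hc0 φ hφ T hT1 hT2 hT3]
    rw [Finset.sum_congr rfl e1, triangle_sum, Finset.mul_sum]
    refine Finset.sum_congr rfl fun j _ => ?_
    have hn0 : (n : ℂ) ≠ 0 := by exact_mod_cast hn.ne'
    push_cast
    field_simp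
  -- Jensen
  have hC : ∀ i, ‖∑ j ∈ Finset.range n, (((1 - j / n : ℝ) : ℂ) * a j) * x (i + j)‖ ^ r ≤
      (1 / n : ℝ) * ∑ s ∈ Finset.range n, ‖u (i + s) i‖ ^ r := by
    intro i
    set y := ∑ j ∈ Finset.range n, (((1 - j / n : ℝ) : ℂ) * a j) * x (i + j) with hy
    have e1 : (n : ℝ) * ‖y‖ ≤ ∑ s ∈ Finset.range n, ‖u (i + s) i‖ := by
      have h1 : ‖(n : ℂ) * y‖ = n * ‖y‖ := by
        rw [norm_mul, Complex.norm_natCast]
      rw [← h1, hB i]
      exact norm_sum_le _ _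
    have e2 : ‖y‖ ≤ ∑ s ∈ Finset.range n, (1 / n : ℝ) * ‖u (i + s) i‖ := by
      rw [← Finset.mul_sum, one_div, inv_mul_eq_div, le_div_iff₀ hn', mul_comm]
      exact e1
    have e3 := Real.rpow_arith_mean_le_arith_mean_rpow (Finset.range n) (fun _ => (1 / n : ℝ))
      (fun s => ‖u (i + s) i‖) (fun _ _ => by positivity)
      (by
        rw [Finset.sum_const, Finset.card_range, nsmul_eq_mul]
        field_simp) (fun _ _ => norm_nonneg _) hr
    rw [← Finset.mul_sum] at e3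
    rw [Finset.mul_sum] at e3
    calc ‖y‖ ^ r ≤ (∑ s ∈ Finset.range n, (1 / n : ℝ) * ‖u (i + s) i‖) ^ r :=
          Real.rpow_le_rpow (norm_nonneg _) e2 hr0.le
      _ ≤ ∑ s ∈ Finset.range n, (1 / n : ℝ) * ‖u (i + s) i‖ ^ r := e3
      _ = _ := by rw [← Finset.mul_sum]
  -- sum over `i`
  have hD : ∑ i ∈ Finset.range L, ∑ s ∈ Finset.range n, ‖u (i + s) i‖ ^ r ≤
      ∑ t ∈ Finset.range (L + n), ∑ i ∈ Finset.range L, ‖u t i‖ ^ r := by
    rw [Finset.sum_comm (s := Finset.range (L + n))]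
    refine Finset.sum_le_sum fun i hi => ?_
    have hi' := Finset.mem_range.1 hi
    have e1 : ∑ s ∈ Finset.range n, ‖u (i + s) i‖ ^ r = ∑ t ∈ Finset.Ico i (i + n), ‖u t i‖ ^ r := by
      rw [Finset.sum_Ico_eq_sum_range, Nat.add_sub_cancel_left]
    rw [e1]
    refine Finset.sum_le_sum_of_subset_of_nonneg (fun t ht => ?_) fun _ _ _ =>
      Real.rpow_nonneg (norm_nonneg _) _
    have := Finset.mem_Ico.1 ht
    exact Finset.mem_range.2 (by omega)
  have hE : ∀ t, ∑ i ∈ Finset.range L, ‖u t i‖ ^ r ≤ ‖T‖ ^ r * ∑ l ∈ Finset.range L,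
      if l ≤ t ∧ t < l + n then ‖x l‖ ^ r else 0 := by
    intro t
    have e1 := avg_le hr A φ hφ (T (G t)) L
    have e2 : ‖T (G t)‖ ^ r ≤ ‖T‖ ^ r * ‖G t‖ ^ r := by
      rw [← Real.mul_rpow (norm_nonneg _) (norm_nonneg _)]
      exact Real.rpow_le_rpow (norm_nonneg _) (T.le_opNorm _) hr0.le
    have e3 : ‖G t‖ ^ r = (∑ l ∈ Finset.range L,
        if l ≤ t ∧ t < l + n then ‖x l‖ ^ r else 0) * ‖c‖ ^ r := by
      rw [hG]
      dsimp only
      rw [A.sum_right hr0 hc]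
      congr 1
      refine Finset.sum_congr rfl fun l _ => ?_
      split_ifs
      · rfl
      · rw [norm_zero, Real.zero_rpow hr0.ne']
    rw [e3, ← mul_assoc] at e2
    exact le_of_mul_le_mul_right (e1.trans e2) hcr
  have hF : ∑ t ∈ Finset.range (L + n), ∑ l ∈ Finset.range L,
      (if l ≤ t ∧ t < l + n then ‖x l‖ ^ r else 0) ≤ n * ∑ l ∈ Finset.range L, ‖x l‖ ^ r := by
    rw [Finset.sum_comm, Finset.mul_sum]
    refine Finset.sum_le_sum fun l _ => ?_
    rw [← Finset.sum_filter, Finset.sum_const, nsmul_eq_mul]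
    refine mul_le_mul_of_nonneg_right ?_ (Real.rpow_nonneg (norm_nonneg _) _)
    have e1 : (Finset.range (L + n)).filter (fun t => l ≤ t ∧ t < l + n) ⊆
        Finset.Ico l (l + n) := by
      intro t ht
      have := (Finset.mem_filter.1 ht).2
      exact Finset.mem_Ico.2 this
    have e2 := Finset.card_le_card e1
    rw [Nat.card_Ico, Nat.add_sub_cancel_left] at e2
    exact_mod_cast e2
  calc ∑ i ∈ Finset.range L, ‖∑ j ∈ Finset.range n, (((1 - j / n : ℝ) : ℂ) * a j) * x (i + j)‖ ^ r ≤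
      ∑ i ∈ Finset.range L, (1 / n : ℝ) * ∑ s ∈ Finset.range n, ‖u (i + s) i‖ ^ r :=
        Finset.sum_le_sum fun i _ => hC i
    _ = (1 / n : ℝ) * ∑ i ∈ Finset.range L, ∑ s ∈ Finset.range n, ‖u (i + s) i‖ ^ r := by
        rw [Finset.mul_sum]
    _ ≤ (1 / n : ℝ) * ∑ t ∈ Finset.range (L + n), ∑ i ∈ Finset.range L, ‖u t i‖ ^ r :=
        mul_le_mul_of_nonneg_left hD (by positivity)
    _ ≤ (1 / n : ℝ) * ∑ t ∈ Finset.range (L + n), ‖T‖ ^ r * ∑ l ∈ Finset.range L,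
          (if l ≤ t ∧ t < l + n then ‖x l‖ ^ r else 0) :=
        mul_le_mul_of_nonneg_left (Finset.sum_le_sum fun t _ => hE t) (by positivity)
    _ = (1 / n : ℝ) * (‖T‖ ^ r * ∑ t ∈ Finset.range (L + n), ∑ l ∈ Finset.range L,
          (if l ≤ t ∧ t < l + n then ‖x l‖ ^ r else 0)) := by
        congr 1
        exact (Finset.mul_sum _ _ _).symm
    _ ≤ (1 / n : ℝ) * (‖T‖ ^ r * (n * ∑ l ∈ Finset.range L, ‖x l‖ ^ r)) := by
        refine mul_le_mul_of_nonneg_left ?_ (by positivity)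
        exact mul_le_mul_of_nonneg_left hF (Real.rpow_nonneg (norm_nonneg _) _)
    _ = ‖T‖ ^ r * ∑ l ∈ Finset.range L, ‖x l‖ ^ r := by
        field_simp

end Pool.Agent.V7H86.HD
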