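import Mathlib
import Pool.Agent.V7H86.HD.Defs
import Pool.Agent.V7H86.HD.A1
import Pool.Agent.V7H86.HD.T1
import Pool.Agent.V7H86.HD.T5
import Pool.Agent.V7H86.HD.T6b
import Pool.Agent.V7H86.HD.T8
import Pool.Agent.V7H86.HD.T10
import Pool.Agent.V7H86.HD.T11
import Pool.Agent.V7H86.HD.T12a
import Pool.Agent.V7H86.HD.X1

/-!
# Averages over cells and step functions
-/

set_option autoImplicit false

open MeasureTheory Set Filter Polynomial
open scoped ENNReal Topology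

namespace Pool.Agent.V7H86.HD

namespace X3

section abs

variable {F : Type} [NormedAddCommGroup F] [NormedSpace ℂ F] {r : ℝ}
    (A : SS F r) {c : F} (hc : A.Cell c) (hc0 : c ≠ 0) (φ : F →L[ℂ] ℂ)
    (hφ : ∀ f, ‖φ f‖ * ‖c‖ ≤ ‖A.P f - A.Pn 1 f‖) (T : F →L[ℂ] F)
    (hT1 : ∀ f, T (A.P f) = T f) (hT2 : ∀ f, A.P (T f) = T f)
    (hT3 : ∀ f, T (A.P (A.τ f)) = A.P (A.τ (T f)))

include hc in
theorem P_τσ (j l : ℕ) : A.P ((A.τ ^ j) ((A.σ ^ l) c)) = if j ≤ l then (A.σ ^ (l - j)) c else 0 := by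
  split_ifs with h
  · obtain ⟨k, rfl⟩ := Nat.exists_eq_add_of_le h
    rw [Nat.add_sub_cancel_left, pow_add, mul_apply_eq_comp, A.τσ_pow]
    have := A.PσP_pow k c
    rwa [hc.1] at this
  · obtain ⟨k, rfl⟩ := Nat.exists_eq_add_of_lt (not_le.1 h)
    rw [show l + k + 1 = (k + 1) + l by ring, pow_add, mul_apply_eq_comp, A.τσ_pow, hc.pow_zero]

theorem sum_le {M : Type*} [AddCommMonoid M] (g : ℕ → M) (l N : ℕ) (hl : l < N) :
    ∑ j ∈ Finset.range N, (if j ≤ l then g j else 0) = ∑ j ∈ Finset.range (l + 1), g j := by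
  rw [← Finset.sum_filter]
  congr 1
  ext j
  simp only [Finset.mem_filter, Finset.mem_range]
  omega

include hc hc0 hφ hT1 hT2 hT3 in
/-- the matrix of the averaged operator -/
theorem avg_conv (x : ℕ → ℂ) (M : ℕ) :
    ∑ j ∈ Finset.range M, φ (T ((A.σ ^ j) c)) •
      A.P ((A.τ ^ j) (∑ l ∈ Finset.range M, x l • (A.σ ^ l) c)) =
      ∑ i ∈ Finset.range M, φ ((A.τ ^ i) (T (∑ l ∈ Finset.range M, x l • (A.σ ^ l) c))) •
        (A.σ ^ i) c := by
  have h1 : ∀ l ∈ Finset.range M, ∑ j ∈ Finset.range M, φ (T ((A.σ ^ j) c)) •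
      A.P ((A.τ ^ j) ((A.σ ^ l) c)) =
      ∑ i ∈ Finset.range M, φ ((A.τ ^ i) (T ((A.σ ^ l) c))) • (A.σ ^ i) c := by
    intro l hl
    have hl' := Finset.mem_range.1 hl
    have e1 : ∀ j ∈ Finset.range M, φ (T ((A.σ ^ j) c)) • A.P ((A.τ ^ j) ((A.σ ^ l) c)) =
        if j ≤ l then φ (T ((A.σ ^ j) c)) • (A.σ ^ (l - j)) c else 0 := by
      intro j _
      rw [P_τσ A hc]
      split_ifs
      · rfl
      · rw [smul_zero]
    have e2 : ∀ i ∈ Finset.range M, φ ((A.τ ^ i) (T ((A.σ ^ l) c))) • (A.σ ^ i) c =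
        if i ≤ l then φ (T ((A.σ ^ (l - i)) c)) • (A.σ ^ i) c else 0 := by
      intro i _
      rw [X1.entry A hc hc0 φ hφ T hT1 hT2 hT3]
      split_ifs
      · rfl
      · rw [zero_smul]
    rw [Finset.sum_congr rfl e1, Finset.sum_congr rfl e2, sum_le _ l M hl', sum_le _ l M hl',
      ← Finset.sum_range_reflect]
    refine Finset.sum_congr rfl fun j hj => ?_
    have hj' := Finset.mem_range.1 hj
    rw [show l + 1 - 1 - j = l - j by omega, show l - (l - j) = j by omega]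
  have h2 : ∀ j ∈ Finset.range M, φ (T ((A.σ ^ j) c)) •
      A.P ((A.τ ^ j) (∑ l ∈ Finset.range M, x l • (A.σ ^ l) c)) =
      ∑ l ∈ Finset.range M, x l • (φ (T ((A.σ ^ j) c)) • A.P ((A.τ ^ j) ((A.σ ^ l) c))) := by
    intro j _
    rw [map_sum, map_sum, Finset.smul_sum]
    refine Finset.sum_congr rfl fun l _ => ?_
    rw [map_smul, map_smul, smul_comm]
  have h3 : ∀ i ∈ Finset.range M,
      φ ((A.τ ^ i) (T (∑ l ∈ Finset.range M, x l • (A.σ ^ l) c))) • (A.σ ^ i) c =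
      ∑ l ∈ Finset.range M, x l • (φ ((A.τ ^ i) (T ((A.σ ^ l) c))) • (A.σ ^ i) c) := by
    intro i _
    rw [map_sum, map_sum, map_sum, Finset.sum_smul]
    refine Finset.sum_congr rfl fun l _ => ?_
    rw [map_smul, map_smul, map_smul, smul_eq_mul, mul_smul]
  rw [Finset.sum_congr rfl h2, Finset.sum_congr rfl h3, Finset.sum_comm,
    Finset.sum_comm (f := fun i l => x l • (φ ((A.τ ^ i) (T ((A.σ ^ l) c))) • (A.σ ^ i) c))]
  refine Finset.sum_congr rfl fun l hl => ?_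
  rw [← Finset.smul_sum, ← Finset.smul_sum, h1 l hl]

include hc in
theorem P_τ_far (x : ℕ → ℂ) (M j : ℕ) (hj : M ≤ j) :
    A.P ((A.τ ^ j) (∑ l ∈ Finset.range M, x l • (A.σ ^ l) c)) = 0 := by
  rw [map_sum, map_sum]
  refine Finset.sum_eq_zero fun l hl => ?_
  have hl' := Finset.mem_range.1 hl
  rw [map_smul, map_smul, P_τσ A hc, if_neg (by omega), smul_zero]

end abs

variable {p : ℝ≥0∞} [Fact (1 ≤ p)]

theorem one_ne_zero' (hp : p ≠ ∞) (h : ℝ) (hh : 0 < h) : (one h : E p) ≠ 0 := by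
  intro h0
  have h1 := norm_one_rpow (p := p) hp h hh
  rw [h0, norm_zero, Real.zero_rpow (toReal_pos_of hp).ne'] at h1
  linarith

/-- the average over the first cell -/
theorem exists_avgFun (hp : p ≠ ∞) (h : ℝ) (hh : 0 < h) :
    ∃ φ : E p →L[ℂ] ℂ, (∀ f, φ f = (1 / h : ℝ) * ∫ t in (0 : ℝ)..h, f t) ∧
      (∀ f, ‖φ f‖ * ‖(one h : E p)‖ ≤
        ‖(ssE hp h hh.le).P f - (ssE hp h hh.le).Pn 1 f‖) ∧ φ (one h) = 1 := by
  obtain ⟨L, hL⟩ := T1.exists_functional (p := p) Fact.out (Ioc (0 : ℝ) h) measurableSet_Ioc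
    (by simp)
  have hr := toReal_pos_of (p := p) hp
  have hform : ∀ f : E p, (((1 / h : ℝ) : ℂ) • L) f = (1 / h : ℝ) * ∫ t in (0 : ℝ)..h, f t := by
    intro f
    rw [ContinuousLinearMap.smul_apply, hL, intervalIntegral.integral_of_le hh.le, smul_eq_mul]
  refine ⟨((1 / h : ℝ) : ℂ) • L, hform, fun f => ?_, ?_⟩
  · have e0 : (ssE hp h hh.le).P f - (ssE hp h hh.le).Pn 1 f =
        ind (Ioc 0 h) measurableSet_Ioc f := by
      have h1 := sub_Pn_eq hp h hh 1 (P f) (P_P f)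
      rw [Nat.cast_one, one_mul] at h1
      have h2 : (ssE hp h hh.le).Pn 1 (P f) = (ssE hp h hh.le).Pn 1 f :=
        SS.Pn_P (ssE hp h hh.le) 1 f
      rw [h2] at h1
      show P f - (ssE hp h hh.le).Pn 1 f = _
      rw [h1]
      exact ind_ind_of_subset (Ioc 0 h) (Ioi 0) measurableSet_Ioc measurableSet_Ioi
        (fun t ht => ht.1) f
    rw [e0, hform]
    have h1 := jensen_cell hp f 0 h hh 0
    rw [zero_sub, enorm_neg, zero_add] at h1
    simp only [sub_zero] at h1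
    have h2 : ∫⁻ s in Ioc 0 h, ‖f s‖ₑ ^ p.toReal =
        ‖ind (Ioc 0 h) measurableSet_Ioc f‖ₑ ^ p.toReal := by
      rw [enorm_rpow_E hp, ← lintegral_indicator measurableSet_Ioc]
      refine lintegral_congr_ae ?_
      filter_upwards [ind_coe (Ioc 0 h) measurableSet_Ioc f] with t ht
      rw [ht]
      by_cases h3 : t ∈ Ioc 0 h
      · rw [indicator_of_mem h3, indicator_of_mem h3]
      · rw [indicator_of_notMem h3, indicator_of_notMem h3, enorm_zero,
          ENNReal.zero_rpow_of_pos hr]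
    rw [h2] at h1
    have hh0 : ENNReal.ofReal h ≠ 0 := by simpa using hh
    have h3 : ‖(one h : E p)‖ₑ ^ p.toReal = ENNReal.ofReal h := by
      rw [← ofReal_norm, ENNReal.ofReal_rpow_of_nonneg (norm_nonneg _) hr.le,
        norm_one_rpow (p := p) hp h hh]
    have h4 : (‖(1 / h : ℝ) * ∫ t in (0 : ℝ)..h, f t‖ₑ * ‖(one h : E p)‖ₑ) ^ p.toReal ≤
        ‖ind (Ioc 0 h) measurableSet_Ioc f‖ₑ ^ p.toReal := by
      rw [ENNReal.mul_rpow_of_nonneg _ _ hr.le, h3, intervalIntegral.integral_of_le hh.le]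
      refine (mul_le_mul_left h1 _).trans (le_of_eq ?_)
      rw [mul_comm (ENNReal.ofReal h)⁻¹, mul_assoc, ENNReal.inv_mul_cancel hh0 ENNReal.ofReal_ne_top,
        mul_one]
    have h5 := (ENNReal.rpow_le_rpow_iff hr).1 h4
    rw [← enorm_norm (one h : E p)] at h5
    have h6 := (ENNReal.toReal_le_toReal (ENNReal.mul_ne_top enorm_ne_top enorm_ne_top)
      enorm_ne_top).2 h5
    rwa [ENNReal.toReal_mul, toReal_enorm, toReal_enorm, toReal_enorm, norm_norm] at h6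
  · rw [hform]
    have h1 : ∫ t in (0 : ℝ)..h, (one h : E p) t = h := by
      rw [intervalIntegral.integral_of_le hh.le]
      have h2 : ∫ t in Ioc (0 : ℝ) h, (one h : E p) t = ∫ t in Ioc (0 : ℝ) h, (1 : ℂ) := by
        refine setIntegral_congr_ae measurableSet_Ioc ?_
        filter_upwards [one_coe (p := p) h] with t ht h3
        rw [ht, indicator_of_mem h3]
      rw [h2, setIntegral_const]
      simp [measureReal_def, hh.le]
    rw [h1]
    have : (h : ℂ) ≠ 0 := by exact_mod_cast hh.ne'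
    push_cast
    field_simp

/-- the step function of the averages -/
theorem step_near (hp : p ≠ ∞) (h : ℝ) (hh : 0 < h) (φ : E p →L[ℂ] ℂ)
    (hφ : ∀ f, φ f = (1 / h : ℝ) * ∫ t in (0 : ℝ)..h, f t) (M : ℕ) (u : E p) (hu : P u = u) (d : ℝ)
    (hd : ∀ v : ℝ, |v| ≤ h → ‖tr v u - u‖ ≤ d)
    (ht : ‖ind (Ioi (M * h)) measurableSet_Ioi u‖ ≤ d) :
    ‖u - ∑ i ∈ Finset.range M, φ (((ssE hp h hh.le).τ ^ i) u) •
      ((ssE hp h hh.le).σ ^ i) (one h)‖ ≤ 3 * d := by
  have h1 := step_approx hp u h hh M d hd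
  have h2 : ind (Ioc 0 (M * h)) measurableSet_Ioc u = u - ind (Ioi (M * h)) measurableSet_Ioi u := by
    rw [ind_Ioc_eq (M * h) (by positivity) u, hu]
  have h3 : ∀ i : ℕ, φ (((ssE hp h hh.le).τ ^ i) u) =
      ((1 / h : ℝ) * ∫ t in (i * h)..((i + 1) * h), u t : ℂ) := by
    intro i
    rw [hφ, ssE_τ_pow]
    congr 1
    have e1 : ∫ t in (0 : ℝ)..h, (tr (i * h) u : E p) t = ∫ t in (0 : ℝ)..h, u (t + i * h) := by
      refine intervalIntegral.integral_congr_ae ?_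
      filter_upwards [tr_coe (i * h) u] with t h3 _
      rw [h3]
    rw [e1, intervalIntegral.integral_comp_add_right (fun x => u x) (i * h)]
    congr 1 <;> ring
  have h4 : ∑ i ∈ Finset.range M, φ (((ssE hp h hh.le).τ ^ i) u) •
      ((ssE hp h hh.le).σ ^ i) (one h) = ∑ j ∈ Finset.range M,
      ((1 / h : ℝ) * ∫ t in (j * h)..((j + 1) * h), u t : ℂ) • tr (-(j * h)) (one h : E p) := by
    refine Finset.sum_congr rfl fun i _ => ?_
    rw [h3, ssE_σ_pow]
  rw [h4]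
  rw [h2] at h1
  set s := ∑ j ∈ Finset.range M,
      ((1 / h : ℝ) * ∫ t in (j * h)..((j + 1) * h), u t : ℂ) • tr (-(j * h)) (one h : E p)
  calc ‖u - s‖ = ‖(u - ind (Ioi (M * h)) measurableSet_Ioi u - s) +
        ind (Ioi (M * h)) measurableSet_Ioi u‖ := by congr 1; abel
    _ ≤ ‖u - ind (Ioi (M * h)) measurableSet_Ioi u - s‖ +
        ‖ind (Ioi (M * h)) measurableSet_Ioi u‖ := norm_add_le _ _
    _ ≤ 3 * d := by linarith

end X3

end Pool.Agent.V7H86.HD
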