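import Mathlib
import Pool.Agent.V7H86.HD.X3a

/-!
# Scalar multipliers of `ℓ^p` act on `L^p` with the same norm
-/

set_option autoImplicit false

open MeasureTheory Set Filter Polynomial
open scoped ENNReal Topology

namespace Pool.Agent.V7H86.HD

namespace X2

section abs

variable {F : Type} [NormedAddCommGroup F] [NormedSpace ℂ F] {r : ℝ} (A : SS F r) {c : F}
  (hc : A.Cell c)

include hc in
/-- a polynomial in `τ ^ m` applied to a step function -/
theorem act_step (b : ℕ → ℂ) (N m : ℕ) (x : ℕ → ℂ) (L : ℕ) (hx : ∀ l, L ≤ l → x l = 0) :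
    A.P (∑ j ∈ Finset.range N, b j • (A.τ ^ (j * m)) (∑ l ∈ Finset.range L, x l • (A.σ ^ l) c)) =
      ∑ i ∈ Finset.range L, (∑ j ∈ Finset.range N, b j * x (i + j * m)) • (A.σ ^ i) c := by
  have h1 : ∀ k : ℕ, A.P ((A.τ ^ k) (∑ l ∈ Finset.range L, x l • (A.σ ^ l) c)) =
      ∑ i ∈ Finset.range L, x (i + k) • (A.σ ^ i) c := by
    intro k
    rw [map_sum, map_sum]
    have e1 : ∀ l ∈ Finset.range L, A.P ((A.τ ^ k) (x l • (A.σ ^ l) c)) =
        if k ≤ l then x l • (A.σ ^ (l - k)) c else 0 := by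
      intro l _
      rw [map_smul, map_smul, X3.P_τσ A hc]
      split_ifs
      · rfl
      · rw [smul_zero]
    rw [Finset.sum_congr rfl e1]
    have e2 : ∑ l ∈ Finset.range L, (if k ≤ l then x l • (A.σ ^ (l - k)) c else 0) =
        ∑ l ∈ Finset.range (k + L), (if k ≤ l then x l • (A.σ ^ (l - k)) c else 0) := by
      rw [add_comm k L, Finset.sum_range_add]
      rw [Finset.sum_eq_zero (s := Finset.range k), add_zero]
      intro l _
      rw [hx _ (by omega), zero_smul, ite_self]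
    rw [e2, Finset.sum_range_add]
    rw [Finset.sum_eq_zero (s := Finset.range k), zero_add]
    · refine Finset.sum_congr rfl fun i _ => ?_
      rw [if_pos (by omega), Nat.add_sub_cancel_left, add_comm]
    · intro l hl
      have := Finset.mem_range.1 hl
      rw [if_neg (by omega)]
  rw [map_sum]
  have h2 : ∀ j ∈ Finset.range N, A.P (b j • (A.τ ^ (j * m))
      (∑ l ∈ Finset.range L, x l • (A.σ ^ l) c)) =
      ∑ i ∈ Finset.range L, (b j * x (i + j * m)) • (A.σ ^ i) c := by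
    intro j _
    rw [map_smul, h1, Finset.smul_sum]
    refine Finset.sum_congr rfl fun i _ => ?_
    rw [smul_smul]
  rw [Finset.sum_congr rfl h2, Finset.sum_comm]
  refine Finset.sum_congr rfl fun i _ => ?_
  rw [Finset.sum_smul]

end abs

/-- the residue classes modulo `m` -/
theorem residues {r : ℝ} (b : ℕ → ℂ) (N : ℕ) (K : ℝ)
    (ha : ∀ (x : ℕ → ℂ) (L : ℕ), (∀ l, L ≤ l → x l = 0) →
      ∑ i ∈ Finset.range L, ‖∑ j ∈ Finset.range N, b j * x (i + j)‖ ^ r ≤
        K ^ r * ∑ l ∈ Finset.range L, ‖x l‖ ^ r) (m : ℕ) (x : ℕ → ℂ) (L : ℕ)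
    (hx : ∀ l, L * m ≤ l → x l = 0) :
    ∑ i ∈ Finset.range (L * m), ‖∑ j ∈ Finset.range N, b j * x (i + j * m)‖ ^ r ≤
      K ^ r * ∑ l ∈ Finset.range (L * m), ‖x l‖ ^ r := by
  rw [← sum_parts' (fun i => ‖∑ j ∈ Finset.range N, b j * x (i + j * m)‖ ^ r) L m,
    ← sum_parts' (fun l => ‖x l‖ ^ r) L m, Finset.mul_sum]
  refine Finset.sum_le_sum fun k hk => ?_
  have hk' := Finset.mem_range.1 hk
  have h1 := ha (fun l => x (l * m + k)) L (fun l hl => hx _ (by
    have : L * m ≤ l * m := Nat.mul_le_mul_right m hl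
    omega))
  refine le_trans (le_of_eq ?_) h1
  refine Finset.sum_congr rfl fun i _ => ?_
  congr 2
  refine Finset.sum_congr rfl fun j _ => ?_
  congr 2
  ring

end X2

open X2

variable {p : ℝ≥0∞} [Fact (1 ≤ p)]

theorem mult_bound (hp : p ≠ ∞) (h : ℝ) (hh : 0 < h) (c : ℕ → ℂ) (N : ℕ) (K : ℝ) (hK : 0 ≤ K)
    (ha : ∀ (x : ℕ → ℂ) (L : ℕ), (∀ l, L ≤ l → x l = 0) →
      ∑ i ∈ Finset.range L, ‖∑ j ∈ Finset.range N, c j * x (i + j)‖ ^ p.toReal ≤
        K ^ p.toReal * ∑ l ∈ Finset.range L, ‖x l‖ ^ p.toReal) (f : E p) :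
    ‖P (∑ j ∈ Finset.range N, c j • tr (j * h) f)‖ ≤ K * ‖P f‖ := by
  classical
  have hr := toReal_pos_of (p := p) hp
  -- reduction to `P f = f`
  have hred : P (∑ j ∈ Finset.range N, c j • tr (j * h) f) =
      P (∑ j ∈ Finset.range N, c j • tr (j * h) (P f)) := by
    rw [map_sum, map_sum]
    refine Finset.sum_congr rfl fun j _ => ?_
    rw [map_smul, map_smul, P_tr_P (j * h) (by positivity) f]
  rw [hred]
  set g : E p := P f with hg
  have hPg : P g = g := P_P f
  -- the norm on step functions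
  have hstep : ∀ (m : ℕ) (hm : 0 < m) (x : ℕ → ℂ) (L : ℕ), (∀ l, L * m ≤ l → x l = 0) →
      ‖P (∑ j ∈ Finset.range N, c j • tr (j * h) (∑ l ∈ Finset.range (L * m),
        x l • ((ssE (p := p) hp (h / m) (by positivity)).σ ^ l) (one (h / m))))‖ ≤
      K * ‖∑ l ∈ Finset.range (L * m),
        x l • ((ssE (p := p) hp (h / m) (by positivity)).σ ^ l) (one (h / m))‖ := by
    intro m hm x L hx
    have hm' : (0 : ℝ) < m := by exact_mod_cast hm
    have hhm : 0 < h / m := by positivity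
    set D := ssE (p := p) hp (h / m) hhm.le with hD
    have hcell := cell_one (p := p) hp (h / m) hhm
    have e1 : ∀ j : ℕ, ∀ u : E p, tr (j * h) u = (D.τ ^ (j * m)) u := by
      intro j u
      rw [ssE_τ_pow]
      congr 2
      push_cast
      field_simp
    have e2 : P (∑ j ∈ Finset.range N, c j • tr (j * h) (∑ l ∈ Finset.range (L * m),
        x l • (D.σ ^ l) (one (h / m)))) = ∑ i ∈ Finset.range (L * m),
        (∑ j ∈ Finset.range N, c j * x (i + j * m)) • (D.σ ^ i) (one (h / m)) := by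
      have e3 := act_step D hcell c N m x (L * m) hx
      rw [← e3]
      congr 1
      refine Finset.sum_congr rfl fun j _ => ?_
      rw [e1]
    show ‖P (∑ j ∈ Finset.range N, c j • tr (j * h) (∑ l ∈ Finset.range (L * m),
        x l • (D.σ ^ l) (one (h / m))))‖ ≤ K * ‖∑ l ∈ Finset.range (L * m),
        x l • (D.σ ^ l) (one (h / m))‖
    rw [e2]
    have h1 := D.sum_right hr hcell (fun i => ∑ j ∈ Finset.range N, c j * x (i + j * m)) (L * m)
    have h2 := D.sum_right hr hcell x (L * m)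
    have h3 := residues c N K ha m x L hx
    have h4 : ‖∑ i ∈ Finset.range (L * m),
        (∑ j ∈ Finset.range N, c j * x (i + j * m)) • (D.σ ^ i) (one (h / m))‖ ^ p.toReal ≤
        (K * ‖∑ l ∈ Finset.range (L * m), x l • (D.σ ^ l) (one (h / m))‖) ^ p.toReal := by
      rw [h1, Real.mul_rpow hK (norm_nonneg _), h2, ← mul_assoc]
      exact mul_le_mul_of_nonneg_right h3 (Real.rpow_nonneg (norm_nonneg _) _)
    exact (Real.rpow_le_rpow_iff (norm_nonneg _) (by positivity) hr).1 h4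
  -- density
  set B : ℝ := ∑ j ∈ Finset.range N, ‖c j‖ with hB
  have hB0 : 0 ≤ B := Finset.sum_nonneg fun _ _ => norm_nonneg _
  have hcrude : ∀ u : E p, ‖P (∑ j ∈ Finset.range N, c j • tr (j * h) u)‖ ≤ B * ‖u‖ := by
    intro u
    refine (norm_P_le _).trans ((norm_sum_le _ _).trans ?_)
    rw [hB, Finset.sum_mul]
    refine Finset.sum_le_sum fun j _ => ?_
    rw [norm_smul, LinearIsometryEquiv.norm_map]
  refine le_of_forall_pos_le_add fun ε hε => ?_
  set d : ℝ := ε / (3 * (K + B) + 1) with hd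
  have hd0 : 0 < d := by positivity
  have hdε : (3 * (K + B)) * d ≤ ε := by
    have : d * (3 * (K + B) + 1) = ε := by
      rw [hd]
      field_simp
    nlinarith
  -- the size of the cells
  obtain ⟨δ, hδ, hδ2⟩ : ∃ δ > 0, ∀ v : ℝ, |v| < δ → ‖tr v g - g‖ ≤ d := by
    have h1 := (continuous_tr hp g).tendsto 0
    rw [tr_zero, Metric.tendsto_nhds_nhds] at h1
    obtain ⟨δ, hδ, h2⟩ := h1 d hd0
    refine ⟨δ, hδ, fun v hv => ?_⟩
    have h4 := h2 (show dist v 0 < δ by rwa [Real.dist_eq, sub_zero])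
    rw [dist_eq_norm] at h4
    exact h4.le
  obtain ⟨m, hm⟩ := exists_nat_gt (h / δ)
  have hm0 : 0 < m := by
    have : (0 : ℝ) < m := lt_trans (by positivity) hm
    exact_mod_cast this
  have hm' : (0 : ℝ) < m := by exact_mod_cast hm0
  have hhm : 0 < h / m := by positivity
  have hhδ : h / m < δ := by
    rw [div_lt_iff₀ hδ] at hm
    rw [div_lt_iff₀ hm']
    linarith
  have htail : ∀ᶠ M : ℕ in atTop, ‖ind (Ioi ((M : ℝ) * h)) measurableSet_Ioi g‖ ≤ d := by
    have h2 : Tendsto (fun n : ℕ => ‖ind (Ioi (n * h)) measurableSet_Ioi g‖) atTop (𝓝 0) := by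
      refine tendsto_ind hp (fun n : ℕ => Ioi (n * h)) (fun n => measurableSet_Ioi) ?_ ?_ g
      · intro m n hmn
        refine Ioi_subset_Ioi ?_
        have : (m : ℝ) ≤ n := by exact_mod_cast hmn
        nlinarith
      · refine eq_empty_of_forall_notMem fun t ht => ?_
        obtain ⟨n, hn⟩ := exists_nat_gt (t / h)
        have h1 := mem_iInter.1 ht n
        rw [mem_Ioi] at h1
        rw [div_lt_iff₀ hh] at hn
        linarith
    exact (h2.eventually (gt_mem_nhds hd0)).mono fun _ h => le_of_lt h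
  obtain ⟨L, hL⟩ := htail.exists
  obtain ⟨φ, hφ1, _, _⟩ := X3.exists_avgFun (p := p) hp (h / m) hhm
  have hnear := X3.step_near hp (h / m) hhm φ hφ1 (L * m) g hPg d
    (fun v hv => hδ2 v (hv.trans_lt hhδ)) (by
      have e : ((L * m : ℕ) : ℝ) * (h / m) = L * h := by
        push_cast
        field_simp
      simp only [e]
      exact hL)
  set D := ssE (p := p) hp (h / m) hhm.le with hD
  set x : ℕ → ℂ := fun l => if l < L * m then φ ((D.τ ^ l) g) else 0 with hx
  have hs : ∑ i ∈ Finset.range (L * m), φ ((D.τ ^ i) g) • (D.σ ^ i) (one (h / m)) =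
      ∑ i ∈ Finset.range (L * m), x i • (D.σ ^ i) (one (h / m)) := by
    refine Finset.sum_congr rfl fun i hi => ?_
    simp only [hx]
    rw [if_pos (Finset.mem_range.1 hi)]
  rw [hs] at hnear
  set s : E p := ∑ i ∈ Finset.range (L * m), x i • (D.σ ^ i) (one (h / m)) with hsdef
  have h1 := hstep m hm0 x L (fun l hl => by
    simp only [hx]
    rw [if_neg (by omega)])
  have h2 := hcrude (g - s)
  have e1 : P (∑ j ∈ Finset.range N, c j • tr (j * h) g) =
      P (∑ j ∈ Finset.range N, c j • tr (j * h) s) +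
        P (∑ j ∈ Finset.range N, c j • tr (j * h) (g - s)) := by
    rw [← map_add, ← Finset.sum_add_distrib]
    congr 1
    refine Finset.sum_congr rfl fun j _ => ?_
    rw [← smul_add, ← map_add, add_sub_cancel]
  have h3 : ‖s‖ ≤ ‖g‖ + 3 * d := by
    have : s = g - (g - s) := by abel
    rw [this]
    exact (norm_sub_le _ _).trans (add_le_add le_rfl hnear)
  rw [e1]
  refine (norm_add_le _ _).trans ?_
  have h4 : K * ‖s‖ ≤ K * (‖g‖ + 3 * d) := mul_le_mul_of_nonneg_left h3 hK
  have h5 : B * ‖g - s‖ ≤ B * (3 * d) := mul_le_mul_of_nonneg_left hnear hB0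
  have h1' : ‖P (∑ j ∈ Finset.range N, c j • tr (j * h) s)‖ ≤ K * ‖s‖ := h1
  nlinarith

end Pool.Agent.V7H86.HD
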