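import Mathlib
import Pool.Agent.V7H86.HD.X3a
import Pool.Agent.V7H86.HD.X2

/-!
# Approximation of an operator which commutes with the semigroup by polynomials in a translation
-/

set_option autoImplicit false

open MeasureTheory Set Filter Polynomial
open scoped ENNReal Topology

namespace Pool.Agent.V7H86.HD

open X3

variable {p : ℝ≥0∞} [Fact (1 ≤ p)]

theorem conv_approx (hp : p ≠ ∞) (T : E p →L[ℂ] E p) (hT1 : ∀ f, T (P f) = T f)
    (hT2 : ∀ f, P (T f) = T f) (hT3 : ∀ f v, 0 ≤ v → T (S v f) = S v (T f))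
    {ι : Type} [Finite ι] (f : ι → E p) (hf : ∀ i, P (f i) = f i) (ε : ℝ) (hε : 0 < ε) :
    ∃ (h : ℝ) (c : ℕ → ℂ) (N : ℕ), 0 < h ∧
      (∀ u : E p, ‖P (∑ j ∈ Finset.range N, c j • tr (j * h) u)‖ ≤ ‖T‖ * ‖P u‖) ∧
      ∀ i, ‖P (∑ j ∈ Finset.range N, c j • tr (j * h) (f i)) - T (f i)‖ ≤ ε := by
  classical
  have hr := toReal_pos_of (p := p) hp
  have hr1 : 1 ≤ p.toReal := T1.one_le_pr hp
  set K : ℝ := ‖T‖ with hK
  have hK0 : 0 ≤ K := norm_nonneg _
  set d : ℝ := ε / (6 * K + 4) with hd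
  have hd0 : 0 < d := by positivity
  have hdε : d * (6 * K + 4) = ε := by
    rw [hd]
    field_simp
  -- the size of the cells
  have hcont : ∀ u : E p, ∀ᶠ h : ℝ in 𝓝[>] 0, ∀ v : ℝ, |v| ≤ h → ‖tr v u - u‖ ≤ d := by
    intro u
    have h1 := (continuous_tr hp u).tendsto 0
    rw [tr_zero, Metric.tendsto_nhds_nhds] at h1
    obtain ⟨δ, hδ, h2⟩ := h1 d hd0
    filter_upwards [Ioo_mem_nhdsGT hδ] with h hh v hv
    have h3 : dist v 0 < δ := by
      rw [Real.dist_eq, sub_zero]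
      exact hv.trans_lt hh.2
    have h4 := h2 h3
    rw [dist_eq_norm] at h4
    exact h4.le
  have hev : ∀ᶠ h : ℝ in 𝓝[>] 0, (∀ i, ∀ v : ℝ, |v| ≤ h → ‖tr v (f i) - f i‖ ≤ d) ∧
      (∀ i, ∀ v : ℝ, |v| ≤ h → ‖tr v (T (f i)) - T (f i)‖ ≤ d) :=
    (eventually_all.2 fun i => hcont (f i)).and (eventually_all.2 fun i => hcont (T (f i)))
  obtain ⟨h, ⟨hh1, hh2⟩, hh⟩ := (hev.and self_mem_nhdsWithin).exists
  have hh : 0 < h := hh
  set D := ssE (p := p) hp h hh.le with hD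
  have hcell := cell_one (p := p) hp h hh
  have hone := X3.one_ne_zero' (p := p) hp h hh
  obtain ⟨φ, hφ1, hφ2, hφ3⟩ := exists_avgFun (p := p) hp h hh
  have hT3' : ∀ f, T (D.P (D.τ f)) = D.P (D.τ (T f)) := fun f => hT3 f h hh.le
  -- the number of cells
  have htail : ∀ u : E p, ∀ᶠ M : ℕ in atTop, ‖ind (Ioi (M * h)) measurableSet_Ioi u‖ ≤ d := by
    intro u
    have h2 : Tendsto (fun n : ℕ => ‖ind (Ioi (n * h)) measurableSet_Ioi u‖) atTop (𝓝 0) := by
      refine tendsto_ind hp (fun n : ℕ => Ioi (n * h)) (fun n => measurableSet_Ioi) ?_ ?_ u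
      · intro m n hmn
        refine Ioi_subset_Ioi ?_
        have : (m : ℝ) ≤ n := by exact_mod_cast hmn
        nlinarith
      · refine eq_empty_of_forall_notMem fun t ht => ?_
        obtain ⟨n, hn⟩ := exists_nat_gt (t / h)
        have h1 := mem_iInter.1 ht n
        rw [mem_Ioi] at h1
        rw [div_lt_iff₀ hh] at hn
        linarith
    exact (h2.eventually (gt_mem_nhds hd0)).mono fun _ h => le_of_lt h
  obtain ⟨M, hM1, hM2⟩ := ((eventually_all.2 fun i => htail (f i)).and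
    (eventually_all.2 fun i => htail (T (f i)))).exists
  -- the step functions
  set avg : E p → E p := fun u => ∑ i ∈ Finset.range M, φ ((D.τ ^ i) u) • (D.σ ^ i) (one h)
    with havg
  have hs1 : ∀ i, ‖f i - avg (f i)‖ ≤ 3 * d := fun i =>
    step_near hp h hh φ hφ1 M (f i) (hf i) d (hh1 i) (hM1 i)
  have hs2 : ∀ i, ‖T (f i) - avg (T (f i))‖ ≤ 3 * d := fun i =>
    step_near hp h hh φ hφ1 M (T (f i)) (hT2 _) d (hh2 i) (hM2 i)
  have hcontr : ∀ u : E p, ‖avg u‖ ≤ ‖u‖ := by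
    intro u
    have h1 := X1.avg_le hr1 D φ hφ2 u M
    have h2 := D.sum_right hr hcell (fun i => φ ((D.τ ^ i) u)) M
    have h3 : ‖avg u‖ ^ p.toReal ≤ ‖u‖ ^ p.toReal := by
      rw [havg]
      exact h2.le.trans h1
    exact (Real.rpow_le_rpow_iff (norm_nonneg _) (norm_nonneg _) hr).1 h3
  have havgsub : ∀ u v : E p, avg u - avg v = avg (u - v) := by
    intro u v
    simp only [havg]
    rw [← Finset.sum_sub_distrib]
    refine Finset.sum_congr rfl fun i _ => ?_
    rw [map_sub, map_sub, sub_smul]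
  -- the Fejér weights
  set a : ℕ → ℂ := fun j => φ (T ((D.σ ^ j) (one h))) with ha
  have hlim : ∀ i, Tendsto (fun N : ℕ => P (∑ j ∈ Finset.range N,
      (((1 - j / N : ℝ) : ℂ) * a j) • tr (j * h) (avg (f i)))) atTop (𝓝 (avg (T (avg (f i))))) := by
    intro i
    have e1 : ∀ᶠ N : ℕ in atTop, ∑ j ∈ Finset.range M, (((1 - j / N : ℝ) : ℂ) * a j) •
        P ((D.τ ^ j) (avg (f i))) = P (∑ j ∈ Finset.range N,
        (((1 - j / N : ℝ) : ℂ) * a j) • tr (j * h) (avg (f i))) := by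
      filter_upwards [eventually_ge_atTop M] with N hN
      rw [map_sum]
      have e2 : ∀ j ∈ Finset.range N, P ((((1 - j / N : ℝ) : ℂ) * a j) • tr (j * h) (avg (f i))) =
          (((1 - j / N : ℝ) : ℂ) * a j) • P ((D.τ ^ j) (avg (f i))) := by
        intro j _
        rw [map_smul, ssE_τ_pow]
      rw [Finset.sum_congr rfl e2]
      refine Finset.sum_subset (Finset.range_mono hN) fun j _ hj => ?_
      have h3 := P_τ_far D hcell (fun l => φ ((D.τ ^ l) (f i))) M j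
        (by simpa using hj)
      rw [show P ((D.τ ^ j) (avg (f i))) = 0 from h3, smul_zero]
    have e3 := avg_conv D hcell hone φ hφ2 T hT1 hT2 hT3' (fun l => φ ((D.τ ^ l) (f i))) M
    have e4 : avg (T (avg (f i))) = ∑ j ∈ Finset.range M, a j • P ((D.τ ^ j) (avg (f i))) :=
      e3.symm
    rw [e4]
    refine Tendsto.congr' e1 ?_
    refine tendsto_finsetSum _ fun j _ => ?_
    refine Tendsto.smul_const ?_ _
    have e5 : Tendsto (fun N : ℕ => ((1 - j / N : ℝ) : ℂ)) atTop (𝓝 ((1 - 0 : ℝ) : ℂ)) :=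
      (Complex.continuous_ofReal.tendsto _).comp
        (tendsto_const_nhds.sub (tendsto_const_div_atTop_nhds_zero_nat (j : ℝ)))
    have e6 := e5.mul_const (a j)
    simpa using e6
  have hlim2 : ∀ᶠ N : ℕ in atTop, ∀ i, ‖P (∑ j ∈ Finset.range N,
      (((1 - j / N : ℝ) : ℂ) * a j) • tr (j * h) (avg (f i))) - avg (T (avg (f i)))‖ ≤ d := by
    refine eventually_all.2 fun i => ?_
    have h1 := tendsto_iff_norm_sub_tendsto_zero.1 (hlim i)
    exact (h1.eventually (gt_mem_nhds hd0)).mono fun _ h => le_of_lt h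
  obtain ⟨N, hN, hN0⟩ := (hlim2.and (eventually_gt_atTop 0)).exists
  have hbd : ∀ u : E p, ‖P (∑ j ∈ Finset.range N,
      (((1 - j / N : ℝ) : ℂ) * a j) • tr (j * h) u)‖ ≤ K * ‖P u‖ := by
    intro u
    exact mult_bound hp h hh (fun j => ((1 - j / N : ℝ) : ℂ) * a j) N K hK0
      (fun x L hx => fejer hr1 D hcell hone φ hφ3 hφ2 T hT1 hT2 hT3' N hN0 x L hx) u
  refine ⟨h, fun j => ((1 - j / N : ℝ) : ℂ) * a j, N, hh, hbd, fun i => ?_⟩
  have hlin : ∀ u v : E p, P (∑ j ∈ Finset.range N, (((1 - j / N : ℝ) : ℂ) * a j) • tr (j * h) u) -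
      P (∑ j ∈ Finset.range N, (((1 - j / N : ℝ) : ℂ) * a j) • tr (j * h) v) =
      P (∑ j ∈ Finset.range N, (((1 - j / N : ℝ) : ℂ) * a j) • tr (j * h) (u - v)) := by
    intro u v
    rw [← map_sub, ← Finset.sum_sub_distrib]
    congr 1
    refine Finset.sum_congr rfl fun j _ => ?_
    rw [map_sub, smul_sub]
  set G : E p → E p := fun u => P (∑ j ∈ Finset.range N,
    (((1 - j / N : ℝ) : ℂ) * a j) • tr (j * h) u) with hG
  have h1 : ‖G (f i) - G (avg (f i))‖ ≤ K * (3 * d) := by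
    have : G (f i) - G (avg (f i)) = G (f i - avg (f i)) := hlin _ _
    rw [this]
    exact (hbd _).trans (mul_le_mul_of_nonneg_left ((norm_P_le _).trans (hs1 i)) hK0)
  have h2 : ‖G (avg (f i)) - avg (T (avg (f i)))‖ ≤ d := hN i
  have h3 : ‖avg (T (avg (f i))) - avg (T (f i))‖ ≤ K * (3 * d) := by
    rw [havgsub, ← map_sub]
    refine (hcontr _).trans ((T.le_opNorm _).trans ?_)
    refine mul_le_mul_of_nonneg_left ?_ hK0
    rw [norm_sub_rev]
    exact hs1 i
  have h4 : ‖avg (T (f i)) - T (f i)‖ ≤ 3 * d := by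
    rw [norm_sub_rev]
    exact hs2 i
  calc ‖G (f i) - T (f i)‖ = ‖(G (f i) - G (avg (f i))) + (G (avg (f i)) - avg (T (avg (f i)))) +
        (avg (T (avg (f i))) - avg (T (f i))) + (avg (T (f i)) - T (f i))‖ := by
        congr 1
        abel
    _ ≤ ‖G (f i) - G (avg (f i))‖ + ‖G (avg (f i)) - avg (T (avg (f i)))‖ +
        ‖avg (T (avg (f i))) - avg (T (f i))‖ + ‖avg (T (f i)) - T (f i)‖ := by
        refine (norm_add_le _ _).trans (add_le_add ?_ le_rfl)
        refine (norm_add_le _ _).trans (add_le_add ?_ le_rfl)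
        exact norm_add_le _ _
    _ ≤ ε := by
        rw [← hdε]
        nlinarith

end Pool.Agent.V7H86.HD
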