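import Mathlib
import Pool.Agent.V7H86.HD.Defs
import Pool.Agent.V7H86.HD.A1
import Pool.Agent.V7H86.HD.A6
import Pool.Agent.V7H86.HD.T3
import Pool.Agent.V7H86.HD.T5
import Pool.Agent.V7H86.HD.T9
import Pool.Agent.V7H86.HD.X3

/-!
# Functionals which factor through an operator that commutes with the semigroup
-/

set_option autoImplicit false

open MeasureTheory Set Filter Polynomial
open scoped ENNReal Topology

namespace Pool.Agent.V7H86.HD

variable {p : ℝ≥0∞} [Fact (1 ≤ p)]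

namespace X4

theorem one_ap {F : Type*} [NormedAddCommGroup F] [NormedSpace ℂ F] (u : F) :
    (1 : F →L[ℂ] F) u = u := rfl

theorem S_pow (hp : p ≠ ∞) (h : ℝ) (hh : 0 ≤ h) (j : ℕ) (y : E p) (hy : P y = y) :
    (S (p := p) h ^ j) y = P (((ssE hp h hh).τ ^ j) y) := by
  induction j with
  | zero =>
    rw [pow_zero, pow_zero, one_ap, hy]
  | succ j ih =>
    rw [pow_succ', pow_succ', mul_apply_eq_comp, mul_apply_eq_comp, ih]
    exact P_tr_P h hh _

theorem aeval_S (hp : p ≠ ∞) (h : ℝ) (hh : 0 ≤ h) (G : ℂ[X]) (y : E p) (hy : P y = y) :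
    aeval (S (p := p) h) G y = P (aeval (ssE hp h hh).τ G y) := by
  rw [aeval_eq_sum_range, aeval_eq_sum_range, sum_apply, sum_apply, map_sum]
  refine Finset.sum_congr rfl fun j _ => ?_
  rw [ContinuousLinearMap.smul_apply, ContinuousLinearMap.smul_apply, map_smul,
    S_pow hp h hh j y hy]

theorem aeval_ex (hp : p ≠ ∞) (h : ℝ) (hh : 0 ≤ h) (G : ℂ[X]) {z : ℂ} (hz : 0 < z.re) :
    P (aeval (ssE hp h hh).τ G (ex z : E p)) = G.eval (Complex.exp (-(z * h))) • ex z := by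
  rw [← aeval_S hp h hh G _ (P_ex hp hz), aeval_eq_sum_range, sum_apply, eval_eq_sum_range,
    Finset.sum_smul]
  have h1 : ∀ j : ℕ, (S (p := p) h ^ j) (ex z) = Complex.exp (-(z * h)) ^ j • (ex z : E p) := by
    intro j
    induction j with
    | zero => rw [pow_zero, pow_zero, one_ap, one_smul]
    | succ j ih =>
      rw [pow_succ', mul_apply_eq_comp, ih, map_smul, S_ex hp hz h hh, smul_smul, pow_succ]
  refine Finset.sum_congr rfl fun j _ => ?_
  rw [ContinuousLinearMap.smul_apply, h1, smul_smul]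

/-- inversion of `κ + W` on the half-line -/
theorem solve {F : Type*} [NormedAddCommGroup F] [NormedSpace ℂ F] [CompleteSpace F]
    (W : F →L[ℂ] F) (κ w : ℝ) (hw : 0 ≤ w) (hκ : w + 1 / 2 ≤ κ) (hW : ∀ u, ‖W u‖ ≤ w * ‖u‖) (r : F) :
    ∃ u, (κ : ℂ) • u + W u = r ∧ ‖u‖ ≤ 2 * ‖r‖ := by
  have hκ0 : 0 < κ := by linarith
  have hκc : (κ : ℂ) ≠ 0 := by exact_mod_cast hκ0.ne'
  set t : F →L[ℂ] F := -((κ : ℂ)⁻¹ • W) with ht
  have htn : ‖t‖ < 1 := by
    have h1 : ‖W‖ ≤ w := W.opNorm_le_bound hw hW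
    rw [ht, norm_neg, norm_smul, norm_inv, Complex.norm_real, Real.norm_eq_abs, abs_of_pos hκ0,
      inv_mul_lt_iff₀ hκ0, mul_one]
    linarith
  set V := Units.oneSub t htn with hV
  have hV1 : (1 - t) * (↑V⁻¹ : F →L[ℂ] F) = 1 := by
    have := V.mul_inv
    rwa [hV, Units.val_oneSub] at this
  set u := (↑V⁻¹ : F →L[ℂ] F) ((κ : ℂ)⁻¹ • r) with hu
  have h2 : (κ : ℂ) • u + W u = r := by
    have h3 : (1 - t) u = (κ : ℂ)⁻¹ • r := by
      have := congrArg (fun B : F →L[ℂ] F => B ((κ : ℂ)⁻¹ • r)) hV1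
      rw [mul_apply_eq_comp, one_ap] at this
      exact this
    have h4 : (1 - t) u = u + (κ : ℂ)⁻¹ • W u := by
      rw [ht, sub_neg_eq_add, add_apply, one_ap, ContinuousLinearMap.smul_apply]
    rw [h4] at h3
    have h5 := congrArg (fun x => (κ : ℂ) • x) h3
    simp only [smul_add, smul_smul, mul_inv_cancel₀ hκc, one_smul] at h5
    exact h5
  refine ⟨u, h2, ?_⟩
  have h3 : κ * ‖u‖ ≤ ‖r‖ + w * ‖u‖ := by
    have h4 : (κ : ℂ) • u = r - W u := by rw [← h2]; abel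
    have h5 : ‖(κ : ℂ) • u‖ = κ * ‖u‖ := by
      rw [norm_smul, Complex.norm_real, Real.norm_eq_abs, abs_of_pos hκ0]
    rw [← h5, h4]
    exact (norm_sub_le _ _).trans (add_le_add le_rfl (hW u))
  nlinarith [norm_nonneg u]

end X4

open X4

theorem thmX (hp : p ≠ ∞) (T : E p →L[ℂ] E p) (hT1 : ∀ f, T (P f) = T f)
    (hT2 : ∀ f, P (T f) = T f) (hT3 : ∀ f v, 0 ≤ v → T (S v f) = S v (T f))
    (ψ : E p →L[ℂ] ℂ) :
    ∃ C : ℝ, ∀ A B : Finset (E p), (∀ f ∈ A, P f = f ∧ T f = 0) → (∀ u ∈ B, P u = u) → ∀ ε > 0,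
      ∃ (Z : Finset ℂ) (γ : E p →L[ℂ] ℂ), (∀ z ∈ Z, 0 < z.re) ∧ ‖γ‖ ≤ C ∧ (∀ z ∈ Z, γ (ex z) = 0) ∧
        (∀ f ∈ A, ∃ e ∈ expSpan (p := p) (Z : Set ℂ), ‖f - e‖ ≤ ε) ∧
        ∀ u ∈ B, ‖γ u - ψ (T u)‖ ≤ ε := by
  classical
  set κ : ℝ := ‖T‖ + 1 with hκ
  have hκ0 : 0 < κ := by positivity
  refine ⟨‖ψ‖ * (‖T‖ + κ + 1), fun A B hA hB ε hε => ?_⟩
  set η : ℝ := ε / (12 * (‖ψ‖ + 1)) with hη
  have hη0 : 0 < η := by positivity
  have hη1 : 6 * η ≤ ε / 2 := by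
    have h1 : η * (12 * (‖ψ‖ + 1)) = ε := by
      rw [hη]
      field_simp
    nlinarith [norm_nonneg ψ]
  have hη2 : ‖ψ‖ * (3 * η) ≤ ε := by
    have h1 : η * (12 * (‖ψ‖ + 1)) = ε := by
      rw [hη]
      field_simp
    nlinarith [norm_nonneg ψ]
  have hAB : ∀ f ∈ A ∪ B, P f = f := by
    intro f hf
    rcases Finset.mem_union.1 hf with h | h
    · exact (hA f h).1
    · exact hB f h
  obtain ⟨h, c, N, hh, hbd, happ⟩ := conv_approx hp T hT1 hT2 hT3
    (fun i : {f // f ∈ A ∪ B} => (i : E p)) (fun i => hAB i i.2) η hη0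
  set D := ssE (p := p) hp h hh.le with hD
  have hr0 := toReal_pos_of (p := p) hp
  -- the shift far to the right
  have hKex : ∃ K : ℕ, ∀ f ∈ A ∪ B, κ * ‖P ((D.τ ^ K) f)‖ ≤ η := by
    have h1 : ∀ f ∈ A ∪ B, ∀ᶠ K : ℕ in atTop, κ * ‖P ((D.τ ^ K) f)‖ ≤ η := by
      intro f _
      have h2 := (ssE_tails (p := p) hp h hh).right f
      have h3 : Tendsto (fun n : ℕ => κ * ‖P ((D.τ ^ n) f)‖) atTop (𝓝 0) := by
        have := (tendsto_zero_iff_norm_tendsto_zero.1 h2).const_mul κ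
        rwa [mul_zero] at this
      exact (h3.eventually (gt_mem_nhds hη0)).mono fun _ h => le_of_lt h
    exact ((Finset.eventually_all (A ∪ B)).2 h1).exists
  obtain ⟨K, hK⟩ := hKex
  set G0 : ℂ[X] := ∑ j ∈ Finset.range N, C (c j) * X ^ j with hG0
  have hG0a : ∀ u : E p, aeval D.τ G0 u = ∑ j ∈ Finset.range N, c j • tr (j * h) u := by
    intro u
    rw [hG0, map_sum, sum_apply]
    refine Finset.sum_congr rfl fun j _ => ?_
    rw [map_mul, map_pow, aeval_X, aeval_C, mul_apply_eq_comp, ssE_τ_pow,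
      Algebra.algebraMap_eq_smul_one, ContinuousLinearMap.smul_apply, one_ap]
  set δ : ℝ := min (1 / 2) (η / (1 + ∑ f ∈ A ∪ B, ‖f‖)) with hδ
  have hsum0 : 0 ≤ ∑ f ∈ A ∪ B, ‖f‖ := Finset.sum_nonneg fun _ _ => norm_nonneg _
  have hδ0 : 0 < δ := by
    rw [hδ]
    refine lt_min (by norm_num) (div_pos hη0 (by linarith))
  have hδf : ∀ f ∈ A ∪ B, δ * ‖f‖ ≤ η := by
    intro f hf
    have h1 : ‖f‖ ≤ 1 + ∑ f ∈ A ∪ B, ‖f‖ := by
      have := Finset.single_le_sum (f := fun f : E p => ‖f‖) (fun _ _ => norm_nonneg _) hf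
      linarith
    have h2 : δ ≤ η / (1 + ∑ f ∈ A ∪ B, ‖f‖) := min_le_right _ _
    calc δ * ‖f‖ ≤ η / (1 + ∑ f ∈ A ∪ B, ‖f‖) * (1 + ∑ f ∈ A ∪ B, ‖f‖) :=
          mul_le_mul h2 h1 (norm_nonneg _) (by positivity)
      _ = η := by
          field_simp
  obtain ⟨zc, hzc, hsep, hcoef⟩ := exists_sep (G0 + C (κ : ℂ) * X ^ K) δ hδ0
  have hzc2 : ‖zc‖ ≤ 1 / 2 := hzc.le.trans (min_le_left _ _)
  set G2 : ℂ[X] := G0 + C (κ : ℂ) * X ^ K - C zc with hG2
  have hG2a : ∀ u : E p, P (aeval D.τ G2 u) =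
      P (aeval D.τ G0 u) + (κ : ℂ) • P ((D.τ ^ K) u) - zc • P u := by
    intro u
    rw [hG2, map_sub, map_add, map_mul, map_pow, aeval_X, aeval_C, aeval_C,
      _root_.sub_apply, _root_.add_apply, mul_apply_eq_comp, Algebra.algebraMap_eq_smul_one,
      Algebra.algebraMap_eq_smul_one, ContinuousLinearMap.smul_apply,
      ContinuousLinearMap.smul_apply, one_ap, one_ap, map_sub, map_add, map_smul, map_smul]
  have hbd' : ∀ u : E p, ‖P (aeval D.τ G0 u)‖ ≤ ‖T‖ * ‖P u‖ := by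
    intro u
    rw [hG0a]
    exact hbd u
  have happ' : ∀ f ∈ A ∪ B, ‖P (aeval D.τ G0 f) - T f‖ ≤ η := by
    intro f hf
    rw [hG0a]
    exact happ ⟨f, hf⟩
  -- approximate kernel elements
  have hker : ∀ f ∈ A, ∃ Zf : Finset ℂ, (∀ z ∈ Zf, 0 < z.re ∧
      G2.eval (Complex.exp (-(z * h))) = 0) ∧
      ∃ e ∈ expSpan (p := p) (Zf : Set ℂ), ‖f - e‖ ≤ ε := by
    intro f hf
    have hfAB : f ∈ A ∪ B := Finset.mem_union_left _ hf
    obtain ⟨hPf, hTf⟩ := hA f hf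
    set r := P (aeval D.τ G2 f) with hr
    have hPr : P r = r := P_P _
    have hrn : ‖r‖ ≤ 3 * η := by
      have h1 := happ' f hfAB
      rw [hTf, sub_zero] at h1
      have h2 := hK f hfAB
      have h3 := hδf f hfAB
      rw [hr, hG2a, hPf]
      refine (norm_sub_le _ _).trans ?_
      refine (add_le_add (norm_add_le _ _) le_rfl).trans ?_
      rw [norm_smul, norm_smul, Complex.norm_real, Real.norm_eq_abs, abs_of_pos hκ0]
      have h4 : ‖zc‖ * ‖f‖ ≤ δ * ‖f‖ := mul_le_mul_of_nonneg_right hzc.le (norm_nonneg _)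
      linarith
    set W : E p →L[ℂ] E p := (P.comp (aeval D.τ (G0 - C zc))).comp (D.σ ^ K) with hW
    have hWa : ∀ u, W u = P (aeval D.τ (G0 - C zc) ((D.σ ^ K) u)) := fun _ => rfl
    have hWn : ∀ u, ‖W u‖ ≤ (‖T‖ + 1 / 2) * ‖u‖ := by
      intro u
      have h1 : W u = P (aeval D.τ G0 ((D.σ ^ K) u)) - zc • P ((D.σ ^ K) u) := by
        rw [hWa, map_sub, aeval_C, _root_.sub_apply, Algebra.algebraMap_eq_smul_one,
          ContinuousLinearMap.smul_apply, one_ap, map_sub, map_smul]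
      have h2 : ‖P ((D.σ ^ K) u)‖ ≤ ‖u‖ := (norm_P_le _).trans (D.isoσpow K u).le
      rw [h1]
      refine (norm_sub_le _ _).trans ?_
      rw [norm_smul, add_mul]
      refine add_le_add ((hbd' _).trans (mul_le_mul_of_nonneg_left h2 (norm_nonneg _))) ?_
      exact mul_le_mul hzc2 h2 (norm_nonneg _) (by norm_num)
    obtain ⟨u', hu', hun⟩ := solve W κ (‖T‖ + 1 / 2) (by positivity) (by rw [hκ]; linarith) hWn r
    have hPu : P u' = u' := by
      have h1 : (κ : ℂ) • u' = r - W u' := by rw [← hu']; abel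
      have h2 : P ((κ : ℂ) • u') = (κ : ℂ) • u' := by
        rw [h1, map_sub, hPr, hWa, P_P]
      rw [map_smul] at h2
      exact smul_right_injective (E p) (by exact_mod_cast hκ0.ne' : (κ : ℂ) ≠ 0) h2
    set u := (D.σ ^ K) u' with hu
    have hPuu : P u = u := by
      have := D.PσP_pow K u'
      rw [show D.P u' = u' from hPu] at this
      exact this
    have hGu : P (aeval D.τ G2 u) = r := by
      rw [hG2a, hu, D.τσ_pow, hPu, ← hu']
      have h1 : W u' = P (aeval D.τ G0 ((D.σ ^ K) u')) - zc • P ((D.σ ^ K) u') := by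
        rw [hWa, map_sub, aeval_C, _root_.sub_apply, Algebra.algebraMap_eq_smul_one,
          ContinuousLinearMap.smul_apply, one_ap, map_sub, map_smul]
      rw [h1]
      abel
    set y := f - u with hy
    have hPy : P y = y := by rw [hy, map_sub, hPf, hPuu]
    have hGy : aeval (S (p := p) h) G2 y = 0 := by
      rw [aeval_S hp h hh.le G2 y hPy, hy, map_sub, map_sub]
      show P (aeval D.τ G2 f) - P (aeval D.τ G2 u) = 0
      rw [hGu, sub_self]
    obtain ⟨Zf, hZf, e, he, hen⟩ := ker_exp hp h hh G2 hsep hcoef y hPy hGy (ε / 2) (by positivity)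
    refine ⟨Zf, hZf, e, he, ?_⟩
    have h1 : ‖f - y‖ ≤ ε / 2 := by
      rw [hy, sub_sub_cancel, hu, D.isoσpow]
      linarith
    calc ‖f - e‖ = ‖(f - y) + (y - e)‖ := by rw [sub_add_sub_cancel]
      _ ≤ ‖f - y‖ + ‖y - e‖ := norm_add_le _ _
      _ ≤ ε := by linarith
  choose! Zf hZf hef using hker
  refine ⟨A.biUnion Zf, (ψ.comp (P.comp (aeval D.τ G2))).comp P, ?_, ?_, ?_, ?_, ?_⟩
  · intro z hz
    obtain ⟨f, hf, hz⟩ := Finset.mem_biUnion.1 hz
    exact (hZf f hf z hz).1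
  · refine ContinuousLinearMap.opNorm_le_bound _ (by positivity) fun u => ?_
    show ‖ψ (P (aeval D.τ G2 (P u)))‖ ≤ _
    refine (ψ.le_opNorm _).trans ?_
    rw [mul_assoc]
    refine mul_le_mul_of_nonneg_left ?_ (norm_nonneg _)
    have h0 : ‖P u‖ ≤ ‖u‖ := norm_P_le u
    rw [hG2a, P_P]
    refine (norm_sub_le _ _).trans ?_
    refine (add_le_add (norm_add_le _ _) le_rfl).trans ?_
    rw [norm_smul, norm_smul, Complex.norm_real, Real.norm_eq_abs, abs_of_pos hκ0]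
    have h1 := hbd' (P u)
    rw [P_P] at h1
    have h2 : ‖P ((D.τ ^ K) (P u))‖ ≤ ‖u‖ := (norm_P_le _).trans ((D.isopow K _).le.trans h0)
    have h3 : ‖T‖ * ‖P u‖ ≤ ‖T‖ * ‖u‖ := mul_le_mul_of_nonneg_left h0 (norm_nonneg _)
    have h4 : κ * ‖P ((D.τ ^ K) (P u))‖ ≤ κ * ‖u‖ := mul_le_mul_of_nonneg_left h2 hκ0.le
    have h5 : ‖zc‖ * ‖P u‖ ≤ 1 * ‖u‖ := mul_le_mul (by linarith) h0 (norm_nonneg _) (by norm_num)
    linarith
  · intro z hz
    obtain ⟨f, hf, hz⟩ := Finset.mem_biUnion.1 hz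
    obtain ⟨hz1, hz2⟩ := hZf f hf z hz
    show ψ (P (aeval D.τ G2 (P (ex z)))) = 0
    rw [P_ex hp hz1, aeval_ex hp h hh.le G2 hz1, hz2, zero_smul, map_zero]
  · intro f hf
    obtain ⟨e, he, hn⟩ := hef f hf
    refine ⟨e, T3.expSpan_mono (p := p) ?_ he, hn⟩
    intro z hz
    exact Finset.mem_coe.2 (Finset.mem_biUnion.2 ⟨f, hf, Finset.mem_coe.1 hz⟩)
  · intro u hu
    have huAB : u ∈ A ∪ B := Finset.mem_union_right _ hu
    show ‖ψ (P (aeval D.τ G2 (P u))) - ψ (T u)‖ ≤ ε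
    rw [hB u hu, ← map_sub]
    refine (ψ.le_opNorm _).trans (le_trans ?_ hη2)
    refine mul_le_mul_of_nonneg_left ?_ (norm_nonneg _)
    rw [hG2a, hB u hu]
    have e1 : P (aeval D.τ G0 u) + (κ : ℂ) • P ((D.τ ^ K) u) - zc • u - T u =
        (P (aeval D.τ G0 u) - T u) + (κ : ℂ) • P ((D.τ ^ K) u) - zc • u := by abel
    rw [e1]
    refine (norm_sub_le _ _).trans ?_
    refine (add_le_add (norm_add_le _ _) le_rfl).trans ?_
    rw [norm_smul, norm_smul, Complex.norm_real, Real.norm_eq_abs, abs_of_pos hκ0]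
    have h1 := happ' u huAB
    have h2 := hK u huAB
    have h3 := hδf u huAB
    have h4 : ‖zc‖ * ‖u‖ ≤ δ * ‖u‖ := mul_le_mul_of_nonneg_right hzc.le (norm_nonneg _)
    linarith

end Pool.Agent.V7H86.HD
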