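import Mathlib
import Pool.Agent.V7H86.HD.Defs
import Pool.Agent.V7H86.HD.A1
import Pool.Agent.V7H86.HD.A6
import Pool.Agent.V7H86.HD.Par
import Pool.Agent.V7H86.HD.T3
import Pool.Agent.V7H86.HD.T4
import Pool.Agent.V7H86.HD.T5
import Pool.Agent.V7H86.HD.T8
import Pool.Agent.V7H86.HD.T9
import Pool.Agent.V7H86.HD.T12
import Pool.Agent.V7H86.HD.X3a
import Pool.Agent.V7H86.HD.X4

/-!
# Theorem C: functionals which vanish on an invariant subspace, `1 < p < 2`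
-/

set_option autoImplicit false

open MeasureTheory Set Filter Polynomial
open scoped ENNReal Topology

namespace Pool.Agent.V7H86.HD

namespace T13

/-- `thmB` with the exponents as variables -/
theorem thmB' (Q : Par) (r s : ℝ) (hr : Q.p = r) (hs : Q.q = s)
    {F G : Type} [NormedAddCommGroup F] [NormedSpace ℂ F] [CompleteSpace F]
    [NormedAddCommGroup G] [NormedSpace ℂ G] [CompleteSpace G] {A : SS F r} (hA : A.Tails)
    {B : SS G s} (hB : B.Tails) (c : G) {ι : Type} [Finite ι] (G0 : ℂ[X]) (x : ι → F)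
    (l : List (ℂ[X] × (ι → F))) (η : ℝ) (hη : 0 ≤ η)
    (hres : ∀ i, ‖A.P (aeval A.τ G0 (x i) - (l.map fun ab => aeval A.τ ab.1 (ab.2 i)).sum)‖ ≤ η)
    (κ : ℝ) (hκ : 0 < κ) (ε : ℝ) (hε : 0 < ε) (K0 : ℕ) :
    ∃ G1 : ℂ[X], X ^ K0 ∣ G1 - G0 ∧
      ‖aeval B.τ (G1 - G0) c‖ ^ s ≤ (l.map fun ab => ‖aeval B.τ ab.1 c‖ ^ s).sum +
        (κ * ‖c‖) ^ s + ε ∧
      ∃ δ > 0, ∀ z : ℂ, ‖z‖ < δ → ∀ i, ∃ y, A.P y = y ∧ A.P (aeval A.τ (G1 - C z) y) = 0 ∧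
        ‖y - A.P (x i)‖ ≤ ((l.map fun ab => ‖ab.2 i‖ ^ r).sum + ε) ^ (1 / r) + η / κ + ε := by
  subst hr
  subst hs
  exact thmB Q hA hB c G0 x l η hη hres κ hκ ε hε K0

variable {p : ℝ≥0∞} [Fact (1 ≤ p)]

theorem tail_ev (hp : p ≠ ∞) (h : ℝ) (hh : 0 < h) (u : E p) (d : ℝ) (hd : 0 < d) :
    ∀ᶠ M : ℕ in atTop, ‖ind (Ioi ((M : ℝ) * h)) measurableSet_Ioi u‖ ≤ d := by
  have h2 : Tendsto (fun n : ℕ => ‖ind (Ioi (n * h)) measurableSet_Ioi u‖) atTop (𝓝 0) := by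
    refine tendsto_ind hp (fun n : ℕ => Ioi (n * h)) (fun n => measurableSet_Ioi) ?_ ?_ u
    · intro m n hmn
      refine Ioi_subset_Ioi ?_
      have : (m : ℝ) ≤ n := by exact_mod_cast hmn
      nlinarith
    · refine eq_empty_of_forall_notMem fun t ht => ?_
      obtain ⟨n, hn⟩ := exists_nat_gt (t / h)
      have h1 := mem_iInter.1 ht n
      rw [mem_Ioi] at h1
      rw [div_lt_iff₀ hh] at hn
      linarith
  exact (h2.eventually (gt_mem_nhds hd)).mono fun _ h => le_of_lt h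

theorem modulus_ev (hp : p ≠ ∞) (u : E p) (d : ℝ) (hd : 0 < d) :
    ∀ᶠ h : ℝ in 𝓝[>] 0, ∀ v : ℝ, |v| ≤ 2 * h → ‖tr v u - u‖ ≤ d := by
  have h1 := (continuous_tr hp u).tendsto 0
  rw [tr_zero, Metric.tendsto_nhds_nhds] at h1
  obtain ⟨δ, hδ, h2⟩ := h1 d hd
  filter_upwards [Ioo_mem_nhdsGT (half_pos hδ)] with h hh v hv
  have h3 : dist v 0 < δ := by
    rw [Real.dist_eq, sub_zero]
    linarith [hh.2]
  have h4 := h2 h3
  rw [dist_eq_norm] at h4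
  exact h4.le

theorem norm_Pn_eq (hp : p ≠ ∞) (h : ℝ) (hh : 0 < h) (M : ℕ) (u : E p) :
    ‖(ssE hp h hh.le).Pn M u‖ = ‖ind (Ioi ((M : ℝ) * h)) measurableSet_Ioi u‖ := by
  rw [SS.norm_Pn, ssE_τ_pow]
  exact norm_ind_tr (Ioi 0) (Ioi (M * h)) measurableSet_Ioi measurableSet_Ioi (M * h)
    (fun t => by simp) u

end T13

open T13

variable {p : ℝ≥0∞} [Fact (1 ≤ p)]

theorem thmC (hp : p ≠ ∞) (hp1 : 1 < p.toReal) (hp2 : p.toReal < 2)
    (M : Submodule ℂ (E p)) (_hMc : IsClosed (M : Set (E p))) (hMP : ∀ f ∈ M, P f = f)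
    (hMS : ∀ f ∈ M, ∀ v, 0 ≤ v → S v f ∈ M) (g : E p →L[ℂ] ℂ) (hg : ∀ f ∈ M, g f = 0) :
    ∃ C : ℝ, ∀ A B : Finset (E p), (∀ f ∈ A, f ∈ M) → (∀ u ∈ B, P u = u) → ∀ ε > 0,
      ∃ (Z : Finset ℂ) (γ : E p →L[ℂ] ℂ), (∀ z ∈ Z, 0 < z.re) ∧ ‖γ‖ ≤ C ∧ (∀ z ∈ Z, γ (ex z) = 0) ∧
        (∀ f ∈ A, ∃ e ∈ expSpan (p := p) (Z : Set ℂ), ‖f - e‖ ≤ ε) ∧ ∀ u ∈ B, ‖γ u - g u‖ ≤ ε := by
  classical
  -- the dual exponent
  obtain ⟨q, hq, hq1, hpq⟩ : ∃ q : ℝ≥0∞, q ≠ ∞ ∧ 1 ≤ q ∧ 1 / p.toReal + 1 / q.toReal = 1 := by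
    have h0 : 0 < p.toReal - 1 := by linarith
    have h1 : 0 < p.toReal / (p.toReal - 1) := by positivity
    refine ⟨ENNReal.ofReal (p.toReal / (p.toReal - 1)), ENNReal.ofReal_ne_top, ?_, ?_⟩
    · rw [ENNReal.one_le_ofReal, le_div_iff₀ h0]
      linarith
    · rw [ENNReal.toReal_ofReal h1.le]
      field_simp
      ring
  have hqf : Fact (1 ≤ q) := ⟨hq1⟩
  obtain ⟨Q, hQp, hQq⟩ := exists_par (p := p) (q := q) hp1 hp2 hpq
  have hr := toReal_pos_of (p := p) hp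
  have hs := toReal_pos_of (p := q) hq
  set R : ℝ := (2 * ‖g‖ ^ q.toReal + 2) ^ (1 / q.toReal) with hR
  have hgq : 0 ≤ ‖g‖ ^ q.toReal := Real.rpow_nonneg (norm_nonneg _) _
  have hR0 : 0 ≤ R := Real.rpow_nonneg (by linarith) _
  refine ⟨R + ‖g‖ + 1, fun A B hA hB ε hε => ?_⟩
  set d : ℝ := ε / (3 * ‖g‖ + 10) with hd
  have hgn : 0 ≤ ‖g‖ := norm_nonneg _
  have hd0 : 0 < d := by positivity
  have hdε : d * (3 * ‖g‖ + 10) = ε := by
    rw [hd]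
    field_simp
  have hAB : ∀ f ∈ A ∪ B, P f = f := by
    intro f hf
    rcases Finset.mem_union.1 hf with h | h
    · exact hMP f (hA f h)
    · exact hB f h
  -- the size of the cells
  have hev : ∀ᶠ h : ℝ in 𝓝[>] 0, ∀ f ∈ A ∪ B, ∀ v : ℝ, |v| ≤ 2 * h → ‖tr v f - f‖ ≤ d :=
    (Finset.eventually_all (A ∪ B)).2 fun f _ => modulus_ev hp f d hd0
  obtain ⟨h, hmod, hh⟩ := (hev.and self_mem_nhdsWithin).exists
  have hh : 0 < h := hh
  set D := ssE (p := p) hp h hh.le with hD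
  set D' := ssE (p := q) hq h hh.le with hD'
  set c : E q := one h with hc
  have hcell : D'.Cell c := cell_one (p := q) hq h hh
  have hc0 : 0 < ‖c‖ := norm_pos_iff.2 (X3.one_ne_zero' (p := q) hq h hh)
  have hcq : ‖c‖ ^ q.toReal = h := norm_one_rpow (p := q) hq h hh
  have hop : ‖(one h : E p)‖ ^ p.toReal = h := norm_one_rpow (p := p) hp h hh
  have hop0 : 0 < ‖(one h : E p)‖ := norm_pos_iff.2 (X3.one_ne_zero' (p := p) hp h hh)
  have hprod : ‖(one h : E p)‖ * ‖c‖ = h := by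
    have h1 : ‖(one h : E p)‖ = h ^ (1 / p.toReal) := by
      conv_rhs => rw [← hop]
      rw [← Real.rpow_mul (norm_nonneg _), mul_one_div_cancel hr.ne', Real.rpow_one]
    have h2 : ‖c‖ = h ^ (1 / q.toReal) := by
      conv_rhs => rw [← hcq]
      rw [← Real.rpow_mul (norm_nonneg _), mul_one_div_cancel hs.ne', Real.rpow_one]
    rw [h2, h1, ← Real.rpow_add hh, hpq, Real.rpow_one]
  obtain ⟨φ, hφ1, hφ2, hφ3⟩ := X3.exists_avgFun (p := p) hp h hh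
  have hφP : ∀ f, φ (P f) = φ f := X1.φ_P D (X3.one_ne_zero' (p := p) hp h hh) φ hφ2
  set φ₀ : E p →L[ℂ] ℂ := (h : ℂ) • φ with hφ₀
  have hφ₀a : ∀ f, φ₀ f = h * φ f := fun f => rfl
  have hφ₀b : ∀ f, ‖φ₀ f‖ ≤ ‖c‖ * ‖D.P f - D.Pn 1 f‖ := by
    intro f
    have h1 := hφ2 f
    rw [hφ₀a, norm_mul, Complex.norm_real, Real.norm_eq_abs, abs_of_pos hh]
    calc h * ‖φ f‖ = (‖(one h : E p)‖ * ‖c‖) * ‖φ f‖ := by rw [hprod]
      _ = ‖c‖ * (‖φ f‖ * ‖(one h : E p)‖) := by ring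
      _ ≤ ‖c‖ * ‖D.P f - D.Pn 1 f‖ := mul_le_mul_of_nonneg_left h1 hc0.le
  have hpair : ∀ (a : ℂ[X]) (K : ℕ), X ^ K ∣ a → ∀ f, ‖φ₀ (aeval D.τ a f)‖ ≤
      ‖aeval D'.τ a c‖ * ‖D.Pn K f‖ := fun a K hK f =>
    pairing hr hs hpq D D' hcell φ₀ hφ₀b a K hK f
  -- the number of cells
  obtain ⟨N, hN⟩ : ∃ N : ℕ, ∀ f ∈ A ∪ B, ‖ind (Ioi ((N : ℝ) * h)) measurableSet_Ioi f‖ ≤ d :=
    ((Finset.eventually_all (A ∪ B)).2 fun f _ => tail_ev hp h hh f d hd0).exists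
  -- the discretisation
  set G0 : ℂ[X] := Gam g h N with hG0
  have hG0n : ‖aeval D'.τ G0 c‖ ≤ ‖g‖ := by
    have h1 := norm_aeval_one (q := q) hq h hh G0 (N + 1) (natDegree_Gam g h N)
    have h2 : ∑ j ∈ Finset.range (N + 1), ‖G0.coeff j‖ ^ q.toReal =
        ∑ j ∈ Finset.range N, ‖G0.coeff j‖ ^ q.toReal := by
      rw [Finset.sum_range_succ, hG0, Gam_coeff, if_neg (lt_irrefl N), norm_zero,
        Real.zero_rpow hs.ne', add_zero]
    rw [h2] at h1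
    have h3 := gam_norm (p := p) (q := q) hp hpq hp1 g h hh N
    have h4 : ‖aeval D'.τ G0 c‖ ^ q.toReal ≤ ‖g‖ ^ q.toReal := h1.le.trans h3
    exact (Real.rpow_le_rpow_iff (norm_nonneg _) hgn hs).1 h4
  set ι := {f // f ∈ A} with hι
  set x : ι → E p := fun i => i.1 with hx
  have hxM : ∀ i, x i ∈ M := fun i => hA i.1 i.2
  have hxAB : ∀ i, x i ∈ A ∪ B := fun i => Finset.mem_union_left _ i.2
  set η : ℝ := d / ‖c‖ with hη
  have hη0 : 0 < η := by positivity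
  obtain ⟨l, hl1, hl2, hl3⟩ := discretize (p := p) (q := q) hp hq hpq hp1 g h hh N x
    (fun i => hMP _ (hxM i)) (fun i v hv => hg _ (hMS _ (hxM i) v hv)) (fun _ => d)
    (fun i v hv => hmod (x i) (hxAB i) v hv) η hη0
  -- far away
  obtain ⟨K0, hK0⟩ : ∃ K0 : ℕ, ∀ u ∈ A ∪ B, R * ‖D.Pn K0 u‖ ≤ d := by
    have h1 : ∀ u ∈ A ∪ B, ∀ᶠ K : ℕ in atTop, R * ‖D.Pn K u‖ ≤ d := by
      intro u _
      have h2 := tail_ev hp h hh u (d / (R + 1)) (by positivity)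
      filter_upwards [h2] with K hK
      rw [norm_Pn_eq hp h hh]
      have h3 : R * ‖ind (Ioi ((K : ℝ) * h)) measurableSet_Ioi u‖ ≤ R * (d / (R + 1)) :=
        mul_le_mul_of_nonneg_left hK hR0
      have h4 : R * (d / (R + 1)) ≤ d := by
        rw [← mul_div_assoc, div_le_iff₀ (by linarith)]
        nlinarith
      linarith
    exact ((Finset.eventually_all (A ∪ B)).2 h1).exists
  have hdp : 0 < d ^ p.toReal := Real.rpow_pos_of_pos hd0 _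
  set ε' : ℝ := min 1 (min d (d ^ p.toReal)) with hε'
  have hε'0 : 0 < ε' := lt_min one_pos (lt_min hd0 hdp)
  have hε'1 : ε' ≤ 1 := min_le_left _ _
  have hε'd : ε' ≤ d := (min_le_right _ _).trans (min_le_left _ _)
  have hε'p : ε' ≤ d ^ p.toReal := (min_le_right _ _).trans (min_le_right _ _)
  obtain ⟨G1, hG1d, hG1n, δ, hδ, hG1k⟩ := thmB' Q p.toReal q.toReal hQp hQq (A := D) (B := D')
    (ssE_tails (p := p) hp h hh) (ssE_tails (p := q) hq h hh) c G0 x l η hη0.le hl1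
    (1 / ‖c‖) (by positivity) ε' hε'0 K0
  have hG1R : ‖aeval D'.τ (G1 - G0) c‖ ≤ R := by
    have h1 : (1 / ‖c‖ * ‖c‖) ^ q.toReal = 1 := by
      rw [one_div_mul_cancel hc0.ne', Real.one_rpow]
    rw [h1] at hG1n
    have h2 : ‖aeval D'.τ (G1 - G0) c‖ ^ q.toReal ≤ 2 * ‖g‖ ^ q.toReal + 2 := by
      linarith [hl2]
    have h3 := Real.rpow_le_rpow (Real.rpow_nonneg (norm_nonneg _) _) h2
      (by positivity : (0 : ℝ) ≤ 1 / q.toReal)
    rwa [← Real.rpow_mul (norm_nonneg _), mul_one_div_cancel hs.ne', Real.rpow_one] at h3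
  -- the small constant
  set δ' : ℝ := min δ (min (1 / (‖c‖ + 1)) (d / (‖c‖ * (1 + ∑ f ∈ A ∪ B, ‖f‖)))) with hδ'
  have hsum0 : 0 ≤ ∑ f ∈ A ∪ B, ‖f‖ := Finset.sum_nonneg fun _ _ => norm_nonneg _
  have hδ'0 : 0 < δ' := by
    refine lt_min hδ (lt_min (by positivity) (div_pos hd0 (mul_pos hc0 (by linarith))))
  obtain ⟨zc, hzc, hsep, hcoef⟩ := exists_sep G1 δ' hδ'0
  have hzδ : ‖zc‖ < δ := hzc.trans_le (min_le_left _ _)
  have hzc1 : ‖zc‖ * ‖c‖ ≤ 1 := by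
    have h1 : ‖zc‖ ≤ 1 / (‖c‖ + 1) := hzc.le.trans ((min_le_right _ _).trans (min_le_left _ _))
    rw [le_div_iff₀ (by linarith)] at h1
    nlinarith [norm_nonneg zc]
  have hzcf : ∀ f ∈ A ∪ B, ‖zc‖ * ‖c‖ * ‖f‖ ≤ d := by
    intro f hf
    have h1 : ‖f‖ ≤ 1 + ∑ f ∈ A ∪ B, ‖f‖ := by
      have := Finset.single_le_sum (f := fun f : E p => ‖f‖) (fun _ _ => norm_nonneg _) hf
      linarith
    have h2 : ‖zc‖ ≤ d / (‖c‖ * (1 + ∑ f ∈ A ∪ B, ‖f‖)) :=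
      hzc.le.trans ((min_le_right _ _).trans (min_le_right _ _))
    have h3 : 0 < ‖c‖ * (1 + ∑ f ∈ A ∪ B, ‖f‖) := mul_pos hc0 (by linarith)
    rw [le_div_iff₀ h3] at h2
    calc ‖zc‖ * ‖c‖ * ‖f‖ ≤ ‖zc‖ * ‖c‖ * (1 + ∑ f ∈ A ∪ B, ‖f‖) :=
          mul_le_mul_of_nonneg_left h1 (by positivity)
      _ = ‖zc‖ * (‖c‖ * (1 + ∑ f ∈ A ∪ B, ‖f‖)) := by ring
      _ ≤ d := h2
  set G2 : ℂ[X] := G1 - C zc with hG2
  have hG2n : ‖aeval D'.τ G2 c‖ ≤ R + ‖g‖ + 1 := by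
    have e1 : aeval D'.τ G2 c = aeval D'.τ (G1 - G0) c + aeval D'.τ G0 c - zc • c := by
      rw [hG2, map_sub, map_sub, aeval_C, _root_.sub_apply, _root_.sub_apply,
        Algebra.algebraMap_eq_smul_one, ContinuousLinearMap.smul_apply, X4.one_ap]
      abel
    rw [e1]
    refine (norm_sub_le _ _).trans ?_
    refine add_le_add ((norm_add_le _ _).trans (add_le_add hG1R hG0n)) ?_
    rw [norm_smul]
    exact hzc1
  -- kernel elements
  have hker : ∀ f ∈ A, ∃ Zf : Finset ℂ, (∀ z ∈ Zf, 0 < z.re ∧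
      G2.eval (Complex.exp (-(z * h))) = 0) ∧
      ∃ e ∈ expSpan (p := p) (Zf : Set ℂ), ‖f - e‖ ≤ ε := by
    intro f hf
    obtain ⟨y, hPy, hGy, hyn⟩ := hG1k zc hzδ ⟨f, hf⟩
    have hPf : P f = f := hMP f (hA f hf)
    have hGy' : aeval (S (p := p) h) G2 y = 0 := by
      rw [X4.aeval_S hp h hh.le G2 y hPy]
      exact hGy
    obtain ⟨Zf, hZf, e, he, hen⟩ := ker_exp hp h hh G2 hsep hcoef y hPy hGy' d hd0
    refine ⟨Zf, hZf, e, he, ?_⟩
    have h1 : ‖y - f‖ ≤ 5 * d := by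
      have h2 : D.P (x ⟨f, hf⟩) = f := hPf
      rw [h2] at hyn
      refine hyn.trans ?_
      have h3 : (l.map fun ab => ‖ab.2 (⟨f, hf⟩ : ι)‖ ^ p.toReal).sum + ε' ≤ 3 * d ^ p.toReal := by
        have h4 := hl3 ⟨f, hf⟩
        have h5 : ‖(ssE hp h hh.le).Pn N (x ⟨f, hf⟩)‖ ^ p.toReal ≤ d ^ p.toReal := by
          refine Real.rpow_le_rpow (norm_nonneg _) ?_ hr.le
          rw [norm_Pn_eq hp h hh]
          exact hN f (Finset.mem_union_left _ hf)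
        linarith
      have h4 : (0 : ℝ) ≤ (l.map fun ab => ‖ab.2 (⟨f, hf⟩ : ι)‖ ^ p.toReal).sum + ε' := by
        refine add_nonneg (List.sum_nonneg fun t ht => ?_) hε'0.le
        obtain ⟨ab, _, rfl⟩ := List.mem_map.1 ht
        exact Real.rpow_nonneg (norm_nonneg _) _
      have h5 : ((l.map fun ab => ‖ab.2 (⟨f, hf⟩ : ι)‖ ^ p.toReal).sum + ε') ^ (1 / p.toReal) ≤
          3 * d := by
        have h6 : 3 * d ^ p.toReal ≤ (3 * d) ^ p.toReal := by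
          rw [Real.mul_rpow (by norm_num) hd0.le]
          refine mul_le_mul_of_nonneg_right ?_ hdp.le
          have h7 : (3 : ℝ) ^ (1 : ℝ) ≤ 3 ^ p.toReal :=
            Real.rpow_le_rpow_of_exponent_le (by norm_num) hp1.le
          rwa [Real.rpow_one] at h7
        have h7 := Real.rpow_le_rpow h4 (h3.trans h6) (by positivity : (0 : ℝ) ≤ 1 / p.toReal)
        rwa [← Real.rpow_mul (by positivity), mul_one_div_cancel hr.ne', Real.rpow_one] at h7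
      have h6 : η / (1 / ‖c‖) = d := by
        rw [hη]
        field_simp
      rw [h6]
      linarith
    have h2 : ‖f - y‖ ≤ 5 * d := by
      rw [norm_sub_rev]
      exact h1
    calc ‖f - e‖ = ‖(f - y) + (y - e)‖ := by rw [sub_add_sub_cancel]
      _ ≤ ‖f - y‖ + ‖y - e‖ := norm_add_le _ _
      _ ≤ ε := by nlinarith
  choose! Zf hZf hef using hker
  refine ⟨A.biUnion Zf, (φ₀.comp (aeval D.τ G2)).comp P, ?_, ?_, ?_, ?_, ?_⟩
  · intro z hz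
    obtain ⟨f, hf, hz⟩ := Finset.mem_biUnion.1 hz
    exact (hZf f hf z hz).1
  · refine ContinuousLinearMap.opNorm_le_bound _ (by positivity) fun u => ?_
    show ‖φ₀ (aeval D.τ G2 (P u))‖ ≤ _
    have h1 := hpair G2 0 (by simp) (P u)
    have h2 : ‖D.Pn 0 (P u)‖ ≤ ‖u‖ := by
      rw [SS.norm_Pn, pow_zero, X4.one_ap]
      show ‖P (P u)‖ ≤ ‖u‖
      rw [P_P]
      exact norm_P_le u
    exact h1.trans (mul_le_mul hG2n h2 (norm_nonneg _) (by positivity))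
  · intro z hz
    obtain ⟨f, hf, hz⟩ := Finset.mem_biUnion.1 hz
    obtain ⟨hz1, hz2⟩ := hZf f hf z hz
    show φ₀ (aeval D.τ G2 (P (ex z))) = 0
    rw [P_ex hp hz1, hφ₀a, ← hφP, X4.aeval_ex hp h hh.le G2 hz1, hz2, zero_smul, map_zero, mul_zero]
  · intro f hf
    obtain ⟨e, he, hn⟩ := hef f hf
    refine ⟨e, T3.expSpan_mono (p := p) ?_ he, hn⟩
    intro z hz
    exact Finset.mem_coe.2 (Finset.mem_biUnion.2 ⟨f, hf, Finset.mem_coe.1 hz⟩)
  · intro u hu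
    have huAB : u ∈ A ∪ B := Finset.mem_union_right _ hu
    have hPu := hB u hu
    show ‖φ₀ (aeval D.τ G2 (P u)) - g u‖ ≤ ε
    rw [hPu]
    have e1 : φ₀ (aeval D.τ G2 u) - g u = φ₀ (aeval D.τ (G1 - G0) u) +
        (φ₀ (aeval D.τ G0 u) - g u) - zc * φ₀ u := by
      have e0 : aeval D.τ G2 u = aeval D.τ (G1 - G0) u + aeval D.τ G0 u - zc • u := by
        rw [hG2, map_sub, map_sub, aeval_C, _root_.sub_apply, _root_.sub_apply,
          Algebra.algebraMap_eq_smul_one, ContinuousLinearMap.smul_apply, X4.one_ap]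
        abel
      rw [e0, map_sub φ₀, map_add φ₀, map_smul φ₀, smul_eq_mul]
      ring
    have h1 : ‖φ₀ (aeval D.τ (G1 - G0) u)‖ ≤ d := by
      refine (hpair (G1 - G0) K0 hG1d u).trans (le_trans ?_ (hK0 u huAB))
      exact mul_le_mul_of_nonneg_right hG1R (norm_nonneg _)
    have h2 : ‖φ₀ (aeval D.τ G0 u) - g u‖ ≤ ‖g‖ * (3 * d) := by
      have e2 : φ₀ (aeval D.τ G0 u) = g (∑ i ∈ Finset.range N, φ ((D.τ ^ i) u) •
          (D.σ ^ i) (one h)) := by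
        have e3 : ∀ (a : ℂ) (j : ℕ), aeval D.τ (C a * X ^ j) u = a • (D.τ ^ j) u := by
          intro a j
          rw [map_mul, map_pow, aeval_X, aeval_C, mul_apply_eq_comp,
            Algebra.algebraMap_eq_smul_one, ContinuousLinearMap.smul_apply, X4.one_ap]
        rw [hG0, Gam, map_sum, sum_apply, map_sum, map_sum]
        refine Finset.sum_congr rfl fun j _ => ?_
        rw [e3, map_smul φ₀, map_smul g, hφ₀a, ssE_σ_pow, smul_eq_mul, smul_eq_mul]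
        have : (h : ℂ) ≠ 0 := by exact_mod_cast hh.ne'
        push_cast
        field_simp
      rw [e2, ← map_sub, ← norm_neg, ← map_neg, neg_sub]
      refine (g.le_opNorm _).trans (mul_le_mul_of_nonneg_left ?_ hgn)
      exact X3.step_near hp h hh φ hφ1 N u hPu d
        (fun v hv => hmod u huAB v (by linarith [abs_nonneg v])) (hN u huAB)
    have h3 : ‖zc * φ₀ u‖ ≤ d := by
      rw [norm_mul]
      have h4 : ‖φ₀ u‖ ≤ ‖c‖ * ‖u‖ := by
        have h5 := hpair 1 0 (by simp) u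
        rw [map_one, map_one, X4.one_ap, X4.one_ap] at h5
        refine h5.trans (mul_le_mul_of_nonneg_left ?_ hc0.le)
        rw [SS.norm_Pn, pow_zero, X4.one_ap]
        exact norm_P_le u
      calc ‖zc‖ * ‖φ₀ u‖ ≤ ‖zc‖ * (‖c‖ * ‖u‖) := mul_le_mul_of_nonneg_left h4 (norm_nonneg _)
        _ = ‖zc‖ * ‖c‖ * ‖u‖ := by ring
        _ ≤ d := hzcf u huAB
    rw [e1]
    refine (norm_sub_le _ _).trans ?_
    refine (add_le_add (norm_add_le _ _) le_rfl).trans ?_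
    nlinarith

end Pool.Agent.V7H86.HD
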