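import Mathlib
import Pool.Agent.V7H86.HD.Defs
import Pool.Agent.V7H86.HD.T4

/-!
X0a (helper27): the limit criterion for a sequence of functionals which determines `M`.
-/

set_option autoImplicit false

open MeasureTheory Set Filter
open scoped ENNReal Topology

namespace Pool.Agent.V7H86.HD

variable {p : ℝ≥0∞} [Fact (1 ≤ p)]

theorem seqFam (hp : p ≠ ∞) (M : Submodule ℂ (E p)) (hMP : ∀ f ∈ M, P f = f)
    (g : ℕ → E p →L[ℂ] ℂ) (hg : ∀ f, P f = f → (∀ k, g k f = 0) → f ∈ M)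
    (hC : ∀ k, ∃ C : ℝ, ∀ A B : Finset (E p), (∀ f ∈ A, f ∈ M) → (∀ u ∈ B, P u = u) → ∀ ε > 0,
        ∃ (Z : Finset ℂ) (γ : E p →L[ℂ] ℂ), (∀ z ∈ Z, 0 < z.re) ∧ ‖γ‖ ≤ C ∧
          (∀ z ∈ Z, γ (ex z) = 0) ∧
          (∀ f ∈ A, ∃ e ∈ expSpan (p := p) (Z : Set ℂ), ‖f - e‖ ≤ ε) ∧
          ∀ u ∈ B, ‖γ u - g k u‖ ≤ ε) :
    ∃ Z : ℕ → Finset ℂ, (∀ n, ∀ z ∈ Z n, 0 < z.re) ∧ ∀ f : E p, P f = f →
      (f ∈ M ↔ Tendsto (fun n => Metric.infDist f
        ((expSpan (p := p) (Z n : Set ℂ) : Submodule ℂ (E p)) : Set (E p))) atTop (𝓝 0)) := by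
  classical
  have : Fact (p ≠ ∞) := ⟨hp⟩
  have hsc : SecondCountableTopology (E p) := inferInstance
  -- dense sequences
  have hne1 : Nonempty {f : E p // P f = f} := ⟨⟨0, map_zero _⟩⟩
  have hne2 : Nonempty {f : E p // f ∈ M} := ⟨⟨0, M.zero_mem⟩⟩
  set u : ℕ → E p := fun k => (TopologicalSpace.denseSeq {f : E p // P f = f} k : E p) with hu
  set e : ℕ → E p := fun k => (TopologicalSpace.denseSeq {f : E p // f ∈ M} k : E p) with he
  have huP : ∀ k, P (u k) = u k := fun k =>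
    (TopologicalSpace.denseSeq {f : E p // P f = f} k).2
  have heM : ∀ k, e k ∈ M := fun k => (TopologicalSpace.denseSeq {f : E p // f ∈ M} k).2
  have hud : ∀ f : E p, P f = f → ∀ δ > 0, ∃ k, ‖f - u k‖ < δ := by
    intro f hf δ hδ
    obtain ⟨k, hk⟩ := (TopologicalSpace.denseRange_denseSeq {f : E p // P f = f}).exists_dist_lt
      ⟨f, hf⟩ hδ
    refine ⟨k, ?_⟩
    rw [← dist_eq_norm]
    exact hk
  have hed : ∀ f ∈ M, ∀ δ > 0, ∃ k, ‖f - e k‖ < δ := by
    intro f hf δ hδ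
    obtain ⟨k, hk⟩ := (TopologicalSpace.denseRange_denseSeq {f : E p // f ∈ M}).exists_dist_lt
      ⟨f, hf⟩ hδ
    refine ⟨k, ?_⟩
    rw [← dist_eq_norm]
    exact hk
  -- functionals
  choose C hCk using hC
  have hstep : ∀ m : ℕ, ∃ (Z : Finset ℂ) (γ : E p →L[ℂ] ℂ), (∀ z ∈ Z, 0 < z.re) ∧
      ‖γ‖ ≤ C (Nat.unpair m).1 ∧ (∀ z ∈ Z, γ (ex z) = 0) ∧
      (∀ j ≤ m, ∃ y ∈ expSpan (p := p) (Z : Set ℂ), ‖e j - y‖ ≤ 1 / ((m : ℝ) + 1)) ∧
      ∀ j ≤ m, ‖γ (u j) - g (Nat.unpair m).1 (u j)‖ ≤ 1 / ((m : ℝ) + 1) := by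
    intro m
    obtain ⟨Z, γ, h1, h2, h3, h4, h5⟩ := hCk (Nat.unpair m).1
      ((Finset.range (m + 1)).image e) ((Finset.range (m + 1)).image u)
      (by
        intro f hf
        obtain ⟨j, _, rfl⟩ := Finset.mem_image.1 hf
        exact heM j)
      (by
        intro f hf
        obtain ⟨j, _, rfl⟩ := Finset.mem_image.1 hf
        exact huP j)
      (1 / ((m : ℝ) + 1)) (by positivity)
    refine ⟨Z, γ, h1, h2, h3, fun j hj => h4 _ ?_, fun j hj => h5 _ ?_⟩
    · exact Finset.mem_image_of_mem _ (Finset.mem_range.2 (by omega))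
    · exact Finset.mem_image_of_mem _ (Finset.mem_range.2 (by omega))
  choose Z γ hZ hγ hγ0 hA hB using hstep
  refine ⟨Z, hZ, fun f hf => ⟨fun hfM => ?_, fun hlim => ?_⟩⟩
  · rw [Metric.tendsto_atTop]
    intro δ hδ
    obtain ⟨j, hj⟩ := hed f hfM (δ / 2) (half_pos hδ)
    obtain ⟨N, hN⟩ := exists_nat_gt (2 / δ)
    refine ⟨max j N, fun m hm => ?_⟩
    obtain ⟨y, hy, hyn⟩ := hA m j ((le_max_left _ _).trans hm)
    have hmN : (N : ℝ) ≤ m := by exact_mod_cast (le_max_right _ _).trans hm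
    have h1 : 1 / ((m : ℝ) + 1) < δ / 2 := by
      rw [div_lt_iff₀ (by positivity)]
      have h2 : 2 / δ < (m : ℝ) + 1 := by linarith
      rw [div_lt_iff₀ hδ] at h2
      linarith
    have h3 : Metric.infDist f ((expSpan (p := p) (Z m : Set ℂ) : Submodule ℂ (E p)) :
        Set (E p)) ≤ dist f y := Metric.infDist_le_dist_of_mem hy
    rw [Real.dist_eq, sub_zero, abs_of_nonneg Metric.infDist_nonneg]
    refine h3.trans_lt ?_
    rw [dist_eq_norm]
    calc ‖f - y‖ = ‖(f - e j) + (e j - y)‖ := by rw [sub_add_sub_cancel]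
      _ ≤ ‖f - e j‖ + ‖e j - y‖ := norm_add_le _ _
      _ < δ / 2 + δ / 2 := by linarith
      _ = δ := add_halves δ
  · by_contra hfM
    obtain ⟨k, hk⟩ : ∃ k, g k f ≠ 0 := by
      by_contra h
      push Not at h
      exact hfM (hg f hf h)
    set d := ‖g k f‖ with hdd
    have hd : 0 < d := norm_pos_iff.2 hk
    set K : ℝ := max (C k) 0 + 1 + ‖g k‖ with hK
    have hK1 : 1 ≤ K := by
      have := le_max_right (C k) 0
      have := norm_nonneg (g k)
      linarith
    have hCK : C k ≤ K := by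
      have := le_max_left (C k) 0
      have := norm_nonneg (g k)
      linarith
    have hgK : ‖g k‖ ≤ K := by
      have := le_max_right (C k) 0
      linarith
    obtain ⟨j, hj⟩ := hud f hf (d / (12 * (K + K))) (by positivity)
    have hj' : (K + K) * ‖f - u j‖ < d / 12 := by
      rw [lt_div_iff₀ (by positivity)] at hj
      linarith
    have hev := hlim.eventually (gt_mem_nhds (by positivity : (0 : ℝ) < d / (6 * K)))
    obtain ⟨N, hN⟩ := eventually_atTop.1 hev
    obtain ⟨N', hN'⟩ := exists_nat_gt (12 / d)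
    set n := max N (max j N') with hn
    set m := Nat.pair k n with hm
    have hnm : n ≤ m := Nat.right_le_pair k n
    have hmk : (Nat.unpair m).1 = k := by rw [hm, Nat.unpair_pair]
    have hm1 : N ≤ m := (le_max_left _ _).trans hnm
    have hm2 : j ≤ m := ((le_max_left _ _).trans (le_max_right _ _)).trans hnm
    have hm3 : (N' : ℝ) ≤ m := by
      exact_mod_cast ((le_max_right _ _).trans (le_max_right _ _)).trans hnm
    have h1 := hN m hm1
    have hB1 := hB m j hm2
    have hγ1 := hγ m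
    rw [hmk] at hB1 hγ1
    have hsmall : 1 / ((m : ℝ) + 1) < d / 12 := by
      rw [div_lt_iff₀ (by positivity)]
      have h2 : 12 / d < (m : ℝ) + 1 := by linarith
      rw [div_lt_iff₀ hd] at h2
      linarith
    have hγf : d / 6 < ‖γ m f‖ := by
      have e1 : g k f = γ m f - (γ m (u j) - g k (u j)) - (γ m (f - u j) - g k (f - u j)) := by
        rw [map_sub, map_sub]
        ring
      have h3 : ‖g k f‖ ≤ ‖γ m f‖ + ‖γ m (u j) - g k (u j)‖ + (K + K) * ‖f - u j‖ := by
        rw [e1]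
        refine (norm_sub_le _ _).trans (add_le_add (norm_sub_le _ _) ?_)
        refine (norm_sub_le _ _).trans ?_
        rw [add_mul]
        refine add_le_add ?_ ?_
        · exact ((γ m).le_opNorm _).trans
            (mul_le_mul_of_nonneg_right (hγ1.trans hCK) (norm_nonneg _))
        · exact ((g k).le_opNorm _).trans (mul_le_mul_of_nonneg_right hgK (norm_nonneg _))
      linarith
    -- the functional bounds the distance
    have hzero : ∀ y ∈ expSpan (p := p) (Z m : Set ℂ), γ m y = 0 := by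
      intro y hy
      have hle : expSpan (p := p) (Z m : Set ℂ) ≤ LinearMap.ker (γ m).toLinearMap := by
        refine Submodule.span_le.2 ?_
        rintro _ ⟨z, hz, rfl⟩
        exact hγ0 m z hz
      exact hle hy
    have hne3 : ((expSpan (p := p) (Z m : Set ℂ) : Submodule ℂ (E p)) : Set (E p)).Nonempty :=
      ⟨0, Submodule.zero_mem _⟩
    have h4 : d / (6 * K) ≤ Metric.infDist f
        ((expSpan (p := p) (Z m : Set ℂ) : Submodule ℂ (E p)) : Set (E p)) := by
      refine (Metric.le_infDist hne3).2 fun y hy => ?_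
      have h5 : ‖γ m f‖ ≤ K * dist f y := by
        have e2 : γ m f = γ m (f - y) := by rw [map_sub, hzero y hy, sub_zero]
        rw [e2, dist_eq_norm]
        exact ((γ m).le_opNorm _).trans
          (mul_le_mul_of_nonneg_right (hγ1.trans hCK) (norm_nonneg _))
      rw [div_le_iff₀ (by positivity)]
      linarith
    exact absurd h1 (not_lt.2 h4)

end Pool.Agent.V7H86.HD
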