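import Mathlib
import Pool.Agent.V7H86.HD.Defs

/-!
# A countable family of functionals
-/

set_option autoImplicit false

open MeasureTheory Set Filter
open scoped ENNReal Topology

namespace Pool.Agent.V7H86.HD

variable {p : ℝ≥0∞} [Fact (1 ≤ p)]

theorem countable_fam (hp : p ≠ ∞) (W : Set (E p →L[ℂ] E p)) :
    ∃ (T : ℕ → E p →L[ℂ] E p) (ψ : ℕ → E p →L[ℂ] ℂ), (∀ k, T k ∈ W ∨ T k = 0) ∧
      ∀ f, (∀ k, ψ k (T k f) = 0) → ∀ T' ∈ W, T' f = 0 := by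
  classical
  have : Fact (p ≠ ∞) := ⟨hp⟩
  have hsc : SecondCountableTopology (E p) := inferInstance
  set ι := {x : (E p →L[ℂ] E p) × (E p →L[ℂ] ℂ) // x.1 ∈ W} with hι
  obtain ⟨s, hs, hsU⟩ := TopologicalSpace.isOpen_iUnion_countable
    (fun x : ι => {f : E p | x.1.2 (x.1.1 f) ≠ 0}) (fun x =>
      isOpen_ne_fun (x.1.2.continuous.comp x.1.1.continuous) continuous_const)
  -- enumerate
  obtain ⟨F, hF⟩ : ∃ F : ℕ → (E p →L[ℂ] E p) × (E p →L[ℂ] ℂ),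
      (∀ k, (F k).1 ∈ W ∨ (F k).1 = 0) ∧ ∀ x ∈ s, ∃ k, F k = x.1 := by
    rcases s.eq_empty_or_nonempty with h | h
    · refine ⟨fun _ => (0, 0), fun _ => Or.inr rfl, fun x hx => ?_⟩
      rw [h] at hx
      exact absurd hx (Set.notMem_empty x)
    · obtain ⟨e, he⟩ := hs.exists_eq_range h
      refine ⟨fun k => (e k).1, fun k => Or.inl (e k).2, fun x hx => ?_⟩
      rw [he] at hx
      obtain ⟨k, rfl⟩ := hx
      exact ⟨k, rfl⟩
  refine ⟨fun k => (F k).1, fun k => (F k).2, hF.1, fun f hf T' hT' => ?_⟩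
  by_contra hne
  obtain ⟨ψ, _, hψ⟩ := exists_dual_vector ℂ (T' f) (norm_ne_zero_iff.2 hne)
  have h1 : f ∈ ⋃ x : ι, {f : E p | x.1.2 (x.1.1 f) ≠ 0} := by
    refine Set.mem_iUnion.2 ⟨⟨(T', ψ), hT'⟩, ?_⟩
    show ψ (T' f) ≠ 0
    rw [hψ]
    simpa using hne
  rw [← hsU] at h1
  obtain ⟨x, hx, hxf⟩ := Set.mem_iUnion₂.1 h1
  obtain ⟨k, hk⟩ := hF.2 x hx
  have h2 : (F k).2 ((F k).1 f) = 0 := hf k
  rw [hk] at h2
  exact hxf h2

end Pool.Agent.V7H86.HD
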