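import Mathlib
import Pool.Agent.V7H86.HD.Defs
import Pool.Agent.V7H86.HD.T1
import Pool.Agent.V7H86.HD.T2

/-!
X0c (helper27): transfer of an operator commuting with the Hardy operator to the half-line.
-/

set_option autoImplicit false

open MeasureTheory Set Filter
open scoped ENNReal Topology

namespace Pool.Agent.V7H86.HD

variable {p : ℝ≥0∞} [Fact (1 ≤ p)]

theorem exists_conj (hp1 : 1 < p) (hp : p ≠ ∞)
    (U : Lp ℂ p (volume.restrict (Ioo (0 : ℝ) 1)) →ₗᵢ[ℂ] E p)
    (hU1 : ∀ f : E p, (∃ g, U g = f) ↔ P f = f)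
    (hU3 : ∀ f g : Lp ℂ p (volume.restrict (Ioo (0 : ℝ) 1)), (IsHardy f g ↔
        U g = ∫ v in Ioi (0 : ℝ), ((Real.exp (-((1 - 1 / p.toReal) * v)) : ℝ) : ℂ) • S v (U f)))
    (V : Lp ℂ p (volume.restrict (Ioo (0 : ℝ) 1)) →L[ℂ] Lp ℂ p (volume.restrict (Ioo (0 : ℝ) 1)))
    (hV : ∀ f g, IsHardy f g → IsHardy (V f) (V g)) :
    ∃ T : E p →L[ℂ] E p, (∀ f, T (P f) = T f) ∧ (∀ f, P (T f) = T f) ∧
      (∀ f v, 0 ≤ v → T (S v f) = S v (T f)) ∧ ∀ f, T (U f) = U (V f) := by
  classical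
  have hpr : 1 < p.toReal := by
    rw [← ENNReal.toReal_one]
    exact (ENNReal.toReal_lt_toReal ENNReal.one_ne_top hp).2 hp1
  have hl : 0 < 1 - 1 / p.toReal := by
    have : 1 / p.toReal < 1 := by
      rw [div_lt_one (by linarith)]
      exact hpr
    linarith
  have hmem : ∀ f : E p, P f ∈ LinearMap.range U.toLinearMap := by
    intro f
    obtain ⟨x, hx⟩ := (hU1 (P f)).2 (P_P f)
    exact ⟨x, hx⟩
  let e := U.equivRange
  let Pc : E p →L[ℂ] LinearMap.range U.toLinearMap := (P (p := p)).codRestrict _ hmem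
  let T : E p →L[ℂ] E p := U.toContinuousLinearMap ∘L V ∘L
    (e.symm.toContinuousLinearEquiv.toContinuousLinearMap) ∘L Pc
  have hT : ∀ f x, P f = U x → T f = U (V x) := by
    intro f x hfx
    show U (V (e.symm (Pc f))) = U (V x)
    have h1 : Pc f = e x := Subtype.ext hfx
    rw [h1, e.symm_apply_apply]
  have hPU : ∀ x, P (U x) = U x := fun x => (hU1 _).1 ⟨x, rfl⟩
  -- the graph
  let M : Submodule ℂ (E p × E p) :=
    { carrier := {z | P z.1 = z.1 ∧ z.2 = T z.1}
      add_mem' := by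
        rintro a b ⟨h1, h2⟩ ⟨h3, h4⟩
        refine ⟨?_, ?_⟩
        · show P (a.1 + b.1) = a.1 + b.1
          rw [map_add, h1, h3]
        · show a.2 + b.2 = T (a.1 + b.1)
          rw [map_add, h2, h4]
      zero_mem' := by
        refine ⟨?_, ?_⟩
        · show P (0 : E p) = 0
          rw [map_zero]
        · show (0 : E p) = T 0
          rw [map_zero]
      smul_mem' := by
        rintro c a ⟨h1, h2⟩
        refine ⟨?_, ?_⟩
        · show P (c • a.1) = c • a.1
          rw [map_smul, h1]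
        · show c • a.2 = T (c • a.1)
          rw [map_smul, h2] }
  have hMc : IsClosed (M : Set (E p × E p)) := by
    have h1 : IsClosed {z : E p × E p | P z.1 = z.1} :=
      isClosed_eq (P.continuous.comp continuous_fst) continuous_fst
    have h2 : IsClosed {z : E p × E p | z.2 = T z.1} :=
      isClosed_eq continuous_snd (T.continuous.comp continuous_fst)
    exact h1.inter h2
  have hinv := semigroup_invariant (F := E p × E p) (fun v => (S (p := p) v).prodMap (S v))
    (fun v w hv _ f => Prod.ext (S_S v w hv f.1) (S_S v w hv f.2))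
    (fun v f => by
      rw [Prod.norm_def, Prod.norm_def]
      exact max_le_max (norm_S_le v f.1) (norm_S_le v f.2))
    (fun f => (continuous_S hp f.1).prodMk (continuous_S hp f.2)) M hMc (1 - 1 / p.toReal) hl
    (by
      rintro ⟨a, b⟩ ⟨h1, h2⟩
      simp only at h1 h2
      obtain ⟨x, rfl⟩ := (hU1 a).2 h1
      have h3 : b = U (V x) := by rw [h2, hT _ x h1]
      have hP : P (∫ v in Ioi (0 : ℝ), ((Real.exp (-((1 - 1 / p.toReal) * v)) : ℝ) : ℂ) •
          S v (U x)) = ∫ v in Ioi (0 : ℝ),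
            ((Real.exp (-((1 - 1 / p.toReal) * v)) : ℝ) : ℂ) • S v (U x) := by
        rw [← ContinuousLinearMap.integral_comp_comm _ (T1.integrableOn_S hp1 hp (U x))]
        refine setIntegral_congr_fun measurableSet_Ioi fun v _ => ?_
        simp only [map_smul, P_S]
      obtain ⟨g, hg⟩ := (hU1 _).2 hP
      have h4 : IsHardy x g := (hU3 x g).2 hg
      have h5 := (hU3 (V x) (V g)).1 (hV x g h4)
      have h6 : (∫ v in Ioi (0 : ℝ), ((Real.exp (-((1 - 1 / p.toReal) * v)) : ℝ) : ℂ) •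
          ((S (p := p) v).prodMap (S v)) (U x, b)) = (U g, U (V g)) := by
        rw [hg, h5, h3, ← integral_pair (T1.integrableOn_S hp1 hp (U x))
          (T1.integrableOn_S hp1 hp (U (V x)))]
        rfl
      have h7 : ((U g, U (V g)) : E p × E p) ∈ M := ⟨hPU g, (hT _ g (hPU g)).symm⟩
      rw [← h6] at h7
      exact h7)
  refine ⟨T, fun f => ?_, fun f => ?_, fun f v hv => ?_, fun f => ?_⟩
  · obtain ⟨x, hx⟩ := (hU1 (P f)).2 (P_P f)
    rw [hT f x hx.symm, hT (P f) x (by rw [P_P, hx])]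
  · obtain ⟨x, hx⟩ := (hU1 (P f)).2 (P_P f)
    rw [hT f x hx.symm, hPU]
  · obtain ⟨x, hx⟩ := (hU1 (P f)).2 (P_P f)
    have h1 : ((U x, U (V x)) : E p × E p) ∈ M := ⟨hPU x, (hT _ x (hPU x)).symm⟩
    have h2 := hinv _ h1 v hv
    have h3 : S v (U (V x)) = T (S v (U x)) := h2.2
    rw [hT f x hx.symm, h3, hx, S_P v hv]
  · rw [hT (U f) f (hPU f)]

end Pool.Agent.V7H86.HD
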