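import Mathlib
import Pool.Agent.V7H86.HD.Defs
import Pool.Agent.V7H86.HD.T4

/-!
X0d (helper27): limits of exponential spaces give monomial spaces.
-/

set_option autoImplicit false

open MeasureTheory Set Filter Polynomial
open scoped ENNReal Topology

namespace Pool.Agent.V7H86.HD

variable {p : ℝ≥0∞} [Fact (1 ≤ p)]

theorem mono_of_exp (hp : p ≠ ∞)
    (U : Lp ℂ p (volume.restrict (Ioo (0 : ℝ) 1)) →ₗᵢ[ℂ] E p)
    (hU1 : ∀ f : E p, (∃ g, U g = f) ↔ P f = f)
    (hU2 : ∀ (s : ℂ) (g : Lp ℂ p (volume.restrict (Ioo (0 : ℝ) 1))), -(1 / p.toReal) < s.re →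
        (IsMono s g ↔ U g = ex (s + (1 / p.toReal : ℝ))))
    (M : Submodule ℂ (Lp ℂ p (volume.restrict (Ioo (0 : ℝ) 1))))
    (Z : ℕ → Finset ℂ) (hZ : ∀ n, ∀ z ∈ Z n, 0 < z.re)
    (hlim : ∀ f, f ∈ M ↔ Tendsto (fun n => Metric.infDist (U f)
        ((expSpan (p := p) (Z n : Set ℂ) : Submodule ℂ (E p)) : Set (E p))) atTop (𝓝 0)) :
    IsMonomialSpace M := by
  classical
  have hiso : Isometry U := U.isometry
  -- the monomial spaces
  set c : ℂ := ((1 / p.toReal : ℝ) : ℂ) with hc
  refine ⟨fun n => (Z n).image fun z => z - c, ?_, ?_⟩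
  · intro n z hz
    obtain ⟨w, hw, rfl⟩ := Finset.mem_image.1 hz
    have h1 := hZ n w hw
    rw [Complex.sub_re, hc, Complex.ofReal_re]
    linarith
  intro f
  have hspan : ∀ n, U '' ((monoSpan (p := p) (((Z n).image fun z => z - c : Finset ℂ) : Set ℂ) :
      Submodule ℂ _) : Set _) = ((expSpan (p := p) (Z n : Set ℂ) : Submodule ℂ (E p)) :
        Set (E p)) := by
    intro n
    have h1 : U '' ((monoSpan (p := p) (((Z n).image fun z => z - c : Finset ℂ) : Set ℂ) :
      Submodule ℂ _) : Set _) = ((Submodule.map U.toLinearMap (monoSpan (p := p)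
        (((Z n).image fun z => z - c : Finset ℂ) : Set ℂ))) : Set (E p)) := by
      rw [Submodule.map_coe]
      rfl
    rw [h1]
    congr 1
    unfold monoSpan expSpan
    rw [Submodule.map_span]
    congr 1
    ext y
    constructor
    · rintro ⟨g, ⟨z, hz, hg⟩, rfl⟩
      obtain ⟨w, hw, rfl⟩ := Finset.mem_image.1 (Finset.mem_coe.1 hz)
      refine ⟨w, Finset.mem_coe.2 hw, ?_⟩
      have hre : -(1 / p.toReal) < (w - c).re := by
        have h1 := hZ n w hw
        rw [Complex.sub_re, hc, Complex.ofReal_re]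
        linarith
      have h2 := (hU2 (w - c) g hre).1 hg
      rw [sub_add_cancel] at h2
      exact h2.symm
    · rintro ⟨w, hw, rfl⟩
      have hw' := hZ n w (Finset.mem_coe.1 hw)
      obtain ⟨g, hg⟩ := (hU1 _).2 (P_ex hp hw')
      have hre : -(1 / p.toReal) < (w - c).re := by
        rw [Complex.sub_re, hc, Complex.ofReal_re]
        linarith
      refine ⟨g, ⟨w - c, Finset.mem_coe.2 (Finset.mem_image_of_mem _ (Finset.mem_coe.1 hw)),
        (hU2 (w - c) g hre).2 ?_⟩, hg⟩
      rw [sub_add_cancel]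
      exact hg
  rw [hlim f]
  have heq : (fun n => Metric.infDist (U f)
      ((expSpan (p := p) (Z n : Set ℂ) : Submodule ℂ (E p)) : Set (E p))) =
      fun n => Metric.infDist f ((monoSpan (p := p)
        (((Z n).image fun z => z - c : Finset ℂ) : Set ℂ) : Submodule ℂ _) : Set _) := by
    funext n
    rw [← hspan n, Metric.infDist_image hiso]
  rw [heq]

end Pool.Agent.V7H86.HD
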