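import Mathlib
import Pool.Agent.V7H86.HD.Defs
import Pool.Agent.V7H86.HD.T4
import Pool.Agent.V7H86.HD.X0a
import Pool.Agent.V7H86.HD.X0b
import Pool.Agent.V7H86.HD.X0c
import Pool.Agent.V7H86.HD.X0d
import Pool.Agent.V7H86.HD.X4

/-!
# The common kernel of operators which commute with the Hardy operator is a monomial space
-/

set_option autoImplicit false

open MeasureTheory Set Filter
open scoped ENNReal Topology

namespace Pool.Agent.V7H86.HD

variable {p : ℝ≥0∞} [Fact (1 ≤ p)]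

/-- the common kernel of operators which commute with the Hardy operator is a monomial space -/
theorem mainX (hp1 : 1 < p) (hp : p ≠ ∞)
    (W : Set (Lp ℂ p (volume.restrict (Ioo (0 : ℝ) 1)) →L[ℂ]
      Lp ℂ p (volume.restrict (Ioo (0 : ℝ) 1))))
    (hW : ∀ V ∈ W, ∀ f g, IsHardy f g → IsHardy (V f) (V g))
    (M : Submodule ℂ (Lp ℂ p (volume.restrict (Ioo (0 : ℝ) 1))))
    (hM : ∀ f, f ∈ M ↔ ∀ V ∈ W, V f = 0) : IsMonomialSpace M := by
  classical
  obtain ⟨U, hU1, hU2, hU3⟩ := exists_U (p := p) hp1 hp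
  set W' : Set (E p →L[ℂ] E p) := {T | (∀ f, T (P f) = T f) ∧ (∀ f, P (T f) = T f) ∧
    (∀ f v, 0 ≤ v → T (S v f) = S v (T f)) ∧ ∃ V ∈ W, ∀ f, T (U f) = U (V f)} with hW'
  obtain ⟨T, ψ, hT, hTψ⟩ := countable_fam hp W'
  set M' : Submodule ℂ (E p) := M.map U.toLinearMap with hM'
  have hM'P : ∀ f ∈ M', P f = f := by
    intro f hf
    obtain ⟨x, _, rfl⟩ := Submodule.mem_map.1 hf
    exact (hU1 _).1 ⟨x, rfl⟩
  have hmem : ∀ f, U f ∈ M' ↔ f ∈ M := by
    intro f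
    constructor
    · intro h
      obtain ⟨x, hx, hxf⟩ := Submodule.mem_map.1 h
      have : x = f := U.injective hxf
      rwa [← this]
    · intro h
      exact Submodule.mem_map.2 ⟨f, h, rfl⟩
  obtain ⟨Z, hZ, hlim⟩ := seqFam hp M' hM'P (fun k => (ψ k).comp (T k)) (by
    intro f hPf hf
    have h1 := hTψ f hf
    obtain ⟨x, rfl⟩ := (hU1 f).2 hPf
    rw [hmem, hM]
    intro V hV
    obtain ⟨T', h2, h3, h4, h5⟩ := exists_conj hp1 hp U hU1 hU3 V (hW V hV)
    have h6 := h1 T' ⟨h2, h3, h4, V, hV, h5⟩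
    rw [h5] at h6
    exact U.injective (by rw [h6, map_zero])) (by
    intro k
    have h1 : (∀ f, T k (P f) = T k f) ∧ (∀ f, P (T k f) = T k f) ∧
        (∀ f v, 0 ≤ v → T k (S v f) = S v (T k f)) := by
      rcases hT k with h | h
      · exact ⟨h.1, h.2.1, h.2.2.1⟩
      · rw [h]
        exact ⟨fun f => rfl, fun f => map_zero _, fun f v _ => (map_zero (S v)).symm⟩
    have h2 : ∀ f ∈ M', T k f = 0 := by
      intro f hf
      rcases hT k with h | h
      · obtain ⟨V, hV, h3⟩ := h.2.2.2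
        obtain ⟨x, hx, rfl⟩ := Submodule.mem_map.1 hf
        have h4 := (hM x).1 hx V hV
        show T k (U x) = 0
        rw [h3, h4, map_zero]
      · rw [h]
        rfl
    obtain ⟨C, hC⟩ := thmX hp (T k) h1.1 h1.2.1 h1.2.2 (ψ k)
    exact ⟨C, fun A B hA hB ε hε => hC A B (fun f hf => ⟨hM'P f (hA f hf), h2 f (hA f hf)⟩)
      hB ε hε⟩)
  refine mono_of_exp hp U hU1 hU2 M Z hZ fun f => ?_
  rw [← hmem]
  exact hlim (U f) ((hU1 _).1 ⟨f, rfl⟩)

/-- the Hardy operator is defined everywhere on `L^p` -/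
theorem hardy_exists (hp1 : 1 < p) (hp : p ≠ ∞)
    (f : Lp ℂ p (volume.restrict (Ioo (0 : ℝ) 1))) : ∃ g, IsHardy f g := by
  obtain ⟨U, hU1, _, hU3⟩ := exists_U (p := p) hp1 hp
  have hP : P (∫ v in Ioi (0 : ℝ), ((Real.exp (-((1 - 1 / p.toReal) * v)) : ℝ) : ℂ) •
      S v (U f)) = ∫ v in Ioi (0 : ℝ),
        ((Real.exp (-((1 - 1 / p.toReal) * v)) : ℝ) : ℂ) • S v (U f) := by
    rw [← ContinuousLinearMap.integral_comp_comm _ (T1.integrableOn_S hp1 hp (U f))]
    refine setIntegral_congr_fun measurableSet_Ioi fun v _ => ?_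
    simp only [map_smul, P_S]
  obtain ⟨g, hg⟩ := (hU1 _).2 hP
  exact ⟨g, (hU3 f g).2 hg⟩

end Pool.Agent.V7H86.HD
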